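import Pool.Agent.P.MP_d05bff_gt.Iface

/-!
Basic facts on tilted measures on polytopes.
-/

namespace Pool.Agent.P.MP_d05bff_gt

open MeasureTheory Matrix Set Filter Topology

variable {ι : Type} [Fintype ι] [DecidableEq ι] {K : Set (ι → ℝ)}

omit [DecidableEq ι] in
theorem IsBody.isClosed (hK : IsBody K) : IsClosed K := by
  obtain ⟨⟨s, rfl⟩, -, -⟩ := hK
  have : {x : ι → ℝ | ∀ p ∈ s, p.1 ⬝ᵥ x ≤ p.2} = ⋂ p ∈ s, {x | p.1 ⬝ᵥ x ≤ p.2} := by
    ext x; simp
  rw [this]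
  exact isClosed_biInter fun p _ => isClosed_le (by fun_prop) continuous_const

omit [DecidableEq ι] in
theorem IsBody.isCompact (hK : IsBody K) : IsCompact K :=
  Metric.isCompact_of_isClosed_isBounded hK.isClosed hK.2.1

omit [DecidableEq ι] in
theorem IsBody.measurableSet (hK : IsBody K) : MeasurableSet K := hK.isClosed.measurableSet

omit [DecidableEq ι] in
theorem IsBody.volume_lt_top (hK : IsBody K) : volume K < ⊤ := hK.isCompact.measure_lt_top

omit [DecidableEq ι] in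
theorem IsBody.convex (hK : IsBody K) : Convex ℝ K := by
  obtain ⟨⟨s, rfl⟩, -, -⟩ := hK
  intro x hx y hy a b ha hb hab p hp
  have h1 := hx p hp
  have h2 := hy p hp
  rw [dotProduct_add, dotProduct_smul, dotProduct_smul, smul_eq_mul, smul_eq_mul]
  calc a * (p.1 ⬝ᵥ x) + b * (p.1 ⬝ᵥ y) ≤ a * p.2 + b * p.2 := by gcongr
    _ = p.2 := by rw [← add_mul, hab, one_mul]

omit [DecidableEq ι] in
theorem IsBody.exists_bound (hK : IsBody K) : ∃ R : ℝ, 0 < R ∧ ∀ x ∈ K, ‖x‖ ≤ R := by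
  obtain ⟨R, hR, h⟩ := hK.2.1.exists_pos_norm_le
  exact ⟨R, hR, h⟩

omit [DecidableEq ι] in
theorem IsBody.exists_bound_of_continuous (hK : IsBody K) {f : (ι → ℝ) → ℝ} (hf : Continuous f) :
    ∃ B : ℝ, 0 ≤ B ∧ ∀ x ∈ K, |f x| ≤ B := by
  obtain ⟨B, hB⟩ := hK.isCompact.exists_bound_of_continuousOn hf.continuousOn
  exact ⟨max B 0, le_max_right _ _, fun x hx => (hB x hx).trans (le_max_left _ _)⟩

omit [DecidableEq ι] in
theorem IsBody.integrableOn (hK : IsBody K) {f : (ι → ℝ) → ℝ} (hf : Continuous f) :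
    IntegrableOn f K := hf.continuousOn.integrableOn_compact hK.isCompact

omit [DecidableEq ι] in
theorem wt_pos (t : ℝ) (θ x : ι → ℝ) : 0 < wt t θ x := Real.exp_pos _

omit [DecidableEq ι] in
@[fun_prop]
theorem continuous_wt {X : Type*} [TopologicalSpace X] {t : X → ℝ} {θ x : X → ι → ℝ}
    (ht : Continuous t) (hθ : Continuous θ) (hx : Continuous x) :
    Continuous fun p => wt (t p) (θ p) (x p) := by
  unfold wt; fun_prop

omit [DecidableEq ι] in
theorem IsBody.integrableOn_mul_wt (hK : IsBody K) {f : (ι → ℝ) → ℝ} (hf : Continuous f) (t : ℝ)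
    (θ : ι → ℝ) : IntegrableOn (fun x => f x * wt t θ x) K := hK.integrableOn (by fun_prop)

omit [DecidableEq ι] in
theorem IsBody.Zf_pos (hK : IsBody K) (t : ℝ) (θ : ι → ℝ) : 0 < Zf K t θ := by
  unfold Zf
  rw [setIntegral_pos_iff_support_of_nonneg_ae (ae_of_all _ fun x => (wt_pos t θ x).le)
    (hK.integrableOn (by fun_prop))]
  have : Function.support (wt t θ) = univ := by
    ext x; simp [(wt_pos t θ x).ne']
  rw [this, univ_inter]
  exact pos_iff_ne_zero.2 hK.2.2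

omit [DecidableEq ι] in
theorem Zf_zero : Zf K 0 0 = (volume K).toReal := by
  simp [Zf, wt, Measure.real]

/-- Unnormalised tilted integral. -/
noncomputable def Nf (K : Set (ι → ℝ)) (f : (ι → ℝ) → ℝ) (p : ℝ × (ι → ℝ)) : ℝ :=
  ∫ x in K, f x * wt p.1 p.2 x

omit [DecidableEq ι] in
theorem Zf_eq_Nf (t : ℝ) (θ : ι → ℝ) : Zf K t θ = Nf K (fun _ => 1) (t, θ) := by
  simp [Zf, Nf]

omit [DecidableEq ι] in
theorem Ex_eq_Nf (t : ℝ) (θ : ι → ℝ) (f : (ι → ℝ) → ℝ) :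
    Ex K t θ f = Nf K f (t, θ) / Nf K (fun _ => 1) (t, θ) := by
  simp [Ex, Zf, Nf]

omit [DecidableEq ι] in
theorem IsBody.continuous_Nf (hK : IsBody K) {f : (ι → ℝ) → ℝ} (hf : Continuous f) :
    Continuous (Nf K f) :=
  continuous_parametric_integral_of_continuous
    (f := fun (p : ℝ × (ι → ℝ)) x => f x * wt p.1 p.2 x) (by unfold Function.uncurry; fun_prop)
    hK.isCompact

/-- The linear functional `(τ, v) ↦ v ⬝ x - τ / 2 * x ⬝ x`. -/
noncomputable def expo (x : ι → ℝ) : (ℝ × (ι → ℝ)) →L[ℝ] ℝ :=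
  (∑ i, x i • ((ContinuousLinearMap.proj i).comp (ContinuousLinearMap.snd ℝ ℝ (ι → ℝ)))) -
    ((x ⬝ᵥ x) / 2) • ContinuousLinearMap.fst ℝ ℝ (ι → ℝ)

omit [DecidableEq ι] in
theorem expo_apply (x : ι → ℝ) (q : ℝ × (ι → ℝ)) :
    expo x q = q.2 ⬝ᵥ x - q.1 / 2 * (x ⬝ᵥ x) := by
  simp only [expo, dotProduct, _root_.sub_apply, _root_.sum_apply,
    _root_.smul_apply, ContinuousLinearMap.comp_apply,
    ContinuousLinearMap.coe_snd', ContinuousLinearMap.proj_apply, ContinuousLinearMap.coe_fst',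
    smul_eq_mul]
  congr 1
  · exact Finset.sum_congr rfl fun i _ => mul_comm _ _
  · ring

omit [DecidableEq ι] in
theorem continuous_expo : Continuous (expo : (ι → ℝ) → _) := by
  unfold expo; fun_prop

omit [DecidableEq ι] in
theorem wt_eq_expo (p : ℝ × (ι → ℝ)) (x : ι → ℝ) : wt p.1 p.2 x = Real.exp (expo x p) := by
  rw [expo_apply]; rfl

omit [DecidableEq ι] in
theorem IsBody.hasFDerivAt_Nf (hK : IsBody K) {f : (ι → ℝ) → ℝ} (hf : Continuous f)
    (p : ℝ × (ι → ℝ)) : ∃ L : (ℝ × (ι → ℝ)) →L[ℝ] ℝ, HasFDerivAt (Nf K f) L p ∧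
      ∀ q, L q = Nf K (fun x => f x * (q.2 ⬝ᵥ x - q.1 / 2 * (x ⬝ᵥ x))) p := by
  set F' : (ℝ × (ι → ℝ)) → (ι → ℝ) → (ℝ × (ι → ℝ)) →L[ℝ] ℝ :=
    fun q x => (f x * wt q.1 q.2 x) • expo x with hF'
  have hc : Continuous (fun z : (ℝ × (ι → ℝ)) × (ι → ℝ) => F' z.1 z.2) := by
    have := (continuous_expo (ι := ι)).comp
      (continuous_snd : Continuous fun z : (ℝ × (ι → ℝ)) × (ι → ℝ) => z.2)
    have h2 : Continuous fun z : (ℝ × (ι → ℝ)) × (ι → ℝ) => f z.2 * wt z.1.1 z.1.2 z.2 := by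
      fun_prop
    exact h2.smul this
  obtain ⟨B, hB⟩ := ((isCompact_closedBall p 1).prod hK.isCompact).exists_bound_of_continuousOn
    hc.continuousOn
  have hfin : IsFiniteMeasure (volume.restrict K) :=
    isFiniteMeasure_restrict.2 hK.volume_lt_top.ne
  have hint : Integrable (F' p) (volume.restrict K) :=
    (hc.comp (Continuous.prodMk_right p)).continuousOn.integrableOn_compact hK.isCompact
  refine ⟨∫ x in K, F' p x, ?_, fun q => ?_⟩
  · refine hasFDerivAt_integral_of_dominated_of_fderiv_le (bound := fun _ => B)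
      (F := fun (q : ℝ × (ι → ℝ)) x => f x * wt q.1 q.2 x)
      (Metric.closedBall_mem_nhds p one_pos)
      (Eventually.of_forall fun q => (hK.integrableOn_mul_wt hf _ _).aestronglyMeasurable)
      (hK.integrableOn_mul_wt hf _ _) hint.aestronglyMeasurable ?_ (integrable_const _) ?_
    · filter_upwards [ae_restrict_mem hK.measurableSet] with x hx q hq
      exact hB (q, x) ⟨hq, hx⟩
    · refine ae_of_all _ fun x q _ => ?_
      simp only [wt_eq_expo, hF']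
      have h := ((expo x).hasFDerivAt (x := q)).exp.const_mul (f x)
      rwa [smul_smul] at h
  · rw [ContinuousLinearMap.integral_apply hint]
    refine integral_congr_ae (ae_of_all _ fun x => ?_)
    simp only [hF', _root_.smul_apply, expo_apply, smul_eq_mul]
    ring

omit [DecidableEq ι] in
theorem IsBody.differentiable_Nf (hK : IsBody K) {f : (ι → ℝ) → ℝ} (hf : Continuous f) :
    Differentiable ℝ (Nf K f) := fun p => (hK.hasFDerivAt_Nf hf p).choose_spec.1.differentiableAt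

omit [DecidableEq ι] in
theorem IsBody.fderiv_Nf (hK : IsBody K) {f : (ι → ℝ) → ℝ} (hf : Continuous f)
    (p q : ℝ × (ι → ℝ)) : fderiv ℝ (Nf K f) p q =
      Nf K (fun x => f x * (q.2 ⬝ᵥ x - q.1 / 2 * (x ⬝ᵥ x))) p := by
  obtain ⟨L, h1, h2⟩ := hK.hasFDerivAt_Nf hf p
  rw [h1.fderiv, h2]

omit [DecidableEq ι] in
theorem IsBody.contDiff_Nf_nat (hK : IsBody K) (n : ℕ) :
    ∀ {f : (ι → ℝ) → ℝ}, Continuous f → ContDiff ℝ n (Nf K f) := by
  induction n with
  | zero => intro f hf; simpa using hK.continuous_Nf hf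
  | succ n ih =>
    intro f hf
    rw [Nat.cast_succ, contDiff_succ_iff_fderiv_apply]
    refine ⟨hK.differentiable_Nf hf, by simp, fun q => ?_⟩
    have : (fun p => fderiv ℝ (Nf K f) p q) =
        Nf K (fun x => f x * (q.2 ⬝ᵥ x - q.1 / 2 * (x ⬝ᵥ x))) := funext fun p => hK.fderiv_Nf hf p q
    rw [this]
    exact ih (by fun_prop)

omit [DecidableEq ι] in
theorem IsBody.contDiff_Nf (hK : IsBody K) {f : (ι → ℝ) → ℝ} (hf : Continuous f) :
    ContDiff ℝ (⊤ : ℕ∞) (Nf K f) :=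
  contDiff_infty.2 fun n => hK.contDiff_Nf_nat n hf

omit [DecidableEq ι] in
theorem IsBody.contDiff_Zf (hK : IsBody K) :
    ContDiff ℝ (⊤ : ℕ∞) (fun p : ℝ × (ι → ℝ) => Zf K p.1 p.2) := by
  simp only [Zf_eq_Nf]
  exact hK.contDiff_Nf continuous_const

omit [DecidableEq ι] in
theorem IsBody.contDiff_Ex (hK : IsBody K) {f : (ι → ℝ) → ℝ} (hf : Continuous f) :
    ContDiff ℝ (⊤ : ℕ∞) (fun p : ℝ × (ι → ℝ) => Ex K p.1 p.2 f) := by
  simp only [Ex_eq_Nf]
  refine (hK.contDiff_Nf hf).div (hK.contDiff_Nf continuous_const) fun p => ?_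
  have := hK.Zf_pos p.1 p.2
  rw [Zf_eq_Nf] at this
  exact this.ne'

omit [DecidableEq ι] in
theorem IsBody.continuous_Zf (hK : IsBody K) :
    Continuous (fun p : ℝ × (ι → ℝ) => Zf K p.1 p.2) := hK.contDiff_Zf.continuous

omit [DecidableEq ι] in
theorem IsBody.continuous_Ex (hK : IsBody K) {f : (ι → ℝ) → ℝ} (hf : Continuous f) :
    Continuous (fun p : ℝ × (ι → ℝ) => Ex K p.1 p.2 f) := (hK.contDiff_Ex hf).continuous

omit [DecidableEq ι] in
/-- Derivative of the partition function along the line `s ↦ (t + s τ, θ + s v)`. -/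
theorem IsBody.hasDerivAt_Zf (hK : IsBody K) (t τ : ℝ) (θ v : ι → ℝ) (s : ℝ) :
    HasDerivAt (fun s : ℝ => Zf K (t + s * τ) (θ + s • v))
      (Zf K (t + s * τ) (θ + s • v) *
        Ex K (t + s * τ) (θ + s • v) (fun x => v ⬝ᵥ x - τ / 2 * (x ⬝ᵥ x))) s := by
  obtain ⟨L, h1, h2⟩ := hK.hasFDerivAt_Nf (f := fun _ => 1) continuous_const
    (t + s * τ, θ + s • v)
  have hl : HasDerivAt (fun s : ℝ => ((t + s * τ, θ + s • v) : ℝ × (ι → ℝ))) (τ, v) s := by
    refine HasDerivAt.prodMk ?_ ?_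
    · simpa using ((hasDerivAt_id s).mul_const τ).const_add t
    · simpa using ((hasDerivAt_id s).smul_const v).const_add θ
  have h := h1.comp_hasDerivAt s hl
  have hz := (hK.Zf_pos (t + s * τ) (θ + s • v)).ne'
  simp only [Zf_eq_Nf] at hz ⊢
  convert! h using 1
  rw [h2, Ex_eq_Nf]
  simp only [one_mul]
  rw [mul_div_cancel₀ _ hz]

omit [DecidableEq ι] in
/-- Derivative of a tilted expectation along the line `s ↦ (t + s τ, θ + s v)`. -/
theorem IsBody.hasDerivAt_Ex (hK : IsBody K) {f : (ι → ℝ) → ℝ} (hf : Continuous f) (t τ : ℝ)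
    (θ v : ι → ℝ) (s : ℝ) :
    HasDerivAt (fun s : ℝ => Ex K (t + s * τ) (θ + s • v) f)
      (Ex K (t + s * τ) (θ + s • v) (fun x => f x * (v ⬝ᵥ x - τ / 2 * (x ⬝ᵥ x))) -
        Ex K (t + s * τ) (θ + s • v) f *
        Ex K (t + s * τ) (θ + s • v) (fun x => v ⬝ᵥ x - τ / 2 * (x ⬝ᵥ x))) s := by
  obtain ⟨L, h1, h2⟩ := hK.hasFDerivAt_Nf hf (t + s * τ, θ + s • v)
  obtain ⟨L', h1', h2'⟩ := hK.hasFDerivAt_Nf (f := fun _ => 1) continuous_const
    (t + s * τ, θ + s • v)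
  have hl : HasDerivAt (fun s : ℝ => ((t + s * τ, θ + s • v) : ℝ × (ι → ℝ))) (τ, v) s := by
    refine HasDerivAt.prodMk ?_ ?_
    · simpa using ((hasDerivAt_id s).mul_const τ).const_add t
    · simpa using ((hasDerivAt_id s).smul_const v).const_add θ
  have hz := (hK.Zf_pos (t + s * τ) (θ + s • v)).ne'
  simp only [Zf_eq_Nf] at hz
  have ha := h1.comp_hasDerivAt s hl
  have hb := h1'.comp_hasDerivAt s hl
  have h := ha.div hb hz
  simp only [Ex_eq_Nf]
  convert! h using 1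
  rw [h2, h2']
  simp only [Function.comp, one_mul]
  generalize Nf K (fun x => f x * (v ⬝ᵥ x - τ / 2 * x ⬝ᵥ x)) (t + s * τ, θ + s • v) = a
  generalize Nf K (fun x => v ⬝ᵥ x - τ / 2 * x ⬝ᵥ x) (t + s * τ, θ + s • v) = b
  generalize Nf K f (t + s * τ, θ + s • v) = c
  generalize Nf K (fun _ => 1) (t + s * τ, θ + s • v) = z at hz
  field_simp

omit [DecidableEq ι] in
theorem IsBody.Ex_const (hK : IsBody K) (t : ℝ) (θ : ι → ℝ) (c : ℝ) :
    Ex K t θ (fun _ => c) = c := by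
  have hz := (hK.Zf_pos t θ).ne'
  unfold Ex
  rw [integral_const_mul]
  exact mul_div_cancel_right₀ c hz

omit [DecidableEq ι] in
theorem IsBody.Ex_add (hK : IsBody K) (t : ℝ) (θ : ι → ℝ) {f g : (ι → ℝ) → ℝ} (hf : Continuous f)
    (hg : Continuous g) : Ex K t θ (fun x => f x + g x) = Ex K t θ f + Ex K t θ g := by
  unfold Ex
  rw [← add_div, ← integral_add (hK.integrableOn_mul_wt hf t θ) (hK.integrableOn_mul_wt hg t θ)]
  simp only [add_mul]

omit [DecidableEq ι] in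
theorem IsBody.Ex_sub (hK : IsBody K) (t : ℝ) (θ : ι → ℝ) {f g : (ι → ℝ) → ℝ} (hf : Continuous f)
    (hg : Continuous g) : Ex K t θ (fun x => f x - g x) = Ex K t θ f - Ex K t θ g := by
  unfold Ex
  rw [← sub_div, ← integral_sub (hK.integrableOn_mul_wt hf t θ) (hK.integrableOn_mul_wt hg t θ)]
  simp only [sub_mul]

omit [DecidableEq ι] in
theorem Ex_const_mul (t : ℝ) (θ : ι → ℝ) (c : ℝ) (f : (ι → ℝ) → ℝ) :
    Ex K t θ (fun x => c * f x) = c * Ex K t θ f := by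
  unfold Ex
  simp only [mul_assoc]
  rw [integral_const_mul, mul_div_assoc]

omit [DecidableEq ι] in
theorem Ex_mul_const (t : ℝ) (θ : ι → ℝ) (c : ℝ) (f : (ι → ℝ) → ℝ) :
    Ex K t θ (fun x => f x * c) = Ex K t θ f * c := by
  simp only [mul_comm _ c]
  exact Ex_const_mul t θ c f

omit [DecidableEq ι] in
theorem IsBody.Ex_sum (hK : IsBody K) (t : ℝ) (θ : ι → ℝ) {α : Type*} (s : Finset α)
    {f : α → (ι → ℝ) → ℝ} (hf : ∀ a, Continuous (f a)) :
    Ex K t θ (fun x => ∑ a ∈ s, f a x) = ∑ a ∈ s, Ex K t θ (f a) := by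
  unfold Ex
  rw [← Finset.sum_div, ← integral_finsetSum _ fun a _ => hK.integrableOn_mul_wt (hf a) t θ]
  simp only [Finset.sum_mul]

omit [DecidableEq ι] in
theorem IsBody.Ex_mono (hK : IsBody K) (t : ℝ) (θ : ι → ℝ) {f g : (ι → ℝ) → ℝ} (hf : Continuous f)
    (hg : Continuous g) (h : ∀ x ∈ K, f x ≤ g x) : Ex K t θ f ≤ Ex K t θ g := by
  unfold Ex
  refine div_le_div_of_nonneg_right ?_ (hK.Zf_pos t θ).le
  exact setIntegral_mono_on (hK.integrableOn_mul_wt hf t θ) (hK.integrableOn_mul_wt hg t θ)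
    hK.measurableSet fun x hx => mul_le_mul_of_nonneg_right (h x hx) (wt_pos t θ x).le

omit [DecidableEq ι] in
theorem IsBody.Ex_congr (hK : IsBody K) (t : ℝ) (θ : ι → ℝ) {f g : (ι → ℝ) → ℝ}
    (h : ∀ x ∈ K, f x = g x) : Ex K t θ f = Ex K t θ g := by
  unfold Ex
  rw [setIntegral_congr_fun hK.measurableSet fun x hx => by rw [h x hx]]

omit [DecidableEq ι] in
theorem IsBody.Ex_nonneg (hK : IsBody K) (t : ℝ) (θ : ι → ℝ) {f : (ι → ℝ) → ℝ}
    (h : ∀ x ∈ K, 0 ≤ f x) : 0 ≤ Ex K t θ f :=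
  div_nonneg (setIntegral_nonneg hK.measurableSet fun x hx =>
    mul_nonneg (h x hx) (wt_pos t θ x).le) (hK.Zf_pos t θ).le

omit [DecidableEq ι] in
theorem IsBody.abs_Ex_le (hK : IsBody K) (t : ℝ) (θ : ι → ℝ) {f : (ι → ℝ) → ℝ} (hf : Continuous f)
    {B : ℝ} (h : ∀ x ∈ K, |f x| ≤ B) : |Ex K t θ f| ≤ B := by
  rw [abs_le]
  constructor
  · rw [← hK.Ex_const t θ (-B)]
    exact hK.Ex_mono t θ continuous_const hf fun x hx => (abs_le.1 (h x hx)).1
  · conv_rhs => rw [← hK.Ex_const t θ B]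
    exact hK.Ex_mono t θ hf continuous_const fun x hx => (abs_le.1 (h x hx)).2

omit [DecidableEq ι] in
theorem IsBody.exists_bound_Ex (hK : IsBody K) {f : (ι → ℝ) → ℝ} (hf : Continuous f) :
    ∃ B : ℝ, 0 ≤ B ∧ ∀ t θ, |Ex K t θ f| ≤ B := by
  obtain ⟨B, h0, hB⟩ := hK.exists_bound_of_continuous hf
  exact ⟨B, h0, fun t θ => hK.abs_Ex_le t θ hf hB⟩

omit [DecidableEq ι] in
/-- Cauchy-Schwarz inequality. -/
theorem IsBody.Ex_mul_sq_le (hK : IsBody K) (t : ℝ) (θ : ι → ℝ) {f g : (ι → ℝ) → ℝ}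
    (hf : Continuous f) (hg : Continuous g) :
    Ex K t θ (fun x => f x * g x) ^ 2 ≤
      Ex K t θ (fun x => f x ^ 2) * Ex K t θ (fun x => g x ^ 2) := by
  have key : ∀ r : ℝ, 0 ≤ Ex K t θ (fun x => f x ^ 2) * (r * r) +
      2 * Ex K t θ (fun x => f x * g x) * r + Ex K t θ (fun x => g x ^ 2) := by
    intro r
    have h := hK.Ex_nonneg t θ (f := fun x => (r * f x + g x) ^ 2) fun x _ => sq_nonneg _
    have e : (fun x => (r * f x + g x) ^ 2) =
        fun x => (r * r * f x ^ 2 + 2 * r * (f x * g x)) + g x ^ 2 := by funext x; ring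
    rw [e, hK.Ex_add t θ (by fun_prop) (by fun_prop), hK.Ex_add t θ (by fun_prop) (by fun_prop),
      Ex_const_mul, Ex_const_mul] at h
    linarith
  have := discrim_le_zero key
  unfold discrim at this
  nlinarith

omit [DecidableEq ι] in
theorem IsBody.Ex_dot (hK : IsBody K) (t : ℝ) (θ v : ι → ℝ) :
    Ex K t θ (fun x => v ⬝ᵥ x) = v ⬝ᵥ bar K t θ := by
  unfold dotProduct
  rw [hK.Ex_sum t θ _ fun a => by fun_prop]
  exact Finset.sum_congr rfl fun i _ => Ex_const_mul t θ _ _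

omit [DecidableEq ι] in
theorem IsBody.Ex_dot_sub_bar (hK : IsBody K) (t : ℝ) (θ v : ι → ℝ) :
    Ex K t θ (fun x => v ⬝ᵥ (x - bar K t θ)) = 0 := by
  simp only [dotProduct_sub]
  rw [hK.Ex_sub t θ (by fun_prop) (by fun_prop), hK.Ex_dot, hK.Ex_const, sub_self]

omit [DecidableEq ι] in
theorem IsBody.bar_mem (hK : IsBody K) (t : ℝ) (θ : ι → ℝ) : bar K t θ ∈ K := by
  have h := hK
  obtain ⟨⟨s, hs⟩, -, -⟩ := h
  have key : ∀ x, x ∈ K ↔ ∀ p ∈ s, p.1 ⬝ᵥ x ≤ p.2 := fun x => by rw [hs]; rfl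
  rw [key]
  intro p hp
  rw [← hK.Ex_dot, ← hK.Ex_const t θ p.2]
  exact hK.Ex_mono t θ (by fun_prop) continuous_const fun x hx => (key x).1 hx p hp

omit [DecidableEq ι] in
theorem IsBody.Ex_dot_mul_dot (hK : IsBody K) (t : ℝ) (θ u v : ι → ℝ) :
    Ex K t θ (fun x => (u ⬝ᵥ x) * (v ⬝ᵥ x)) =
      u ⬝ᵥ cov K t θ *ᵥ v + (u ⬝ᵥ bar K t θ) * (v ⬝ᵥ bar K t θ) := by
  have e : (fun x : ι → ℝ => (u ⬝ᵥ x) * (v ⬝ᵥ x)) =
      fun x => ∑ i, ∑ j, u i * v j * (x i * x j) := by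
    funext x
    simp only [dotProduct, Finset.sum_mul_sum]
    exact Finset.sum_congr rfl fun i _ => Finset.sum_congr rfl fun j _ => by ring
  rw [e, hK.Ex_sum t θ _ fun a => by fun_prop]
  simp only [dotProduct, mulVec, cov, of_apply]
  rw [Finset.sum_mul_sum]
  simp only [Finset.mul_sum, ← Finset.sum_add_distrib]
  refine Finset.sum_congr rfl fun i _ => ?_
  rw [hK.Ex_sum t θ _ fun a => by fun_prop]
  refine Finset.sum_congr rfl fun j _ => ?_
  rw [Ex_const_mul]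
  ring

omit [DecidableEq ι] in
/-- The covariance matrix as a bilinear form. -/
theorem IsBody.cov_bilin (hK : IsBody K) (t : ℝ) (θ u v : ι → ℝ) :
    u ⬝ᵥ cov K t θ *ᵥ v =
      Ex K t θ (fun x => (u ⬝ᵥ (x - bar K t θ)) * (v ⬝ᵥ (x - bar K t θ))) := by
  have e : (fun x : ι → ℝ => (u ⬝ᵥ (x - bar K t θ)) * (v ⬝ᵥ (x - bar K t θ))) =
      fun x => ((u ⬝ᵥ x) * (v ⬝ᵥ x) - (v ⬝ᵥ bar K t θ) * (u ⬝ᵥ x)) -
        ((u ⬝ᵥ bar K t θ) * (v ⬝ᵥ x) - (u ⬝ᵥ bar K t θ) * (v ⬝ᵥ bar K t θ)) := by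
    funext x
    simp only [dotProduct_sub]
    ring
  rw [e, hK.Ex_sub t θ (by fun_prop) (by fun_prop), hK.Ex_sub t θ (by fun_prop) (by fun_prop),
    hK.Ex_sub t θ (by fun_prop) (by fun_prop), Ex_const_mul, Ex_const_mul, hK.Ex_const,
    hK.Ex_dot_mul_dot, hK.Ex_dot, hK.Ex_dot]
  ring

omit [DecidableEq ι] in
theorem IsBody.cov_quad (hK : IsBody K) (t : ℝ) (θ v : ι → ℝ) :
    v ⬝ᵥ cov K t θ *ᵥ v = Ex K t θ (fun x => (v ⬝ᵥ (x - bar K t θ)) ^ 2) := by
  rw [hK.cov_bilin]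
  simp only [sq]

omit [DecidableEq ι] in
/-- The variance is at most the second moment about any centre. -/
theorem IsBody.cov_quad_le (hK : IsBody K) (t : ℝ) (θ v a : ι → ℝ) :
    v ⬝ᵥ cov K t θ *ᵥ v ≤ Ex K t θ (fun x => (v ⬝ᵥ (x - a)) ^ 2) := by
  have e : (fun x : ι → ℝ => (v ⬝ᵥ (x - a)) ^ 2) =
      fun x => ((v ⬝ᵥ x) * (v ⬝ᵥ x) - 2 * (v ⬝ᵥ a) * (v ⬝ᵥ x)) + (v ⬝ᵥ a) ^ 2 := by
    funext x
    simp only [dotProduct_sub]
    ring
  rw [e, hK.Ex_add t θ (by fun_prop) (by fun_prop), hK.Ex_sub t θ (by fun_prop) (by fun_prop),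
    Ex_const_mul, hK.Ex_const, hK.Ex_dot_mul_dot, hK.Ex_dot]
  nlinarith [sq_nonneg (v ⬝ᵥ bar K t θ - v ⬝ᵥ a)]

omit [DecidableEq ι] in
theorem IsBody.cov_quad_nonneg (hK : IsBody K) (t : ℝ) (θ v : ι → ℝ) :
    0 ≤ v ⬝ᵥ cov K t θ *ᵥ v := by
  rw [hK.cov_quad]
  exact hK.Ex_nonneg t θ fun x _ => sq_nonneg _

theorem cov_mulVec_evec (t : ℝ) (θ : ι → ℝ) (i : ι) :
    cov K t θ *ᵥ evec K t θ i = lam K t θ i • evec K t θ i :=
  (cov_isHermitian K t θ).mulVec_eigenvectorBasis i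

theorem evec_dot (t : ℝ) (θ : ι → ℝ) (i j : ι) :
    evec K t θ i ⬝ᵥ evec K t θ j = if i = j then 1 else 0 := by
  have h := (cov_isHermitian K t θ).eigenvectorBasis.orthonormal
  rw [orthonormal_iff_ite] at h
  rw [← h i j]
  simp only [evec, dotProduct, PiLp.inner_apply, RCLike.inner_apply, conj_trivial]
  exact Finset.sum_congr rfl fun a _ => mul_comm _ _

/-- Completeness of the eigenvectors. -/
theorem sum_evec_mul (t : ℝ) (θ : ι → ℝ) (a b : ι) :
    ∑ i, evec K t θ i a * evec K t θ i b = if a = b then 1 else 0 := by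
  have h : (Matrix.of fun i a => evec K t θ i a) * (Matrix.of fun i a => evec K t θ i a)ᵀ = 1 := by
    ext i j
    rw [mul_apply, one_apply, ← evec_dot (K := K) t θ i j]
    rfl
  have h2 := mul_eq_one_comm.1 h
  have := congrFun (congrFun h2 a) b
  rw [mul_apply, one_apply] at this
  exact this

theorem sum_evec_smul (t : ℝ) (θ w : ι → ℝ) :
    ∑ i, (evec K t θ i ⬝ᵥ w) • evec K t θ i = w := by
  funext a
  simp only [Finset.sum_apply, Pi.smul_apply, smul_eq_mul, dotProduct, Finset.sum_mul]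
  rw [Finset.sum_comm]
  have : ∀ b, ∑ i, evec K t θ i b * w b * evec K t θ i a = if b = a then w b else 0 := by
    intro b
    have := sum_evec_mul (K := K) t θ b a
    calc ∑ i, evec K t θ i b * w b * evec K t θ i a
        = w b * ∑ i, evec K t θ i b * evec K t θ i a := by
          rw [Finset.mul_sum]; exact Finset.sum_congr rfl fun i _ => by ring
      _ = _ := by rw [this]; split_ifs <;> simp
  simp [this]

/-- Parseval identity. -/
theorem sum_evec_dot_mul (t : ℝ) (θ v w : ι → ℝ) :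
    ∑ i, (evec K t θ i ⬝ᵥ v) * (evec K t θ i ⬝ᵥ w) = v ⬝ᵥ w := by
  conv_rhs => rw [← sum_evec_smul (K := K) t θ v]
  rw [sum_dotProduct]
  simp only [smul_dotProduct, smul_eq_mul]

theorem evec_cov_evec (t : ℝ) (θ : ι → ℝ) (i j : ι) :
    evec K t θ i ⬝ᵥ cov K t θ *ᵥ evec K t θ j = if i = j then lam K t θ i else 0 := by
  rw [cov_mulVec_evec, dotProduct_smul, evec_dot]
  split_ifs with h <;> simp [h]

theorem cov_quad_eq_sum (t : ℝ) (θ v : ι → ℝ) :
    v ⬝ᵥ cov K t θ *ᵥ v = ∑ i, lam K t θ i * (evec K t θ i ⬝ᵥ v) ^ 2 := by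
  conv_lhs => rw [← sum_evec_smul (K := K) t θ v]
  rw [mulVec_sum, sum_dotProduct]
  refine Finset.sum_congr rfl fun i _ => ?_
  rw [dotProduct_sum]
  simp only [mulVec_smul, smul_dotProduct, dotProduct_smul, evec_cov_evec, smul_eq_mul]
  rw [Finset.sum_eq_single i] <;> simp +contextual [eq_comm]
  ring

theorem IsBody.lam_nonneg (hK : IsBody K) (t : ℝ) (θ : ι → ℝ) (i : ι) : 0 ≤ lam K t θ i := by
  have := hK.cov_quad_nonneg t θ (evec K t θ i)
  rwa [evec_cov_evec, if_pos rfl] at this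

theorem lam_eq (t : ℝ) (θ : ι → ℝ) (i : ι) :
    lam K t θ i = evec K t θ i ⬝ᵥ cov K t θ *ᵥ evec K t θ i := by
  rw [evec_cov_evec, if_pos rfl]

theorem IsBody.exists_bound_lam (hK : IsBody K) : ∃ B : ℝ, ∀ t θ i, lam K t θ i ≤ B := by
  obtain ⟨B, -, hB⟩ := hK.exists_bound_of_continuous (f := fun x => x ⬝ᵥ x) (by fun_prop)
  refine ⟨B, fun t θ i => ?_⟩
  rw [lam_eq]
  refine (hK.cov_quad_le t θ _ 0).trans ?_
  rw [← hK.Ex_const t θ B]
  refine hK.Ex_mono t θ (by fun_prop) continuous_const fun x hx => ?_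
  rw [sub_zero]
  refine le_trans ?_ ((le_abs_self _).trans (hB x hx))
  rw [← sum_evec_dot_mul (K := K) t θ x x, sq]
  exact Finset.single_le_sum (f := fun j => (evec K t θ j ⬝ᵥ x) * (evec K t θ j ⬝ᵥ x))
    (fun j _ => mul_self_nonneg _) (Finset.mem_univ i)

theorem hs1_cov (t : ℝ) (θ : ι → ℝ) : hs1 (cov K t θ) = ∑ i, (lam K t θ i - 1) ^ 2 := by
  have h1 : ∀ a b, cov K t θ a b - (1 : Matrix ι ι ℝ) a b =
      ∑ i, (lam K t θ i - 1) * (evec K t θ i a * evec K t θ i b) := by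
    intro a b
    have e1 : cov K t θ a b = ∑ i, lam K t θ i * (evec K t θ i a * evec K t θ i b) := by
      have h := congrFun (congrArg (fun w => cov K t θ *ᵥ w)
        (sum_evec_smul (K := K) t θ (Pi.single b 1))) a
      simp only [mulVec_sum, mulVec_smul, cov_mulVec_evec, Finset.sum_apply, Pi.smul_apply,
        smul_eq_mul, mulVec_single_one, col_apply, dotProduct_single_one] at h
      rw [← h]
      exact Finset.sum_congr rfl fun i _ => by ring
    rw [e1, one_apply, ← sum_evec_mul (K := K) t θ a b, ← Finset.sum_sub_distrib]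
    exact Finset.sum_congr rfl fun i _ => by ring
  unfold hs1
  simp only [h1, sq, Finset.sum_mul_sum]
  have h2 : ∀ i j, ∑ a, ∑ b, (lam K t θ i - 1) * (evec K t θ i a * evec K t θ i b) *
      ((lam K t θ j - 1) * (evec K t θ j a * evec K t θ j b)) =
      if i = j then (lam K t θ i - 1) * (lam K t θ i - 1) else 0 := by
    intro i j
    calc _ = (lam K t θ i - 1) * (lam K t θ j - 1) *
          ((evec K t θ i ⬝ᵥ evec K t θ j) * (evec K t θ i ⬝ᵥ evec K t θ j)) := by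
          simp only [dotProduct]
          rw [Finset.sum_mul_sum]
          simp only [Finset.mul_sum]
          exact Finset.sum_congr rfl fun a _ => Finset.sum_congr rfl fun b _ => by ring
      _ = _ := by rw [evec_dot]; split_ifs with h <;> simp [h]
  calc _ = ∑ i, ∑ j, ∑ a, ∑ b, (lam K t θ i - 1) * (evec K t θ i a * evec K t θ i b) *
      ((lam K t θ j - 1) * (evec K t θ j a * evec K t θ j b)) := by
        rw [Finset.sum_congr rfl fun a _ => Finset.sum_comm, Finset.sum_comm]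
        refine Finset.sum_congr rfl fun i _ => ?_
        rw [Finset.sum_congr rfl fun a _ => Finset.sum_comm, Finset.sum_comm]
    _ = _ := by simp [h2]

omit [DecidableEq ι] in
theorem IsBody.contDiff_bar (hK : IsBody K) :
    ContDiff ℝ (⊤ : ℕ∞) (fun p : ℝ × (ι → ℝ) => bar K p.1 p.2) :=
  contDiff_pi.2 fun i => hK.contDiff_Ex (f := fun x => x i) (by fun_prop)

omit [DecidableEq ι] in
theorem IsBody.continuous_bar (hK : IsBody K) :
    Continuous (fun p : ℝ × (ι → ℝ) => bar K p.1 p.2) := hK.contDiff_bar.continuous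

omit [DecidableEq ι] in
theorem IsBody.continuous_cov (hK : IsBody K) :
    Continuous (fun p : ℝ × (ι → ℝ) => cov K p.1 p.2) := by
  refine continuous_matrix fun i j => ?_
  have h1 := hK.continuous_Ex (f := fun x => x i * x j) (by fun_prop)
  have h2 := hK.continuous_bar
  simp only [cov, of_apply]
  fun_prop

omit [DecidableEq ι] in
theorem T3_comm₁₂ (t : ℝ) (θ u v w : ι → ℝ) : T3 K t θ u v w = T3 K t θ v u w := by
  unfold T3; congr 1; funext x; ring

omit [DecidableEq ι] in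
theorem T3_comm₂₃ (t : ℝ) (θ u v w : ι → ℝ) : T3 K t θ u v w = T3 K t θ u w v := by
  unfold T3; congr 1; funext x; ring

omit [DecidableEq ι] in
/-- Linearity of the third moment in its last slot. -/
theorem IsBody.T3_sum_smul (hK : IsBody K) (t : ℝ) (θ u v : ι → ℝ) {α : Type*} (s : Finset α)
    (c : α → ℝ) (w : α → ι → ℝ) :
    T3 K t θ u v (∑ a ∈ s, c a • w a) = ∑ a ∈ s, c a * T3 K t θ u v (w a) := by
  unfold T3
  simp only [← Ex_const_mul]
  rw [← hK.Ex_sum t θ _ fun a => by fun_prop]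
  congr 1
  funext x
  rw [sum_dotProduct, Finset.mul_sum]
  exact Finset.sum_congr rfl fun a _ => by rw [smul_dotProduct, smul_eq_mul]; ring

omit [DecidableEq ι] in
/-- The third moment is the covariance of a product with a linear function. -/
theorem IsBody.T3_eq (hK : IsBody K) (t : ℝ) (θ u v w : ι → ℝ) :
    T3 K t θ u v w = Ex K t θ (fun x => (u ⬝ᵥ x) * (v ⬝ᵥ x) * (w ⬝ᵥ x)) -
      Ex K t θ (fun x => (u ⬝ᵥ x) * (v ⬝ᵥ x)) * (w ⬝ᵥ bar K t θ) -
      (u ⬝ᵥ cov K t θ *ᵥ w) * (v ⬝ᵥ bar K t θ) - (u ⬝ᵥ bar K t θ) * (v ⬝ᵥ cov K t θ *ᵥ w) := by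
  have e : (fun x : ι → ℝ => (u ⬝ᵥ (x - bar K t θ)) * (v ⬝ᵥ (x - bar K t θ)) *
      (w ⬝ᵥ (x - bar K t θ))) = fun x =>
      ((u ⬝ᵥ x) * (v ⬝ᵥ x) * (w ⬝ᵥ x) - (w ⬝ᵥ bar K t θ) * ((u ⬝ᵥ x) * (v ⬝ᵥ x))) -
      ((v ⬝ᵥ bar K t θ) * ((u ⬝ᵥ (x - bar K t θ)) * (w ⬝ᵥ (x - bar K t θ))) +
        ((u ⬝ᵥ bar K t θ) * ((v ⬝ᵥ (x - bar K t θ)) * (w ⬝ᵥ (x - bar K t θ))) +
          (u ⬝ᵥ bar K t θ) * (v ⬝ᵥ bar K t θ) * (w ⬝ᵥ (x - bar K t θ)))) := by
    funext x
    simp only [dotProduct_sub]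
    ring
  unfold T3
  rw [e, hK.Ex_sub t θ (by fun_prop) (by fun_prop), hK.Ex_sub t θ (by fun_prop) (by fun_prop),
    hK.Ex_add t θ (by fun_prop) (by fun_prop), hK.Ex_add t θ (by fun_prop) (by fun_prop),
    Ex_const_mul, Ex_const_mul, Ex_const_mul, Ex_const_mul, hK.Ex_dot_sub_bar, ← hK.cov_bilin,
    ← hK.cov_bilin]
  ring

omit [DecidableEq ι] in
/-- The derivative of the covariance in the tilt is the third moment. -/
theorem IsBody.hasDerivAt_cov (hK : IsBody K) (t : ℝ) (θ u v w : ι → ℝ) (s : ℝ) :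
    HasDerivAt (fun s : ℝ => u ⬝ᵥ cov K t (θ + s • w) *ᵥ v) (T3 K t (θ + s • w) u v w) s := by
  have h1 := hK.hasDerivAt_Ex (f := fun x => (u ⬝ᵥ x) * (v ⬝ᵥ x)) (by fun_prop) t 0 θ w s
  have h2 := hK.hasDerivAt_Ex (f := fun x => u ⬝ᵥ x) (by fun_prop) t 0 θ w s
  have h3 := hK.hasDerivAt_Ex (f := fun x => v ⬝ᵥ x) (by fun_prop) t 0 θ w s
  simp only [mul_zero, add_zero, zero_div, zero_mul, sub_zero] at h1 h2 h3
  have h := h1.sub (h2.mul h3)
  convert! h using 1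
  · funext s
    simp only [Pi.sub_apply, Pi.mul_apply]
    rw [hK.Ex_dot_mul_dot, hK.Ex_dot, hK.Ex_dot]
    ring
  · rw [hK.T3_eq, hK.Ex_dot_mul_dot t _ u w, hK.Ex_dot_mul_dot t _ v w]
    simp only [hK.Ex_dot]
    ring

omit [DecidableEq ι] in
theorem IsBody.exists_bound_T3 (hK : IsBody K) : ∃ B : ℝ, 0 ≤ B ∧ ∀ t θ u v w, u ⬝ᵥ u ≤ 1 →
    v ⬝ᵥ v ≤ 1 → w ⬝ᵥ w ≤ 1 → |T3 K t θ u v w| ≤ B := by
  obtain ⟨B, hB⟩ := (hK.isCompact.prod hK.isCompact).exists_bound_of_continuousOn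
    (f := fun z : (ι → ℝ) × (ι → ℝ) => 1 + (z.1 - z.2) ⬝ᵥ (z.1 - z.2)) (by fun_prop)
  refine ⟨|B| ^ 3, by positivity, fun t θ u v w hu hv hw => ?_⟩
  refine hK.abs_Ex_le t θ (by fun_prop) fun x hx => ?_
  have key : ∀ u : ι → ℝ, u ⬝ᵥ u ≤ 1 → |u ⬝ᵥ (x - bar K t θ)| ≤ |B| := by
    intro u hu
    have h := (le_abs_self _).trans (hB (x, bar K t θ) ⟨hx, hK.bar_mem t θ⟩)
    set y := x - bar K t θ
    have h1 : 0 ≤ (u - y) ⬝ᵥ (u - y) := Finset.sum_nonneg fun i _ => mul_self_nonneg _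
    have h2 : 0 ≤ (u + y) ⬝ᵥ (u + y) := Finset.sum_nonneg fun i _ => mul_self_nonneg _
    have h3 : 0 ≤ y ⬝ᵥ y := Finset.sum_nonneg fun i _ => mul_self_nonneg _
    simp only [sub_dotProduct, dotProduct_sub, add_dotProduct, dotProduct_add,
      dotProduct_comm y u] at h1 h2
    refine le_trans ?_ (h.trans (le_abs_self B))
    rw [abs_le]
    constructor <;> nlinarith
  rw [abs_mul, abs_mul, pow_succ, sq]
  exact mul_le_mul (mul_le_mul (key u hu) (key v hv) (abs_nonneg _) (abs_nonneg _)) (key w hw)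
    (abs_nonneg _) (by positivity)

omit [DecidableEq ι] in
theorem IsBody.Zf_le (hK : IsBody K) {R : ℝ} (hR : ∀ x ∈ K, ‖x‖ ≤ R) {t : ℝ} (ht : 0 ≤ t)
    (θ : ι → ℝ) : Zf K t θ ≤ (volume K).toReal * Real.exp (R * ∑ i, |θ i|) := by
  have hfin : IsFiniteMeasure (volume.restrict K) :=
    isFiniteMeasure_restrict.2 hK.volume_lt_top.ne
  calc Zf K t θ ≤ ∫ _ in K, Real.exp (R * ∑ i, |θ i|) := by
        refine setIntegral_mono_on (hK.integrableOn (by fun_prop)) (integrable_const _)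
          hK.measurableSet fun x hx => Real.exp_le_exp.2 ?_
        have h1 : 0 ≤ x ⬝ᵥ x := Finset.sum_nonneg fun i _ => mul_self_nonneg _
        have h2 : θ ⬝ᵥ x ≤ R * ∑ i, |θ i| := by
          rw [Finset.mul_sum]
          refine Finset.sum_le_sum fun i _ => (le_abs_self _).trans ?_
          rw [abs_mul, mul_comm]
          exact mul_le_mul_of_nonneg_right ((norm_le_pi_norm x i).trans (hR x hx)) (abs_nonneg _)
        nlinarith [mul_nonneg ht h1]
    _ = _ := by simp [Measure.real]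

omit [DecidableEq ι] in
/-- Gaussian integrability with exponential growth. -/
theorem integrable_exp_abs_gauss (c : ℝ) :
    Integrable (fun w : ι → ℝ => Real.exp (c * ∑ i, |w i|) * Real.exp (-(w ⬝ᵥ w) / 2)) := by
  have h1 : Integrable (fun x : ℝ => Real.exp (c * |x|) * Real.exp (-(x * x) / 2)) := by
    refine ((integrable_exp_neg_mul_sq (b := 1 / 4) (by norm_num)).const_mul
      (Real.exp (c ^ 2))).mono' (by fun_prop) (ae_of_all _ fun x => ?_)
    rw [Real.norm_eq_abs, abs_of_pos (by positivity), ← Real.exp_add, ← Real.exp_add]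
    refine Real.exp_le_exp.2 ?_
    nlinarith [sq_nonneg (c - |x| / 2), sq_abs x]
  have h := Integrable.fintype_prod (μ := fun _ : ι => (volume : Measure ℝ))
    (f := fun (_ : ι) (x : ℝ) => Real.exp (c * |x|) * Real.exp (-(x * x) / 2)) fun _ => h1
  convert! h using 2 with w
  rw [Finset.prod_mul_distrib, ← Real.exp_sum, ← Real.exp_sum, Finset.mul_sum]
  congr 2
  simp [dotProduct, Finset.sum_div, neg_div]

omit [DecidableEq ι] in
/-- Integrability of the integrand of `avg` for functions of exponential growth. -/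
theorem IsBody.integrable_avg' (hK : IsBody K) {t : ℝ} (ht : 0 ≤ t) {G : (ι → ℝ) → ℝ}
    (hG : Continuous G) {B c : ℝ} (hB : ∀ θ, |G θ| ≤ B * Real.exp (c * ∑ i, |θ i|)) :
    Integrable (fun w : ι → ℝ => Zf K t (√t • w) * G (√t • w) * Real.exp (-(w ⬝ᵥ w) / 2)) := by
  obtain ⟨R, -, hR⟩ := hK.exists_bound
  have hZ : Continuous fun w : ι → ℝ => Zf K t (√t • w) :=
    hK.continuous_Zf.comp (f := fun w : ι → ℝ => (t, √t • w)) (by fun_prop)
  refine ((integrable_exp_abs_gauss ((R + c) * √t)).const_mul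
    ((volume K).toReal * B)).mono' (by fun_prop) (ae_of_all _ fun w => ?_)
  rw [Real.norm_eq_abs, abs_mul, abs_mul, abs_of_pos (Real.exp_pos _),
    abs_of_pos (hK.Zf_pos _ _), ← mul_assoc]
  refine mul_le_mul_of_nonneg_right ?_ (Real.exp_pos _).le
  have e : ∑ i, |(√t • w) i| = √t * ∑ i, |w i| := by
    rw [Finset.mul_sum]
    exact Finset.sum_congr rfl fun i _ => by
      rw [Pi.smul_apply, smul_eq_mul, abs_mul, abs_of_nonneg (Real.sqrt_nonneg t)]
  calc Zf K t (√t • w) * |G (√t • w)|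
      ≤ ((volume K).toReal * Real.exp (R * ∑ i, |(√t • w) i|)) *
        (B * Real.exp (c * ∑ i, |(√t • w) i|)) :=
        mul_le_mul (hK.Zf_le hR ht _) (hB _) (abs_nonneg _) (by positivity)
    _ = _ := by
        rw [e, show (R + c) * √t * ∑ i, |w i| = R * (√t * ∑ i, |w i|) + c * (√t * ∑ i, |w i|) by
          ring, Real.exp_add]
        ring

omit [DecidableEq ι] in
theorem IsBody.integrable_avg (hK : IsBody K) {t : ℝ} (ht : 0 ≤ t) {G : (ι → ℝ) → ℝ}
    (hG : Continuous G) {B : ℝ} (hB : ∀ θ, |G θ| ≤ B) :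
    Integrable (fun w : ι → ℝ => Zf K t (√t • w) * G (√t • w) * Real.exp (-(w ⬝ᵥ w) / 2)) :=
  hK.integrable_avg' ht hG (B := B) (c := 0) (by simpa using hB)

omit [DecidableEq ι] in
theorem IsBody.avg_mono (hK : IsBody K) {t : ℝ} (ht : 0 ≤ t) {G H : (ι → ℝ) → ℝ}
    (hG : Continuous G) (hH : Continuous H) {B B' : ℝ} (hB : ∀ θ, |G θ| ≤ B)
    (hB' : ∀ θ, |H θ| ≤ B') (h : ∀ θ, G θ ≤ H θ) : avg K t G ≤ avg K t H :=
  integral_mono (hK.integrable_avg ht hG hB) (hK.integrable_avg ht hH hB') fun _ =>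
    mul_le_mul_of_nonneg_right (mul_le_mul_of_nonneg_left (h _) (hK.Zf_pos _ _).le)
      (Real.exp_pos _).le

omit [DecidableEq ι] in
theorem IsBody.avg_add (hK : IsBody K) {t : ℝ} (ht : 0 ≤ t) {G H : (ι → ℝ) → ℝ}
    (hG : Continuous G) (hH : Continuous H) {B B' : ℝ} (hB : ∀ θ, |G θ| ≤ B)
    (hB' : ∀ θ, |H θ| ≤ B') : avg K t (fun θ => G θ + H θ) = avg K t G + avg K t H := by
  unfold avg
  rw [← integral_add (hK.integrable_avg ht hG hB) (hK.integrable_avg ht hH hB')]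
  congr 1; funext w; ring

omit [DecidableEq ι] in
theorem avg_const_mul (t c : ℝ) (G : (ι → ℝ) → ℝ) :
    avg K t (fun θ => c * G θ) = c * avg K t G := by
  unfold avg
  rw [← integral_const_mul]
  congr 1; funext w; ring

omit [DecidableEq ι] in
theorem IsBody.avg_nonneg (hK : IsBody K) (t : ℝ) {G : (ι → ℝ) → ℝ} (h : ∀ θ, 0 ≤ G θ) :
    0 ≤ avg K t G :=
  integral_nonneg fun _ => mul_nonneg (mul_nonneg (hK.Zf_pos _ _).le (h _)) (Real.exp_pos _).le

omit [DecidableEq ι] in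
theorem IsBody.avg_pos (hK : IsBody K) {t : ℝ} (ht : 0 ≤ t) {G : (ι → ℝ) → ℝ}
    (hG : Continuous G) {B : ℝ} (hB : ∀ θ, |G θ| ≤ B) (h : ∀ θ, 0 < G θ) : 0 < avg K t G := by
  have hp : ∀ w : ι → ℝ, 0 < Zf K t (√t • w) * G (√t • w) * Real.exp (-(w ⬝ᵥ w) / 2) :=
    fun w => mul_pos (mul_pos (hK.Zf_pos _ _) (h _)) (Real.exp_pos _)
  unfold avg
  rw [integral_pos_iff_support_of_nonneg (fun w => (hp w).le) (hK.integrable_avg ht hG hB)]
  have : Function.support (fun w : ι → ℝ =>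
      Zf K t (√t • w) * G (√t • w) * Real.exp (-(w ⬝ᵥ w) / 2)) = univ := by
    ext w; simp only [Function.mem_support, mem_univ, iff_true]; exact (hp w).ne'
  rw [this]
  exact isOpen_univ.measure_pos _ univ_nonempty

omit [DecidableEq ι] in
theorem avg_zero (G : (ι → ℝ) → ℝ) : avg K 0 G = G 0 * avg K 0 (fun _ => 1) := by
  unfold avg
  rw [← integral_const_mul]
  congr 1; funext w; simp; ring

omit [DecidableEq ι] in
/-- Continuity of averages in time, including at time zero. -/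
theorem IsBody.continuousOn_avg (hK : IsBody K) {G : ℝ → (ι → ℝ) → ℝ}
    (hG : Continuous fun p : ℝ × (ι → ℝ) => G p.1 p.2) {B : ℝ} (hB : ∀ t θ, |G t θ| ≤ B) :
    ContinuousOn (fun t => avg K t (G t)) (Icc 0 1) := by
  obtain ⟨R, hR0, hR⟩ := hK.exists_bound
  have hc : Continuous fun p : ℝ × (ι → ℝ) =>
      Zf K p.1 (√p.1 • p.2) * G p.1 (√p.1 • p.2) * Real.exp (-(p.2 ⬝ᵥ p.2) / 2) := by
    have h1 := hK.continuous_Zf.comp
      (f := fun p : ℝ × (ι → ℝ) => (p.1, √p.1 • p.2)) (by fun_prop)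
    have h2 := hG.comp (f := fun p : ℝ × (ι → ℝ) => (p.1, √p.1 • p.2)) (by fun_prop)
    exact (h1.mul h2).mul (by fun_prop)
  refine continuousOn_of_dominated
    (bound := fun w => (volume K).toReal * B *
      (Real.exp (R * ∑ i, |w i|) * Real.exp (-(w ⬝ᵥ w) / 2)))
    (fun t _ => (hc.comp (Continuous.prodMk_right t)).aestronglyMeasurable)
    (fun t ht => ae_of_all _ fun w => ?_) ((integrable_exp_abs_gauss R).const_mul _)
    (ae_of_all _ fun w => (hc.comp (Continuous.prodMk_left w)).continuousOn)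
  rw [Real.norm_eq_abs, abs_mul, abs_mul, abs_of_pos (Real.exp_pos _),
    abs_of_pos (hK.Zf_pos _ _), ← mul_assoc]
  refine mul_le_mul_of_nonneg_right ?_ (Real.exp_pos _).le
  have e : ∑ i, |(√t • w) i| ≤ ∑ i, |w i| := by
    refine Finset.sum_le_sum fun i _ => ?_
    rw [Pi.smul_apply, smul_eq_mul, abs_mul, abs_of_nonneg (Real.sqrt_nonneg t)]
    exact mul_le_of_le_one_left (abs_nonneg _) (Real.sqrt_le_one.2 ht.2)
  have hB0 : 0 ≤ B := (abs_nonneg _).trans (hB 0 0)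
  calc Zf K t (√t • w) * |G t (√t • w)|
      ≤ ((volume K).toReal * Real.exp (R * ∑ i, |(√t • w) i|)) * B :=
        mul_le_mul (hK.Zf_le hR ht.1 _) (hB _ _) (abs_nonneg _) (by positivity)
    _ ≤ ((volume K).toReal * Real.exp (R * ∑ i, |w i|)) * B := by gcongr
    _ = _ := by ring

end Pool.Agent.P.MP_d05bff_gt
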