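import Pool.Agent.P.MP_d05bff_gt.Iface

/-!
Integration by parts and the Bochner formula for the weighted Laplacian.
-/

namespace Pool.Agent.P.MP_d05bff_gt

open MeasureTheory Matrix

namespace Bochner

variable {ι : Type} [Fintype ι]

theorem one (f : (ι → ℝ) → ℝ) (hf : Smooth f) : ContDiff ℝ 1 f := hf.of_le (by exact_mod_cast le_top)

theorem D_cont {f : (ι → ℝ) → ℝ} (hf : ContDiff ℝ 1 f) (v : ι → ℝ) : Continuous (D v f) :=
  (hf.continuous_fderiv (by norm_num)).clm_apply continuous_const

theorem D_smooth {f : (ι → ℝ) → ℝ} (hf : Smooth f) (v : ι → ℝ) : Smooth (D v f) :=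
  (hf.fderiv_right (m := (⊤ : ℕ∞)) (by exact_mod_cast le_top)).clm_apply contDiff_const

omit [Fintype ι] in
theorem D_supp {f : (ι → ℝ) → ℝ} (hf : HasCompactSupport f) (v : ι → ℝ) :
    HasCompactSupport (D v f) := hf.fderiv_apply (𝕜 := ℝ) v

theorem D_mul {f g : (ι → ℝ) → ℝ} (hf : ContDiff ℝ 1 f) (hg : ContDiff ℝ 1 g) (v x : ι → ℝ) :
    D v (fun y => f y * g y) x = f x * D v g x + D v f x * g x := by
  unfold D
  rw [fderiv_fun_mul (hf.differentiable (by norm_num) x) (hg.differentiable (by norm_num) x)]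
  simp only [_root_.add_apply, _root_.smul_apply, smul_eq_mul]
  ring

theorem D_sub {f g : (ι → ℝ) → ℝ} (hf : ContDiff ℝ 1 f) (hg : ContDiff ℝ 1 g) (v x : ι → ℝ) :
    D v (fun y => f y - g y) x = D v f x - D v g x := by
  unfold D
  rw [fderiv_fun_sub (hf.differentiable (by norm_num) x) (hg.differentiable (by norm_num) x)]
  rfl

theorem D_sum {J : Type} [Fintype J] {f : J → (ι → ℝ) → ℝ} (hf : ∀ j, ContDiff ℝ 1 (f j))
    (v x : ι → ℝ) : D v (fun y => ∑ j, f j y) x = ∑ j, D v (f j) x := by
  unfold D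
  rw [fderiv_fun_sum (fun j _ => (hf j).differentiable (by norm_num) x)]
  simp only [_root_.sum_apply]

omit [Fintype ι] in
theorem D_const (c : ℝ) (v x : ι → ℝ) : D v (fun _ => c) x = 0 := by
  unfold D; simp

theorem D_comm {f : (ι → ℝ) → ℝ} (hf : Smooth f) (v w : ι → ℝ) :
    D v (D w f) = D w (D v f) := by
  funext x
  have h1 : Differentiable ℝ (fderiv ℝ f) :=
    ((hf.fderiv_right (m := (⊤ : ℕ∞)) (by exact_mod_cast le_top)).differentiable (by simp))
  have h2 : ∀ v w : ι → ℝ, D v (D w f) x = fderiv ℝ (fderiv ℝ f) x v w := by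
    intro v w
    unfold D
    rw [fderiv_clm_apply (h1 x) (differentiableAt_const w)]
    simp
  rw [h2, h2]
  refine (hf.contDiffAt (x := x)).isSymmSndFDerivAt ?_ v w
  simp only [minSmoothness_of_isRCLikeNormedField]
  exact WithTop.coe_le_coe.2 (le_top : (2 : ℕ∞) ≤ ⊤)

theorem D_rho {V : (ι → ℝ) → ℝ} (hV : Smooth V) (v x : ι → ℝ) :
    D v (fun y => Real.exp (-V y)) x = -D v V x * Real.exp (-V x) := by
  unfold D
  have h := ((one V hV).differentiable (by norm_num) x).hasFDerivAt.neg.exp
  have h2 : (fun y => Real.exp (-V y)) = fun y => Real.exp ((-V) y) := rfl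
  rw [h2, h.fderiv]
  simp only [_root_.smul_apply, _root_.neg_apply, smul_eq_mul,
    Pi.neg_apply]
  ring

theorem rho_smooth {V : (ι → ℝ) → ℝ} (hV : Smooth V) : Smooth (fun y => Real.exp (-V y)) :=
  hV.neg.exp

theorem int_supp {V f g : (ι → ℝ) → ℝ} (hV : Smooth V) (hf : Continuous f) (hg : Continuous g)
    (hs : HasCompactSupport g) : Integrable (fun x => f x * g x * Real.exp (-V x)) := by
  refine Continuous.integrable_of_hasCompactSupport
    ((hf.mul hg).mul (rho_smooth hV).continuous) ?_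
  exact (hs.mul_left (f := f)).mul_right

theorem ibp {V f w : (ι → ℝ) → ℝ} (hV : Smooth V) (hf : ContDiff ℝ 1 f) (hw : ContDiff ℝ 1 w)
    (hs : HasCompactSupport w) (v : ι → ℝ) :
    IV V (fun x => f x * (D v w x - D v V x * w x)) = -IV V (fun x => D v f x * w x) := by
  have hρ := one _ (rho_smooth hV)
  have hg : ContDiff ℝ 1 (fun x => w x * Real.exp (-V x)) := hw.mul hρ
  have hgs : HasCompactSupport (fun x => w x * Real.exp (-V x)) := hs.mul_right
  have h := integral_mul_fderiv_eq_neg_fderiv_mul_of_integrable (μ := volume) (f := f)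
    (g := fun x => w x * Real.exp (-V x)) (v := v)
    (Continuous.integrable_of_hasCompactSupport ((D_cont hf v).mul hg.continuous) hgs.mul_left)
    (Continuous.integrable_of_hasCompactSupport (hf.continuous.mul (D_cont hg v))
      (D_supp hgs v).mul_left)
    (Continuous.integrable_of_hasCompactSupport (hf.continuous.mul hg.continuous) hgs.mul_left)
    (fun x _ => hf.differentiable (by norm_num) x) (fun x _ => hg.differentiable (by norm_num) x)
  unfold IV
  have e1 : ∀ x, f x * (D v w x - D v V x * w x) * Real.exp (-V x) =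
      f x * fderiv ℝ (fun x => w x * Real.exp (-V x)) x v := by
    intro x
    have := D_mul hw hρ v x
    rw [D_rho hV] at this
    change _ = f x * D v (fun x => w x * Real.exp (-V x)) x
    rw [this]; ring
  have e2 : ∀ x, D v f x * w x * Real.exp (-V x) =
      fderiv ℝ f x v * (w x * Real.exp (-V x)) := by
    intro x; unfold D; ring
  simp_rw [e1, e2]
  exact h

theorem IV_sum {J : Type} [Fintype J] {V : (ι → ℝ) → ℝ} {f : J → (ι → ℝ) → ℝ}
    (hf : ∀ j, Integrable (fun x => f j x * Real.exp (-V x))) :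
    IV V (fun x => ∑ j, f j x) = ∑ j, IV V (f j) := by
  unfold IV
  simp_rw [Finset.sum_mul]
  exact integral_finsetSum _ fun j _ => hf j

theorem Lop_smooth (b : ι → ι → ℝ) {V u : (ι → ℝ) → ℝ} (hV : Smooth V) (hu : Smooth u) :
    Smooth (Lop b V u) :=
  ContDiff.sum fun _ _ => (D_smooth (D_smooth hu _) _).sub ((D_smooth hV _).mul (D_smooth hu _))

theorem Lop_supp (b : ι → ι → ℝ) (V : (ι → ℝ) → ℝ) {u : (ι → ℝ) → ℝ} (hs : HasCompactSupport u) :
    HasCompactSupport (Lop b V u) := by
  refine HasCompactSupport.intro hs fun x hx => ?_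
  have h1 : ∀ (g : (ι → ℝ) → ℝ) (v : ι → ℝ), x ∉ tsupport g → x ∉ tsupport (D v g) :=
    fun g v h h' => h (tsupport_fderiv_apply_subset ℝ v h')
  unfold Lop
  refine Finset.sum_eq_zero fun j _ => ?_
  rw [image_eq_zero_of_notMem_tsupport (h1 _ _ hx),
    image_eq_zero_of_notMem_tsupport (h1 _ _ (h1 _ _ hx))]
  ring

theorem ibpL (b : ι → ι → ℝ) {V u f : (ι → ℝ) → ℝ} (hV : Smooth V) (hu : Smooth u)
    (hs : HasCompactSupport u) (hf : ContDiff ℝ 1 f) :
    IV V (fun x => f x * Lop b V u x) = -∑ j, IV V (fun x => D (b j) f x * D (b j) u x) := by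
  unfold Lop
  simp_rw [Finset.mul_sum]
  rw [IV_sum, ← Finset.sum_neg_distrib]
  · exact Finset.sum_congr rfl fun j _ => ibp hV hf (one _ (D_smooth hu _)) (D_supp hs _) _
  · intro j
    refine int_supp hV hf.continuous ((D_smooth (D_smooth hu _) _).continuous.sub
      ((D_smooth hV _).continuous.mul (D_smooth hu _).continuous)) ?_
    exact (D_supp (D_supp hs _) _).sub (D_supp hs _).mul_left

theorem D_Lop (b : ι → ι → ℝ) {V u : (ι → ℝ) → ℝ} (hV : Smooth V) (hu : Smooth u)
    (v x : ι → ℝ) :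
    D v (Lop b V u) x = Lop b V (D v u) x - ∑ i, D v (D (b i) V) x * D (b i) u x := by
  unfold Lop
  rw [D_sum (fun j => one _ ((D_smooth (D_smooth hu _) _).sub
    ((D_smooth hV _).mul (D_smooth hu _)))), ← Finset.sum_sub_distrib]
  refine Finset.sum_congr rfl fun j _ => ?_
  rw [D_sub (one _ (D_smooth (D_smooth hu _) _)) (one _ ((D_smooth hV _).mul (D_smooth hu _))),
    D_mul (one _ (D_smooth hV _)) (one _ (D_smooth hu _)), D_comm (D_smooth hu _) v,
    D_comm hu v]
  ring

end Bochner

open Bochner in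
theorem bochner : BochnerStmt := by
  intro ι _ _ b V u hV hu hs
  refine ⟨fun f hf => ibpL b hV hu hs hf, ?_⟩
  have hL := Lop_smooth b hV hu
  have h1 := ibpL b hV hu hs (one _ hL)
  simp_rw [sq]
  rw [h1]
  have hH : ∀ i j, Integrable (fun x => D (b i) (D (b j) V) x * D (b i) u x * D (b j) u x *
      Real.exp (-V x)) := fun i j =>
    int_supp hV ((D_smooth (D_smooth hV _) _).continuous.mul (D_smooth hu _).continuous)
      (D_smooth hu _).continuous (D_supp hs _)
  have hH' : ∀ i, Integrable (fun x => (∑ j, D (b i) (D (b j) V) x * D (b i) u x * D (b j) u x) *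
      Real.exp (-V x)) := by
    intro i
    simp_rw [Finset.sum_mul]
    exact integrable_finsetSum _ fun j _ => hH i j
  rw [IV_sum hH', Finset.sum_comm, ← Finset.sum_add_distrib, ← Finset.sum_neg_distrib]
  refine Finset.sum_congr rfl fun j _ => ?_
  have h2 := ibpL b hV (D_smooth hu (b j)) (D_supp hs _) (one _ (D_smooth hu (b j)))
  have h3 : IV V (fun x => D (b j) (Lop b V u) x * D (b j) u x) =
      IV V (fun x => D (b j) u x * Lop b V (D (b j) u) x) -
      IV V (fun x => ∑ i, D (b j) (D (b i) V) x * D (b j) u x * D (b i) u x) := by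
    unfold IV
    rw [← integral_sub (int_supp hV (D_smooth hu _).continuous
      (Lop_smooth b hV (D_smooth hu _)).continuous (Lop_supp b V (D_supp hs _))) (hH' j)]
    congr 1
    funext x
    beta_reduce
    rw [D_Lop b hV hu, sub_mul, sub_mul, Finset.sum_mul]
    congr 2
    · ring
    · exact Finset.sum_congr rfl fun i _ => by ring
  rw [h3, h2]
  ring

end Pool.Agent.P.MP_d05bff_gt
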