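import Pool.Agent.P.MP_d05bff_gt.TopoIface

/-!
A local real cocycle integrates along paths.
-/

namespace Pool.Agent.P.MP_d05bff_gt

universe u

namespace Cocycle

open unitInterval Filter Topology

variable {X : Type u}

/-- `P` is a local primitive of the cocycle pulled back along `f`. -/
def IsPrim (ω : X → X → ℝ) {Y : Type} [TopologicalSpace Y] (f : Y → X) (P : Y → ℝ) : Prop :=
  ∀ p, ∀ᶠ q in 𝓝 p, P q - P p = ω (f p) (f q)

theorem IsPrim.uniq {ω : X → X → ℝ} {Y : Type} [TopologicalSpace Y] [PreconnectedSpace Y]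
    {f : Y → X} {P Q : Y → ℝ} (hP : IsPrim ω f P) (hQ : IsPrim ω f Q) (a b : Y) :
    P a - P b = Q a - Q b := by
  have h : IsLocallyConstant (fun y => P y - Q y) := by
    rw [IsLocallyConstant.iff_eventually_eq]
    intro p
    filter_upwards [hP p, hQ p] with q h1 h2
    linarith
  have := h.apply_eq_of_preconnectedSpace a b
  linarith

theorem IsPrim.comp {ω : X → X → ℝ} {Y Z : Type} [TopologicalSpace Y] [TopologicalSpace Z]
    {f : Y → X} {P : Y → ℝ} (hP : IsPrim ω f P) {g : Z → Y} (hg : Continuous g) :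
    IsPrim ω (fun z => f (g z)) (fun z => P (g z)) := fun p =>
  (hg.tendsto p).eventually (hP (g p))

variable [PseudoMetricSpace X] {δ : ℝ} {ω : X → X → ℝ}

theorem self_zero (hδ : 0 < δ)
    (hω : ∀ x y z, dist x y < δ → dist y z < δ → dist x z < δ → ω x y + ω y z = ω x z) (x : X) :
    ω x x = 0 := by
  have := hω x x x (by simpa using hδ) (by simpa using hδ) (by simpa using hδ)
  linarith

/-- The point `i / n` of the unit interval (clamped). -/
noncomputable def node (n i : ℕ) : I := Set.projIcc (0 : ℝ) 1 zero_le_one ((i : ℝ) / n)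

theorem node_zero (n : ℕ) : node n 0 = 0 := by
  simp [node]

theorem node_self {n : ℕ} (hn : 0 < n) : node n n = 1 := by
  have : (n : ℝ) ≠ 0 := by positivity
  simp [node, div_self this]

theorem dist_node {n : ℕ} (hn : 0 < n) (i : ℕ) : dist (node n i) (node n (i + 1)) ≤ 1 / n := by
  have h := (LipschitzWith.projIcc (zero_le_one : (0 : ℝ) ≤ 1)).dist_le_mul ((i : ℝ) / n)
    (((i + 1 : ℕ) : ℝ) / n)
  refine le_trans h ?_
  have hn' : (0 : ℝ) < n := by positivity
  rw [Real.dist_eq]
  have : (i : ℝ) / n - ((i + 1 : ℕ) : ℝ) / n = -(1 / n) := by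
    push_cast; field_simp; ring
  rw [this, abs_neg, abs_of_pos (by positivity)]
  simp

theorem dist_mul_left (a s t : I) : dist (a * s) (a * t) ≤ dist s t := by
  have ha0 := a.2.1
  have ha1 := a.2.2
  simp only [Subtype.dist_eq, Set.Icc.coe_mul, Real.dist_eq]
  rw [← mul_sub, abs_mul, abs_of_nonneg ha0]
  exact mul_le_of_le_one_left (abs_nonneg _) ha1

theorem dist_mul_right' (a b s : I) : dist (a * s) (b * s) ≤ dist a b := by
  rw [mul_comm a, mul_comm b]
  exact dist_mul_left s a b

theorem exists_prim_sq (hδ : 0 < δ)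
    (hω : ∀ x y z, dist x y < δ → dist y z < δ → dist x z < δ → ω x y + ω y z = ω x z)
    (f : I × I → X) (hf : Continuous f) : ∃ P, IsPrim ω f P := by
  have hu : UniformContinuous f := CompactSpace.uniformContinuous_of_continuous hf
  obtain ⟨η, hη, hfη⟩ := Metric.uniformContinuous_iff.1 hu (δ / 2) (by positivity)
  obtain ⟨n, hn⟩ := exists_nat_one_div_lt hη
  set m : ℕ := n + 1 with hm
  have hm0 : 0 < m := Nat.succ_pos n
  have hmη : (1 : ℝ) / m < η := by simpa [hm] using hn
  let sc : ℕ → I × I → I × I := fun i p => (node m i * p.1, node m i * p.2)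
  have hsc1 : ∀ i p, dist (f (sc i p)) (f (sc (i + 1) p)) < δ / 2 := by
    intro i p
    apply hfη
    refine lt_of_le_of_lt ?_ hmη
    rw [Prod.dist_eq]
    exact max_le ((dist_mul_right' _ _ _).trans (dist_node hm0 i))
      ((dist_mul_right' _ _ _).trans (dist_node hm0 i))
  have hsc2 : ∀ i p q, dist p q < η → dist (f (sc i p)) (f (sc i q)) < δ / 2 := by
    intro i p q hpq
    apply hfη
    refine lt_of_le_of_lt ?_ hpq
    rw [Prod.dist_eq, Prod.dist_eq]
    exact max_le_max (dist_mul_left _ _ _) (dist_mul_left _ _ _)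
  refine ⟨fun p => ∑ i ∈ Finset.range m, ω (f (sc i p)) (f (sc (i + 1) p)), fun p => ?_⟩
  filter_upwards [Metric.ball_mem_nhds p hη] with q hq
  have hpq : dist p q < η := by rw [dist_comm]; exact hq
  have key : ∀ i, ω (f (sc i q)) (f (sc (i + 1) q)) - ω (f (sc i p)) (f (sc (i + 1) p)) =
      ω (f (sc (i + 1) p)) (f (sc (i + 1) q)) - ω (f (sc i p)) (f (sc i q)) := by
    intro i
    have a1 := hsc1 i p
    have a2 := hsc1 i q
    have b1 := hsc2 i p q hpq
    have b2 := hsc2 (i + 1) p q hpq
    have c : dist (f (sc i p)) (f (sc (i + 1) q)) < δ := by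
      have := dist_triangle (f (sc i p)) (f (sc (i + 1) p)) (f (sc (i + 1) q))
      linarith
    have e1 := hω _ _ _ (by linarith : dist (f (sc i p)) (f (sc (i + 1) p)) < δ)
      (by linarith : dist (f (sc (i + 1) p)) (f (sc (i + 1) q)) < δ) c
    have e2 := hω _ _ _ (by linarith : dist (f (sc i p)) (f (sc i q)) < δ)
      (by linarith : dist (f (sc i q)) (f (sc (i + 1) q)) < δ) c
    linarith
  rw [← Finset.sum_sub_distrib, Finset.sum_congr rfl (fun i _ => key i),
    Finset.sum_range_sub (fun i => ω (f (sc i p)) (f (sc i q)))]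
  have h0 : ∀ r, sc 0 r = (0, 0) := by
    intro r; simp [sc, node_zero]
  have h1 : ∀ r, sc m r = r := by
    intro r; simp [sc, node_self hm0]
  rw [h0, h0, h1, h1, self_zero hδ hω]
  ring

theorem exists_prim (hδ : 0 < δ)
    (hω : ∀ x y z, dist x y < δ → dist y z < δ → dist x z < δ → ω x y + ω y z = ω x z)
    (f : I → X) (hf : Continuous f) : ∃ P, IsPrim ω f P := by
  obtain ⟨P, hP⟩ := exists_prim_sq hδ hω (fun p => f p.2) (hf.comp continuous_snd)
  exact ⟨_, hP.comp (g := fun s : I => ((0 : I), s)) (by fun_prop)⟩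

theorem prim_const (hδ : 0 < δ)
    (hω : ∀ x y z, dist x y < δ → dist y z < δ → dist x z < δ → ω x y + ω y z = ω x z)
    (x : X) {P : I → ℝ} (hP : IsPrim ω (fun _ : I => x) P) : P 1 = P 0 := by
  have h0 : IsPrim ω (fun _ : I => x) (fun _ => 0) := fun p =>
    Eventually.of_forall fun q => by simp [self_zero hδ hω]
  have := hP.uniq h0 1 0
  linarith

/-- First half of the unit interval. -/
noncomputable def lo (s : I) : I := ⟨s / 2, by
  constructor <;> linarith [s.2.1, s.2.2]⟩

/-- Second half of the unit interval. -/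
noncomputable def hi (s : I) : I := ⟨(s + 1) / 2, by
  constructor <;> linarith [s.2.1, s.2.2]⟩

theorem continuous_lo : Continuous lo := by
  unfold lo; fun_prop

theorem continuous_hi : Continuous hi := by
  unfold hi; fun_prop

theorem trans_lo {x y z : X} (γ : Path x y) (γ' : Path y z) (s : I) :
    (γ.trans γ') (lo s) = γ s := by
  rw [Path.trans_apply, dif_pos (by simp only [lo]; linarith [s.2.2])]
  congr 1
  ext
  simp only [lo]
  ring

theorem trans_hi {x y z : X} (γ : Path x y) (γ' : Path y z) (s : I) :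
    (γ.trans γ') (hi s) = γ' s := by
  rw [Path.trans_apply]
  split_ifs with h
  · have hs : s = 0 := by
      ext
      simp only [hi] at h
      have := s.2.1
      simp only [Set.Icc.coe_zero]
      linarith
    subst hs
    have : ∀ h', (⟨2 * (hi 0 : ℝ), h'⟩ : I) = 1 := by
      intro h'
      ext
      simp [hi]
    rw [this]
    simp
  · congr 1
    ext
    simp only [hi]
    ring

end Cocycle

open Cocycle unitInterval in
theorem cocycle : CocycleStmt.{u} := by
  intro X _ δ ω hδ hω
  have hex : ∀ (x y : X) (γ : Path x y), ∃ P, IsPrim ω (fun s : I => γ s) P := fun x y γ =>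
    exists_prim hδ hω _ γ.continuous
  choose P hP using hex
  have hW : ∀ (x y : X) (γ : Path x y) (Q : I → ℝ), IsPrim ω (fun s : I => γ s) Q →
      P x y γ 1 - P x y γ 0 = Q 1 - Q 0 := fun x y γ Q hQ => (hP x y γ).uniq hQ 1 0
  refine ⟨fun x y γ => P x y γ 1 - P x y γ 0, ?_, ?_, ?_⟩
  · rintro x y γ γ' ⟨H⟩
    obtain ⟨Q, hQ⟩ := exists_prim_sq hδ hω (fun p => H p) H.continuous
    have h0 := hQ.comp (g := fun s : I => ((0 : I), s)) (by fun_prop)
    have h1 := hQ.comp (g := fun s : I => ((1 : I), s)) (by fun_prop)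
    have h2 := hQ.comp (g := fun s : I => (s, (0 : I))) (by fun_prop)
    have h3 := hQ.comp (g := fun s : I => (s, (1 : I))) (by fun_prop)
    simp only [ContinuousMap.HomotopyWith.apply_zero, ContinuousMap.HomotopyWith.apply_one,
      Path.Homotopy.source, Path.Homotopy.target] at h0 h1 h2 h3
    have e0 := hW x y γ _ h0
    have e1 := hW x y γ' _ h1
    have e2 := prim_const hδ hω x h2
    have e3 := prim_const hδ hω y h3
    simp only at e0 e1 e2 e3 ⊢
    linarith
  · intro x y z γ γ'
    have h0 := (hP x z (γ.trans γ')).comp continuous_lo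
    have h1 := (hP x z (γ.trans γ')).comp continuous_hi
    simp only [trans_lo, trans_hi] at h0 h1
    have e0 := hW x y γ _ h0
    have e1 := hW y z γ' _ h1
    have a0 : lo 0 = 0 := by ext; simp [lo]
    have a1 : hi 1 = 1 := by ext; simp [hi]
    have a2 : lo 1 = hi 0 := by ext; simp [lo, hi]
    simp only [a0, a1, a2] at e0 e1 ⊢
    linarith
  · intro x y γ hγ
    have hQ : IsPrim ω (fun s : I => γ s) (fun s => ω x (γ s)) := by
      intro p
      refine Filter.Eventually.of_forall fun q => ?_
      have a1 := hγ p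
      have a2 := hγ q
      have a3 := dist_triangle_right (γ p) (γ q) x
      have := hω x (γ p) (γ q) (by rw [dist_comm]; linarith) (by linarith)
        (by rw [dist_comm]; linarith)
      simp only
      linarith
    have := hW x y γ _ hQ
    simp only [Path.source, Path.target, self_zero hδ hω] at this ⊢
    linarith

end Pool.Agent.P.MP_d05bff_gt
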