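import Pool.Agent.P.MP_d05bff_gt.Iface

/-!
From the covering bound for lattices to word length in a finite abelian group.
-/

namespace Pool.Agent.P.MP_d05bff_gt

open Matrix

universe u

namespace Comb

theorem exists_basis {G : Type u} [AddCommGroup G] [Finite G] {m : ℕ} (t : Fin m → G) :
    ∃ B : Matrix (Fin m) (Fin m) ℤ, B.det ≠ 0 ∧
      ∀ k : Fin m → ℤ, ∑ i, k i • t i = 0 ↔ ∃ l, B *ᵥ l = k := by
  set φ := Fintype.linearCombination ℤ t with hφ
  have hfin : Finite ((Fin m → ℤ) ⧸ LinearMap.ker φ) :=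
    Finite.of_injective _ (LinearMap.ker_eq_bot.1
      (Submodule.ker_liftQ_eq_bot (LinearMap.ker φ) φ le_rfl le_rfl))
  have hr := (Submodule.finiteQuotient_iff _).1 hfin
  have hr' : Module.finrank ℤ (LinearMap.ker φ) = m := by simpa using hr
  let b := Module.finBasisOfFinrankEq ℤ (LinearMap.ker φ) hr'
  let B : Matrix (Fin m) (Fin m) ℤ := Matrix.of fun i j => (b j : Fin m → ℤ) i
  have hB : ∀ l, B *ᵥ l = ((∑ j, l j • b j : LinearMap.ker φ) : Fin m → ℤ) := by
    intro l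
    funext i
    simp [B, mulVec, dotProduct, mul_comm]
  refine ⟨B, fun h => ?_, fun k => ⟨fun h => ?_, ?_⟩⟩
  · obtain ⟨v, hv, h0⟩ := Matrix.exists_mulVec_eq_zero_iff.2 h
    rw [hB, ZeroMemClass.coe_eq_zero] at h0
    exact hv (funext (Fintype.linearIndependent_iff.1 b.linearIndependent v h0))
  · have hk : k ∈ LinearMap.ker φ := by
      rw [LinearMap.mem_ker, hφ, Fintype.linearCombination_apply]
      exact h
    refine ⟨b.repr ⟨k, hk⟩, ?_⟩
    rw [hB, b.sum_repr]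
  · rintro ⟨l, rfl⟩
    have := (∑ j, l j • b j : LinearMap.ker φ).2
    rw [LinearMap.mem_ker, ← hB, hφ, Fintype.linearCombination_apply] at this
    exact this

theorem zc_mulVec {α β : Type} [Fintype β] (B : Matrix α β ℤ) (l : β → ℤ) :
    zc (B *ᵥ l) = mc B *ᵥ zc l := by
  funext i
  simp [zc, mc, mulVec, dotProduct]

theorem mc_det {ι : Type} [Fintype ι] [DecidableEq ι] (B : Matrix ι ι ℤ) :
    (mc B).det = (B.det : ℝ) := (Int.cast_det B).symm

theorem mc_inj {ι κ : Type} [Fintype ι] [Fintype κ] (U : Matrix ι κ ℤ)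
    (h : Function.Injective U.mulVec) : Function.Injective (mc U).mulVec := by
  rw [Matrix.mulVec_injective_iff] at h ⊢
  exact (linearIndependent_algebraMap_comp_iff (S := ℝ)).2 h

theorem qf_gram {ι : Type} [Fintype ι] [DecidableEq ι] (g : Matrix ι ι ℝ) (c : ℝ) (y : ι → ℝ) :
    qf (c • (gᵀ * g)) y = c * ((g *ᵥ y) ⬝ᵥ (g *ᵥ y)) := by
  rw [qf, smul_mulVec, dotProduct_smul, ← mulVec_mulVec, dotProduct_mulVec y, vecMul_transpose,
    smul_eq_mul]

theorem cls {m : ℕ} (B : Matrix (Fin m) (Fin m) ℤ) (hB : B.det ≠ 0)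
    (h : ∀ (r : ℕ) (τ : Fin r → Fin m → ℝ),
      (∀ j (l : Fin m → ℤ), ∃ z : ℤ, τ j ⬝ᵥ zc (B *ᵥ l) = z) →
      LinearIndependent ℝ τ → 1 ≤ 18 ^ r * (Matrix.of fun i j => τ i ⬝ᵥ τ j).det) :
    Cls ((1 / 18 : ℝ) • ((mc B)ᵀ * mc B)) := by
  set g := mc B with hg
  have hd : IsUnit g.det := by
    rw [hg, mc_det]
    exact (Int.cast_ne_zero.2 hB).isUnit
  have hu : IsUnit g := (Matrix.isUnit_iff_isUnit_det g).2 hd
  refine ⟨?_, fun r U hU => ?_⟩
  · have := Matrix.PosDef.conjTranspose_mul_self g (Matrix.mulVec_injective_of_isUnit hu)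
    rw [conjTranspose_eq_transpose_of_trivial] at this
    exact this.smul (by norm_num)
  have e1 : g⁻¹ * g = 1 := Matrix.nonsing_inv_mul g hd
  have e2 : g * g⁻¹ = 1 := Matrix.mul_nonsing_inv g hd
  have e3 : gᵀ * (g⁻¹)ᵀ = 1 := by rw [← transpose_mul, e1, transpose_one]
  have inv : ((1 / 18 : ℝ) • (gᵀ * g))⁻¹ = (18 : ℝ) • (g⁻¹ * (g⁻¹)ᵀ) := by
    refine Matrix.inv_eq_right_inv ?_
    rw [Matrix.smul_mul, Matrix.mul_smul, smul_smul, Matrix.mul_assoc, ← Matrix.mul_assoc g, e2,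
      Matrix.one_mul, e3]
    norm_num
  set T := (g⁻¹)ᵀ * mc U with hT
  have hTi : Function.Injective T.mulVec := by
    intro a b hab
    have := congrArg (gᵀ *ᵥ ·) hab
    simp only [mulVec_mulVec, hT, ← Matrix.mul_assoc, e3, Matrix.one_mul] at this
    exact mc_inj U hU this
  have key := h r T.col (fun j l => ⟨(Uᵀ *ᵥ l) j, ?_⟩) (Matrix.mulVec_injective_iff.1 hTi)
  · have e4 : (Matrix.of fun i j => T.col i ⬝ᵥ T.col j) = Tᵀ * T := by
      ext i j
      simp [Matrix.mul_apply, dotProduct]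
    have e5 : (mc U)ᵀ * ((18 : ℝ) • (g⁻¹ * (g⁻¹)ᵀ)) * mc U = (18 : ℝ) • (Tᵀ * T) := by
      rw [hT, transpose_mul, transpose_transpose, Matrix.mul_smul, Matrix.smul_mul]
      simp only [Matrix.mul_assoc]
    rw [inv, e5, det_smul, Fintype.card_fin, ← e4]
    exact key
  · have e6 : Tᵀ *ᵥ zc (B *ᵥ l) = zc (Uᵀ *ᵥ l) := by
      rw [zc_mulVec, zc_mulVec, mulVec_mulVec, hT, transpose_mul, transpose_transpose,
        Matrix.mul_assoc, ← hg, e1, Matrix.mul_one]
      rfl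
    exact congrFun e6 j

theorem exists_list {G : Type u} [AddCommGroup G] (S : Set G) (hS : ∀ s ∈ S, -s ∈ S) {m : ℕ}
    (t : Fin m → G) (ht : ∀ i, t i ∈ S) (z : Fin m → ℤ) (s : Finset (Fin m)) :
    ∃ l : List G, (∀ x ∈ l, x ∈ S) ∧ l.sum = ∑ i ∈ s, z i • t i ∧
      (l.length : ℝ) ≤ ∑ i ∈ s, (z i : ℝ) * z i := by
  induction s using Finset.induction_on with
  | empty => exact ⟨[], by simp, by simp, by simp⟩
  | insert a s ha ih =>
    obtain ⟨l, h1, h2, h3⟩ := ih
    have hz : (((z a).natAbs : ℕ) : ℝ) ≤ (z a : ℝ) * z a := by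
      have h4 : (((z a).natAbs : ℕ) : ℤ) ≤ z a * z a := by
        rw [← sq, ← Int.natAbs_sq]
        exact_mod_cast Nat.le_self_pow two_ne_zero _
      have h5 := (Int.cast_le (R := ℝ)).2 h4
      rwa [Int.cast_natCast, Int.cast_mul] at h5
    rw [Finset.sum_insert ha, Finset.sum_insert ha]
    rcases Int.natAbs_eq (z a) with h | h
    · refine ⟨List.replicate (z a).natAbs (t a) ++ l, fun x hx => ?_, ?_, ?_⟩
      · rcases List.mem_append.1 hx with hx | hx
        · rw [List.eq_of_mem_replicate hx]; exact ht a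
        · exact h1 x hx
      · rw [List.sum_append, List.sum_replicate, h2, ← natCast_zsmul, ← h]
      · rw [List.length_append, List.length_replicate, Nat.cast_add]
        linarith
    · refine ⟨List.replicate (z a).natAbs (-t a) ++ l, fun x hx => ?_, ?_, ?_⟩
      · rcases List.mem_append.1 hx with hx | hx
        · rw [List.eq_of_mem_replicate hx]; exact hS _ (ht a)
        · exact h1 x hx
      · rw [List.sum_append, List.sum_replicate, h2, ← natCast_zsmul, smul_neg, ← neg_smul, ← h]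
      · rw [List.length_append, List.length_replicate, Nat.cast_add]
        linarith

end Comb

open Comb in
theorem comb (hF : FFStmt) (hC : CoverStmt) (hG : GreedyStmt.{u}) : CombStmt.{u} := by
  obtain ⟨C, hC⟩ := hC
  refine ⟨72 * |C| * (3 / Real.log 2), fun G _ _ S hS hgen hrig x => ?_⟩
  obtain ⟨m, t, ht, htop, hm, hτ⟩ := hG G S hgen hrig
  obtain ⟨B, hB, hker⟩ := exists_basis t
  have hQ := cls B hB fun r τ h1 h2 => hτ r τ (fun j k hk => by
    obtain ⟨l, rfl⟩ := (hker k).1 hk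
    exact h1 j l) h2
  obtain ⟨a, ha⟩ : ∃ a : Fin m → ℤ, ∑ i, a i • t i = x := by
    have : x ∈ Submodule.span ℤ (Set.range t) := by
      rw [← Submodule.mem_toAddSubgroup, Submodule.span_int_eq_addSubgroupClosure, htop]
      trivial
    exact (Submodule.mem_span_range_iff_exists_fun ℤ).1 this
  have hd : IsUnit (mc B).det := by
    rw [mc_det]
    exact (Int.cast_ne_zero.2 hB).isUnit
  obtain ⟨k, hk⟩ := (hF.1 _ _ hQ.1).2.2.2.2.1 ((mc B)⁻¹ *ᵥ zc a)
  have hc := hC m _ hQ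
  rw [qf_gram, mulVec_sub, mulVec_mulVec, Matrix.mul_nonsing_inv _ hd, one_mulVec,
    ← zc_mulVec] at hk
  obtain ⟨l, h1, h2, h3⟩ := exists_list S hS t ht (a - B *ᵥ k) Finset.univ
  refine ⟨l, h1, ?_, h3.trans ?_⟩
  · rw [h2]
    simp only [Pi.sub_apply, sub_smul, Finset.sum_sub_distrib]
    rw [ha, (hker _).2 ⟨k, rfl⟩, sub_zero]
  · have e : ∑ i, (((a - B *ᵥ k) i : ℤ) : ℝ) * (((a - B *ᵥ k) i : ℤ) : ℝ) =
        (zc a - zc (B *ᵥ k)) ⬝ᵥ (zc a - zc (B *ᵥ k)) := by
      simp [zc, dotProduct]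
    have l2 : 0 < Real.log 2 := Real.log_pos one_lt_two
    have hm' : (m : ℝ) ≤ 3 / Real.log 2 * (1 + Real.log (Nat.card G)) := by
      have h4 : ((2 : ℝ)) ^ m ≤ (Nat.card G : ℝ) ^ 3 := by exact_mod_cast hm
      have h5 := Real.log_le_log (by positivity) h4
      rw [Real.log_pow, Real.log_pow] at h5
      rw [div_mul_eq_mul_div, le_div_iff₀ l2]
      push_cast at h5
      linarith
    have h6 : C * m ≤ |C| * (3 / Real.log 2 * (1 + Real.log (Nat.card G))) :=
      (mul_le_mul_of_nonneg_right (le_abs_self C) (Nat.cast_nonneg m)).trans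
        (mul_le_mul_of_nonneg_left hm' (abs_nonneg C))
    rw [e]
    linarith

end Pool.Agent.P.MP_d05bff_gt
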