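import Mathlib

/-!
Definitions used in the statement on the diameter of the universal abelian cover.
-/

namespace Pool.Agent.P.MP_d05bff_gt

open scoped ENNReal

universe u v

/-- First singular homology group with integer coefficients. -/
noncomputable def H1 (X : Type u) [TopologicalSpace X] : AddCommGrpCat.{u} :=
  ((AlgebraicTopology.singularHomologyFunctor AddCommGrpCat.{u} 1).obj
    (AddCommGrpCat.of (ULift.{u} ℤ))).obj (TopCat.of X)

/-- Length of a curve parametrised by the unit interval: its total variation. -/
noncomputable def curveLength {X : Type u} [MetricSpace X] (γ : unitInterval → X) : ℝ≥0∞ :=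
  eVariationOn γ Set.univ

/-- A length space: the distance of two points is the infimum of the lengths of the paths
joining them. -/
def IsLengthSpace (X : Type u) [MetricSpace X] : Prop :=
  ∀ x y : X, edist x y = ⨅ γ : Path x y, curveLength γ

/-- The lifted length metric on the total space of `p : E → X`: the infimum over paths in `E`
of the length of their images under `p`. -/
noncomputable def liftedDist {X : Type u} [MetricSpace X] {E : Type v} [TopologicalSpace E]
    (p : E → X) (a b : E) : ℝ≥0∞ :=
  ⨅ γ : Path a b, curveLength (p ∘ γ)

end Pool.Agent.P.MP_d05bff_gt
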