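import Pool.Agent.P.MP_d05bff_gt.Iface

/-!
The range of `δ - L` on test functions is dense in the weighted `L²` space.
-/

namespace Pool.Agent.P.MP_d05bff_gt

open MeasureTheory Filter Topology
open scoped Convolution

namespace Dense

variable {ι : Type} [Fintype ι]

lemma diff {f : (ι → ℝ) → ℝ} (hf : Smooth f) (x : ι → ℝ) : DifferentiableAt ℝ f x :=
  hf.differentiable (by simp) x

lemma sm_D {f : (ι → ℝ) → ℝ} (hf : Smooth f) (v : ι → ℝ) : Smooth (D v f) :=
  (contDiff_infty_iff_fderiv.1 hf).2.clm_apply contDiff_const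

omit [Fintype ι] in
lemma cs_D {f : (ι → ℝ) → ℝ} (hf : HasCompactSupport f) (v : ι → ℝ) :
    HasCompactSupport (D v f) := hf.fderiv_apply ℝ v

lemma D_add {f g : (ι → ℝ) → ℝ} (hf : Smooth f) (hg : Smooth g) (v : ι → ℝ) :
    D v (fun x => f x + g x) = fun x => D v f x + D v g x := by
  funext x
  simp only [D]
  rw [fderiv_fun_add (diff hf x) (diff hg x)]
  rfl

lemma D_mul {f g : (ι → ℝ) → ℝ} (hf : Smooth f) (hg : Smooth g) (v : ι → ℝ) :
    D v (fun x => f x * g x) = fun x => D v f x * g x + f x * D v g x := by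
  funext x
  simp only [D]
  rw [fderiv_fun_mul (diff hf x) (diff hg x)]
  simp only [add_apply, smul_apply, smul_eq_mul]
  ring

lemma D_cmul {f : (ι → ℝ) → ℝ} (hf : Smooth f) (c : ℝ) (v : ι → ℝ) :
    D v (fun x => c * f x) = fun x => c * D v f x := by
  rw [D_mul contDiff_const hf]
  funext x
  simp [D]

lemma D_exp {f : (ι → ℝ) → ℝ} (hf : Smooth f) (v : ι → ℝ) :
    D v (fun x => Real.exp (f x)) = fun x => D v f x * Real.exp (f x) := by
  funext x
  simp only [D]
  rw [(diff hf x).hasFDerivAt.exp.fderiv]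
  simp [mul_comm]

lemma D_sub_left {f : (ι → ℝ) → ℝ} (hf : Smooth f) (x v : ι → ℝ) :
    D v (fun y => f (x - y)) = fun y => -1 * D v f (x - y) := by
  funext y
  have h2 : HasFDerivAt (fun t : ι → ℝ => x - t) (-ContinuousLinearMap.id ℝ (ι → ℝ)) y :=
    (hasFDerivAt_id y).const_sub x
  have := ((diff hf (x - y)).hasFDerivAt.comp y h2).fderiv
  simp only [D]
  rw [show (fun t => f (x - t)) = f ∘ fun t : ι → ℝ => x - t from rfl, this]
  simp

lemma sm_sub_left {f : (ι → ℝ) → ℝ} (hf : Smooth f) (x : ι → ℝ) : Smooth fun y => f (x - y) :=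
  hf.comp (contDiff_const.sub contDiff_id)

omit [Fintype ι] in
lemma cs_sub_left {f : (ι → ℝ) → ℝ} (hf : HasCompactSupport f) (x : ι → ℝ) :
    HasCompactSupport fun y => f (x - y) := hf.comp_homeomorph (Homeomorph.subLeft x)

lemma int_D {f : (ι → ℝ) → ℝ} (hf : Smooth f) (hc : HasCompactSupport f) (v : ι → ℝ) :
    ∫ x, D v f x = 0 := by
  have := integral_mul_fderiv_eq_neg_fderiv_mul_of_integrable (μ := volume)
    (f := fun _ : ι → ℝ => (1 : ℝ)) (g := f) (v := v) (by simp)
    (by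
      simp only [one_mul]
      exact (sm_D hf v).continuous.integrable_of_hasCompactSupport (cs_D hc v))
    (by simpa using hf.continuous.integrable_of_hasCompactSupport hc)
    (fun _ _ => differentiableAt_const _) (fun x _ => diff hf x)
  simpa [D] using this

/-- half of the gradient of the potential -/
noncomputable def pp (v : ι → ℝ) (V : (ι → ℝ) → ℝ) : (ι → ℝ) → ℝ := fun x => 1 / 2 * D v V x

lemma sm_pp {V : (ι → ℝ) → ℝ} (hV : Smooth V) (v : ι → ℝ) : Smooth (pp v V) :=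
  contDiff_const.mul (sm_D hV v)

/-- the potential of the conjugated operator -/
noncomputable def W (b : ι → ι → ℝ) (V : (ι → ℝ) → ℝ) (x : ι → ℝ) : ℝ :=
  ∑ j, (pp (b j) V x ^ 2 - D (b j) (pp (b j) V) x)

lemma cont_W (b : ι → ι → ℝ) {V : (ι → ℝ) → ℝ} (hV : Smooth V) : Continuous (W b V) :=
  continuous_finsetSum _ fun _ _ =>
    ((sm_pp hV _).continuous.pow 2).sub (sm_D (sm_pp hV _) _).continuous

/-- the conjugated operator -/
noncomputable def T (b : ι → ι → ℝ) (V : (ι → ℝ) → ℝ) (δ : ℝ) (φ : (ι → ℝ) → ℝ) (x : ι → ℝ) :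
    ℝ := δ * φ x - ∑ j, D (b j) (D (b j) φ) x + W b V x * φ x

lemma cont_T (b : ι → ι → ℝ) {V φ : (ι → ℝ) → ℝ} (hV : Smooth V) (δ : ℝ) (hφ : Smooth φ) :
    Continuous (T b V δ φ) :=
  ((continuous_const.mul hφ.continuous).sub (continuous_finsetSum _ fun _ _ =>
    (sm_D (sm_D hφ _) _).continuous)).add ((cont_W b hV).mul hφ.continuous)

lemma cs_T (b : ι → ι → ℝ) (V : (ι → ℝ) → ℝ) (δ : ℝ) {φ : (ι → ℝ) → ℝ}
    (hc : HasCompactSupport φ) : HasCompactSupport (T b V δ φ) := by
  refine HasCompactSupport.intro hc fun x hx => ?_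
  have : ∀ j, D (b j) (D (b j) φ) x = 0 := fun j =>
    image_eq_zero_of_notMem_tsupport fun h =>
      hx (tsupport_fderiv_apply_subset ℝ _ (tsupport_fderiv_apply_subset ℝ _ h))
  simp [T, this, image_eq_zero_of_notMem_tsupport hx]

lemma energy (b : ι → ι → ℝ) {V f χ G : (ι → ℝ) → ℝ} (hV : Smooth V) (δ : ℝ) (hf : Smooth f)
    (hχ : Smooth χ) (hc : HasCompactSupport χ) (hG : Integrable G) {θ κ : ℝ}
    (h1 : ∀ x, χ x ^ 2 * (f x * T b V δ f x) ≤ θ * G x)
    (h2 : ∀ j x, (D (b j) χ x * f x) ^ 2 ≤ κ * G x) :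
    δ * ∫ x, (χ x * f x) ^ 2 ≤ (θ + Fintype.card ι * κ) * ∫ x, G x := by
  set F : ι → (ι → ℝ) → ℝ := fun j x =>
    (χ x * χ x) * (f x * (D (b j) f x + pp (b j) V x * f x)) with hF
  have s1 : ∀ j, Smooth fun x => pp (b j) V x * f x := fun j => (sm_pp hV _).mul hf
  have s2 : ∀ j, Smooth fun x => D (b j) f x + pp (b j) V x * f x :=
    fun j => (sm_D hf _).add (s1 j)
  have s3 : ∀ j, Smooth fun x => f x * (D (b j) f x + pp (b j) V x * f x) :=
    fun j => hf.mul (s2 j)
  have sF : ∀ j, Smooth (F j) := fun j => (hχ.mul hχ).mul (s3 j)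
  have cF : ∀ j, HasCompactSupport (F j) := fun j =>
    HasCompactSupport.intro hc fun x hx => by simp [hF, image_eq_zero_of_notMem_tsupport hx]
  have iF : ∀ j, Integrable (D (b j) (F j)) := fun j =>
    (sm_D (sF j) _).continuous.integrable_of_hasCompactSupport (cs_D (cF j) _)
  have key : ∀ x, δ * (χ x * f x) ^ 2 ≤
      (θ + Fintype.card ι * κ) * G x + ∑ j, D (b j) (F j) x := by
    intro x
    have a : ∀ j, 0 ≤ χ x ^ 2 * f x * (-D (b j) (D (b j) f) x +
        (pp (b j) V x ^ 2 - D (b j) (pp (b j) V) x) * f x) + D (b j) (F j) x + κ * G x := by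
      intro j
      have e : D (b j) (F j) x = _ := congrFun (D_mul (hχ.mul hχ) (s3 j) (b j)) x
      rw [D_mul hχ hχ, D_mul hf (s2 j), D_add (sm_D hf _) (s1 j), D_mul (sm_pp hV _) hf] at e
      have := h2 j x
      rw [e]
      nlinarith [sq_nonneg (χ x * D (b j) f x + χ x * f x * pp (b j) V x + D (b j) χ x * f x)]
    have a2 := Finset.sum_nonneg fun j (_ : j ∈ Finset.univ) => a j
    rw [Finset.sum_add_distrib, Finset.sum_add_distrib, ← Finset.mul_sum, Finset.sum_add_distrib,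
      ← Finset.sum_mul, Finset.sum_neg_distrib, Finset.sum_const, Finset.card_univ,
      nsmul_eq_mul] at a2
    have := h1 x
    simp only [T, W] at this
    nlinarith
  have i1 : Integrable fun x => (χ x * f x) ^ 2 :=
    ((hχ.continuous.mul hf.continuous).pow 2).integrable_of_hasCompactSupport
      (HasCompactSupport.intro hc fun x hx => by simp [image_eq_zero_of_notMem_tsupport hx])
  have i2 := integrable_finsetSum Finset.univ fun j _ => iF j
  have := integral_mono (i1.const_mul δ) ((hG.const_mul _).add i2) key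
  rw [integral_add' (hG.const_mul _) i2, integral_const_mul, integral_const_mul,
    integral_finsetSum _ fun j _ => iF j] at this
  simpa [int_D (sF _) (cF _)] using this

/-- mollification -/
noncomputable def mol (k φ : (ι → ℝ) → ℝ) (x : ι → ℝ) : ℝ := ∫ y, k y * φ (x - y)

lemma mol_eq (k φ : (ι → ℝ) → ℝ) : mol k φ = k ⋆[ContinuousLinearMap.mul ℝ ℝ, volume] φ := rfl

lemma sm_mol {k φ : (ι → ℝ) → ℝ} (hk : LocallyIntegrable k) (hφ : Smooth φ)
    (hc : HasCompactSupport φ) : Smooth (mol k φ) :=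
  hc.contDiff_convolution_right (ContinuousLinearMap.mul ℝ ℝ) hk hφ

lemma D_mol {k φ : (ι → ℝ) → ℝ} (hk : LocallyIntegrable k) (hφ : Smooth φ)
    (hc : HasCompactSupport φ) (v : ι → ℝ) : D v (mol k φ) = mol k (D v φ) := by
  funext x
  simp only [D]
  rw [mol_eq, (hc.hasFDerivAt_convolution_right (ContinuousLinearMap.mul ℝ ℝ) hk
    (hφ.of_le (by simp)) x).fderiv,
    convolution_precompR_apply _ hk (hc.fderiv ℝ) (hφ.continuous_fderiv (by simp))]
  rfl

lemma ik {k ψ : (ι → ℝ) → ℝ} (hk : MemLp k 2) (hψ : Continuous ψ) (hc : HasCompactSupport ψ) :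
    Integrable fun y => k y * ψ y :=
  hk.integrable_mul (q := 2) (hψ.memLp_of_hasCompactSupport hc)

lemma T_mol (b : ι → ι → ℝ) {V k η : (ι → ℝ) → ℝ} (hV : Smooth V) (δ : ℝ) (hk : MemLp k 2)
    (hη : Smooth η) (hc : HasCompactSupport η)
    (H : ∀ φ, Smooth φ → HasCompactSupport φ → ∫ y, k y * T b V δ φ y = 0) (x : ι → ℝ) :
    T b V δ (mol k η) x = ∫ y, k y * ((W b V x - W b V y) * η (x - y)) := by
  have hl : LocallyIntegrable k := hk.locallyIntegrable (by simp)
  have h0 := H _ (sm_sub_left hη x) (cs_sub_left hc x)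
  have i0 := ik hk (cont_T b hV δ (sm_sub_left hη x)) (cs_T b V δ (cs_sub_left hc x))
  have i1 := ik hk (sm_sub_left hη x).continuous (cs_sub_left hc x)
  have i2 : ∀ j, Integrable fun y => k y * D (b j) (D (b j) η) (x - y) := fun j =>
    ik hk (sm_sub_left (sm_D (sm_D hη _) _) x).continuous (cs_sub_left (cs_D (cs_D hc _) _) x)
  have i3 := integrable_finsetSum Finset.univ fun j _ => i2 j
  have e : ∀ j, D (b j) (D (b j) fun y => η (x - y)) = fun y => D (b j) (D (b j) η) (x - y) := by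
    intro j
    rw [D_sub_left hη, D_cmul (sm_sub_left (sm_D hη _) x), D_sub_left (sm_D hη _)]
    funext y
    ring
  have e2 : (fun y => k y * ((W b V x - W b V y) * η (x - y))) = fun y =>
      (δ + W b V x) * (k y * η (x - y)) - ∑ j, k y * D (b j) (D (b j) η) (x - y) -
        k y * T b V δ (fun y => η (x - y)) y := by
    funext y
    simp only [T, e, ← Finset.mul_sum]
    ring
  have i4 : Integrable fun y => (δ + W b V x) * (k y * η (x - y)) -
      ∑ j, k y * D (b j) (D (b j) η) (x - y) := (i1.const_mul _).sub i3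
  rw [e2, integral_sub i4 i0, integral_sub (i1.const_mul _) i3, h0, integral_const_mul,
    integral_finsetSum _ fun j _ => i2 j]
  simp only [T, D_mol hl hη hc, D_mol hl (sm_D hη _) (cs_D hc _), mol]
  ring

lemma jensen {k η : (ι → ℝ) → ℝ} (hk : MemLp k 2) (hη : Continuous η) (hc : HasCompactSupport η)
    (h0 : ∀ y, 0 ≤ η y) (h1 : ∫ y, η y = 1) (x : ι → ℝ) :
    mol (fun y => |k y|) η x ^ 2 ≤ mol (fun y => k y ^ 2) η x := by
  have c1 : Continuous fun y => η (x - y) := hη.comp (continuous_const.sub continuous_id)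
  have i0 := c1.integrable_of_hasCompactSupport (μ := volume) (cs_sub_left hc x)
  have i1 : Integrable fun y => |k y| * η (x - y) := ik hk.abs c1 (cs_sub_left hc x)
  obtain ⟨B, hB⟩ := hη.bounded_above_of_compact_support hc
  have i2 : Integrable fun y => k y ^ 2 * η (x - y) :=
    hk.integrable_sq.mul_bdd (c := B) c1.aestronglyMeasurable (Eventually.of_forall fun y => hB _)
  set m := mol (fun y => |k y|) η x with hm
  have := integral_mono ((i1.const_mul (2 * m)).sub (i0.const_mul (m ^ 2))) i2 fun y => by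
    have := mul_nonneg (sq_nonneg (|k y| - m)) (h0 (x - y))
    simp only [Pi.sub_apply]
    rw [← sq_abs (k y)]
    nlinarith
  rw [integral_sub' (i1.const_mul _) (i0.const_mul _), integral_const_mul, integral_const_mul,
    integral_sub_left_eq_self η volume x, h1] at this
  change 2 * m * m - _ ≤ mol (fun y => k y ^ 2) η x at this
  nlinarith

lemma abs_le_mol {k η a : (ι → ℝ) → ℝ} (hk : MemLp k 2) (hη : Continuous η)
    (hc : HasCompactSupport η) (h0 : ∀ y, 0 ≤ η y) (x : ι → ℝ) {M : ℝ}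
    (ha : ∀ y, η (x - y) ≠ 0 → |a y| ≤ M) :
    |∫ y, k y * (a y * η (x - y))| ≤ M * mol (fun y => |k y|) η x := by
  have c1 : Continuous fun y => η (x - y) := hη.comp (continuous_const.sub continuous_id)
  have i1 : Integrable fun y => |k y| * η (x - y) := ik hk.abs c1 (cs_sub_left hc x)
  rw [mol, ← integral_const_mul, ← Real.norm_eq_abs]
  refine norm_integral_le_of_norm_le (i1.const_mul M) (Eventually.of_forall fun y => ?_)
  rw [Real.norm_eq_abs, abs_mul, abs_mul, abs_of_nonneg (h0 _)]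
  by_cases h : η (x - y) = 0
  · simp [h]
  · have := mul_le_mul_of_nonneg_right (ha y h) (mul_nonneg (abs_nonneg (k y)) (h0 (x - y)))
    linarith

lemma step (b : ι → ι → ℝ) {V k : (ι → ℝ) → ℝ} (hV : Smooth V) (δ : ℝ) (hk : MemLp k 2)
    (H : ∀ φ, Smooth φ → HasCompactSupport φ → ∫ y, k y * T b V δ φ y = 0)
    (ρ : ContDiffBump (0 : ι → ℝ)) {χ : (ι → ℝ) → ℝ} (hχ : Smooth χ) (hc : HasCompactSupport χ)
    (hχ1 : ∀ x, χ x ^ 2 ≤ 1) {θ κ : ℝ} (hθ : 0 ≤ θ) (hκ : ∀ j x, D (b j) χ x ^ 2 ≤ κ)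
    (hW : ∀ x y, χ x ≠ 0 → dist x y < ρ.rOut → |W b V x - W b V y| ≤ θ) :
    δ * ∫ x, (χ x * mol k (ρ.normed volume) x) ^ 2 ≤
      (θ + Fintype.card ι * κ) * ∫ x, k x ^ 2 := by
  set η := ρ.normed volume with hη
  have sη : Smooth η := ρ.contDiff_normed
  have cη : HasCompactSupport η := ρ.hasCompactSupport_normed
  have h0 : ∀ y, 0 ≤ η y := ρ.nonneg_normed
  have h1 : ∫ y, η y = 1 := ρ.integral_normed
  have iη : Integrable η := ρ.integrable_normed
  have iG : Integrable (mol (fun y => k y ^ 2) η) :=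
    hk.integrable_sq.integrable_convolution (ContinuousLinearMap.mul ℝ ℝ) iη
  have eG : ∫ x, mol (fun y => k y ^ 2) η x = ∫ x, k x ^ 2 := by
    rw [mol_eq, integral_convolution _ hk.integrable_sq iη, h1]
    simp
  have J := jensen hk sη.continuous cη h0 h1
  have A : ∀ x, |mol k η x| ≤ mol (fun y => |k y|) η x := fun x => by
    have := abs_le_mol (a := fun _ => 1) (M := 1) hk sη.continuous cη h0 x (by simp)
    simp only [one_mul] at this
    exact this
  rw [← eG]
  refine energy b hV δ (sm_mol (hk.locallyIntegrable (by simp)) sη cη) hχ hc iG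
    (fun x => ?_) fun j x => ?_
  · have hm := (abs_nonneg _).trans (A x)
    by_cases hx : χ x = 0
    · simpa [hx] using mul_nonneg hθ ((sq_nonneg _).trans (J x))
    have B : |T b V δ (mol k η) x| ≤ θ * mol (fun y => |k y|) η x := by
      rw [T_mol b hV δ hk sη cη H]
      refine abs_le_mol hk sη.continuous cη h0 x fun y hy => hW x y hx ?_
      have : x - y ∈ Function.support η := hy
      rw [hη, ρ.support_normed_eq, mem_ball_zero_iff] at this
      rwa [dist_eq_norm]
    have C := mul_le_mul (A x) B (abs_nonneg _) hm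
    rw [← abs_mul] at C
    have C2 := mul_le_mul_of_nonneg_left (J x) hθ
    have C3 := mul_le_mul_of_nonneg_left (le_abs_self (mol k η x * T b V δ (mol k η) x))
      (sq_nonneg (χ x))
    have C4 := mul_le_mul_of_nonneg_right (hχ1 x) (abs_nonneg (mol k η x * T b V δ (mol k η) x))
    nlinarith
  · have C := pow_le_pow_left₀ (abs_nonneg _) (A x) 2
    rw [sq_abs] at C
    rw [mul_pow]
    exact mul_le_mul (hκ j x) (C.trans (J x)) (sq_nonneg _) ((sq_nonneg _).trans (hκ j x))

lemma cutoff (b : ι → ι → ℝ) : ∃ (C : ℝ) (χ : ℕ → (ι → ℝ) → ℝ), ∀ n, Smooth (χ n) ∧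
    HasCompactSupport (χ n) ∧ (∀ x, χ n x ^ 2 ≤ 1) ∧
    (∀ j x, D (b j) (χ n) x ^ 2 ≤ C * (1 / ((n : ℝ) + 1))) ∧ ∀ x, ‖x‖ ≤ n + 1 → χ n x = 1 := by
  let β : ContDiffBump (0 : ι → ℝ) := ⟨1, 2, one_pos, one_lt_two⟩
  have sβ : Smooth β := β.contDiff
  obtain ⟨C, hC⟩ := (sβ.continuous_fderiv (by simp)).bounded_above_of_compact_support
    (β.hasCompactSupport.fderiv ℝ)
  refine ⟨(C * ‖b‖) ^ 2, fun n x => β ((1 / ((n : ℝ) + 1)) • x), fun n => ?_⟩
  have hp : 0 < 1 / ((n : ℝ) + 1) := by positivity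
  have hp1 : 1 / ((n : ℝ) + 1) ≤ 1 := by
    rw [div_le_one (by positivity)]
    linarith [n.cast_nonneg (α := ℝ)]
  refine ⟨sβ.comp (contDiff_const_smul _), β.hasCompactSupport.comp_smul hp.ne', fun x => ?_,
    fun j x => ?_, fun x hx => β.one_of_mem_closedBall ?_⟩
  · exact pow_le_one₀ β.nonneg β.le_one
  · have h2 : HasFDerivAt (fun t : ι → ℝ => (1 / ((n : ℝ) + 1)) • t)
        ((1 / ((n : ℝ) + 1)) • ContinuousLinearMap.id ℝ (ι → ℝ)) x :=
      ((1 / ((n : ℝ) + 1)) • ContinuousLinearMap.id ℝ (ι → ℝ)).hasFDerivAt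
    have := ((diff sβ _).hasFDerivAt.comp x h2).fderiv
    simp only [D]
    rw [show (fun t => β ((1 / ((n : ℝ) + 1)) • t)) =
      β ∘ fun t : ι → ℝ => (1 / ((n : ℝ) + 1)) • t from rfl, this]
    simp only [ContinuousLinearMap.comp_apply, smul_apply,
      ContinuousLinearMap.id_apply, map_smul, smul_eq_mul]
    have h3 := ((fderiv ℝ β ((1 / ((n : ℝ) + 1)) • x)).le_opNorm (b j)).trans
      (mul_le_mul (hC _) (norm_le_pi_norm b j) (norm_nonneg _) ((norm_nonneg _).trans (hC 0)))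
    have h4 := pow_le_pow_left₀ (norm_nonneg _) h3 2
    rw [Real.norm_eq_abs, sq_abs] at h4
    rw [mul_pow, mul_comm]
    exact mul_le_mul h4 (by nlinarith) (sq_nonneg _) (sq_nonneg _)
  · rw [mem_closedBall_zero_iff, norm_smul, Real.norm_of_nonneg hp.le, one_div,
      inv_mul_le_iff₀ (by positivity)]
    simpa [β] using hx

lemma vanish (b : ι → ι → ℝ) {V k : (ι → ℝ) → ℝ} (hV : Smooth V) {δ : ℝ} (hδ : 0 < δ)
    (hk : MemLp k 2) (H : ∀ φ, Smooth φ → HasCompactSupport φ → ∫ y, k y * T b V δ φ y = 0) :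
    k =ᵐ[volume] 0 := by
  obtain ⟨C, χ, hχ⟩ := cutoff b
  have hl : LocallyIntegrable k := hk.locallyIntegrable (by simp)
  have he : ∀ n : ℕ, ∃ e : ℝ, 0 < e ∧ e ≤ 1 / ((n : ℝ) + 1) ∧ ∀ x y, χ n x ≠ 0 → dist x y < e →
      |W b V x - W b V y| ≤ 1 / ((n : ℝ) + 1) := by
    intro n
    have hp : 0 < 1 / ((n : ℝ) + 1) := by positivity
    obtain ⟨e, he, h⟩ := Metric.mem_uniformity_dist.1
      ((hχ n).2.1.isCompact.uniformContinuousAt_of_continuousAt (W b V)
        (fun a _ => (cont_W b hV).continuousAt) (Metric.dist_mem_uniformity hp))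
    refine ⟨min e _, lt_min he hp, min_le_right _ _, fun x y hx hd => ?_⟩
    exact le_of_lt (h (hd.trans_le (min_le_left _ _)) (subset_tsupport _ hx))
  choose e he0 he1 he2 using he
  let ρ : ℕ → ContDiffBump (0 : ι → ℝ) := fun n =>
    ⟨e n / 2, e n, half_pos (he0 n), half_lt_self (he0 n)⟩
  set f : ℕ → (ι → ℝ) → ℝ := fun n x => (χ n x * mol k ((ρ n).normed volume) x) ^ 2 with hf
  have t0 := tendsto_one_div_add_atTop_nhds_zero_nat (𝕜 := ℝ)
  have cf : ∀ n, Continuous (f n) := fun n => ((hχ n).1.continuous.mul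
    (sm_mol hl (ρ n).contDiff_normed (ρ n).hasCompactSupport_normed).continuous).pow 2
  have inf : ∀ n, Integrable (f n) := fun n => (cf n).integrable_of_hasCompactSupport
    (HasCompactSupport.intro (hχ n).2.1 fun x hx => by
      simp [hf, image_eq_zero_of_notMem_tsupport hx])
  have t1 : Tendsto (fun n => ∫ x, f n x) atTop (𝓝 0) := by
    have := (((t0.add ((t0.const_mul C).const_mul (Fintype.card ι : ℝ))).mul_const
      (∫ x, k x ^ 2))).const_mul δ⁻¹
    simp only [mul_zero, add_zero, zero_mul] at this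
    refine squeeze_zero (fun n => integral_nonneg fun x => sq_nonneg _) (fun n => ?_) this
    rw [le_inv_mul_iff₀ hδ]
    exact step b hV δ hk H (ρ n) (hχ n).1 (hχ n).2.1 (hχ n).2.2.1 (by positivity)
      (hχ n).2.2.2.1 (he2 n)
  have t2 : ∀ᵐ x, Tendsto (fun n => f n x) atTop (𝓝 (k x ^ 2)) := by
    have := ContDiffBump.ae_convolution_tendsto_right_of_locallyIntegrable (μ := volume)
      (φ := ρ) (l := atTop) (K := 2) (squeeze_zero (fun n => (he0 n).le) he1 t0)
      (Eventually.of_forall fun n => by simp only [ρ]; linarith) hl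
    filter_upwards [this] with x hx
    refine (hx.pow 2).congr' ?_
    filter_upwards [tendsto_natCast_atTop_atTop.eventually_ge_atTop ‖x‖] with n hn
    rw [convolution_eq_swap]
    simp only [hf, (hχ n).2.2.2.2 x (by linarith), one_mul, ContinuousLinearMap.lsmul_apply,
      smul_eq_mul, mol, mul_comm]
  have F := lintegral_liminf_le' (μ := volume) (u := atTop)
    (f := fun n x => ENNReal.ofReal (f n x)) fun n => (cf n).measurable.ennreal_ofReal.aemeasurable
  have e1 : ∀ n, ∫⁻ x, ENNReal.ofReal (f n x) = ENNReal.ofReal (∫ x, f n x) := fun n =>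
    (ofReal_integral_eq_lintegral_ofReal (inf n) (Eventually.of_forall fun x => sq_nonneg _)).symm
  simp only [e1] at F
  rw [(ENNReal.tendsto_ofReal t1).liminf_eq, lintegral_congr_ae
    (t2.mono fun x hx => (ENNReal.tendsto_ofReal hx).liminf_eq), ENNReal.ofReal_zero,
    nonpos_iff_eq_zero, lintegral_eq_zero_iff'
      (hk.1.aemeasurable.pow_const 2).ennreal_ofReal] at F
  filter_upwards [F] with x hx
  have : k x ^ 2 ≤ 0 := ENNReal.ofReal_eq_zero.1 hx
  exact pow_eq_zero_iff (two_ne_zero) |>.1 (le_antisymm this (sq_nonneg _))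

/-- the range of the conjugated operator -/
noncomputable def rng (b : ι → ι → ℝ) (V : (ι → ℝ) → ℝ) (δ : ℝ) :
    Submodule ℝ (Lp ℝ 2 (volume : Measure (ι → ℝ))) where
  carrier := {F | ∃ φ, Smooth φ ∧ HasCompactSupport φ ∧ F =ᵐ[volume] T b V δ φ}
  add_mem' := by
    rintro F G ⟨φ, h1, h2, h3⟩ ⟨ψ, g1, g2, g3⟩
    refine ⟨fun x => φ x + ψ x, h1.add g1, h2.add g2, ?_⟩
    filter_upwards [Lp.coeFn_add F G, h3, g3] with x e1 e2 e3
    rw [e1, Pi.add_apply, e2, e3]
    simp only [T, D_add h1 g1, D_add (sm_D h1 _) (sm_D g1 _), Finset.sum_add_distrib]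
    ring
  zero_mem' := by
    refine ⟨fun _ => 0, contDiff_const, HasCompactSupport.zero, ?_⟩
    filter_upwards [Lp.coeFn_zero ℝ 2 (volume : Measure (ι → ℝ))] with x e1
    have : ∀ v : ι → ℝ, D v (fun _ => (0 : ℝ)) = fun _ => 0 := fun v => by
      funext y
      simp [D]
    rw [e1]
    simp [T, this]
  smul_mem' := by
    rintro c F ⟨φ, h1, h2, h3⟩
    refine ⟨fun x => c * φ x, contDiff_const.mul h1, h2.mul_left, ?_⟩
    filter_upwards [Lp.coeFn_smul c F, h3] with x e1 e2
    rw [e1, Pi.smul_apply, e2]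
    simp only [T, D_cmul h1, D_cmul (sm_D h1 _), ← Finset.mul_sum, smul_eq_mul]
    ring

lemma conj (b : ι → ι → ℝ) {V φ : (ι → ℝ) → ℝ} (hV : Smooth V) (δ : ℝ) (hφ : Smooth φ)
    (x : ι → ℝ) :
    δ * (φ x * Real.exp (1 / 2 * V x)) - Lop b V (fun x => φ x * Real.exp (1 / 2 * V x)) x =
      T b V δ φ x * Real.exp (1 / 2 * V x) := by
  have s0 : Smooth fun x => 1 / 2 * V x := contDiff_const.mul hV
  have s1 : Smooth fun x => Real.exp (1 / 2 * V x) := s0.exp
  have e0 : ∀ v, D v (fun x => Real.exp (1 / 2 * V x)) =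
      fun x => pp v V x * Real.exp (1 / 2 * V x) := fun v => by
    rw [D_exp s0, D_cmul hV]
    rfl
  have e : ∀ v, D v (D v fun x => φ x * Real.exp (1 / 2 * V x)) x -
      D v V x * D v (fun x => φ x * Real.exp (1 / 2 * V x)) x =
      (D v (D v φ) x - (pp v V x ^ 2 - D v (pp v V) x) * φ x) * Real.exp (1 / 2 * V x) := by
    intro v
    rw [D_mul hφ s1, e0, D_add ((sm_D hφ v).mul s1) (hφ.mul ((sm_pp hV v).mul s1)),
      D_mul (sm_D hφ v) s1, D_mul hφ ((sm_pp hV v).mul s1), D_mul (sm_pp hV v) s1, e0]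
    have : D v V x = 2 * pp v V x := by simp [pp]
    simp only [this]
    ring
  simp only [Lop, e, T, W, ← Finset.sum_mul, Finset.sum_sub_distrib (s := Finset.univ)
    (f := fun j => D (b j) (D (b j) φ) x)]
  ring

end Dense

open _root_.Pool.Agent.P.MP_d05bff_gt.Dense in
theorem dense : DenseStmt := by
  intro ι _ _ b V g δ ε hV hg hi hδ hε
  have ex : ∀ x, (Real.exp (1 / 2 * V x))⁻¹ ^ 2 = Real.exp (-V x) := fun x => by
    rw [← Real.exp_neg, ← Real.exp_nat_mul]
    congr 1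
    push_cast
    ring
  have hG : MemLp (fun x => g x * (Real.exp (1 / 2 * V x))⁻¹) 2 := by
    have := hV.continuous
    have hc : Continuous fun x => g x * (Real.exp (1 / 2 * V x))⁻¹ :=
      hg.mul (Continuous.inv₀ (by fun_prop) fun x => (Real.exp_pos _).ne')
    rw [memLp_two_iff_integrable_sq hc.aestronglyMeasurable]
    simpa only [mul_pow, ex] using hi
  have hb : (rng b V δ)ᗮ = ⊥ := by
    rw [Submodule.eq_bot_iff]
    intro k hk
    refine Lp.eq_zero_iff_ae_eq_zero.2 (vanish b hV hδ (Lp.memLp k) fun φ h1 h2 => ?_)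
    have hm : MemLp (T b V δ φ) 2 := (cont_T b hV δ h1).memLp_of_hasCompactSupport (cs_T b V δ h2)
    have := Submodule.inner_right_of_mem_orthogonal (K := rng b V δ) (u := hm.toLp _)
      ⟨φ, h1, h2, hm.coeFn_toLp⟩ hk
    rw [L2.inner_def] at this
    rw [← this]
    refine integral_congr_ae ?_
    filter_upwards [hm.coeFn_toLp] with x hx
    rw [hx]
    simp
  have hd : hG.toLp _ ∈ closure (rng b V δ : Set (Lp ℝ 2 (volume : Measure (ι → ℝ)))) := by
    rw [← Submodule.topologicalClosure_coe, Submodule.topologicalClosure_eq_top_iff.2 hb]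
    trivial
  obtain ⟨F, ⟨φ, h1, h2, h3⟩, hF⟩ := Metric.mem_closure_iff.1 hd _ (Real.sqrt_pos.2 hε)
  refine ⟨fun x => φ x * Real.exp (1 / 2 * V x), h1.mul (contDiff_const.mul hV).exp,
    h2.mul_right, ?_⟩
  rw [dist_eq_norm, Real.lt_sqrt (norm_nonneg _), ← real_inner_self_eq_norm_sq, L2.inner_def] at hF
  refine le_of_eq_of_le (integral_congr_ae ?_) hF.le
  filter_upwards [Lp.coeFn_sub (hG.toLp _) F, hG.coeFn_toLp, h3] with x e1 e2 e3
  rw [e1, Pi.sub_apply, e2, e3, conj b hV δ h1, ← ex, real_inner_self_eq_norm_sq,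
    Real.norm_eq_abs, sq_abs, ← mul_pow]
  congr 1
  field_simp

end Pool.Agent.P.MP_d05bff_gt
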