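import Pool.Agent.P.MP_d05bff_gt.Iface

/-!
Gaussian sums over the dual lattice and the volume of a neighbourhood of a Voronoi cell.
-/

namespace Pool.Agent.P.MP_d05bff_gt

open MeasureTheory Matrix
open scoped Pointwise ENNReal

namespace DualAux

variable {ι : Type} [Fintype ι]

/-- The Gaussian `exp (-a |z|^2)`. -/
noncomputable def ga (a : ℝ) (z : ι → ℝ) : ℝ := Real.exp (-(a * (z ⬝ᵥ z)))

lemma ga_pos (a : ℝ) (z : ι → ℝ) : 0 < ga a z := Real.exp_pos _

lemma cont_dot : Continuous fun z : ι → ℝ => z ⬝ᵥ z := by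
  unfold dotProduct
  fun_prop

lemma cont_dot' (v : ι → ℝ) : Continuous fun z : ι → ℝ => v ⬝ᵥ z := by
  unfold dotProduct
  fun_prop

lemma cont_ga (a : ℝ) : Continuous (ga a : (ι → ℝ) → ℝ) := by
  unfold ga
  exact Real.continuous_exp.comp ((continuous_const.mul cont_dot).neg)

lemma ga_eq_prod (a : ℝ) (z : ι → ℝ) : ga a z = ∏ i, Real.exp (-a * z i ^ 2) := by
  rw [ga, ← Real.exp_sum]
  congr 1
  simp only [dotProduct, Finset.mul_sum, ← Finset.sum_neg_distrib]
  exact Finset.sum_congr rfl fun i _ => by ring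

lemma integrable_ga {a : ℝ} (ha : 0 < a) : Integrable (ga a : (ι → ℝ) → ℝ) := by
  have h : Integrable (fun x : ι → ℝ => ∏ i, Real.exp (-a * x i ^ 2))
      (Measure.pi fun _ => volume) :=
    Integrable.fintype_prod (f := fun _ (t : ℝ) => Real.exp (-a * t ^ 2))
      fun _ => integrable_exp_neg_mul_sq ha
  have e : (ga a : (ι → ℝ) → ℝ) = fun x : ι → ℝ => ∏ i, Real.exp (-a * x i ^ 2) :=
    funext fun z => ga_eq_prod a z
  rw [e]
  exact h

lemma integral_ga (a : ℝ) : ∫ z : ι → ℝ, ga a z = √(Real.pi / a) ^ Fintype.card ι := by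
  simp_rw [ga_eq_prod]
  rw [integral_fintype_prod_volume_eq_pow (fun t : ℝ => Real.exp (-a * t ^ 2)), integral_gaussian]

lemma lintegral_ga {a : ℝ} (ha : 0 < a) :
    ∫⁻ z : ι → ℝ, ENNReal.ofReal (ga a z) = ENNReal.ofReal (√(Real.pi / a) ^ Fintype.card ι) := by
  rw [← integral_ga, ofReal_integral_eq_lintegral_ofReal (integrable_ga ha)
    (Filter.Eventually.of_forall fun z => (ga_pos a z).le)]

lemma meas_ga (a : ℝ) : Measurable fun z : ι → ℝ => ENNReal.ofReal (ga a z) :=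
  (cont_ga a).measurable.ennreal_ofReal

lemma ga_sym (a : ℝ) (p y : ι → ℝ) : 2 * (ga a p * ga a y) ≤ ga a (p + y) + ga a (p - y) := by
  have e1 : ga a (p + y) = ga a p * ga a y * Real.exp (-(2 * a * (p ⬝ᵥ y))) := by
    simp only [ga, ← Real.exp_add, add_dotProduct, dotProduct_add, dotProduct_comm y p]
    congr 1
    ring
  have e2 : ga a (p - y) = ga a p * ga a y * Real.exp (2 * a * (p ⬝ᵥ y)) := by
    simp only [ga, ← Real.exp_add, sub_dotProduct, dotProduct_sub, dotProduct_comm y p]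
    congr 1
    ring
  have h1 := Real.add_one_le_exp (-(2 * a * (p ⬝ᵥ y)))
  have h2 := Real.add_one_le_exp (2 * a * (p ⬝ᵥ y))
  have hp : 0 < ga a p * ga a y := mul_pos (ga_pos _ _) (ga_pos _ _)
  rw [e1, e2]
  nlinarith

lemma setLIntegral_neg {W : Set (ι → ℝ)} (hW : MeasurableSet W) (hs : ∀ x ∈ W, -x ∈ W)
    (f : (ι → ℝ) → ℝ≥0∞) : ∫⁻ y in W, f (-y) = ∫⁻ y in W, f y := by
  rw [← lintegral_indicator hW, ← lintegral_indicator hW,
    ← lintegral_neg_eq_self (W.indicator f)]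
  congr 1
  funext y
  by_cases hy : y ∈ W
  · rw [Set.indicator_of_mem hy, Set.indicator_of_mem (hs y hy)]
  · have : -y ∉ W := fun h => hy (by simpa using hs _ h)
    rw [Set.indicator_of_notMem hy, Set.indicator_of_notMem this]

lemma shift_ge {W : Set (ι → ℝ)} (hW : MeasurableSet W) (hs : ∀ x ∈ W, -x ∈ W) (a : ℝ)
    (p : ι → ℝ) :
    ENNReal.ofReal (ga a p) * ∫⁻ y in W, ENNReal.ofReal (ga a y) ≤
      ∫⁻ y in W, ENNReal.ofReal (ga a (p + y)) := by
  have hm : Measurable fun y : ι → ℝ => ENNReal.ofReal (ga a (p + y)) :=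
    (meas_ga a).comp (measurable_const_add p)
  have e : ∫⁻ y in W, ENNReal.ofReal (ga a (p - y)) = ∫⁻ y in W, ENNReal.ofReal (ga a (p + y)) := by
    rw [← setLIntegral_neg hW hs fun y => ENNReal.ofReal (ga a (p + y))]
    simp only [sub_eq_add_neg]
  have h2 : 2 * (ENNReal.ofReal (ga a p) * ∫⁻ y in W, ENNReal.ofReal (ga a y)) ≤
      2 * ∫⁻ y in W, ENNReal.ofReal (ga a (p + y)) := by
    calc 2 * (ENNReal.ofReal (ga a p) * ∫⁻ y in W, ENNReal.ofReal (ga a y))
        = ∫⁻ y in W, 2 * (ENNReal.ofReal (ga a p) * ENNReal.ofReal (ga a y)) := by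
          rw [lintegral_const_mul _ ((meas_ga a).const_mul _), lintegral_const_mul _ (meas_ga a)]
      _ ≤ ∫⁻ y in W, (ENNReal.ofReal (ga a (p + y)) + ENNReal.ofReal (ga a (p - y))) := by
          refine lintegral_mono fun y => ?_
          rw [← ENNReal.ofReal_add (ga_pos _ _).le (ga_pos _ _).le,
            ← ENNReal.ofReal_mul (ga_pos _ _).le, ← ENNReal.ofReal_ofNat 2,
            ← ENNReal.ofReal_mul (by norm_num)]
          exact ENNReal.ofReal_le_ofReal (ga_sym a p y)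
      _ = 2 * ∫⁻ y in W, ENNReal.ofReal (ga a (p + y)) := by
          rw [lintegral_add_left hm, e, two_mul]
  exact (ENNReal.mul_le_mul_iff_right (by norm_num) (by norm_num)).1 h2

lemma period_le (L : AddSubgroup (ι → ℝ)) [Countable L] {W : Set (ι → ℝ)}
    (hF : IsAddFundamentalDomain L W volume) (hW : MeasurableSet W) (hs : ∀ x ∈ W, -x ∈ W)
    {a : ℝ} (ha : 0 < a) (z : ι → ℝ) :
    (∑' w : L, ENNReal.ofReal (ga a ((w : ι → ℝ) + z))) * ∫⁻ y in W, ENNReal.ofReal (ga a y) ≤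
      ENNReal.ofReal (√(Real.pi / a) ^ Fintype.card ι) := by
  rw [← lintegral_ga ha, ← lintegral_add_right_eq_self (μ := (volume : Measure (ι → ℝ))) _ z,
    hF.lintegral_eq_tsum'', ← ENNReal.tsum_mul_right]
  refine ENNReal.tsum_le_tsum fun w => ?_
  refine (shift_ge hW hs a _).trans (le_of_eq ?_)
  refine lintegral_congr fun y => ?_
  rw [AddSubgroup.vadd_def, vadd_eq_add]
  congr 2
  abel

lemma fourier_ga {a : ℝ} (ha : 0 < a) (v : ι → ℝ) :
    ∫ z : ι → ℝ, Real.cos (2 * Real.pi * (v ⬝ᵥ z)) * ga a z =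
      √(Real.pi / a) ^ Fintype.card ι * Real.exp (-(Real.pi ^ 2 / a * (v ⬝ᵥ v))) := by
  have hb : 0 < (a : ℂ).re := by simpa using ha
  have h0 := GaussianFourier.integral_cexp_neg_mul_sum_add (ι := ι) hb fun _ => 0
  have h1 := GaussianFourier.integral_cexp_neg_mul_sum_add (ι := ι) hb
    fun i => 2 * Real.pi * Complex.I * v i
  have e0 : ∀ z : ι → ℝ, Complex.exp (-(a : ℂ) * ∑ i, (z i : ℂ) ^ 2 + ∑ i, (0 : ℂ) * z i) =
      ((ga a z : ℝ) : ℂ) := by
    intro z
    simp only [ga, dotProduct, Complex.ofReal_exp]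
    congr 1
    push_cast
    simp only [zero_mul, Finset.sum_const_zero, add_zero, sq]
    ring
  have e1 : ∀ z : ι → ℝ, Complex.exp (-(a : ℂ) * ∑ i, (z i : ℂ) ^ 2 +
      ∑ i, (2 * Real.pi * Complex.I * v i) * z i) =
      ((ga a z : ℝ) : ℂ) * Complex.exp (((2 * Real.pi * (v ⬝ᵥ z) : ℝ) : ℂ) * Complex.I) := by
    intro z
    simp only [ga, dotProduct, Complex.ofReal_exp, ← Complex.exp_add]
    congr 1
    push_cast
    simp only [sq, Finset.mul_sum, Finset.sum_mul]
    congr 1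
    · rw [← Finset.sum_neg_distrib]
      exact Finset.sum_congr rfl fun i _ => by ring
    · exact Finset.sum_congr rfl fun i _ => by ring
  simp only [e0] at h0
  simp only [e1] at h1
  rw [integral_complex_ofReal, integral_ga] at h0
  simp only [ne_eq, OfNat.ofNat_ne_zero, not_false_eq_true, zero_pow, Finset.sum_const_zero,
    zero_div, Complex.exp_zero, mul_one] at h0
  rw [← h0] at h1
  have e2 : (∑ i, (2 * Real.pi * Complex.I * v i) ^ 2) / (4 * (a : ℂ)) =
      ((-(Real.pi ^ 2 / a * (v ⬝ᵥ v)) : ℝ) : ℂ) := by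
    have ha' : (a : ℂ) ≠ 0 := by exact_mod_cast ha.ne'
    simp only [dotProduct]
    push_cast
    rw [Finset.sum_div, Finset.mul_sum, ← Finset.sum_neg_distrib]
    refine Finset.sum_congr rfl fun i _ => ?_
    rw [mul_pow, mul_pow, Complex.I_sq]
    field_simp
    ring
  rw [e2, ← Complex.ofReal_exp] at h1
  have hi : Integrable fun z : ι → ℝ =>
      ((ga a z : ℝ) : ℂ) * Complex.exp (((2 * Real.pi * (v ⬝ᵥ z) : ℝ) : ℂ) * Complex.I) := by
    refine Integrable.mul_bdd (c := 1) (integrable_ga ha).ofReal ?_ ?_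
    · refine Continuous.aestronglyMeasurable ?_
      exact Complex.continuous_exp.comp
        ((Complex.continuous_ofReal.comp (continuous_const.mul (cont_dot' v))).mul continuous_const)
    · exact Filter.Eventually.of_forall fun z => (Complex.norm_exp_ofReal_mul_I _).le
  have h2 := congrArg Complex.re h1
  have h3 := integral_re hi
  simp only [RCLike.re_to_complex] at h3
  rw [← h3, ← Complex.ofReal_mul, Complex.ofReal_re] at h2
  rw [← h2]
  refine integral_congr_ae (Filter.Eventually.of_forall fun z => ?_)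
  simp only [Complex.re_ofReal_mul, Complex.exp_ofReal_mul_I_re]
  ring

lemma orth (L : AddSubgroup (ι → ℝ)) [Countable L] {W : Set (ι → ℝ)}
    (hF : IsAddFundamentalDomain L W volume) {u : ι → ℝ} (hu : u ≠ 0)
    (hL : ∀ w ∈ L, ∃ k : ℤ, u ⬝ᵥ w = k) :
    ∫ z in W, Real.cos (2 * Real.pi * (u ⬝ᵥ z)) = 0 := by
  have huu : u ⬝ᵥ u ≠ 0 := fun h => hu (dotProduct_self_eq_zero.1 h)
  set d : ι → ℝ := (1 / (2 * (u ⬝ᵥ u))) • u with hd
  have hud : u ⬝ᵥ d = 1 / 2 := by
    rw [hd, dotProduct_smul, smul_eq_mul]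
    field_simp
  have hF' : IsAddFundamentalDomain L (d +ᵥ W) volume := hF.vadd_of_comm d
  have h1 := hF.setIntegral_eq hF' (f := fun z => Real.cos (2 * Real.pi * (u ⬝ᵥ z))) (by
    intro g x
    obtain ⟨k, hk⟩ := hL g g.2
    simp only [AddSubgroup.vadd_def, vadd_eq_add, dotProduct_add, hk]
    rw [show 2 * Real.pi * ((k : ℝ) + u ⬝ᵥ x) = 2 * Real.pi * (u ⬝ᵥ x) + k * (2 * Real.pi) by ring,
      Real.cos_add_int_mul_two_pi])
  have h2 : ∫ z in d +ᵥ W, Real.cos (2 * Real.pi * (u ⬝ᵥ z)) =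
      ∫ z in W, Real.cos (2 * Real.pi * (u ⬝ᵥ (d + z))) :=
    (measurePreserving_vadd d volume).setIntegral_image_emb (measurableEmbedding_const_vadd d)
      (fun z => Real.cos (2 * Real.pi * (u ⬝ᵥ z))) W
  have h3 : ∫ z in W, Real.cos (2 * Real.pi * (u ⬝ᵥ (d + z))) =
      -∫ z in W, Real.cos (2 * Real.pi * (u ⬝ᵥ z)) := by
    rw [← integral_neg]
    refine integral_congr_ae (Filter.Eventually.of_forall fun z => ?_)
    simp only [dotProduct_add, hud]
    rw [show 2 * Real.pi * (1 / 2 + u ⬝ᵥ z) = 2 * Real.pi * (u ⬝ᵥ z) + Real.pi by ring,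
      Real.cos_add_pi]
  linarith

lemma intOn {W : Set (ι → ℝ)} (hb : Bornology.IsBounded W) {f : (ι → ℝ) → ℝ}
    (hf : Continuous f) : IntegrableOn f W :=
  (hf.continuousOn.integrableOn_compact hb.isCompact_closure).mono_set subset_closure

lemma jensen {W : Set (ι → ℝ)} (hb : Bornology.IsBounded W) {a F : ℝ} (ha : 0 < a)
    (hF : ∫ x in W, x ⬝ᵥ x ≤ F * (volume W).toReal) :
    Real.exp (-(a * F)) * (volume W).toReal ≤ ∫ y in W, ga a y := by
  have h1 : ∫ y in W, (Real.exp (-(a * F)) * (1 + a * F) - Real.exp (-(a * F)) * a * (y ⬝ᵥ y)) ≤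
      ∫ y in W, ga a y := by
    refine integral_mono (intOn hb (continuous_const.sub (continuous_const.mul cont_dot)))
      (intOn hb (cont_ga a)) fun y => ?_
    have h := Real.add_one_le_exp (a * F - a * (y ⬝ᵥ y))
    have e : ga a y = Real.exp (-(a * F)) * Real.exp (a * F - a * (y ⬝ᵥ y)) := by
      rw [ga, ← Real.exp_add]
      congr 1
      ring
    have hp := Real.exp_pos (-(a * F))
    simp only [e]
    nlinarith
  have hi : IntegrableOn (fun y : ι → ℝ => Real.exp (-(a * F)) * a * (y ⬝ᵥ y)) W :=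
    intOn hb (continuous_const.mul cont_dot)
  rw [integral_sub (intOn hb continuous_const) hi, setIntegral_const, integral_const_mul,
    smul_eq_mul, Measure.real] at h1
  have hp := Real.exp_pos (-(a * F))
  have := mul_le_mul_of_nonneg_left hF (mul_pos hp ha).le
  nlinarith

/-- Squared modulus of a trigonometric polynomial. -/
noncomputable def QQ (A : Finset (ι → ℝ)) (c : (ι → ℝ) → ℝ) (z : ι → ℝ) : ℝ :=
  ∑ v ∈ A, ∑ v' ∈ A, c v * c v' * Real.cos (2 * Real.pi * ((v - v') ⬝ᵥ z))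

lemma QQ_eq (A : Finset (ι → ℝ)) (c : (ι → ℝ) → ℝ) (z : ι → ℝ) :
    QQ A c z = (∑ v ∈ A, c v * Real.cos (2 * Real.pi * (v ⬝ᵥ z))) ^ 2 +
      (∑ v ∈ A, c v * Real.sin (2 * Real.pi * (v ⬝ᵥ z))) ^ 2 := by
  simp only [QQ, sq, Finset.sum_mul_sum, ← Finset.sum_add_distrib]
  refine Finset.sum_congr rfl fun v _ => Finset.sum_congr rfl fun v' _ => ?_
  rw [sub_dotProduct, mul_sub, Real.cos_sub]
  ring

lemma QQ_nonneg (A : Finset (ι → ℝ)) (c : (ι → ℝ) → ℝ) (z : ι → ℝ) : 0 ≤ QQ A c z := by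
  rw [QQ_eq]
  positivity

lemma cont_cos (v : ι → ℝ) : Continuous fun z : ι → ℝ => Real.cos (2 * Real.pi * (v ⬝ᵥ z)) :=
  Real.continuous_cos.comp (continuous_const.mul (cont_dot' v))

lemma cont_QQ (A : Finset (ι → ℝ)) (c : (ι → ℝ) → ℝ) : Continuous (QQ A c) := by
  unfold QQ
  exact continuous_finsetSum _ fun v _ => continuous_finsetSum _ fun v' _ =>
    continuous_const.mul (cont_cos _)

lemma int_cos {a : ℝ} (ha : 0 < a) (v : ι → ℝ) :
    Integrable fun z : ι → ℝ => Real.cos (2 * Real.pi * (v ⬝ᵥ z)) * ga a z :=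
  Integrable.bdd_mul (c := 1) (integrable_ga ha) (cont_cos v).aestronglyMeasurable
    (Filter.Eventually.of_forall fun z => by simpa using Real.abs_cos_le_one _)

lemma int_QQ {a : ℝ} (ha : 0 < a) (A : Finset (ι → ℝ)) (c : (ι → ℝ) → ℝ) :
    Integrable fun z : ι → ℝ => QQ A c z * ga a z := by
  simp only [QQ, Finset.sum_mul, mul_assoc]
  exact integrable_finsetSum _ fun v _ => integrable_finsetSum _ fun v' _ =>
    ((by simpa only [mul_assoc] using int_cos ha (v - v') :
      Integrable fun z : ι → ℝ =>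
        Real.cos (2 * (Real.pi * ((v - v') ⬝ᵥ z))) * ga a z).const_mul _).const_mul _

lemma QQ_cell (L : AddSubgroup (ι → ℝ)) [Countable L] {W : Set (ι → ℝ)}
    (hF : IsAddFundamentalDomain L W volume) (hb : Bornology.IsBounded W)
    (A : Finset (ι → ℝ)) (c : (ι → ℝ) → ℝ)
    (hA : ∀ v ∈ A, ∀ v' ∈ A, ∀ w ∈ L, ∃ k : ℤ, (v - v') ⬝ᵥ w = k) :
    ∫ z in W, QQ A c z = (∑ v ∈ A, c v ^ 2) * (volume W).toReal := by
  classical
  have hi : ∀ v v', IntegrableOn
      (fun z : ι → ℝ => c v * c v' * Real.cos (2 * Real.pi * ((v - v') ⬝ᵥ z))) W :=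
    fun v v' => intOn hb (continuous_const.mul (cont_cos _))
  unfold QQ
  rw [integral_finsetSum _ fun v _ => integrable_finsetSum _ fun v' _ => hi v v', Finset.sum_mul]
  refine Finset.sum_congr rfl fun v hv => ?_
  rw [integral_finsetSum _ fun v' _ => hi v v', Finset.sum_eq_single v]
  · simp [sq, Measure.real, mul_comm]
  · intro v' hv' hne
    rw [integral_const_mul, orth L hF (sub_ne_zero.2 hne.symm) (hA v hv v' hv'), mul_zero]
  · intro h
    exact absurd hv h

lemma QQ_unfold (L : AddSubgroup (ι → ℝ)) [Countable L] {W : Set (ι → ℝ)}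
    (hF : IsAddFundamentalDomain L W volume) (hW : MeasurableSet W) (hs : ∀ x ∈ W, -x ∈ W)
    (hb : Bornology.IsBounded W) {a : ℝ} (ha : 0 < a) (A : Finset (ι → ℝ)) (c : (ι → ℝ) → ℝ)
    (hA : ∀ v ∈ A, ∀ v' ∈ A, ∀ w ∈ L, ∃ k : ℤ, (v - v') ⬝ᵥ w = k) :
    (∫ z, QQ A c z * ga a z) * ∫ y in W, ga a y ≤
      (∫ z in W, QQ A c z) * √(Real.pi / a) ^ Fintype.card ι := by
  have hper : ∀ (w : L) (z : ι → ℝ), QQ A c ((w : ι → ℝ) + z) = QQ A c z := by
    intro w z
    refine Finset.sum_congr rfl fun v hv => Finset.sum_congr rfl fun v' hv' => ?_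
    obtain ⟨k, hk⟩ := hA v hv v' hv' w w.2
    rw [dotProduct_add, hk, show 2 * Real.pi * ((k : ℝ) + (v - v') ⬝ᵥ z) =
      2 * Real.pi * ((v - v') ⬝ᵥ z) + k * (2 * Real.pi) by ring, Real.cos_add_int_mul_two_pi]
  have hmQ : Measurable fun z : ι → ℝ => ENNReal.ofReal (QQ A c z) :=
    (cont_QQ A c).measurable.ennreal_ofReal
  have hmw : ∀ w : L, Measurable fun z : ι → ℝ => ENNReal.ofReal (ga a ((w : ι → ℝ) + z)) :=
    fun w => (meas_ga a).comp (measurable_const_add _)
  have n1 : 0 ≤ ∫ z, QQ A c z * ga a z :=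
    integral_nonneg fun z => mul_nonneg (QQ_nonneg _ _ _) (ga_pos _ _).le
  have n2 : 0 ≤ ∫ z in W, QQ A c z := integral_nonneg fun z => QQ_nonneg _ _ _
  rw [← ENNReal.ofReal_le_ofReal_iff (by positivity), ENNReal.ofReal_mul n1, ENNReal.ofReal_mul n2,
    ofReal_integral_eq_lintegral_ofReal (int_QQ ha A c)
      (Filter.Eventually.of_forall fun z => mul_nonneg (QQ_nonneg _ _ _) (ga_pos _ _).le),
    ofReal_integral_eq_lintegral_ofReal (intOn hb (cont_ga a))
      (Filter.Eventually.of_forall fun z => (ga_pos _ _).le),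
    ofReal_integral_eq_lintegral_ofReal (intOn hb (cont_QQ A c))
      (Filter.Eventually.of_forall fun z => QQ_nonneg _ _ _), hF.lintegral_eq_tsum'']
  have e : ∑' w : L, ∫⁻ z in W, ENNReal.ofReal (QQ A c (w +ᵥ z) * ga a (w +ᵥ z)) =
      ∫⁻ z in W, ENNReal.ofReal (QQ A c z) *
        ∑' w : L, ENNReal.ofReal (ga a ((w : ι → ℝ) + z)) := by
    simp_rw [← ENNReal.tsum_mul_left]
    rw [lintegral_tsum fun w => (hmQ.fun_mul (hmw w)).aemeasurable]
    refine tsum_congr fun w => lintegral_congr fun z => ?_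
    rw [AddSubgroup.vadd_def, vadd_eq_add, hper, ENNReal.ofReal_mul (QQ_nonneg _ _ _)]
  rw [e, ← lintegral_mul_const _ (hmQ.fun_mul (Measurable.tsum hmw)),
    ← lintegral_mul_const _ hmQ]
  refine lintegral_mono fun z => ?_
  rw [mul_assoc]
  exact mul_le_mul_right (period_le L hF hW hs ha z) _

lemma cell_ge (L : AddSubgroup (ι → ℝ)) [Countable L] {V : Set (ι → ℝ)}
    (hF : IsAddFundamentalDomain L V volume) (hV : MeasurableSet V)
    (hvor : ∀ x ∈ V, ∀ v ∈ L, x ⬝ᵥ x ≤ (x + v) ⬝ᵥ (x + v)) {a B : ℝ} (ha : 0 < a)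
    (hB : ∀ (x : ι → ℝ) (A : Finset (ι → ℝ)), (∀ v ∈ A, v ∈ L) → ∑ v ∈ A, ga a (x + v) ≤ B) :
    ENNReal.ofReal (√(Real.pi / (2 * a)) ^ Fintype.card ι) ≤
      ENNReal.ofReal B * ∫⁻ y in V, ENNReal.ofReal (ga a y) := by
  classical
  have hmw : ∀ (b : ℝ) (w : L), Measurable fun z : ι → ℝ => ENNReal.ofReal (ga b (w +ᵥ z)) :=
    fun b w => (meas_ga b).comp (measurable_const_add _)
  rw [← lintegral_ga (by positivity), hF.lintegral_eq_tsum'',
    ← lintegral_tsum fun w => (hmw _ w).aemeasurable, ← lintegral_const_mul _ (meas_ga a)]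
  refine setLIntegral_mono' hV fun x hx => ?_
  have h1 : ∑' w : L, ENNReal.ofReal (ga a (x + (w : ι → ℝ))) ≤ ENNReal.ofReal B := by
    refine ENNReal.summable.tsum_le_of_sum_le fun t => ?_
    rw [← ENNReal.ofReal_sum_of_nonneg fun w _ => (ga_pos _ _).le]
    refine ENNReal.ofReal_le_ofReal ?_
    have := hB x (t.map ⟨Subtype.val, Subtype.val_injective⟩) (by
      intro v hv
      obtain ⟨w, -, rfl⟩ := Finset.mem_map.1 hv
      exact w.2)
    rwa [Finset.sum_map] at this
  refine le_trans ?_ (mul_le_mul_left h1 _)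
  rw [← ENNReal.tsum_mul_right]
  refine ENNReal.tsum_le_tsum fun w => ?_
  rw [← ENNReal.ofReal_mul (ga_pos _ _).le, AddSubgroup.vadd_def, vadd_eq_add, add_comm _ x]
  refine ENNReal.ofReal_le_ofReal ?_
  simp only [ga, ← Real.exp_add]
  have := mul_le_mul_of_nonneg_left (hvor x hx w w.2) ha.le
  exact Real.exp_le_exp.2 (by linarith)

lemma nbhd_le {V : Set (ι → ℝ)} (hV : MeasurableSet V) (hs : ∀ x ∈ V, -x ∈ V)
    (hc : Convex ℝ V) {a : ℝ} (ha : 0 < a) (r : ℝ) :
    (ENNReal.ofReal (Real.exp (-(a * (Fintype.card ι * r ^ 2)))) *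
        ∫⁻ y in V, ENNReal.ofReal (ga a y)) * volume (V + Metric.closedBall (0 : ι → ℝ) r) ≤
      ENNReal.ofReal (2 ^ Fintype.card ι) * volume V *
        ENNReal.ofReal (√(Real.pi / a) ^ Fintype.card ι) := by
  set q : (ι → ℝ) → ℝ≥0∞ := fun y => ∫⁻ x in (2 : ℝ) • V, ENNReal.ofReal (ga a (y - x)) with hq
  have hm : Measurable fun p : (ι → ℝ) × (ι → ℝ) => ENNReal.ofReal (ga a (p.1 - p.2)) :=
    (meas_ga a).comp (measurable_fst.sub measurable_snd)
  have hqm : Measurable q := hm.lintegral_prod_right'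
  have hint : ∫⁻ y, q y = ENNReal.ofReal (2 ^ Fintype.card ι) * volume V *
      ENNReal.ofReal (√(Real.pi / a) ^ Fintype.card ι) := by
    simp only [hq]
    rw [lintegral_lintegral_swap hm.aemeasurable]
    simp only [lintegral_sub_right_eq_self (fun z : ι → ℝ => ENNReal.ofReal (ga a z)),
      lintegral_ga ha]
    rw [setLIntegral_const, Measure.addHaar_smul, Module.finrank_fintype_fun_eq_card,
      abs_of_nonneg (by positivity), mul_comm]
  rw [← hint]
  refine le_trans (mul_le_mul_right (measure_mono ?_) _) (mul_meas_ge_le_lintegral hqm _)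
  rintro _ ⟨x, hx, w, hw, rfl⟩
  have hw' : w ⬝ᵥ w ≤ Fintype.card ι * r ^ 2 := by
    rw [mem_closedBall_zero_iff] at hw
    calc w ⬝ᵥ w = ∑ i, w i * w i := rfl
      _ ≤ ∑ _i : ι, r ^ 2 := Finset.sum_le_sum fun i _ => by
          have h := (norm_le_pi_norm w i).trans hw
          rw [Real.norm_eq_abs] at h
          have := abs_nonneg (w i)
          nlinarith [abs_mul_abs_self (w i)]
      _ = Fintype.card ι * r ^ 2 := by simp
  have hsub : (fun z => x + z) '' V ⊆ (2 : ℝ) • V := by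
    rintro _ ⟨z, hz, rfl⟩
    refine ⟨(1 / 2 : ℝ) • x + (1 / 2 : ℝ) • z, hc hx hz (by norm_num) (by norm_num) (by norm_num), ?_⟩
    simp only [smul_add, smul_smul]
    norm_num
  show _ ≤ q (x + w)
  calc ENNReal.ofReal (Real.exp (-(a * (Fintype.card ι * r ^ 2)))) *
        ∫⁻ y in V, ENNReal.ofReal (ga a y)
      ≤ ENNReal.ofReal (ga a w) * ∫⁻ y in V, ENNReal.ofReal (ga a y) := by
        refine mul_le_mul_left (ENNReal.ofReal_le_ofReal (Real.exp_le_exp.2 ?_)) _
        have := mul_le_mul_of_nonneg_left hw' ha.le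
        linarith
    _ ≤ ∫⁻ y in V, ENNReal.ofReal (ga a (w + y)) := shift_ge hV hs a w
    _ = ∫⁻ y in V, ENNReal.ofReal (ga a (x + w - (x + y))) := by
        rw [← setLIntegral_neg hV hs fun y => ENNReal.ofReal (ga a (w + y))]
        refine lintegral_congr fun y => ?_
        congr 2
        abel
    _ = ∫⁻ y in (fun z => x + z) '' V, ENNReal.ofReal (ga a (x + w - y)) :=
        (measurePreserving_add_left volume x).setLIntegral_comp_emb
          (measurableEmbedding_addLeft x) (fun y => ENNReal.ofReal (ga a (x + w - y))) V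
    _ ≤ q (x + w) := lintegral_mono_set hsub

end DualAux

open DualAux

theorem dual1 : Dual1Stmt := by
  intro ι _ _ L _ W F S A hF hW hs hb hv hm hS hA
  set a : ℝ := 1 / (2 * S) with ha
  have ha0 : 0 < a := by positivity
  set c : (ι → ℝ) → ℝ := fun v => Real.exp (-(Real.pi ^ 2 / a * (v ⬝ᵥ v))) with hc
  set I : ℝ := √(Real.pi / a) ^ Fintype.card ι with hI
  have hI0 : 0 < I := by
    have := Real.pi_pos
    positivity
  set T : ℝ := ∑ v ∈ A, c v ^ 2 with hT
  have hT0 : 0 ≤ T := Finset.sum_nonneg fun v _ => sq_nonneg _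
  have eT : ∑ v ∈ A, Real.exp (-(4 * Real.pi ^ 2 * S * (v ⬝ᵥ v))) = T := by
    refine Finset.sum_congr rfl fun v _ => ?_
    simp only [hc, sq, ← Real.exp_add, ha]
    congr 1
    field_simp
    ring
  have hvol : 0 < (volume W).toReal := ENNReal.toReal_pos hv hb.measure_lt_top.ne
  have h1 := QQ_unfold L hF hW hs hb ha0 A c hA
  rw [QQ_cell L hF hb A c hA] at h1
  have h2 := jensen hb ha0 hm
  have hiC : Integrable fun z : ι → ℝ =>
      ∑ v ∈ A, c v * (Real.cos (2 * Real.pi * (v ⬝ᵥ z)) * ga a z) :=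
    integrable_finsetSum _ fun v _ => (int_cos ha0 v).const_mul _
  have h3 : ∫ z : ι → ℝ, ∑ v ∈ A, c v * (Real.cos (2 * Real.pi * (v ⬝ᵥ z)) * ga a z) = I * T := by
    rw [integral_finsetSum _ fun v _ => (int_cos ha0 v).const_mul _, hT, Finset.mul_sum]
    refine Finset.sum_congr rfl fun v _ => ?_
    rw [integral_const_mul, fourier_ga ha0]
    simp only [hc]
    ring
  have h4 : T ^ 2 * I ≤ ∫ z, QQ A c z * ga a z := by
    have h5 : ∫ z : ι → ℝ, (2 * T * (∑ v ∈ A, c v * (Real.cos (2 * Real.pi * (v ⬝ᵥ z)) * ga a z)) -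
        T ^ 2 * ga a z) ≤ ∫ z, QQ A c z * ga a z := by
      refine integral_mono ((hiC.const_mul _).sub ((integrable_ga ha0).const_mul _))
        (int_QQ ha0 A c) fun z => ?_
      simp only [← mul_assoc, ← Finset.sum_mul]
      rw [QQ_eq]
      have hp := ga_pos a z
      nlinarith [mul_nonneg (sq_nonneg ((∑ v ∈ A, c v * Real.cos (2 * Real.pi * (v ⬝ᵥ z))) - T))
        hp.le, mul_nonneg (sq_nonneg (∑ v ∈ A, c v * Real.sin (2 * Real.pi * (v ⬝ᵥ z)))) hp.le]
    rw [integral_sub (hiC.const_mul _) ((integrable_ga ha0).const_mul _), integral_const_mul,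
      integral_const_mul, h3, integral_ga] at h5
    nlinarith
  rw [eT]
  have hE := Real.exp_pos (-(a * F))
  have h6 : T ^ 2 * I * (Real.exp (-(a * F)) * (volume W).toReal) ≤ T * (volume W).toReal * I :=
    le_trans (mul_le_mul h4 h2 (by positivity) (le_trans (by positivity) h4)) h1
  have h7 : T * Real.exp (-(a * F)) ≤ 1 := by
    rcases hT0.eq_or_lt with h | h
    · rw [← h]
      simp
    · have : T * (volume W).toReal * I * (T * Real.exp (-(a * F))) ≤
          T * (volume W).toReal * I * 1 := by nlinarith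
      exact le_of_mul_le_mul_left this (by positivity)
  have e : Real.exp (-(a * F)) * Real.exp (F / (2 * S)) = 1 := by
    rw [← Real.exp_add, ← Real.exp_zero, ha]
    congr 1
    ring
  have hE' := Real.exp_pos (F / (2 * S))
  nlinarith

theorem dual2 : Dual2Stmt := by
  intro ι _ _ L _ V s B r hF hV hs hc hb hvor hs0 hB
  set a : ℝ := 1 / (4 * s) with ha
  have ha0 : 0 < a := by positivity
  have hB0 : 0 ≤ B := by simpa using hB 0 ∅ (by simp)
  have h1 := cell_ge L hF hV hvor ha0 (B := B) (by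
    intro x A hA
    refine le_trans (le_of_eq (Finset.sum_congr rfl fun v _ => ?_)) (hB x A hA)
    rw [ga, ha]
    congr 1
    ring)
  have h2 := nbhd_le hV hs hc ha0 r
  set n := Fintype.card ι
  set G := ∫⁻ y in V, ENNReal.ofReal (ga a y)
  set E : ℝ := Real.exp (n * r ^ 2 / (4 * s)) with hE
  have hE0 : 0 < E := Real.exp_pos _
  have eE : ENNReal.ofReal E * ENNReal.ofReal (Real.exp (-(a * (n * r ^ 2)))) = 1 := by
    rw [← ENNReal.ofReal_mul hE0.le, hE, ← Real.exp_add, ← ENNReal.ofReal_one, ← Real.exp_zero, ha]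
    congr 2
    ring
  have hpi := Real.pi_pos
  set J : ℝ := √(Real.pi / (2 * a)) with hJ
  have hJ0 : 0 < J := by positivity
  have h3 : 2 * √(Real.pi / a) ≤ 3 * J := by
    rw [hJ, ← abs_of_nonneg (by positivity : 0 ≤ 2 * √(Real.pi / a)),
      ← abs_of_nonneg (by positivity : 0 ≤ 3 * √(Real.pi / (2 * a))), ← sq_le_sq, mul_pow, mul_pow,
      Real.sq_sqrt (by positivity), Real.sq_sqrt (by positivity)]
    have : Real.pi / (2 * a) = Real.pi / a / 2 := by field_simp
    rw [this]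
    have : 0 < Real.pi / a := by positivity
    linarith
  have h4 : (2 : ℝ) ^ n * √(Real.pi / a) ^ n ≤ 3 ^ n * J ^ n := by
    rw [← mul_pow, ← mul_pow]
    exact pow_le_pow_left₀ (by positivity) h3 n
  refine (ENNReal.mul_le_mul_iff_right (a := ENNReal.ofReal (J ^ n))
    (by simpa using pow_pos hJ0 n) ENNReal.ofReal_ne_top).1 ?_
  calc ENNReal.ofReal (J ^ n) * volume (V + Metric.closedBall (0 : ι → ℝ) r)
      ≤ ENNReal.ofReal B * G * volume (V + Metric.closedBall (0 : ι → ℝ) r) :=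
        mul_le_mul_left h1 _
    _ = ENNReal.ofReal B * ENNReal.ofReal E *
          (ENNReal.ofReal (Real.exp (-(a * (n * r ^ 2)))) * G *
            volume (V + Metric.closedBall (0 : ι → ℝ) r)) := by
        rw [show ∀ b e e' g v : ℝ≥0∞, b * e * (e' * g * v) = e * e' * (b * g * v) from
          fun _ _ _ _ _ => by ring, eE, one_mul]
    _ ≤ ENNReal.ofReal B * ENNReal.ofReal E *
          (ENNReal.ofReal (2 ^ n) * volume V * ENNReal.ofReal (√(Real.pi / a) ^ n)) :=
        mul_le_mul_right h2 _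
    _ = ENNReal.ofReal (B * E * (2 ^ n * √(Real.pi / a) ^ n)) * volume V := by
        rw [ENNReal.ofReal_mul (by positivity), ENNReal.ofReal_mul hB0,
          ENNReal.ofReal_mul (by positivity)]
        ring
    _ ≤ ENNReal.ofReal (J ^ n * (B * 3 ^ n * E)) * volume V := by
        refine mul_le_mul_left (ENNReal.ofReal_le_ofReal ?_) _
        have := mul_le_mul_of_nonneg_left h4 (mul_nonneg hB0 hE0.le)
        linarith
    _ = ENNReal.ofReal (J ^ n) * (ENNReal.ofReal (B * 3 ^ n * E) * volume V) := by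
        rw [ENNReal.ofReal_mul (by positivity), mul_assoc]

end Pool.Agent.P.MP_d05bff_gt
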