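import Mathlib

/-!
Interface for the proof that the universal abelian cover has diameter `O(log |H_1|)`.
Definitions and the statements (as propositions) of the parts of the proof.
-/

namespace Pool.Agent.P.MP_d05bff_gt

open MeasureTheory Matrix
open scoped Pointwise

section Analysis

variable {ι : Type} [Fintype ι] [DecidableEq ι]

/-- Directional derivative of `f` along `v`. -/
noncomputable def D (v : ι → ℝ) (f : (ι → ℝ) → ℝ) : (ι → ℝ) → ℝ := fun x => fderiv ℝ f x v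

/-- The weighted Laplacian along the family `b` for the weight `exp (-V)`. -/
noncomputable def Lop (b : ι → ι → ℝ) (V u : (ι → ℝ) → ℝ) : (ι → ℝ) → ℝ :=
  fun x => ∑ j, (D (b j) (D (b j) u) x - D (b j) V x * D (b j) u x)

/-- Integral against the weight `exp (-V)`. -/
noncomputable def IV (V f : (ι → ℝ) → ℝ) : ℝ := ∫ x, f x * Real.exp (-V x)

/-- Smooth real functions. -/
abbrev Smooth (f : (ι → ℝ) → ℝ) : Prop := ContDiff ℝ (⊤ : ℕ∞) f

/-- Bounded polytope of positive volume. -/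
def IsBody (K : Set (ι → ℝ)) : Prop :=
  (∃ s : Finset ((ι → ℝ) × ℝ), K = {x | ∀ p ∈ s, p.1 ⬝ᵥ x ≤ p.2}) ∧
    Bornology.IsBounded K ∧ volume K ≠ 0

/-- Gaussian tilt weight. -/
noncomputable def wt (t : ℝ) (θ x : ι → ℝ) : ℝ := Real.exp (θ ⬝ᵥ x - t / 2 * (x ⬝ᵥ x))

/-- Partition function of the tilted measure on `K`. -/
noncomputable def Zf (K : Set (ι → ℝ)) (t : ℝ) (θ : ι → ℝ) : ℝ := ∫ x in K, wt t θ x

/-- Expectation for the tilted probability measure on `K`. -/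
noncomputable def Ex (K : Set (ι → ℝ)) (t : ℝ) (θ : ι → ℝ) (f : (ι → ℝ) → ℝ) : ℝ :=
  (∫ x in K, f x * wt t θ x) / Zf K t θ

/-- Barycentre of the tilted measure. -/
noncomputable def bar (K : Set (ι → ℝ)) (t : ℝ) (θ : ι → ℝ) : ι → ℝ :=
  fun i => Ex K t θ (fun x => x i)

/-- Covariance matrix of the tilted measure. -/
noncomputable def cov (K : Set (ι → ℝ)) (t : ℝ) (θ : ι → ℝ) : Matrix ι ι ℝ :=
  Matrix.of fun i j => Ex K t θ (fun x => x i * x j) - bar K t θ i * bar K t θ j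

/-- Centred third moment. -/
noncomputable def T3 (K : Set (ι → ℝ)) (t : ℝ) (θ u v w : ι → ℝ) : ℝ :=
  Ex K t θ fun x => (u ⬝ᵥ (x - bar K t θ)) * (v ⬝ᵥ (x - bar K t θ)) * (w ⬝ᵥ (x - bar K t θ))

omit [DecidableEq ι] in
theorem cov_isHermitian (K : Set (ι → ℝ)) (t : ℝ) (θ : ι → ℝ) : (cov K t θ).IsHermitian := by
  ext i j
  simp only [cov, conjTranspose_apply, of_apply, star_trivial]
  rw [mul_comm (bar K t θ j)]
  congr 2
  funext x
  ring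

/-- Eigenvalues of the covariance matrix. -/
noncomputable def lam (K : Set (ι → ℝ)) (t : ℝ) (θ : ι → ℝ) : ι → ℝ :=
  (cov_isHermitian K t θ).eigenvalues

/-- Orthonormal eigenvectors of the covariance matrix. -/
noncomputable def evec (K : Set (ι → ℝ)) (t : ℝ) (θ : ι → ℝ) (i : ι) : ι → ℝ :=
  fun a => (cov_isHermitian K t θ).eigenvectorBasis i a

/-- Average over the localisation process at time `t` (not normalised). -/
noncomputable def avg (K : Set (ι → ℝ)) (t : ℝ) (G : (ι → ℝ) → ℝ) : ℝ :=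
  ∫ w : ι → ℝ, Zf K t (√t • w) * G (√t • w) * Real.exp (-(w ⬝ᵥ w) / 2)

/-- Vector of tilted expectations. -/
noncomputable def Mv {J : Type} (K : Set (ι → ℝ)) (φ : (ι → ℝ) → J → ℝ) (t : ℝ) (θ : ι → ℝ) :
    J → ℝ := fun j => Ex K t θ (fun x => φ x j)

/-- Covariance of `φ` with the coordinate `k`. -/
noncomputable def Cv {J : Type} (K : Set (ι → ℝ)) (φ : (ι → ℝ) → J → ℝ) (t : ℝ) (θ : ι → ℝ)
    (k : ι) : J → ℝ :=
  fun j => Ex K t θ (fun x => φ x j * x k) - Ex K t θ (fun x => φ x j) * bar K t θ k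

/-- Divided difference of a first derivative, written through the second derivative `g`. -/
noncomputable def dd (g : ℝ → ℝ) (a b : ℝ) : ℝ := ∫ s in (0 : ℝ)..1, g (b + s * (a - b))

/-- Generator of the localisation process applied to `trace P(cov)`. -/
noncomputable def gen (K : Set (ι → ℝ)) (P : Polynomial ℝ) (t : ℝ) (θ : ι → ℝ) : ℝ :=
  -(∑ i, lam K t θ i ^ 2 * P.derivative.eval (lam K t θ i)) +
    1 / 2 * ∑ i, ∑ j, ∑ k, T3 K t θ (evec K t θ i) (evec K t θ j) (evec K t θ k) ^ 2 *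
      dd (fun z => P.derivative.derivative.eval z) (lam K t θ i) (lam K t θ j)

/-- Squared Hilbert-Schmidt distance of a matrix to the identity. -/
def hs1 (A : Matrix ι ι ℝ) : ℝ := ∑ i, ∑ j, (A i j - (1 : Matrix ι ι ℝ) i j) ^ 2

end Analysis

/-- Integration by parts and the Bochner formula. -/
def BochnerStmt : Prop :=
  ∀ (ι : Type) [Fintype ι] [DecidableEq ι] (b : ι → ι → ℝ) (V u : (ι → ℝ) → ℝ),
    Smooth V → Smooth u → HasCompactSupport u →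
    (∀ f : (ι → ℝ) → ℝ, ContDiff ℝ 1 f →
      IV V (fun x => f x * Lop b V u x) = -∑ j, IV V (fun x => D (b j) f x * D (b j) u x)) ∧
    IV V (fun x => Lop b V u x ^ 2) =
      ∑ i, ∑ j, IV V (fun x => D (b i) (D (b j) u) x ^ 2) +
        IV V (fun x => ∑ i, ∑ j, D (b i) (D (b j) V) x * D (b i) u x * D (b j) u x)

/-- The range of `δ - L` on test functions is dense in the weighted `L²` space. -/
def DenseStmt : Prop :=
  ∀ (ι : Type) [Fintype ι] [DecidableEq ι] (b : ι → ι → ℝ) (V g : (ι → ℝ) → ℝ) (δ ε : ℝ),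
    Smooth V → Continuous g → Integrable (fun x => g x ^ 2 * Real.exp (-V x)) → 0 < δ → 0 < ε →
    ∃ u : (ι → ℝ) → ℝ, Smooth u ∧ HasCompactSupport u ∧
      IV V (fun x => (g x - (δ * u x - Lop b V u x)) ^ 2) ≤ ε

/-- Lichnerowicz inequality and Klartag's improved Lichnerowicz inequality. -/
def PoincareStmt : Prop :=
  ∀ (ι : Type) [Fintype ι] [DecidableEq ι] (b d : ι → ι → ℝ) (V : (ι → ℝ) → ℝ) (t : ℝ),
    Smooth V → 0 < t → (∀ i j, d i ⬝ᵥ b j = if i = j then 1 else 0) →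
    (∀ (x c : ι → ℝ), t * ∑ j, c j ^ 2 ≤ ∑ i, ∑ j, D (b i) (D (b j) V) x * c i * c j) →
    Integrable (fun x => (1 + x ⬝ᵥ x) * Real.exp (-V x)) →
    ∀ f : (ι → ℝ) → ℝ, ContDiff ℝ 1 f → Integrable (fun x => f x ^ 2 * Real.exp (-V x)) →
      (∀ j, Integrable (fun x => D (b j) f x ^ 2 * Real.exp (-V x))) → IV V f = 0 →
      t * IV V (fun x => f x ^ 2) ≤ ∑ j, IV V (fun x => D (b j) f x ^ 2) ∧
      ∀ (u : ℝ) (a : ι → ℝ), 0 < u →
        (∀ c : ι → ℝ, IV V (fun x => (∑ j, c j * (d j ⬝ᵥ (x - a))) ^ 2) ≤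
          u * (∑ j, c j ^ 2) * IV V (fun _ => 1)) →
        √(t / u) * IV V (fun x => f x ^ 2) ≤ ∑ j, IV V (fun x => D (b j) f x ^ 2)

/-- Covariance and third moment bounds for tilted measures on polytopes. -/
def T3Stmt : Prop :=
  ∀ (ι : Type) [Fintype ι] [DecidableEq ι] (K : Set (ι → ℝ)) (t : ℝ) (θ : ι → ℝ),
    IsBody K → 0 < t →
    (∀ v : ι → ℝ, v ⬝ᵥ cov K t θ *ᵥ v ≤ (v ⬝ᵥ v) / t) ∧
    (∀ v : ι → ℝ, ∑ j, ∑ k, T3 K t θ v (Pi.single j 1) (Pi.single k 1) ^ 2 ≤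
      4 * (v ⬝ᵥ v) / t ^ 3) ∧
    ∀ (u : ℝ) (i : ι), 0 < u →
      ∑ j, ∑ k, (if lam K t θ j ≤ u ∧ lam K t θ k ≤ u then
          T3 K t θ (evec K t θ i) (evec K t θ j) (evec K t θ k) ^ 2 else 0) ≤
        4 * lam K t θ i * u * √(u / t)

/-- Ito formula for functions of tilted expectations. -/
def ItoStmt : Prop :=
  ∀ (ι : Type) [Fintype ι] [DecidableEq ι] (J : Type) [Fintype J] (K : Set (ι → ℝ))
    (φ : (ι → ℝ) → J → ℝ) (Ψ : (J → ℝ) → ℝ) (t : ℝ),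
    IsBody K → Continuous φ → ContDiff ℝ 2 Ψ → 0 < t →
    HasDerivAt (fun s => avg K s (fun θ => Ψ (Mv K φ s θ)))
      (avg K t (fun θ => 1 / 2 * ∑ k,
        fderiv ℝ (fderiv ℝ Ψ) (Mv K φ t θ) (Cv K φ t θ k) (Cv K φ t θ k))) t

/-- The generator formula for polynomial spectral functions of the covariance, and continuity of
spectral functions. -/
def GenStmt : Prop :=
  ∀ (ι : Type) [Fintype ι] [DecidableEq ι] (K : Set (ι → ℝ)), IsBody K →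
    (∀ f : ℝ → ℝ, Continuous f →
      Continuous (fun p : ℝ × (ι → ℝ) => ∑ i, f (lam K p.1 p.2 i))) ∧
    ∀ (P : Polynomial ℝ) (t : ℝ), 0 < t →
      Continuous (gen K P t) ∧ (∃ B, ∀ θ, |gen K P t θ| ≤ B) ∧
      HasDerivAt (fun s => avg K s (fun θ => ∑ i, P.eval (lam K s θ i))) (avg K t (gen K P t)) t

/-- Guan type bound: at a universal time some tilt has covariance close to the identity. -/
def GuanStmt : Prop :=
  ∃ t : ℝ, 0 < t ∧ t ≤ 1 ∧ ∀ (ι : Type) [Fintype ι] [DecidableEq ι] (K : Set (ι → ℝ)),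
    IsBody K → (∀ v : ι → ℝ, |v ⬝ᵥ cov K 0 0 *ᵥ v - v ⬝ᵥ v| ≤ (v ⬝ᵥ v) / 16) →
    ∃ θ, hs1 (cov K t θ) ≤ Fintype.card ι / 64

/-- Volume lower bound through the logarithmic Laplace transform. -/
def VolStmt : Prop :=
  ∀ (ι : Type) [Fintype ι] [DecidableEq ι] (K : Set (ι → ℝ)) (t ε : ℝ) (θ : ι → ℝ),
    IsBody K → 0 < t → t ≤ 1 → hs1 (cov K t θ) ≤ Fintype.card ι / 64 → 0 < ε → ε ≤ 1 / 2 →
    ENNReal.ofReal ((t ^ 2 / 16 * ε) ^ Fintype.card ι) ≤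
      volume (K + Metric.closedBall (0 : ι → ℝ) (ε ^ 4))

/-- Gaussian sums over the dual lattice are bounded by the second moment of a cell. -/
def Dual1Stmt : Prop :=
  ∀ (ι : Type) [Fintype ι] [DecidableEq ι] (L : AddSubgroup (ι → ℝ)) [Countable L]
    (W : Set (ι → ℝ)) (F S : ℝ) (A : Finset (ι → ℝ)),
    IsAddFundamentalDomain L W volume → MeasurableSet W → (∀ x ∈ W, -x ∈ W) →
    Bornology.IsBounded W → volume W ≠ 0 → ∫ x in W, x ⬝ᵥ x ≤ F * (volume W).toReal → 0 < S →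
    (∀ v ∈ A, ∀ v' ∈ A, ∀ w ∈ L, ∃ k : ℤ, (v - v') ⬝ᵥ w = k) →
    ∑ v ∈ A, Real.exp (-(4 * Real.pi ^ 2 * S * (v ⬝ᵥ v))) ≤ Real.exp (F / (2 * S))

/-- Volume upper bound for a neighbourhood of a Voronoi cell. -/
def Dual2Stmt : Prop :=
  ∀ (ι : Type) [Fintype ι] [DecidableEq ι] (L : AddSubgroup (ι → ℝ)) [Countable L]
    (V : Set (ι → ℝ)) (s B r : ℝ),
    IsAddFundamentalDomain L V volume → MeasurableSet V → (∀ x ∈ V, -x ∈ V) → Convex ℝ V →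
    Bornology.IsBounded V → (∀ x ∈ V, ∀ v ∈ L, x ⬝ᵥ x ≤ (x + v) ⬝ᵥ (x + v)) → 0 < s →
    (∀ (x : ι → ℝ) (A : Finset (ι → ℝ)), (∀ v ∈ A, v ∈ L) →
      ∑ v ∈ A, Real.exp (-((x + v) ⬝ᵥ (x + v)) / (4 * s)) ≤ B) →
    volume (V + Metric.closedBall (0 : ι → ℝ) r) ≤
      ENNReal.ofReal (B * 3 ^ Fintype.card ι *
        Real.exp (Fintype.card ι * r ^ 2 / (4 * s))) * volume V

section Lattice

variable {ι : Type} [Fintype ι] [DecidableEq ι]

/-- Quadratic form of a matrix. -/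
def qf (Q : Matrix ι ι ℝ) (y : ι → ℝ) : ℝ := y ⬝ᵥ Q *ᵥ y

/-- Integer vector seen as a real vector. -/
def zc (k : ι → ℤ) : ι → ℝ := fun i => (k i : ℝ)

/-- Squared distance to the integer lattice for the form `Q`. -/
noncomputable def dq (Q : Matrix ι ι ℝ) (y : ι → ℝ) : ℝ := ⨅ k : ι → ℤ, qf Q (y - zc k)

/-- Mean squared distance to the lattice. -/
noncomputable def FF (Q : Matrix ι ι ℝ) : ℝ :=
  ∫ y in Set.pi Set.univ (fun _ : ι => Set.Ico (0 : ℝ) 1), dq Q y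

/-- Voronoi cell of the origin. -/
def Vor (Q : Matrix ι ι ℝ) : Set (ι → ℝ) := {y | ∀ k : ι → ℤ, qf Q y ≤ qf Q (y - zc k)}

/-- Integer matrix seen as a real matrix. -/
def mc {α β : Type} (U : Matrix α β ℤ) : Matrix α β ℝ := U.map (fun z => (z : ℝ))

/-- The lattice generated by the columns of `g`. -/
def lat (g : Matrix ι ι ℝ) : AddSubgroup (ι → ℝ) where
  carrier := Set.range fun k : ι → ℤ => g *ᵥ zc k
  add_mem' := by
    rintro _ _ ⟨k, rfl⟩ ⟨l, rfl⟩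
    refine ⟨k + l, ?_⟩
    have : zc (k + l) = zc k + zc l := by funext i; simp [zc]
    simp only [this, mulVec_add]
  zero_mem' := ⟨0, by
    have : zc (0 : ι → ℤ) = 0 := by funext i; simp [zc]
    simp only [this, mulVec_zero]⟩
  neg_mem' := by
    rintro _ ⟨k, rfl⟩
    refine ⟨-k, ?_⟩
    have : zc (-k) = -zc k := by funext i; simp [zc]
    simp only [this, mulVec_neg]

instance (g : Matrix ι ι ℝ) : Countable (lat g) :=
  (Set.countable_range fun k : ι → ℤ => g *ᵥ zc k).to_subtype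

/-- Forms whose dual lattice has all sublattices of covolume at least one. -/
def Cls (Q : Matrix ι ι ℝ) : Prop :=
  Q.PosDef ∧ ∀ (r : ℕ) (U : Matrix ι (Fin r) ℤ), Function.Injective U.mulVec →
    1 ≤ ((mc U)ᵀ * Q⁻¹ * mc U).det

end Lattice

/-- Geometry of Voronoi cells. -/
def VorStmt : Prop :=
  ∀ (ι : Type) [Fintype ι] [DecidableEq ι],
    (∀ Q : Matrix ι ι ℝ, Q.PosDef → Bornology.IsBounded (Vor Q) ∧ MeasurableSet (Vor Q) ∧
      FF Q = ∫ y in Vor Q, qf Q y) ∧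
    ∀ g : Matrix ι ι ℝ, g.det ≠ 0 → ∀ V, V = (fun y => g *ᵥ y) '' Vor (gᵀ * g) →
      IsAddFundamentalDomain (lat g) V volume ∧ IsBody V ∧ MeasurableSet V ∧
      (∀ x ∈ V, -x ∈ V) ∧ Convex ℝ V ∧ (∀ x ∈ V, ∀ v ∈ lat g, x ⬝ᵥ x ≤ (x + v) ⬝ᵥ (x + v)) ∧
      volume V = ENNReal.ofReal |g.det| ∧
      ∀ f : (ι → ℝ) → ℝ, Continuous f →
        ∫ x in V, f x = |g.det| * ∫ y in Vor (gᵀ * g), f (g *ᵥ y)

/-- Basic properties of the mean squared distance. -/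
def FFStmt : Prop :=
  (∀ (ι : Type) [Fintype ι] [DecidableEq ι] (Q : Matrix ι ι ℝ), Q.PosDef →
    0 ≤ FF Q ∧ FF Q ≤ ∑ i, ∑ j, |Q i j| ∧ (∀ c : ℝ, 0 < c → FF (c • Q) = c * FF Q) ∧
    (∀ (Q' : Matrix ι ι ℝ) (c : ℝ), Q'.PosDef → 0 < c → (∀ x, qf Q x ≤ c * qf Q' x) →
      FF Q ≤ c * FF Q') ∧
    (∀ y : ι → ℝ, ∃ k : ι → ℤ, qf Q (y - zc k) ≤ 4 * FF Q) ∧
    (∀ a : ι → ℝ, HasDerivAt (fun ε : ℝ => FF (Q + ε • vecMulVec a a))
      (∫ y in Vor Q, (a ⬝ᵥ y) ^ 2) 0)) ∧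
  (∀ (ι κ : Type) [Fintype ι] [DecidableEq ι] [Fintype κ] [DecidableEq κ] (Q : Matrix ι ι ℝ)
    (W : Matrix ι κ ℤ) (W' : Matrix κ ι ℤ), Q.PosDef → W * W' = 1 → W' * W = 1 →
    FF ((mc W)ᵀ * Q * mc W) = FF Q) ∧
  ∀ (α β : Type) [Fintype α] [DecidableEq α] [Fintype β] [DecidableEq β]
    (Q : Matrix (α ⊕ β) (α ⊕ β) ℝ) (Q₁ : Matrix α α ℝ) (Q₂ : Matrix β β ℝ) (R : Matrix β α ℝ),
    Q.PosDef → Q₁.PosDef → Q₂.PosDef →
    (∀ x y, qf Q (Sum.elim x y) = qf Q₁ x + qf Q₂ (y + R *ᵥ x)) → FF Q ≤ FF Q₁ + FF Q₂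

/-- Matrix lemmas: monotone determinant, antitone inverse, adapted unimodular basis. -/
def MatStmt : Prop :=
  (∀ (ι : Type) [Fintype ι] [DecidableEq ι] (A B : Matrix ι ι ℝ),
    A.PosSemidef → (B - A).PosSemidef → A.det ≤ B.det) ∧
  (∀ (ι : Type) [Fintype ι] [DecidableEq ι] (Q Q' : Matrix ι ι ℝ) (c : ℝ),
    Q.PosDef → Q'.PosDef → 0 < c → (∀ x, qf Q x ≤ c * qf Q' x) →
    ∀ a, qf Q'⁻¹ a ≤ c * qf Q⁻¹ a) ∧
  ∀ (n r : ℕ) (U : Matrix (Fin n) (Fin r) ℤ), Function.Injective U.mulVec →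
    ∃ (l : ℕ) (W : Matrix (Fin n) (Fin r ⊕ Fin l) ℤ) (W' : Matrix (Fin r ⊕ Fin l) (Fin n) ℤ)
      (E : Matrix (Fin r) (Fin r) ℤ),
      r + l = n ∧ W * W' = 1 ∧ W' * W = 1 ∧ E.det ≠ 0 ∧ U = W.toCols₁ * E

/-- Splitting along an almost tight dual sublattice, crude bound, and duality. -/
def SplitStmt : Prop :=
  (∀ (n r : ℕ) (Q : Matrix (Fin n) (Fin n) ℝ) (U : Matrix (Fin n) (Fin r) ℤ) (κ : ℝ),
    Cls Q → Function.Injective U.mulVec → 0 ≤ κ → ((mc U)ᵀ * Q⁻¹ * mc U).det ≤ 1 + κ →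
    ∃ (l : ℕ) (Q₁ : Matrix (Fin r) (Fin r) ℝ) (Q₂ : Matrix (Fin l) (Fin l) ℝ),
      r + l = n ∧ Cls Q₁ ∧ Cls Q₂ ∧ FF Q ≤ FF Q₁ + (1 + κ) * FF Q₂) ∧
  (∀ n : ℕ, ∃ C : ℝ, ∀ Q : Matrix (Fin (n + 1)) (Fin (n + 1)) ℝ, Cls Q →
    ∃ Q₁ : Matrix (Fin n) (Fin n) ℝ, Cls Q₁ ∧ FF Q ≤ FF Q₁ + C) ∧
  ∀ (n : ℕ) (Q : Matrix (Fin n) (Fin n) ℝ), Cls Q → 1 / 2 ≤ Q.det → Cls ((1 / 2 : ℝ) • Q⁻¹)

/-- An almost isotropic Voronoi cell with controlled dual has bounded second moment. -/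
def GeoStmt : Prop :=
  ∃ C : ℝ, ∀ (n : ℕ) (Q : Matrix (Fin n) (Fin n) ℝ) (σ : ℝ), 0 < n → Q.PosDef → Q.det ≤ 1 →
    0 < σ → (∀ a, |(∫ y in Vor Q, (a ⬝ᵥ y) ^ 2) - σ * qf Q⁻¹ a| ≤ σ / 16 * qf Q⁻¹ a) →
    FF Q⁻¹ ≤ 4 * n * σ → σ ≤ C

/-- The covering bound for lattices all of whose quotients have covolume at most one. -/
def CoverStmt : Prop :=
  ∃ C : ℝ, ∀ (n : ℕ) (Q : Matrix (Fin n) (Fin n) ℝ), Cls Q → FF Q ≤ C * n

universe u

/-- Every real function additive on the triangles of `S` vanishes on `S`. -/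
def Rigid {G : Type u} [AddCommGroup G] (S : Set G) : Prop :=
  ∀ φ : G → ℝ, (∀ a ∈ S, ∀ b ∈ S, a + b ∈ S → φ (a + b) = φ a + φ b) → ∀ s ∈ S, φ s = 0

/-- Greedy choice of logarithmically many generators with a well spread dual lattice. -/
def GreedyStmt : Prop :=
  ∀ (G : Type u) [AddCommGroup G] [Finite G] (S : Set G), AddSubgroup.closure S = ⊤ → Rigid S →
    ∃ (m : ℕ) (t : Fin m → G), (∀ i, t i ∈ S) ∧ AddSubgroup.closure (Set.range t) = ⊤ ∧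
      2 ^ m ≤ Nat.card G ^ 3 ∧
      ∀ (r : ℕ) (τ : Fin r → Fin m → ℝ),
        (∀ j (k : Fin m → ℤ), ∑ i, k i • t i = 0 → ∃ z : ℤ, τ j ⬝ᵥ zc k = z) →
        LinearIndependent ℝ τ → 1 ≤ 18 ^ r * (Matrix.of fun i j => τ i ⬝ᵥ τ j).det

/-- The combinatorial theorem: rigid generating sets have logarithmic diameter. -/
def CombStmt : Prop :=
  ∃ C : ℝ, ∀ (G : Type u) [AddCommGroup G] [Finite G] (S : Set G), (∀ s ∈ S, -s ∈ S) →
    AddSubgroup.closure S = ⊤ → Rigid S →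
    ∀ g : G, ∃ l : List G, (∀ x ∈ l, x ∈ S) ∧ l.sum = g ∧
      (l.length : ℝ) ≤ C * (1 + Real.log (Nat.card G))

end Pool.Agent.P.MP_d05bff_gt
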