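import Mathlib
import Pool.Agent.P.MP_d05bff_gt.Iface

namespace Pool.Agent.P.MP_d05bff_gt

namespace Extremal

open MeasureTheory Matrix

section Basic

variable {ι κ : Type} [Fintype ι] [Fintype κ]

theorem qf_smul [DecidableEq ι] (c : ℝ) (Q : Matrix ι ι ℝ) (x : ι → ℝ) :
    qf (c • Q) x = c * qf Q x := by
  simp [qf, Matrix.smul_mulVec]

theorem qf_add [DecidableEq ι] (P Q : Matrix ι ι ℝ) (x : ι → ℝ) :
    qf (P + Q) x = qf P x + qf Q x := by
  simp [qf, Matrix.add_mulVec]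

theorem qf_sub [DecidableEq ι] (P Q : Matrix ι ι ℝ) (x : ι → ℝ) :
    qf (P - Q) x = qf P x - qf Q x := by
  simp [qf, Matrix.sub_mulVec]

theorem qf_one [DecidableEq ι] (x : ι → ℝ) : qf (1 : Matrix ι ι ℝ) x = x ⬝ᵥ x := by
  simp [qf]

theorem qf_conj [DecidableEq ι] [DecidableEq κ] (g : Matrix ι κ ℝ) (P : Matrix ι ι ℝ)
    (x : κ → ℝ) : qf (gᵀ * P * g) x = qf P (g *ᵥ x) := by
  unfold qf
  rw [← mulVec_mulVec, ← mulVec_mulVec, dotProduct_mulVec, vecMul_transpose]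

theorem dot_self_nonneg (x : ι → ℝ) : 0 ≤ x ⬝ᵥ x :=
  Finset.sum_nonneg fun i _ => mul_self_nonneg (x i)

theorem abs_qf_le [DecidableEq ι] (A : Matrix ι ι ℝ) (δ : ℝ) (h : ∀ i j, |A i j| ≤ δ)
    (x : ι → ℝ) : |qf A x| ≤ Fintype.card ι * δ * (x ⬝ᵥ x) := by
  have h1 : qf A x = ∑ i, ∑ j, x i * A i j * x j := by
    simp only [qf, dotProduct, mulVec, Finset.mul_sum, mul_assoc]
  have h2 : ∀ i j, |x i * A i j * x j| ≤ δ / 2 * (x i * x i) + δ / 2 * (x j * x j) := by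
    intro i j
    have h0 := abs_nonneg (A i j)
    have h3 := h i j
    have h4 : |x i| * |x j| ≤ (x i * x i + x j * x j) / 2 := by
      nlinarith [sq_nonneg (|x i| - |x j|), abs_mul_abs_self (x i), abs_mul_abs_self (x j)]
    have h5 : 0 ≤ |x i| * |x j| := by positivity
    calc |x i * A i j * x j| = |A i j| * (|x i| * |x j|) := by
          rw [abs_mul, abs_mul]; ring
      _ ≤ δ * ((x i * x i + x j * x j) / 2) := mul_le_mul h3 h4 h5 (h0.trans h3)
      _ = _ := by ring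
  rw [h1]
  calc |∑ i, ∑ j, x i * A i j * x j| ≤ ∑ i, ∑ j, |x i * A i j * x j| :=
        (Finset.abs_sum_le_sum_abs _ _).trans
          (Finset.sum_le_sum fun i _ => Finset.abs_sum_le_sum_abs _ _)
    _ ≤ ∑ i, ∑ j, (δ / 2 * (x i * x i) + δ / 2 * (x j * x j)) :=
        Finset.sum_le_sum fun i _ => Finset.sum_le_sum fun j _ => h2 i j
    _ = Fintype.card ι * δ * (x ⬝ᵥ x) := by
        simp only [Finset.sum_add_distrib, Finset.sum_const, Finset.card_univ, nsmul_eq_mul,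
          ← Finset.mul_sum, dotProduct]
        ring

theorem posDef_of [DecidableEq ι] (P : Matrix ι ι ℝ) (hs : Pᵀ = P) (c : ℝ) (hc : 0 < c)
    (h : ∀ x, c * (x ⬝ᵥ x) ≤ qf P x) : P.PosDef := by
  refine PosDef.of_dotProduct_mulVec_pos (by simpa [IsHermitian] using hs) fun x hx => ?_
  have h1 : 0 < x ⬝ᵥ x := by
    rcases (dot_self_nonneg x).lt_or_eq with h2 | h2
    · exact h2
    · exact absurd (dotProduct_self_eq_zero.mp h2.symm) hx
  have h2 := h x
  simp only [star_trivial]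
  exact lt_of_lt_of_le (mul_pos hc h1) h2

theorem posSemidef_of [DecidableEq ι] (P : Matrix ι ι ℝ) (hs : Pᵀ = P)
    (h : ∀ x, 0 ≤ qf P x) : P.PosSemidef :=
  PosSemidef.of_dotProduct_mulVec_nonneg (by simpa [IsHermitian] using hs) fun x => by
    simpa [qf] using h x

theorem qf_nonneg [DecidableEq ι] {P : Matrix ι ι ℝ} (h : P.PosSemidef) (x : ι → ℝ) :
    0 ≤ qf P x := by
  simpa [qf] using h.dotProduct_mulVec_nonneg x

omit [Fintype ι] in
theorem symm_of {P : Matrix ι ι ℝ} (h : P.PosSemidef) : Pᵀ = P := by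
  simpa [IsHermitian] using h.isHermitian

theorem posDef_conj [DecidableEq ι] {P : Matrix ι ι ℝ} (h : P.PosDef) {g : Matrix ι ι ℝ}
    (hg : g.det ≠ 0) : (gᵀ * P * g).PosDef := by
  have hi : Function.Injective g.mulVec := by
    intro x y hxy
    by_contra hne
    exact hg (exists_mulVec_eq_zero_iff.mp ⟨x - y, sub_ne_zero.mpr hne, by
      rw [mulVec_sub, hxy, sub_self]⟩)
  simpa using h.conjTranspose_mul_mul_same hi

theorem exists_sqrt [DecidableEq ι] {Q : Matrix ι ι ℝ} (h : Q.PosDef) :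
    ∃ g : Matrix ι ι ℝ, g.det ≠ 0 ∧ Q = gᵀ * g := by
  open scoped MatrixOrder in
  obtain ⟨B, hB⟩ := CStarAlgebra.nonneg_iff_eq_star_mul_self.mp h.posSemidef.nonneg
  have hB' : Q = Bᵀ * B := by simpa [star_eq_conjTranspose] using hB
  refine ⟨B, fun h0 => ?_, hB'⟩
  have := h.det_pos
  rw [hB', det_mul, h0, mul_zero] at this
  exact lt_irrefl _ this

theorem det_rank_one [DecidableEq ι] {Q : Matrix ι ι ℝ} (h : Q.det ≠ 0) (e : ℝ) (a : ι → ℝ) :
    (Q + e • vecMulVec a a).det = Q.det * (1 + e * qf Q⁻¹ a) := by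
  have h1 : Q + e • vecMulVec a a = Q * (1 + vecMulVec (e • (Q⁻¹ *ᵥ a)) a) := by
    rw [Matrix.mul_add, Matrix.mul_one, mul_vecMulVec, mulVec_smul, mulVec_mulVec,
      mul_nonsing_inv _ (isUnit_iff_ne_zero.mpr h), one_mulVec, smul_vecMulVec]
  rw [h1, det_mul, vecMulVec_eq Unit, det_one_add_replicateCol_mul_replicateRow,
    dotProduct_smul, smul_eq_mul, qf]

end Basic

theorem deriv_bound {ψ : ℝ → ℝ} {d K : ℝ} (hd : HasDerivAt ψ d 0)
    (h : ∀ᶠ e in nhds (0 : ℝ), ψ e - ψ 0 ≤ K * |e|) : |d| ≤ K := by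
  have ht := hasDerivAt_iff_tendsto_slope_zero.mp hd
  rw [abs_le]
  constructor
  · have h1 := ht.mono_left (nhdsLT_le_nhdsNE (0 : ℝ))
    refine ge_of_tendsto h1 ?_
    filter_upwards [h.filter_mono nhdsWithin_le_nhds, self_mem_nhdsWithin] with e he he0
    have he1 : e < 0 := he0
    rw [zero_add, smul_eq_mul, abs_of_neg he1] at *
    have : e⁻¹ * (ψ e - ψ 0) = (ψ e - ψ 0) / e := by ring
    rw [this, le_div_iff_of_neg he1]
    linarith
  · have h1 := ht.mono_left (nhdsGT_le_nhdsNE (0 : ℝ))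
    refine le_of_tendsto h1 ?_
    filter_upwards [h.filter_mono nhdsWithin_le_nhds, self_mem_nhdsWithin] with e he he0
    have he1 : 0 < e := he0
    rw [zero_add, smul_eq_mul, abs_of_pos he1] at *
    have : e⁻¹ * (ψ e - ψ 0) = (ψ e - ψ 0) / e := by ring
    rw [this, div_le_iff₀ he1]
    linarith

theorem scal_ineq (n : ℕ) (hn : 0 < n) (x : ℝ) (hx : |x| ≤ 1) :
    (1 - x / n) ^ n * (1 + x) ≤ 1 := by
  have hn' : (1 : ℝ) ≤ n := by exact_mod_cast hn
  have h1 := abs_le.mp hx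
  have h2 : 0 ≤ 1 - x / n := by
    rw [sub_nonneg, div_le_one (by linarith)]; linarith
  have h3 : 1 - x / n ≤ Real.exp (-(x / n)) := by
    have := Real.add_one_le_exp (-(x / n)); linarith
  have h4 : (1 - x / n) ^ n ≤ Real.exp (-x) := by
    calc (1 - x / n) ^ n ≤ Real.exp (-(x / n)) ^ n := pow_le_pow_left₀ h2 h3 n
      _ = Real.exp (-x) := by
        rw [← Real.exp_nat_mul]; congr 1; field_simp
  have h5 : 1 + x ≤ Real.exp x := by have := Real.add_one_le_exp x; linarith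
  calc (1 - x / n) ^ n * (1 + x) ≤ Real.exp (-x) * Real.exp x :=
        mul_le_mul h4 h5 (by linarith) (Real.exp_pos _).le
    _ = 1 := by rw [← Real.exp_add]; simp

/-- All proper dual sublattices have covolume bounded away from one. -/
def Mar {n : ℕ} (κ : ℝ) (Q : Matrix (Fin n) (Fin n) ℝ) : Prop :=
  ∀ (r : ℕ) (U : Matrix (Fin n) (Fin r) ℤ), 0 < r → r < n → Function.Injective U.mulVec →
    1 + κ ≤ ((mc U)ᵀ * Q⁻¹ * mc U).det

theorem det_le_one {n : ℕ} {Q : Matrix (Fin n) (Fin n) ℝ} (h : Cls Q) : Q.det ≤ 1 := by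
  have h1 := h.2 n 1 (by intro x y hxy; simpa using hxy)
  have h2 : mc (1 : Matrix (Fin n) (Fin n) ℤ) = 1 := by
    ext i j; simp [mc, one_apply]
  rw [h2, transpose_one, Matrix.one_mul, Matrix.mul_one, det_nonsing_inv,
    Ring.inverse_eq_inv'] at h1
  have := h.1.det_pos
  exact (one_le_inv₀ this).mp h1

theorem cls_of_mar (hM : MatStmt) {n : ℕ} {κ c : ℝ} {Q Q' : Matrix (Fin n) (Fin n) ℝ}
    (hQ : Q.PosDef) (hm : Mar κ Q) (hQ' : Q'.PosDef) (hc : 1 ≤ c) (hcn : c ^ n ≤ 1 + κ)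
    (hle : ∀ x, qf Q' x ≤ c * qf Q x) (hdet : Q'.det ≤ 1) : Cls Q' := by
  refine ⟨hQ', fun r U hU => ?_⟩
  obtain ⟨l, -, -, -, hl, -⟩ := hM.2.2 n r U hU
  rcases Nat.eq_zero_or_pos r with rfl | hr
  · simp
  rcases Nat.eq_zero_or_pos l with rfl | hl0
  · obtain rfl : r = n := by omega
    have hd : U.det ≠ 0 := by
      intro h0
      obtain ⟨v, hv, hv0⟩ := exists_mulVec_eq_zero_iff.mpr h0
      exact hv (hU (by rw [hv0, mulVec_zero]))
    have hd2 : (mc U).det = (U.det : ℝ) := by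
      have := (Int.castRingHom ℝ).map_det U
      simpa [mc, RingHom.mapMatrix_apply] using this.symm
    rw [det_mul, det_mul, det_transpose, hd2, det_nonsing_inv, Ring.inverse_eq_inv']
    have h1 : (1 : ℝ) ≤ (U.det : ℝ) * U.det := by
      have : 1 ≤ U.det * U.det := by
        have := mul_self_pos.mpr hd
        omega
      exact_mod_cast this
    have h2 : 1 ≤ Q'.det⁻¹ := (one_le_inv₀ hQ'.det_pos).mpr hdet
    nlinarith
  have h1 := hm r U hr (by omega) hU
  have h2 := hM.2.1 _ Q' Q c hQ' hQ (by linarith) hle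
  have hA : ((mc U)ᵀ * Q⁻¹ * mc U).PosSemidef := by
    simpa using hQ.inv.posSemidef.conjTranspose_mul_mul_same (mc U)
  have hB : ((mc U)ᵀ * Q'⁻¹ * mc U).PosSemidef := by
    simpa using hQ'.inv.posSemidef.conjTranspose_mul_mul_same (mc U)
  have h3 := hM.1 _ _ (c • ((mc U)ᵀ * Q'⁻¹ * mc U)) hA (posSemidef_of _
    (by rw [transpose_sub, transpose_smul, symm_of hA, symm_of hB]) fun x => by
      rw [qf_sub, qf_smul, qf_conj, qf_conj, sub_nonneg]; exact h2 _)
  rw [det_smul, Fintype.card_fin] at h3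
  have h4 : c ^ r ≤ c ^ n := pow_le_pow_right₀ hc (by omega)
  have h5 : 0 < c ^ r := by positivity
  by_contra h6
  push Not at h6
  nlinarith

end Extremal

end Pool.Agent.P.MP_d05bff_gt
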