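import Mathlib
import Pool.Agent.P.MP_d05bff_gt.Extremal1

namespace Pool.Agent.P.MP_d05bff_gt

namespace Extremal

open MeasureTheory Matrix

variable {n : ℕ}

/-- Perturbation of the form of `g` by the symmetric matrix `H`. -/
def Qh (g : Matrix (Fin n) (Fin n) ℝ) (H : Fin n → Fin n → ℝ) : Matrix (Fin n) (Fin n) ℝ :=
  gᵀ * (1 + Matrix.of H) * g

theorem entry_le (H : Fin n → Fin n → ℝ) (i j : Fin n) : |H i j| ≤ ‖H‖ :=
  (norm_le_pi_norm (H i) j).trans (norm_le_pi_norm H i)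

theorem qf_of_le (H : Fin n → Fin n → ℝ) (x : Fin n → ℝ) :
    |qf (Matrix.of H) x| ≤ n * ‖H‖ * (x ⬝ᵥ x) := by
  simpa using abs_qf_le (Matrix.of H) ‖H‖ (fun i j => entry_le H i j) x

theorem qf_Qh (g : Matrix (Fin n) (Fin n) ℝ) (H : Fin n → Fin n → ℝ) (x : Fin n → ℝ) :
    qf (Qh g H) x = (g *ᵥ x) ⬝ᵥ (g *ᵥ x) + qf (Matrix.of H) (g *ᵥ x) := by
  rw [Qh, qf_conj, qf_add, qf_one]

theorem Qh_zero (g : Matrix (Fin n) (Fin n) ℝ) : Qh g 0 = gᵀ * g := by
  have : (Matrix.of (0 : Fin n → Fin n → ℝ)) = 0 := rfl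
  simp [Qh, this]

theorem Qh_posDef {g : Matrix (Fin n) (Fin n) ℝ} (hg : g.det ≠ 0) {H : Fin n → Fin n → ℝ}
    (hs : ∀ i j, H i j = H j i) (hH : n * ‖H‖ ≤ 1 / 2) : (Qh g H).PosDef := by
  refine posDef_conj (posDef_of _ ?_ (1 / 2) (by norm_num) fun x => ?_) hg
  · rw [transpose_add, transpose_one]
    congr 1
    ext i j
    exact hs j i
  · rw [qf_add, qf_one]
    have h1 := (abs_le.mp (qf_of_le H x)).1
    have h2 := dot_self_nonneg x
    nlinarith

theorem Qh_le (g : Matrix (Fin n) (Fin n) ℝ) (H H' : Fin n → Fin n → ℝ)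
    (hH : n * ‖H'‖ ≤ 1 / 2) (x : Fin n → ℝ) :
    qf (Qh g H) x ≤ (1 + 2 * n * ‖H - H'‖) * qf (Qh g H') x := by
  rw [qf_Qh, qf_Qh]
  set y := g *ᵥ x
  have h1 := (abs_le.mp (qf_of_le H' y)).1
  have h2 := (abs_le.mp (qf_of_le (H - H') y)).2
  have h3 : (Matrix.of (H - H')) = Matrix.of H - Matrix.of H' := rfl
  rw [h3, qf_sub] at h2
  have h4 := dot_self_nonneg y
  have h5 : 0 ≤ (n : ℝ) * ‖H - H'‖ := by positivity
  have h6 : y ⬝ᵥ y ≤ 2 * (y ⬝ᵥ y + qf (Matrix.of H') y) := by nlinarith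
  nlinarith

theorem Qh_le0 (g : Matrix (Fin n) (Fin n) ℝ) (H : Fin n → Fin n → ℝ) (x : Fin n → ℝ) :
    qf (Qh g H) x ≤ (1 + n * ‖H‖) * qf (gᵀ * g) x := by
  have h0 : qf (gᵀ * g) x = (g *ᵥ x) ⬝ᵥ (g *ᵥ x) := by
    rw [← qf_one, ← qf_conj, Matrix.mul_one]
  rw [qf_Qh, h0]
  have h2 := (abs_le.mp (qf_of_le H (g *ᵥ x))).2
  linarith

theorem ekeland (hF : FFStmt) (hM : MatStmt) (hn : 0 < n) {M κ ρ η : ℝ}
    (hb : ∀ Q : Matrix (Fin n) (Fin n) ℝ, Cls Q → FF Q ≤ M) {Q₀ : Matrix (Fin n) (Fin n) ℝ}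
    (hQ : Cls Q₀) (hm : Mar κ Q₀) (hρ : 0 < ρ) (hρ1 : n * ρ ≤ 1 / 2)
    (hρ2 : (1 + n * ρ) ^ n ≤ 1 + κ) (hη : 0 < η) (hη1 : η ≤ ρ / 2) (h0 : M - η ^ 2 ≤ FF Q₀) :
    ∃ Q : Matrix (Fin n) (Fin n) ℝ, Cls Q ∧ M - η ^ 2 ≤ FF Q ∧
      ∀ a, |(∫ y in Vor Q, (a ⬝ᵥ y) ^ 2) - FF Q / n * qf Q⁻¹ a| ≤ 5 * η * qf Q⁻¹ a := by
  obtain ⟨g, hg, rfl⟩ := exists_sqrt hQ.1
  have hn1 : (1 : ℝ) ≤ n := by exact_mod_cast hn
  set N : Set (Fin n → Fin n → ℝ) :=
    {H | (∀ i j, H i j = H j i) ∧ ‖H‖ ≤ ρ ∧ (Qh g H).det ≤ 1} with hN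
  have hhalf : ∀ H ∈ N, n * ‖H‖ ≤ 1 / 2 := fun H hH =>
    (mul_le_mul_of_nonneg_left hH.2.1 (by positivity)).trans hρ1
  have hcls : ∀ H ∈ N, Cls (Qh g H) := fun H hH =>
    cls_of_mar hM hQ.1 hm (Qh_posDef hg hH.1 (hhalf H hH)) (c := 1 + n * ρ)
      (by have : 0 ≤ n * ρ := by positivity
          linarith) hρ2
      (fun x => (Qh_le0 g H x).trans (mul_le_mul_of_nonneg_right
        (by have := mul_le_mul_of_nonneg_left hH.2.1 (show (0 : ℝ) ≤ n by positivity)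
            linarith) (qf_nonneg hQ.1.posSemidef x))) hH.2.2
  have h0N : (0 : Fin n → Fin n → ℝ) ∈ N :=
    ⟨fun _ _ => rfl, by simpa using hρ.le, by rw [Qh_zero]; exact det_le_one hQ⟩
  have hcomp : IsCompact N := by
    refine (isCompact_closedBall (0 : Fin n → Fin n → ℝ) ρ).of_isClosed_subset ?_
      fun H hH => by simpa using hH.2.1
    have c1 : IsClosed {H : Fin n → Fin n → ℝ | ∀ i j, H i j = H j i} := by
      simp only [Set.ofPred_forall]
      exact isClosed_iInter fun i => isClosed_iInter fun j =>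
        isClosed_eq (by fun_prop) (by fun_prop)
    have c2 : IsClosed {H : Fin n → Fin n → ℝ | ‖H‖ ≤ ρ} :=
      isClosed_le continuous_norm continuous_const
    have c3 : IsClosed {H : Fin n → Fin n → ℝ | (Qh g H).det ≤ 1} := by
      refine isClosed_le (Continuous.matrix_det ?_) continuous_const
      have : Continuous fun H : Fin n → Fin n → ℝ => (Matrix.of H) := continuous_id
      exact (continuous_const.matrix_mul (continuous_const.add this)).matrix_mul continuous_const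
    exact c1.inter (c2.inter c3)
  have hlip : LipschitzOnWith (Real.toNNReal (2 * n * M)) (fun H => FF (Qh g H)) N := by
    refine LipschitzOnWith.of_le_add_mul' _ fun H hH H' hH' => ?_
    have h1 := (hF.1 _ _ (hcls H hH).1).2.2.2.1 (Qh g H') (1 + 2 * n * ‖H - H'‖)
      (hcls H' hH').1 (by positivity) (Qh_le g H H' (hhalf H' hH'))
    have h2 := hb _ (hcls H' hH')
    have h3 : 0 ≤ 2 * (n : ℝ) * ‖H - H'‖ := by positivity
    rw [dist_eq_norm]
    nlinarith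
  obtain ⟨H, hH, hmax⟩ := hcomp.exists_isMaxOn ⟨0, h0N⟩
    (f := fun H => FF (Qh g H) - η * ‖H‖)
    (hlip.continuousOn.sub (continuous_const.mul continuous_norm).continuousOn)
  have hmax' : ∀ H' ∈ N, FF (Qh g H') - η * ‖H'‖ ≤ FF (Qh g H) - η * ‖H‖ := fun H' h => hmax h
  have e0 := hmax' 0 h0N
  rw [Qh_zero, norm_zero, mul_zero, sub_zero] at e0
  have e1 := hb _ (hcls H hH)
  have e2 : ‖H‖ ≤ η := by
    by_contra h
    push Not at h
    nlinarith
  have e3 : M - η ^ 2 ≤ FF (Qh g H) := by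
    have := mul_nonneg hη.le (norm_nonneg H)
    linarith
  refine ⟨Qh g H, hcls H hH, e3, fun a => ?_⟩
  set Q := Qh g H with hQdef
  have hQp : Q.PosDef := (hcls H hH).1
  set t := qf Q⁻¹ a with ht
  have ht0 : 0 ≤ t := qf_nonneg hQp.inv.posSemidef a
  have hgu : IsUnit g.det := isUnit_iff_ne_zero.mpr hg
  have hgu' : IsUnit gᵀ.det := by rwa [det_transpose]
  set b : Fin n → ℝ := gᵀ⁻¹ *ᵥ a with hbdef
  have hab : gᵀ *ᵥ b = a := by
    rw [hbdef, mulVec_mulVec, mul_nonsing_inv _ hgu', one_mulVec]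
  have hbb : b ⬝ᵥ b ≤ 3 / 2 * t := by
    have h1 := hM.2.1 _ Q (gᵀ * g) (3 / 2) hQp hQ.1 (by norm_num) (fun x =>
      (Qh_le0 g H x).trans (mul_le_mul_of_nonneg_right (by have := hhalf H hH; linarith)
        (qf_nonneg hQ.1.posSemidef x))) a
    have h2 : qf (gᵀ * g)⁻¹ a = b ⬝ᵥ b := by
      rw [Matrix.mul_inv_rev, hbdef, ← qf_one, ← qf_conj, Matrix.mul_one, transpose_nonsing_inv,
        transpose_transpose]
    rwa [h2] at h1
  have hbij : ∀ i j, |b i * b j| ≤ 3 / 2 * t := by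
    intro i j
    have h1 : ∀ i, b i * b i ≤ b ⬝ᵥ b := fun i =>
      Finset.single_le_sum (f := fun i => b i * b i) (fun i _ => mul_self_nonneg (b i))
        (Finset.mem_univ i)
    have h2 := h1 i
    have h3 := h1 j
    rw [abs_le]
    constructor <;> nlinarith [sq_nonneg (b i + b j), sq_nonneg (b i - b j)]
  -- the perturbation
  let He : ℝ → Fin n → Fin n → ℝ := fun e i j =>
    (1 - e * t / n) * ((1 : Matrix (Fin n) (Fin n) ℝ) i j + H i j + e * (b i * b j)) -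
      (1 : Matrix (Fin n) (Fin n) ℝ) i j
  have hQe : ∀ e, Qh g (He e) = (1 - e * t / n) • (Q + e • vecMulVec a a) := by
    intro e
    have h1 : 1 + Matrix.of (He e) = (1 - e * t / n) • ((1 + Matrix.of H) + e • vecMulVec b b) := by
      ext i j
      simp [He, vecMulVec_apply]
    have h2 : gᵀ * vecMulVec b b * g = vecMulVec a a := by
      rw [mul_vecMulVec, vecMulVec_mul, hab, ← mulVec_transpose, hab]
    rw [Qh, h1, hQdef, Qh, ← h2]
    simp only [Matrix.mul_smul, Matrix.smul_mul, Matrix.mul_add, Matrix.add_mul]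
  have hdist : ∀ e, |e * t| ≤ 1 → ‖He e - H‖ ≤ 5 * t * |e| := by
    intro e he
    refine (pi_norm_le_iff_of_nonneg (by positivity)).mpr fun i =>
      (pi_norm_le_iff_of_nonneg (by positivity)).mpr fun j => ?_
    have h1 : (He e - H) i j = -(e * t / n) * ((1 : Matrix (Fin n) (Fin n) ℝ) i j + H i j) +
        (1 - e * t / n) * e * (b i * b j) := by
      simp only [He, Pi.sub_apply]; ring
    have h2 : |(1 : Matrix (Fin n) (Fin n) ℝ) i j + H i j| ≤ 2 := by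
      have h3 : |(1 : Matrix (Fin n) (Fin n) ℝ) i j| ≤ 1 := by
        rw [one_apply]; split_ifs <;> simp
      have h4 := entry_le H i j
      have h5 := hhalf H hH
      have h6 : ‖H‖ ≤ n * ‖H‖ := le_mul_of_one_le_left (norm_nonneg _) hn1
      have := abs_add_le ((1 : Matrix (Fin n) (Fin n) ℝ) i j) (H i j)
      linarith
    have h3 : |e * t / n| ≤ |e| * t := by
      rw [abs_div, abs_mul, abs_of_nonneg ht0, Nat.abs_cast]
      exact div_le_self (by positivity) hn1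
    have h4 : |1 - e * t / n| ≤ 2 := by
      have h5 : |e| * t ≤ 1 := by rwa [abs_mul, abs_of_nonneg ht0] at he
      have := abs_sub (1 : ℝ) (e * t / n)
      rw [abs_one] at this
      linarith
    rw [Real.norm_eq_abs, h1]
    refine (abs_add_le _ _).trans ?_
    rw [abs_mul, abs_neg, abs_mul, abs_mul]
    have h5 : |e * t / n| * |(1 : Matrix (Fin n) (Fin n) ℝ) i j + H i j| ≤ |e| * t * 2 :=
      mul_le_mul h3 h2 (abs_nonneg _) (by positivity)
    have h6 : |1 - e * t / n| * |e| * |b i * b j| ≤ 2 * |e| * (3 / 2 * t) :=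
      mul_le_mul (mul_le_mul_of_nonneg_right h4 (abs_nonneg _)) (hbij i j) (abs_nonneg _)
        (by positivity)
    nlinarith
  have hder : HasDerivAt (fun e : ℝ => (1 - e * t / n) * FF (Q + e • vecMulVec a a))
      ((∫ y in Vor Q, (a ⬝ᵥ y) ^ 2) - FF Q / n * t) 0 := by
    have h1 : HasDerivAt (fun e : ℝ => 1 - e * t / n) (-(t / n)) 0 := by
      simpa using (((hasDerivAt_id (0 : ℝ)).mul_const t).div_const (n : ℝ)).const_sub 1
    have h2 := h1.mul ((hF.1 _ _ hQp).2.2.2.2.2 a)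
    refine h2.congr_deriv ?_
    simp only [zero_smul, add_zero, zero_mul, zero_div, sub_zero, one_mul]
    ring
  refine deriv_bound hder ?_
  have hev1 : ∀ᶠ e in nhds (0 : ℝ), |e * t| < 1 / 2 :=
    ContinuousAt.eventually_lt (by fun_prop) continuousAt_const (by simp)
  have hev2 : ∀ᶠ e in nhds (0 : ℝ), 5 * t * |e| < ρ / 2 :=
    ContinuousAt.eventually_lt (by fun_prop) continuousAt_const (by simpa using hρ)
  filter_upwards [hev1, hev2] with e he1 he2
  have hd := hdist e (by linarith)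
  have hc : 0 < 1 - e * t / n := by
    have := (abs_lt.mp he1).2
    rw [sub_pos, div_lt_one (by linarith)]
    linarith
  have hnorm : ‖He e‖ ≤ ‖H‖ + ‖He e - H‖ := by
    simpa using norm_add_le H (He e - H)
  have hmem : He e ∈ N := by
    refine ⟨fun i j => ?_, by linarith, ?_⟩
    · simp only [He]
      rw [hH.1 i j, mul_comm (b i), one_apply, one_apply]
      simp only [eq_comm]
    · rw [hQe, det_smul, Fintype.card_fin, det_rank_one hQp.det_pos.ne', ← ht]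
      have h1 := scal_ineq n hn (e * t) (by linarith)
      have h2 : Q.det ≤ 1 := hH.2.2
      have h3 := hQp.det_pos
      nlinarith
  have hpd : (Q + e • vecMulVec a a).PosDef := by
    have h1 := (hcls _ hmem).1.smul (inv_pos.mpr hc)
    rwa [hQe, smul_smul, inv_mul_cancel₀ hc.ne', one_smul] at h1
  have h1 := hmax' _ hmem
  rw [hQe, (hF.1 _ _ hpd).2.2.1 _ hc] at h1
  simp only [zero_smul, add_zero, zero_mul, zero_div, sub_zero, one_mul]
  nlinarith

theorem exists_small {p : ℝ → Prop} (h : ∀ᶠ x in nhds (0 : ℝ), p x) : ∃ x, 0 < x ∧ p x := by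
  obtain ⟨x, h1, h2⟩ := ((h.filter_mono nhdsWithin_le_nhds).and
    (self_mem_nhdsWithin (a := (0 : ℝ)) (s := Set.Ioi 0))).exists
  exact ⟨x, h2, h1⟩

end Extremal

open Extremal Matrix in
theorem cover (hF : FFStmt) (hM : MatStmt) (hS : SplitStmt) (hG : GeoStmt) : CoverStmt := by
  obtain ⟨C₀, hG⟩ := hG
  refine ⟨max C₀ 1, fun n => ?_⟩
  set C := max C₀ 1 with hC
  have hC1 : 1 ≤ C := le_max_right _ _
  have hC0 : C₀ ≤ C := le_max_left _ _
  induction n using Nat.strong_induction_on with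
  | _ n ih =>
  intro Q₁ hQ₁
  rcases Nat.eq_zero_or_pos n with rfl | hn
  · simpa using (hF.1 _ _ hQ₁.1).2.1
  have hn1 : (1 : ℝ) ≤ n := by exact_mod_cast hn
  have hbdd : BddAbove {x | ∃ Q : Matrix (Fin n) (Fin n) ℝ, Cls Q ∧ FF Q = x} := by
    obtain ⟨m, rfl⟩ : ∃ m, n = m + 1 := ⟨n - 1, by omega⟩
    obtain ⟨C', hC'⟩ := hS.2.1 m
    refine ⟨C * m + C', ?_⟩
    rintro _ ⟨Q, hQ, rfl⟩
    obtain ⟨Q', h1, h2⟩ := hC' Q hQ
    have := ih m (by omega) Q' h1
    linarith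
  set M := sSup {x | ∃ Q : Matrix (Fin n) (Fin n) ℝ, Cls Q ∧ FF Q = x} with hMdef
  have hb : ∀ Q : Matrix (Fin n) (Fin n) ℝ, Cls Q → FF Q ≤ M := fun Q hQ =>
    le_csSup hbdd ⟨Q, hQ, rfl⟩
  by_contra hcon
  have hCM : C * n < M := lt_of_lt_of_le (not_le.mp hcon) (hb _ hQ₁)
  have hM0 : 0 < M := by nlinarith
  obtain ⟨κ, hκ, hκ1, hκ2⟩ : ∃ κ : ℝ, 0 < κ ∧ κ < 1 ∧ (1 + κ) * (C * n) < M :=
    exists_small ((ContinuousAt.eventually_lt (by fun_prop) continuousAt_const (by simp)).and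
      (ContinuousAt.eventually_lt (by fun_prop) continuousAt_const (by simpa using hCM)))
  obtain ⟨ρ, hρ, hρ1, hρ2⟩ : ∃ ρ : ℝ, 0 < ρ ∧ n * ρ < 1 / 2 ∧ (1 + n * ρ) ^ n < 1 + κ :=
    exists_small ((ContinuousAt.eventually_lt (by fun_prop) continuousAt_const (by simp)).and
      (ContinuousAt.eventually_lt (by fun_prop) continuousAt_const (by simpa using hκ)))
  have hnρ : 0 < n * ρ := by positivity
  obtain ⟨η, hη, hη1, hη2, hη3, hη4, hη5⟩ : ∃ η : ℝ, 0 < η ∧ η < ρ / 2 ∧ η < 1 / 80 ∧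
      (1 + κ) * (C * n) < M - η ^ 2 ∧ M < (1 + n * ρ) * (M - η ^ 2) ∧ M / 2 < M - η ^ 2 :=
    exists_small ((ContinuousAt.eventually_lt (by fun_prop) continuousAt_const
      (by simpa using hρ)).and ((ContinuousAt.eventually_lt (by fun_prop) continuousAt_const
      (by simp)).and ((ContinuousAt.eventually_lt continuousAt_const (by fun_prop)
      (by simpa using hκ2)).and ((ContinuousAt.eventually_lt continuousAt_const (by fun_prop)
      (by simp; nlinarith)).and (ContinuousAt.eventually_lt continuousAt_const (by fun_prop)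
      (by simpa using hM0))))))
  have hmar : ∀ Q : Matrix (Fin n) (Fin n) ℝ, Cls Q → M - η ^ 2 ≤ FF Q → Mar κ Q := by
    intro Q hQ h r U hr hrn hU
    by_contra h1
    obtain ⟨l, P₁, P₂, e, c1, c2, c3⟩ := hS.1 n r Q U κ hQ hU hκ.le (not_le.mp h1).le
    have i1 := ih r hrn P₁ c1
    have i2 := ih l (by omega) P₂ c2
    have e' : (n : ℝ) = r + l := by exact_mod_cast e.symm
    have i3 : (1 + κ) * FF P₂ ≤ (1 + κ) * (C * l) := mul_le_mul_of_nonneg_left i2 (by linarith)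
    have i4 : 0 ≤ κ * (C * r) := by positivity
    rw [e'] at hη3
    nlinarith
  obtain ⟨_, ⟨Q₀, hQ₀, rfl⟩, h0⟩ := exists_lt_of_lt_csSup
    (s := {x | ∃ Q : Matrix (Fin n) (Fin n) ℝ, Cls Q ∧ FF Q = x}) ⟨_, Q₁, hQ₁, rfl⟩
    (show M - η ^ 2 < M by nlinarith)
  obtain ⟨Q, hQ, h1, h2⟩ := ekeland hF hM hn hb hQ₀ (hmar _ hQ₀ h0.le) hρ hρ1.le hρ2.le hη
    hη1.le h0.le
  have hdet : 1 / 2 ≤ Q.det := by
    by_contra h3
    have hd := hQ.1.det_pos
    have hc : Cls ((1 + n * ρ) • Q) := by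
      refine cls_of_mar hM hQ.1 (hmar _ hQ h1) (hQ.1.smul (by linarith)) (c := 1 + n * ρ)
        (by linarith) hρ2.le (fun x => (qf_smul _ _ _).le) ?_
      rw [det_smul, Fintype.card_fin]
      nlinarith
    have h4 := hb _ hc
    rw [(hF.1 _ _ hQ.1).2.2.1 _ (by linarith)] at h4
    nlinarith
  have hinv : FF Q⁻¹ ≤ 2 * M := by
    have h3 := hb _ (hS.2.2 n Q hQ hdet)
    rw [(hF.1 _ _ hQ.1.inv).2.2.1 _ (by norm_num)] at h3
    linarith
  have hσ : C < FF Q / n := by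
    rw [lt_div_iff₀ (by linarith)]
    have : 0 ≤ κ * (C * n) := by positivity
    nlinarith
  have h3 := hG n Q (FF Q / n) hn hQ.1 (det_le_one hQ) (by linarith)
    (fun a => (h2 a).trans (mul_le_mul_of_nonneg_right (by linarith)
      (qf_nonneg hQ.1.inv.posSemidef a)))
    (by rw [mul_assoc, mul_div_cancel₀ _ (by linarith : (n : ℝ) ≠ 0)]; linarith)
  linarith

end Pool.Agent.P.MP_d05bff_gt
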