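import Pool.Agent.P.MP_d05bff_gt.Basic

/-!
The generator formula for polynomial spectral functions of the covariance matrix.
-/

namespace Pool.Agent.P.MP_d05bff_gt

open MeasureTheory Matrix Set Filter Topology Polynomial

namespace Gen

/-- Second order expansion at the origin of a polynomial function. -/
def J2 (f : ℝ → ℝ) (a b c : ℝ) : Prop :=
  ∃ r : ℝ[X], ∀ s, f s = a + b * s + c * s ^ 2 + s ^ 3 * r.eval s

theorem J2.add {f g : ℝ → ℝ} {a b c a' b' c' : ℝ} (hf : J2 f a b c) (hg : J2 g a' b' c') :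
    J2 (fun s => f s + g s) (a + a') (b + b') (c + c') := by
  obtain ⟨r, hr⟩ := hf
  obtain ⟨r', hr'⟩ := hg
  refine ⟨r + r', fun s => ?_⟩
  simp only [hr, hr', eval_add]
  ring

theorem J2.mul {f g : ℝ → ℝ} {a b c a' b' c' : ℝ} (hf : J2 f a b c) (hg : J2 g a' b' c') :
    J2 (fun s => f s * g s) (a * a') (a * b' + b * a') (a * c' + b * b' + c * a') := by
  obtain ⟨r, hr⟩ := hf
  obtain ⟨r', hr'⟩ := hg
  refine ⟨C (b * c' + c * b') + C (c * c') * X + (C a + C b * X + C c * X ^ 2) * r' +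
    r * (C a' + C b' * X + C c' * X ^ 2) + X ^ 3 * r * r', fun s => ?_⟩
  simp only [hr, hr', eval_add, eval_mul, eval_C, eval_X, eval_pow]
  ring

theorem J2.sum {α : Type} (t : Finset α) {f : α → ℝ → ℝ} {a b c : α → ℝ}
    (h : ∀ k, J2 (f k) (a k) (b k) (c k)) :
    J2 (fun s => ∑ k ∈ t, f k s) (∑ k ∈ t, a k) (∑ k ∈ t, b k) (∑ k ∈ t, c k) := by
  classical
  induction t using Finset.induction_on with
  | empty => exact ⟨0, fun s => by simp⟩
  | insert k t hk ih =>
    simp only [Finset.sum_insert hk]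
    exact (h k).add ih

theorem J2.congr {f g : ℝ → ℝ} {a b c a' b' c' : ℝ} (hf : J2 f a b c) (h : ∀ s, g s = f s)
    (ha : a' = a) (hb : b' = b) (hc : c' = c) : J2 g a' b' c' := by
  obtain ⟨r, hr⟩ := hf
  exact ⟨r, fun s => by rw [h, hr, ha, hb, hc]⟩

theorem J2.second {f f' : ℝ → ℝ} {a b c d : ℝ} (hf : J2 f a b c)
    (h1 : ∀ s, HasDerivAt f (f' s) s) (h2 : HasDerivAt f' d 0) : d = 2 * c := by
  obtain ⟨r, hr⟩ := hf
  set q : ℝ[X] := C a + C b * X + C c * X ^ 2 + X ^ 3 * r with hq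
  have e : f = fun s => q.eval s := by
    funext s
    simp only [hr, hq, eval_add, eval_mul, eval_C, eval_X, eval_pow]
  have e' : f' = fun s => q.derivative.eval s := by
    funext s
    exact (h1 s).unique (e ▸ q.hasDerivAt s)
  have := h2.unique (e' ▸ q.derivative.hasDerivAt 0)
  rw [this, hq]
  simp [derivative_mul]
  ring

/-- First divided difference. -/
noncomputable def d1 (P : ℝ[X]) (a b : ℝ) : ℝ :=
  if a = b then P.derivative.eval a else (P.eval a - P.eval b) / (a - b)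

/-- Second divided difference at the nodes `a, a, b`. -/
noncomputable def d2 (P : ℝ[X]) (a b : ℝ) : ℝ :=
  if a = b then P.derivative.derivative.eval a / 2 else (P.derivative.eval a - d1 P a b) / (a - b)

theorem d1_C (c a b : ℝ) : d1 (C c) a b = 0 := by simp [d1]

theorem d2_C (c a b : ℝ) : d2 (C c) a b = 0 := by simp [d2, d1_C]

theorem d1_add (P Q : ℝ[X]) (a b : ℝ) : d1 (P + Q) a b = d1 P a b + d1 Q a b := by
  unfold d1
  split_ifs
  · simp
  · simp only [eval_add]; ring

theorem d2_add (P Q : ℝ[X]) (a b : ℝ) : d2 (P + Q) a b = d2 P a b + d2 Q a b := by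
  unfold d2
  split_ifs
  · simp only [derivative_add, eval_add]; ring
  · simp only [derivative_add, eval_add, d1_add]; ring

theorem d1_mul_X (P : ℝ[X]) (a b : ℝ) : d1 (P * X) a b = P.eval a + d1 P a b * b := by
  unfold d1
  split_ifs with h
  · subst h; simp [derivative_mul]; ring
  · have : a - b ≠ 0 := sub_ne_zero.2 h
    simp only [eval_mul, eval_X]
    field_simp
    ring

theorem d2_mul_X (P : ℝ[X]) (a b : ℝ) : d2 (P * X) a b = d1 P a b + d2 P a b * a := by
  unfold d2
  split_ifs with h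
  · subst h; simp [derivative_mul, d1]; ring
  · have : a - b ≠ 0 := sub_ne_zero.2 h
    rw [d1_mul_X]
    simp only [derivative_mul, derivative_X, eval_add, eval_mul, eval_X, eval_one]
    field_simp
    ring

theorem d2_symm (P : ℝ[X]) (a b : ℝ) :
    d2 P a b + d2 P b a = dd (fun z => P.derivative.derivative.eval z) a b := by
  unfold dd
  by_cases h : a = b
  · subst h
    simp [d2]
  · have hab : a - b ≠ 0 := sub_ne_zero.2 h
    have hba : b - a ≠ 0 := sub_ne_zero.2 (Ne.symm h)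
    have hd : ∀ s ∈ uIcc (0 : ℝ) 1, HasDerivAt
        (fun s => P.derivative.eval (b + s * (a - b)) / (a - b))
        (P.derivative.derivative.eval (b + s * (a - b))) s := by
      intro s _
      have h1 : HasDerivAt (fun s : ℝ => b + s * (a - b)) (a - b) s := by
        simpa using ((hasDerivAt_id s).mul_const (a - b)).const_add b
      have h2 := ((P.derivative.hasDerivAt (b + s * (a - b))).comp s h1).div_const (a - b)
      rwa [mul_div_cancel_right₀ _ hab] at h2
    rw [intervalIntegral.integral_eq_sub_of_hasDerivAt hd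
      (Continuous.intervalIntegrable (by fun_prop) _ _)]
    simp only [d2, d1, if_neg h, if_neg (Ne.symm h), one_mul, zero_mul, add_zero,
      add_sub_cancel]
    field_simp
    ring

variable {ι : Type} [Fintype ι] [DecidableEq ι]

/-- The curve of matrices. -/
noncomputable def curve (l : ι → ℝ) (H : Matrix ι ι ℝ) (β : ι → ℝ) (s : ℝ) : Matrix ι ι ℝ :=
  diagonal l + s • H - s ^ 2 • vecMulVec β β

omit [Fintype ι] in
theorem jet_curve (l : ι → ℝ) (H : Matrix ι ι ℝ) (β : ι → ℝ) (i j : ι) :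
    J2 (fun s => curve l H β s i j) (if i = j then l i else 0) (H i j) (-(β i * β j)) := by
  refine ⟨0, fun s => ?_⟩
  simp only [curve, Matrix.sub_apply, Matrix.add_apply, diagonal_apply, Matrix.smul_apply,
    vecMulVec_apply, smul_eq_mul, eval_zero]
  ring

theorem jet_aeval (l : ι → ℝ) (H : Matrix ι ι ℝ) (β : ι → ℝ) (P : ℝ[X]) :
    ∃ c : ι → ι → ℝ, (∀ i j, J2 (fun s => aeval (curve l H β s) P i j)
      (if i = j then P.eval (l i) else 0) (H i j * d1 P (l i) (l j)) (c i j)) ∧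
      ∀ i, c i i = ∑ k, H i k * H k i * d2 P (l i) (l k) - P.derivative.eval (l i) * β i ^ 2 := by
  induction P using Polynomial.induction_on with
  | C a =>
    refine ⟨fun _ _ => 0, fun i j => ⟨0, fun s => ?_⟩, fun i => by simp [d2_C]⟩
    simp [d1_C, algebraMap_eq_diagonal, diagonal_apply]
  | add P Q hP hQ =>
    obtain ⟨c, h1, h2⟩ := hP
    obtain ⟨c', h1', h2'⟩ := hQ
    refine ⟨fun i j => c i j + c' i j, fun i j => ?_, fun i => ?_⟩
    · refine ((h1 i j).add (h1' i j)).congr (fun s => by simp) ?_ ?_ rfl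
      · split_ifs <;> simp
      · rw [d1_add]; ring
    · simp only [h2, h2', d2_add, derivative_add, eval_add, mul_add, Finset.sum_add_distrib]
      ring
  | monomial n a hP =>
    rw [pow_succ, ← mul_assoc]
    generalize C a * X ^ n = P at hP
    obtain ⟨c, h1, h2⟩ := hP
    refine ⟨fun i j => ∑ k, ((if i = k then P.eval (l i) else 0) * (-(β k * β j)) +
      H i k * d1 P (l i) (l k) * H k j + c i k * (if k = j then l k else 0)),
      fun i j => ?_, fun i => ?_⟩
    · refine (J2.sum Finset.univ fun k => (h1 i k).mul (jet_curve l H β k j)).congr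
        (fun s => ?_) ?_ ?_ rfl
      · rw [map_mul, aeval_X, mul_apply]
      · by_cases h : i = j
        · subst h; simp
        · simp [h]
      · rw [d1_mul_X]
        simp [Finset.sum_add_distrib]
        ring
    · simp only [d2_mul_X, Finset.sum_add_distrib, ite_mul, zero_mul, Finset.sum_ite_eq,
        Finset.mem_univ, if_true, mul_ite, mul_zero, Finset.sum_ite_eq', h2, mul_add,
        derivative_mul, derivative_X, eval_add, eval_mul, eval_X, eval_one, sub_mul,
        Finset.sum_mul]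
      have e1 : ∑ k, H i k * d1 P (l i) (l k) * H k i = ∑ k, H i k * H k i * d1 P (l i) (l k) :=
        Finset.sum_congr rfl fun k _ => by ring
      have e2 : ∑ k, H i k * H k i * (d2 P (l i) (l k) * l i) =
          ∑ k, H i k * H k i * d2 P (l i) (l k) * l i :=
        Finset.sum_congr rfl fun k _ => by ring
      rw [e1, e2]
      ring

theorem aeval_conj {U B : Matrix ι ι ℝ} (h1 : U * Uᵀ = 1) (h2 : Uᵀ * U = 1) (P : ℝ[X]) :
    aeval (U * B * Uᵀ) P = U * aeval B P * Uᵀ := by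
  induction P using Polynomial.induction_on with
  | C a =>
    simp only [aeval_C, Algebra.algebraMap_eq_smul_one, Matrix.mul_smul, Matrix.smul_mul,
      Matrix.mul_one, h1]
  | add P Q hP hQ => simp only [map_add, hP, hQ, Matrix.mul_add, Matrix.add_mul]
  | monomial n a hP =>
    rw [pow_succ, ← mul_assoc, map_mul, map_mul (aeval B), hP, aeval_X, aeval_X]
    calc U * aeval B (C a * X ^ n) * Uᵀ * (U * B * Uᵀ)
        = U * aeval B (C a * X ^ n) * (Uᵀ * U) * B * Uᵀ := by simp only [Matrix.mul_assoc]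
      _ = _ := by rw [h2]; simp only [Matrix.mul_assoc, Matrix.one_mul]

theorem trace_aeval_conj {U B : Matrix ι ι ℝ} (h1 : U * Uᵀ = 1) (h2 : Uᵀ * U = 1) (P : ℝ[X]) :
    trace (aeval (U * B * Uᵀ) P) = trace (aeval B P) := by
  rw [aeval_conj h1 h2, trace_mul_cycle, h2, Matrix.one_mul]

/-- The matrix read off from first and second moments. -/
def matOf (M : ι ⊕ ι × ι → ℝ) : Matrix ι ι ℝ :=
  Matrix.of fun i j => M (Sum.inr (i, j)) - M (Sum.inl i) * M (Sum.inl j)

/-- First and second order monomials. -/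
def phi (x : ι → ℝ) : ι ⊕ ι × ι → ℝ := Sum.elim x fun p => x p.1 * x p.2

/-- The spectral function. -/
noncomputable def Psi (P : ℝ[X]) (M : ι ⊕ ι × ι → ℝ) : ℝ := trace (aeval (matOf M) P)

omit [DecidableEq ι] [Fintype ι] in
theorem continuous_phi : Continuous (phi : (ι → ℝ) → _) := by
  refine continuous_pi fun j => ?_
  rcases j with j | j
  · simp only [phi, Sum.elim_inl]; fun_prop
  · simp only [phi, Sum.elim_inr]; fun_prop

theorem contDiff_aeval (P : ℝ[X]) (i j : ι) :
    ContDiff ℝ 2 (fun M : ι ⊕ ι × ι → ℝ => aeval (matOf M) P i j) := by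
  induction P using Polynomial.induction_on generalizing i j with
  | C a => simp only [aeval_C]; exact contDiff_const
  | add P Q hP hQ => simp only [map_add, Matrix.add_apply]; exact (hP i j).add (hQ i j)
  | monomial n a hP =>
    simp only [pow_succ, ← mul_assoc, map_mul (aeval _) _ X, aeval_X, mul_apply]
    refine ContDiff.sum fun k _ => (hP i k).mul ?_
    simp only [matOf, of_apply]
    fun_prop

theorem contDiff_Psi (P : ℝ[X]) : ContDiff ℝ 2 (Psi P : (ι ⊕ ι × ι → ℝ) → ℝ) := by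
  unfold Psi trace
  exact ContDiff.sum fun i _ => contDiff_aeval P i i

theorem second_of_jet {E : Type} [NormedAddCommGroup E] [NormedSpace ℝ E] {Ψ : E → ℝ}
    (hΨ : ContDiff ℝ 2 Ψ) (M C : E) {a b c : ℝ} (h : J2 (fun s => Ψ (M + s • C)) a b c) :
    fderiv ℝ (fderiv ℝ Ψ) M C C = 2 * c := by
  have hl : ∀ s : ℝ, HasDerivAt (fun s : ℝ => M + s • C) C s := fun s => by
    simpa using ((hasDerivAt_id s).smul_const C).const_add M
  have hd : Differentiable ℝ Ψ := hΨ.differentiable (by norm_num)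
  have hd2 : Differentiable ℝ (fderiv ℝ Ψ) :=
    (hΨ.fderiv_right (m := 1) (by norm_num)).differentiable (by norm_num)
  refine h.second (f' := fun s => fderiv ℝ Ψ (M + s • C) C)
    (fun s => (hd _).hasFDerivAt.comp_hasDerivAt s (hl s)) ?_
  have h1 : HasDerivAt (fun s : ℝ => fderiv ℝ Ψ (M + s • C))
      (fderiv ℝ (fderiv ℝ Ψ) (M + (0 : ℝ) • C) C) 0 :=
    (hd2 _).hasFDerivAt.comp_hasDerivAt 0 (hl 0)
  have h2 := h1.clm_apply (hasDerivAt_const (0 : ℝ) C)
  simpa using h2

theorem J2.zero {f : ℝ → ℝ} {a b c : ℝ} (hf : J2 f a b c) : f 0 = a := by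
  obtain ⟨r, hr⟩ := hf
  simp [hr]

theorem trace_aeval_diagonal (l : ι → ℝ) (P : ℝ[X]) :
    trace (aeval (diagonal l) P) = ∑ i, P.eval (l i) := by
  obtain ⟨c, h, -⟩ := jet_aeval l 0 0 P
  refine Finset.sum_congr rfl fun i _ => ?_
  have := (h i i).zero
  simpa [curve] using this

/-- The first order variation of `matOf`. -/
def varOf (M C : ι ⊕ ι × ι → ℝ) : Matrix ι ι ℝ :=
  Matrix.of fun i j => C (Sum.inr (i, j)) - C (Sum.inl i) * M (Sum.inl j) -
    M (Sum.inl i) * C (Sum.inl j)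

omit [DecidableEq ι] [Fintype ι] in
theorem matOf_line (M C : ι ⊕ ι × ι → ℝ) (s : ℝ) :
    matOf (M + s • C) = matOf M + s • varOf M C -
      s ^ 2 • vecMulVec (fun i => C (Sum.inl i)) (fun i => C (Sum.inl i)) := by
  ext i j
  simp only [matOf, varOf, of_apply, Matrix.sub_apply, Matrix.add_apply, Matrix.smul_apply,
    vecMulVec_apply, smul_eq_mul, Pi.add_apply, Pi.smul_apply]
  ring

omit [DecidableEq ι] in
theorem conj_vecMulVec (U : Matrix ι ι ℝ) (α : ι → ℝ) :
    U * vecMulVec α α * Uᵀ = vecMulVec (U *ᵥ α) (U *ᵥ α) := by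
  rw [mul_vecMulVec, vecMulVec_mul, vecMul_transpose]

/-- The second derivative of the spectral function in an eigenbasis. -/
theorem second_Psi {U : Matrix ι ι ℝ} (h1 : U * Uᵀ = 1) (h2 : Uᵀ * U = 1) (P : ℝ[X])
    (M C : ι ⊕ ι × ι → ℝ) (l : ι → ℝ) (hl : U * matOf M * Uᵀ = diagonal l) :
    fderiv ℝ (fderiv ℝ (Psi P)) M C C =
      2 * ∑ i, (∑ k, (U * varOf M C * Uᵀ) i k * (U * varOf M C * Uᵀ) k i * d2 P (l i) (l k) -
        P.derivative.eval (l i) * (U *ᵥ fun i => C (Sum.inl i)) i ^ 2) := by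
  obtain ⟨c, hc, hc'⟩ := jet_aeval l (U * varOf M C * Uᵀ) (U *ᵥ fun i => C (Sum.inl i)) P
  refine second_of_jet (contDiff_Psi P) M C
    ((J2.sum Finset.univ fun i => hc i i).congr (fun s => ?_) rfl rfl ?_)
  · unfold Psi
    rw [← trace_aeval_conj h1 h2, matOf_line]
    simp only [Matrix.mul_sub, Matrix.mul_add, Matrix.sub_mul, Matrix.add_mul, Matrix.mul_smul,
      Matrix.smul_mul, hl, conj_vecMulVec]
    rfl
  · simp only [hc']

variable {K : Set (ι → ℝ)}

/-- The matrix whose rows are the eigenvectors. -/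
noncomputable def Um (K : Set (ι → ℝ)) (t : ℝ) (θ : ι → ℝ) : Matrix ι ι ℝ :=
  Matrix.of fun i a => evec K t θ i a

theorem Um_mul (t : ℝ) (θ : ι → ℝ) : Um K t θ * (Um K t θ)ᵀ = 1 := by
  ext i j
  rw [mul_apply, one_apply, ← evec_dot (K := K) t θ i j]
  rfl

theorem mul_Um (t : ℝ) (θ : ι → ℝ) : (Um K t θ)ᵀ * Um K t θ = 1 :=
  mul_eq_one_comm.1 (Um_mul t θ)

theorem Um_conj (t : ℝ) (θ : ι → ℝ) (B : Matrix ι ι ℝ) (i j : ι) :
    (Um K t θ * B * (Um K t θ)ᵀ) i j = evec K t θ i ⬝ᵥ B *ᵥ evec K t θ j := by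
  rw [Matrix.mul_assoc]
  rfl

omit [DecidableEq ι] in
theorem matOf_Mv (t : ℝ) (θ : ι → ℝ) : matOf (Mv K phi t θ) = cov K t θ := rfl

theorem Um_cov (t : ℝ) (θ : ι → ℝ) :
    Um K t θ * matOf (Mv K phi t θ) * (Um K t θ)ᵀ = diagonal (lam K t θ) := by
  ext i j
  rw [Um_conj, matOf_Mv, evec_cov_evec, diagonal_apply]

theorem Psi_Mv (P : ℝ[X]) (t : ℝ) (θ : ι → ℝ) :
    Psi P (Mv K phi t θ) = ∑ i, P.eval (lam K t θ i) := by
  unfold Psi
  rw [← trace_aeval_conj (Um_mul (K := K) t θ) (mul_Um t θ), Um_cov, trace_aeval_diagonal]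

theorem T3_expand (hK : IsBody K) (t : ℝ) (θ u v w : ι → ℝ) :
    T3 K t θ u v w = ∑ c, w c * T3 K t θ u v (Pi.single c 1) := by
  rw [← hK.T3_sum_smul]
  congr 1
  funext a
  simp [Finset.sum_apply, Pi.single_apply]

theorem varOf_apply (hK : IsBody K) (t : ℝ) (θ : ι → ℝ) (k a b : ι) :
    varOf (Mv K phi t θ) (Cv K phi t θ k) a b =
      T3 K t θ (Pi.single a 1) (Pi.single b 1) (Pi.single k 1) := by
  rw [hK.T3_eq]
  simp only [varOf, of_apply, Cv, Mv, phi, Sum.elim_inl, Sum.elim_inr, single_dotProduct, one_mul,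
    mulVec_single_one, col_apply, cov, bar]

theorem varOf_conj (hK : IsBody K) (t : ℝ) (θ u v : ι → ℝ) (k : ι) :
    u ⬝ᵥ varOf (Mv K phi t θ) (Cv K phi t θ k) *ᵥ v = T3 K t θ u v (Pi.single k 1) := by
  simp only [dotProduct, mulVec, varOf_apply hK]
  rw [T3_comm₁₂, T3_comm₂₃, T3_expand hK t θ v _ u]
  refine Finset.sum_congr rfl fun a _ => ?_
  congr 1
  rw [T3_comm₁₂, T3_comm₂₃, T3_expand hK t θ _ _ v]
  refine Finset.sum_congr rfl fun b _ => ?_
  rw [mul_comm, T3_comm₁₂ t θ (Pi.single k 1), T3_comm₂₃ t θ (Pi.single a 1) (Pi.single k 1)]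

theorem sum_T3_sq (hK : IsBody K) (t : ℝ) (θ u v : ι → ℝ) :
    ∑ k, T3 K t θ u v (Pi.single k 1) ^ 2 = ∑ k, T3 K t θ u v (evec K t θ k) ^ 2 := by
  have h := sum_evec_dot_mul (K := K) t θ (fun c => T3 K t θ u v (Pi.single c 1))
    (fun c => T3 K t θ u v (Pi.single c 1))
  simp only [sq]
  refine h.symm.trans (Finset.sum_congr rfl fun k _ => ?_)
  rw [T3_expand hK t θ u v (evec K t θ k)]
  rfl

theorem beta_apply (t : ℝ) (θ : ι → ℝ) (k i : ι) :
    (Um K t θ *ᵥ fun i => Cv K phi t θ k (Sum.inl i)) i = lam K t θ i * evec K t θ i k := by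
  have h := congrFun (cov_mulVec_evec (K := K) t θ i) k
  simp only [Pi.smul_apply, smul_eq_mul] at h
  rw [← h]
  simp only [mulVec, dotProduct, Um, of_apply]
  refine Finset.sum_congr rfl fun a _ => ?_
  rw [mul_comm, ← (cov_isHermitian K t θ).apply k a]
  rfl

theorem gen_eq (hK : IsBody K) (P : ℝ[X]) (t : ℝ) (θ : ι → ℝ) :
    gen K P t θ = 1 / 2 * ∑ k,
      fderiv ℝ (fderiv ℝ (Psi P)) (Mv K phi t θ) (Cv K phi t θ k) (Cv K phi t θ k) := by
  simp only [second_Psi (Um_mul (K := K) t θ) (mul_Um t θ) P _ _ _ (Um_cov t θ), Um_conj,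
    varOf_conj hK, beta_apply, Finset.sum_sub_distrib]
  rw [← Finset.mul_sum, Finset.sum_sub_distrib]
  set S : ι → ι → ℝ := fun i j =>
    ∑ k, T3 K t θ (evec K t θ i) (evec K t θ j) (evec K t θ k) ^ 2 with hS
  have hsymm : ∀ i j, S i j = S j i := fun i j =>
    Finset.sum_congr rfl fun k _ => by rw [T3_comm₁₂]
  have e1 : ∑ k, ∑ i, ∑ j, T3 K t θ (evec K t θ i) (evec K t θ j) (Pi.single k 1) *
      T3 K t θ (evec K t θ j) (evec K t θ i) (Pi.single k 1) * d2 P (lam K t θ i) (lam K t θ j) =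
      ∑ i, ∑ j, S i j * d2 P (lam K t θ i) (lam K t θ j) := by
    rw [Finset.sum_comm]
    refine Finset.sum_congr rfl fun i _ => ?_
    rw [Finset.sum_comm]
    refine Finset.sum_congr rfl fun j _ => ?_
    rw [← Finset.sum_mul, hS]
    simp only [← sum_T3_sq hK]
    congr 1
    exact Finset.sum_congr rfl fun k _ => by rw [T3_comm₁₂ t θ (evec K t θ j), sq]
  have e2 : ∑ k, ∑ i, P.derivative.eval (lam K t θ i) * (lam K t θ i * evec K t θ i k) ^ 2 =
      ∑ i, lam K t θ i ^ 2 * P.derivative.eval (lam K t θ i) := by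
    rw [Finset.sum_comm]
    refine Finset.sum_congr rfl fun i _ => ?_
    have h := evec_dot (K := K) t θ i i
    rw [if_pos rfl] at h
    calc _ = lam K t θ i ^ 2 * P.derivative.eval (lam K t θ i) *
          (evec K t θ i ⬝ᵥ evec K t θ i) := by
          simp only [dotProduct, Finset.mul_sum]
          exact Finset.sum_congr rfl fun k _ => by ring
      _ = _ := by rw [h, mul_one]
  have e3 : ∑ i, ∑ j, S i j * d2 P (lam K t θ i) (lam K t θ j) =
      ∑ i, ∑ j, S i j * d2 P (lam K t θ j) (lam K t θ i) := by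
    rw [Finset.sum_comm]
    exact Finset.sum_congr rfl fun i _ => Finset.sum_congr rfl fun j _ => by rw [hsymm]
  have e4 : ∑ i, ∑ j, ∑ k, T3 K t θ (evec K t θ i) (evec K t θ j) (evec K t θ k) ^ 2 *
      dd (fun z => P.derivative.derivative.eval z) (lam K t θ i) (lam K t θ j) =
      ∑ i, ∑ j, S i j * d2 P (lam K t θ i) (lam K t θ j) +
        ∑ i, ∑ j, S i j * d2 P (lam K t θ j) (lam K t θ i) := by
    simp only [← Finset.sum_add_distrib, ← mul_add, d2_symm, hS, Finset.sum_mul]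
  unfold gen
  rw [e1, e2, e4, ← e3]
  ring

omit [DecidableEq ι] in
theorem continuous_Mv (hK : IsBody K) :
    Continuous (fun p : ℝ × (ι → ℝ) => Mv K phi p.1 p.2) :=
  continuous_pi fun j => hK.continuous_Ex ((continuous_apply j).comp continuous_phi)

omit [DecidableEq ι] in
theorem continuous_Cv (hK : IsBody K) :
    Continuous (fun p : ℝ × (ι → ℝ) => Cv K phi p.1 p.2) := by
  refine continuous_pi fun k => continuous_pi fun j => ?_
  have hj : Continuous fun x : ι → ℝ => phi x j := (continuous_apply j).comp continuous_phi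
  exact (hK.continuous_Ex (hj.mul (continuous_apply k))).sub
    ((hK.continuous_Ex hj).mul ((continuous_apply k).comp hK.continuous_bar))

omit [DecidableEq ι] in
theorem isBounded_Ex (hK : IsBody K) {f : (ι → ℝ) → ℝ} (hf : Continuous f) (t : ℝ) :
    Bornology.IsBounded (range fun θ => Ex K t θ f) := by
  obtain ⟨B, -, hB⟩ := hK.exists_bound_Ex hf
  refine isBounded_iff_forall_norm_le.2 ⟨B, ?_⟩
  rintro _ ⟨θ, rfl⟩
  exact hB t θ

theorem isBounded_range_pi {α β E : Type} [Finite β] [Bornology E] {F : α → β → E}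
    (h : ∀ b, Bornology.IsBounded (range fun a => F a b)) : Bornology.IsBounded (range F) := by
  refine (Bornology.IsBounded.pi h).subset ?_
  rintro _ ⟨a, rfl⟩ b -
  exact ⟨a, rfl⟩

omit [DecidableEq ι] in
theorem isBounded_MC (hK : IsBody K) (t : ℝ) :
    Bornology.IsBounded (range fun θ => (Mv K phi t θ, Cv K phi t θ)) := by
  have hj : ∀ j, Continuous fun x : ι → ℝ => phi x j := fun j =>
    (continuous_apply j).comp continuous_phi
  have h1 : Bornology.IsBounded (range fun θ => Mv K phi t θ) :=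
    isBounded_range_pi fun j => isBounded_Ex hK (hj j) t
  have h2 : Bornology.IsBounded (range fun θ => Cv K phi t θ) := by
    refine isBounded_range_pi fun k => isBounded_range_pi fun j => ?_
    refine ((isBounded_Ex hK ((hj j).mul (continuous_apply k)) t).sub
      (isBounded_mul (isBounded_Ex hK (hj j) t)
        (isBounded_Ex hK (continuous_apply k) t))).subset ?_
    rintro _ ⟨θ, rfl⟩
    exact ⟨_, ⟨θ, rfl⟩, _, ⟨_, ⟨θ, rfl⟩, _, ⟨θ, rfl⟩, rfl⟩, rfl⟩
  refine (h1.prod h2).subset ?_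
  rintro _ ⟨θ, rfl⟩
  exact ⟨⟨θ, rfl⟩, ⟨θ, rfl⟩⟩

theorem continuous_second (P : ℝ[X]) :
    Continuous fun z : (ι ⊕ ι × ι → ℝ) × (ι → ι ⊕ ι × ι → ℝ) =>
      1 / 2 * ∑ k, fderiv ℝ (fderiv ℝ (Psi P)) z.1 (z.2 k) (z.2 k) := by
  have h : Continuous (fderiv ℝ (fderiv ℝ (Psi P : (ι ⊕ ι × ι → ℝ) → ℝ))) :=
    ((contDiff_Psi P).fderiv_right (m := 1) (by norm_num)).continuous_fderiv (by norm_num)
  refine continuous_const.mul (continuous_finsetSum _ fun k _ => ?_)
  have hk : Continuous fun z : (ι ⊕ ι × ι → ℝ) × (ι → ι ⊕ ι × ι → ℝ) => z.2 k := by fun_prop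
  exact ((h.comp continuous_fst).clm_apply hk).clm_apply hk

theorem continuous_spec (hK : IsBody K) {f : ℝ → ℝ} (hf : Continuous f) :
    Continuous (fun p : ℝ × (ι → ℝ) => ∑ i, f (lam K p.1 p.2 i)) := by
  obtain ⟨B, hB⟩ := hK.exists_bound_lam
  refine continuous_of_uniform_approx_of_continuous fun u hu => ?_
  obtain ⟨ε, hε, hu⟩ := Metric.mem_uniformity_dist.1 hu
  have hn : (0 : ℝ) < Fintype.card ι + 1 := by positivity
  obtain ⟨P, hP⟩ := exists_polynomial_near_of_continuousOn 0 B f hf.continuousOn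
    (ε / (Fintype.card ι + 1)) (by positivity)
  refine ⟨fun p => ∑ i, P.eval (lam K p.1 p.2 i), ?_, fun p => hu ?_⟩
  · simp only [← Psi_Mv]
    exact (contDiff_Psi P).continuous.comp (continuous_Mv hK)
  · rw [dist_comm, Real.dist_eq, ← Finset.sum_sub_distrib]
    refine (Finset.abs_sum_le_sum_abs _ _).trans_lt ?_
    calc _ ≤ ∑ _i : ι, ε / (Fintype.card ι + 1) :=
          Finset.sum_le_sum fun i _ => (hP _ ⟨hK.lam_nonneg _ _ i, hB _ _ i⟩).le
      _ < ε := by
          rw [Finset.sum_const, Finset.card_univ, nsmul_eq_mul, ← mul_div_assoc, div_lt_iff₀ hn]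
          nlinarith

end Gen

open Gen in
theorem genThm (hI : ItoStmt) : GenStmt := by
  intro ι _ _ K hK
  refine ⟨fun f hf => continuous_spec hK hf, fun P t ht => ⟨?_, ?_, ?_⟩⟩
  · have h := (continuous_second P).comp
      (((continuous_Mv hK).prodMk (continuous_Cv hK)).comp (Continuous.prodMk_right t))
    exact h.congr fun θ => (gen_eq hK P t θ).symm
  · obtain ⟨B, hB⟩ := (isBounded_MC hK t).isCompact_closure.exists_bound_of_continuousOn
      (continuous_second P).continuousOn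
    refine ⟨B, fun θ => ?_⟩
    rw [gen_eq hK]
    exact hB (Mv K phi t θ, Cv K phi t θ) (subset_closure ⟨θ, rfl⟩)
  · have h := hI ι (ι ⊕ ι × ι) K phi (Psi P) t hK continuous_phi (contDiff_Psi P) ht
    simp only [Psi_Mv, ← gen_eq hK] at h
    exact h

end Pool.Agent.P.MP_d05bff_gt
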