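import Pool.Agent.P.MP_d05bff_gt.Iface

/-!
Matrix lemmas: monotone determinant, antitone inverse, adapted unimodular basis.
-/

namespace Pool.Agent.P.MP_d05bff_gt

open Matrix

namespace Mat

variable {ι : Type} [Fintype ι] [DecidableEq ι]

open scoped MatrixOrder in
theorem exists_sq {Q : Matrix ι ι ℝ} (hQ : Q.PosDef) :
    ∃ g : Matrix ι ι ℝ, g.det ≠ 0 ∧ Q = gᵀ * g := by
  obtain ⟨g, hg⟩ := CStarAlgebra.nonneg_iff_eq_star_mul_self.mp hQ.posSemidef.nonneg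
  have hg' : Q = gᵀ * g := by
    rw [hg, star_eq_conjTranspose, conjTranspose_eq_transpose_of_trivial]
  refine ⟨g, fun h => ?_, hg'⟩
  have := hQ.det_pos
  rw [hg', det_mul, h, mul_zero] at this
  exact lt_irrefl _ this

theorem one_le_det_one_add {C : Matrix ι ι ℝ} (hC : C.PosSemidef) : 1 ≤ (1 + C).det := by
  have hH : (1 + C).IsHermitian := isHermitian_one.add hC.1
  rw [hH.det_eq_prod_eigenvalues]
  simp only [RCLike.ofReal_real_eq_id, id]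
  refine Finset.one_le_prod fun i _ => ?_
  have h1 := hH.eigenvalues_eq i
  have h2 := hC.dotProduct_mulVec_nonneg (⇑(hH.eigenvectorBasis i))
  have h3 : star ⇑(hH.eigenvectorBasis i) ⬝ᵥ ⇑(hH.eigenvectorBasis i) = 1 := by
    rw [dotProduct_comm, ← EuclideanSpace.inner_eq_star_dotProduct, inner_self_eq_norm_sq_to_K,
      hH.eigenvectorBasis.orthonormal.1 i]
    simp
  rw [h1, add_mulVec, dotProduct_add, one_mulVec, h3]
  simpa using h2

theorem det_mono {A B : Matrix ι ι ℝ} (hA : A.PosSemidef) (hBA : (B - A).PosSemidef) :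
    A.det ≤ B.det := by
  have hB : B.PosSemidef := by
    have := hA.add hBA
    rwa [add_sub_cancel] at this
  by_cases h0 : A.det = 0
  · rw [h0]; exact hB.det_nonneg
  have hA' : A.PosDef := hA.posDef_iff_det_ne_zero.2 h0
  obtain ⟨g, hg, rfl⟩ := exists_sq hA'
  have hgu : IsUnit g.det := hg.isUnit
  have hC : ((g⁻¹)ᵀ * (B - gᵀ * g) * g⁻¹).PosSemidef := by
    have := hBA.conjTranspose_mul_mul_same g⁻¹
    rwa [conjTranspose_eq_transpose_of_trivial] at this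
  have h1 := one_le_det_one_add hC
  have h2 : B = gᵀ * (1 + (g⁻¹)ᵀ * (B - gᵀ * g) * g⁻¹) * g := by
    have e1 : gᵀ * (g⁻¹)ᵀ = 1 := by rw [← transpose_mul, nonsing_inv_mul _ hgu, transpose_one]
    have e2 : g⁻¹ * g = 1 := nonsing_inv_mul _ hgu
    calc B = gᵀ * g + (gᵀ * (g⁻¹)ᵀ) * (B - gᵀ * g) * (g⁻¹ * g) := by rw [e1, e2]; simp
      _ = _ := by simp only [Matrix.mul_add, Matrix.add_mul, Matrix.mul_assoc, Matrix.one_mul]
  rw [h2, det_mul, det_mul, det_mul, det_transpose]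
  nlinarith [mul_self_nonneg g.det]

omit [Fintype ι] [DecidableEq ι] in
theorem symm_of_posDef {Q : Matrix ι ι ℝ} (hQ : Q.PosDef) : Qᵀ = Q := by
  have := hQ.1
  rwa [IsHermitian, conjTranspose_eq_transpose_of_trivial] at this

omit [DecidableEq ι] in
theorem qf_nonneg {Q : Matrix ι ι ℝ} (hQ : Q.PosDef) (x : ι → ℝ) : 0 ≤ qf Q x := by
  simpa [qf] using hQ.posSemidef.dotProduct_mulVec_nonneg x

theorem two_dot_sub_le {Q : Matrix ι ι ℝ} (hQ : Q.PosDef) (a y : ι → ℝ) :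
    2 * (a ⬝ᵥ y) - qf Q y ≤ qf Q⁻¹ a := by
  have hu : IsUnit Q.det := hQ.det_pos.ne'.isUnit
  have h0 := qf_nonneg hQ (y - Q⁻¹ *ᵥ a)
  have e1 : Q *ᵥ (Q⁻¹ *ᵥ a) = a := by rw [mulVec_mulVec, mul_nonsing_inv _ hu, one_mulVec]
  have e2 : (Q⁻¹ *ᵥ a) ⬝ᵥ (Q *ᵥ y) = a ⬝ᵥ y := by
    rw [dotProduct_mulVec, ← mulVec_transpose, symm_of_posDef hQ, e1]
  unfold qf at h0 ⊢
  rw [mulVec_sub, e1, sub_dotProduct, dotProduct_sub, dotProduct_sub, e2,
    dotProduct_comm y a, dotProduct_comm (Q⁻¹ *ᵥ a) a] at h0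
  linarith

omit [DecidableEq ι] in
theorem qf_smul (Q : Matrix ι ι ℝ) (c : ℝ) (x : ι → ℝ) : qf Q (c • x) = c ^ 2 * qf Q x := by
  simp only [qf, mulVec_smul, dotProduct_smul, smul_dotProduct, smul_eq_mul]; ring

theorem inv_anti {Q Q' : Matrix ι ι ℝ} {c : ℝ} (hQ : Q.PosDef) (hQ' : Q'.PosDef) (hc : 0 < c)
    (h : ∀ x, qf Q x ≤ c * qf Q' x) (a : ι → ℝ) : qf Q'⁻¹ a ≤ c * qf Q⁻¹ a := by
  have hu : IsUnit Q'.det := hQ'.det_pos.ne'.isUnit
  set x := Q'⁻¹ *ᵥ a with hx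
  have e1 : Q' *ᵥ x = a := by rw [hx, mulVec_mulVec, mul_nonsing_inv _ hu, one_mulVec]
  have e2 : qf Q'⁻¹ a = a ⬝ᵥ x := rfl
  have e3 : qf Q' x = a ⬝ᵥ x := by rw [qf, e1, dotProduct_comm]
  have h1 := two_dot_sub_le hQ a (c⁻¹ • x)
  rw [qf_smul, dotProduct_smul, smul_eq_mul] at h1
  have h2 := h x
  rw [e3] at h2
  rw [e2]
  have h3 : c⁻¹ ^ 2 * qf Q x ≤ c⁻¹ * (a ⬝ᵥ x) := by
    calc c⁻¹ ^ 2 * qf Q x ≤ c⁻¹ ^ 2 * (c * (a ⬝ᵥ x)) := by gcongr
      _ = c⁻¹ * (a ⬝ᵥ x) := by field_simp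
  have h4 : c⁻¹ * (a ⬝ᵥ x) ≤ qf Q⁻¹ a := by linarith
  calc a ⬝ᵥ x = c * (c⁻¹ * (a ⬝ᵥ x)) := by field_simp
    _ ≤ c * qf Q⁻¹ a := by gcongr

theorem smith (n r : ℕ) (U : Matrix (Fin n) (Fin r) ℤ) (hU : Function.Injective U.mulVec) :
    ∃ (l : ℕ) (W : Matrix (Fin n) (Fin r ⊕ Fin l) ℤ) (W' : Matrix (Fin r ⊕ Fin l) (Fin n) ℤ)
      (E : Matrix (Fin r) (Fin r) ℤ),
      r + l = n ∧ W * W' = 1 ∧ W' * W = 1 ∧ E.det ≠ 0 ∧ U = W.toCols₁ * E := by
  classical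
  set N : Submodule ℤ (Fin n → ℤ) := LinearMap.range U.mulVecLin with hN
  obtain ⟨m, snf⟩ := N.smithNormalForm (Pi.basisFun ℤ (Fin n))
  have hm : m = r := by
    have h1 : Module.finrank ℤ N = m := by
      rw [Module.finrank_eq_card_basis snf.bN, Fintype.card_fin]
    have h2 : Module.finrank ℤ N = r := by
      rw [hN, LinearMap.finrank_range_of_inj (f := U.mulVecLin) hU]; simp
    omega
  subst hm
  have hle : m ≤ n := by simpa using Fintype.card_le_of_embedding snf.f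
  have hc : Fintype.card ((Set.range snf.f)ᶜ : Set (Fin n)) = n - m := by
    rw [Fintype.card_compl_set, Set.card_range_of_injective snf.f.injective]; simp
  let e2 : Fin (n - m) ≃ ((Set.range snf.f)ᶜ : Set (Fin n)) := (Fintype.equivFinOfCardEq hc).symm
  let e : Fin m ⊕ Fin (n - m) ≃ Fin n :=
    (Equiv.sumCongr snf.f.toEquivRange e2).trans (Equiv.Set.sumCompl (Set.range snf.f))
  have he2 : ∀ j, e (Sum.inr j) ∉ Set.range snf.f := fun j => (e2 j).2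
  let b := snf.bM.reindex e.symm
  let W : Matrix (Fin n) (Fin m ⊕ Fin (n - m)) ℤ := (Pi.basisFun ℤ (Fin n)).toMatrix b
  let W' : Matrix (Fin m ⊕ Fin (n - m)) (Fin n) ℤ := b.toMatrix (Pi.basisFun ℤ (Fin n))
  have h1 : W * W' = 1 := Module.Basis.toMatrix_mul_toMatrix_flip _ _
  have h2 : W' * W = 1 := Module.Basis.toMatrix_mul_toMatrix_flip _ _
  have h3 : (W' * U).toRows₂ = 0 := by
    ext j k
    have hk : U *ᵥ Pi.single k 1 ∈ N := ⟨Pi.single k 1, rfl⟩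
    have h4 := snf.repr_eq_zero_of_notMem_range ⟨_, hk⟩ (he2 j)
    have h5 : W' *ᵥ (U *ᵥ Pi.single k 1) = b.repr (U *ᵥ Pi.single k 1) := by
      have := Module.Basis.toMatrix_mulVec_repr (b' := b) (b := Pi.basisFun ℤ (Fin n))
        (U *ᵥ Pi.single k 1)
      rw [← this]
      congr 1
    have h6 : (W' * U) (Sum.inr j) k = (W' *ᵥ (U *ᵥ Pi.single k 1)) (Sum.inr j) := by
      rw [mulVec_mulVec, mulVec_single_one]; rfl
    rw [toRows₂_apply, h6, h5]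
    simpa [b] using h4
  have h7 : U = W.toCols₁ * (W' * U).toRows₁ := by
    calc U = W * (W' * U) := by rw [← Matrix.mul_assoc, h1, Matrix.one_mul]
      _ = fromCols W.toCols₁ W.toCols₂ * fromRows (W' * U).toRows₁ (W' * U).toRows₂ := by
          rw [fromCols_toCols, fromRows_toRows]
      _ = _ := by rw [fromCols_mul_fromRows, h3, Matrix.mul_zero, add_zero]
  refine ⟨n - m, W, W', (W' * U).toRows₁, by omega, h1, h2, fun h0 => ?_, h7⟩
  obtain ⟨v, hv, hv0⟩ := Matrix.exists_mulVec_eq_zero_iff.2 h0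
  apply hv
  apply hU
  rw [mulVec_zero, h7, ← mulVec_mulVec, hv0, mulVec_zero]

end Mat

theorem mat : MatStmt :=
  ⟨fun _ _ _ _ _ hA hBA => Mat.det_mono hA hBA,
    fun _ _ _ _ _ _ hQ hQ' hc h a => Mat.inv_anti hQ hQ' hc h a,
    fun n r U hU => Mat.smith n r U hU⟩

end Pool.Agent.P.MP_d05bff_gt
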