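import Pool.Agent.P.MP_d05bff_gt.Basic
import Pool.Agent.P.MP_d05bff_gt.Mat

/-!
The volume lower bound through the logarithmic Laplace transform and the geometric assembly.
-/

namespace Pool.Agent.P.MP_d05bff_gt

open MeasureTheory Matrix
open scoped Pointwise ENNReal

namespace Geo

variable {ι : Type} [Fintype ι] [DecidableEq ι] {K : Set (ι → ℝ)}

omit [DecidableEq ι] in
lemma hasDerivAt_bar (hK : IsBody K) (t : ℝ) (θ u v : ι → ℝ) (s : ℝ) :
    HasDerivAt (fun s : ℝ => u ⬝ᵥ bar K t (θ + s • v)) (u ⬝ᵥ cov K t (θ + s • v) *ᵥ v) s := by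
  have h := hK.hasDerivAt_Ex (f := fun x => u ⬝ᵥ x) (by fun_prop) t 0 θ v s
  simp only [mul_zero, add_zero, zero_div, zero_mul, sub_zero] at h
  simp only [hK.Ex_dot, hK.Ex_dot_mul_dot, add_sub_cancel_right] at h
  exact h

/-- The gradient map, perturbed to be strictly monotone. -/
noncomputable def FM (K : Set (ι → ℝ)) (t δ : ℝ) (θ ξ : ι → ℝ) : ι → ℝ := bar K t (θ + ξ) + δ • ξ

omit [DecidableEq ι] in
lemma diff_FM (hK : IsBody K) (t δ : ℝ) (θ : ι → ℝ) : Differentiable ℝ (FM K t δ θ) := by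
  have h1 : Differentiable ℝ fun p : ℝ × (ι → ℝ) => bar K p.1 p.2 :=
    hK.contDiff_bar.differentiable (by simp)
  have h2 : Differentiable ℝ fun ξ : ι → ℝ => ((t, θ + ξ) : ℝ × (ι → ℝ)) := by fun_prop
  have h3 := Differentiable.comp (g := fun p : ℝ × (ι → ℝ) => bar K p.1 p.2)
    (f := fun ξ : ι → ℝ => ((t, θ + ξ) : ℝ × (ι → ℝ))) h1 h2
  have h4 : Differentiable ℝ fun ξ : ι → ℝ => δ • ξ := by fun_prop
  have h5 := h3.add h4
  have e : FM K t δ θ = ((fun p : ℝ × (ι → ℝ) => bar K p.1 p.2) ∘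
      fun ξ : ι → ℝ => ((t, θ + ξ) : ℝ × (ι → ℝ))) + fun ξ : ι → ℝ => δ • ξ := by
    funext ξ
    simp only [FM, Pi.add_apply, Function.comp_apply]
  rw [e]
  exact h5

lemma fderiv_FM (hK : IsBody K) (t δ : ℝ) (θ ξ v : ι → ℝ) :
    fderiv ℝ (FM K t δ θ) ξ v = (cov K t (θ + ξ) + δ • (1 : Matrix ι ι ℝ)) *ᵥ v := by
  have hl : HasDerivAt (fun s : ℝ => ξ + s • v) v 0 := by
    simpa using ((hasDerivAt_id (0 : ℝ)).smul_const v).const_add ξ
  have h1 : HasDerivAt (fun s : ℝ => FM K t δ θ (ξ + s • v)) (fderiv ℝ (FM K t δ θ) ξ v) 0 :=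
    HasFDerivAt.comp_hasDerivAt_of_eq (0 : ℝ) (diff_FM hK t δ θ ξ).hasFDerivAt hl (by simp)
  have h2 : HasDerivAt (fun s : ℝ => FM K t δ θ (ξ + s • v))
      ((cov K t (θ + ξ) + δ • (1 : Matrix ι ι ℝ)) *ᵥ v) 0 := by
    rw [add_mulVec, smul_mulVec, one_mulVec]
    refine HasDerivAt.add ?_ (hl.const_smul δ)
    refine hasDerivAt_pi.2 fun i => ?_
    have := hasDerivAt_bar hK t (θ + ξ) (Pi.single i 1) v 0
    simpa only [single_dotProduct, one_mul, zero_smul, add_zero, add_assoc] using this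
  exact h1.unique h2

lemma det_fderiv_FM (hK : IsBody K) (t δ : ℝ) (θ ξ : ι → ℝ) :
    (fderiv ℝ (FM K t δ θ) ξ).det = (cov K t (θ + ξ) + δ • (1 : Matrix ι ι ℝ)).det := by
  rw [← LinearMap.det_toLin', ContinuousLinearMap.det]
  congr 1
  refine LinearMap.ext fun v => ?_
  rw [toLin'_apply, ← fderiv_FM hK]
  rfl

omit [DecidableEq ι] in
lemma inj_FM (hK : IsBody K) (t : ℝ) {δ : ℝ} (hδ : 0 < δ) (θ : ι → ℝ) :
    Function.Injective (FM K t δ θ) := by
  intro ξ ξ' h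
  set w := ξ - ξ' with hw
  have hm : Monotone fun s : ℝ => w ⬝ᵥ bar K t (θ + ξ' + s • w) :=
    monotone_of_deriv_nonneg (fun s => (hasDerivAt_bar hK t _ w w s).differentiableAt) fun s => by
      rw [(hasDerivAt_bar hK t _ w w s).deriv]
      exact hK.cov_quad_nonneg _ _ _
  have h1 := hm (zero_le_one (α := ℝ))
  simp only [zero_smul, add_zero, one_smul] at h1
  rw [show θ + ξ' + w = θ + ξ by rw [hw]; abel] at h1
  have h2 := congrArg (fun z => w ⬝ᵥ z) h
  simp only [FM, dotProduct_add, dotProduct_smul, smul_eq_mul] at h2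
  have h3 : w ⬝ᵥ w = w ⬝ᵥ ξ - w ⬝ᵥ ξ' := by rw [← dotProduct_sub]
  have h4 : 0 ≤ w ⬝ᵥ w := Finset.sum_nonneg fun i _ => mul_self_nonneg _
  have h5 : w ⬝ᵥ w = 0 := by nlinarith
  exact sub_eq_zero.1 (dotProduct_self_eq_zero.1 h5)

lemma det_cov_add (t δ : ℝ) (θ : ι → ℝ) :
    (cov K t θ + δ • (1 : Matrix ι ι ℝ)).det = ∏ i, (lam K t θ i + δ) := by
  set U : Matrix ι ι ℝ := Matrix.of fun a i => evec K t θ i a with hU
  have h1 : Uᵀ * U = 1 := by
    ext i j
    rw [mul_apply, one_apply, ← evec_dot (K := K) t θ i j]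
    rfl
  have h2 : U.det ≠ 0 := by
    intro h
    have := congrArg det h1
    rw [det_mul, h, mul_zero, det_one] at this
    exact zero_ne_one this
  have h3 : (cov K t θ + δ • (1 : Matrix ι ι ℝ)) * U =
      U * diagonal fun i => lam K t θ i + δ := by
    ext a i
    have := congrFun (cov_mulVec_evec (K := K) t θ i) a
    rw [add_mul, smul_mul_assoc, one_mul, mul_diagonal, Matrix.add_apply, Matrix.smul_apply,
      mul_apply]
    simp only [hU, of_apply, smul_eq_mul]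
    simp only [mulVec, dotProduct, Pi.smul_apply, smul_eq_mul] at this
    rw [this]
    ring
  have h4 := congrArg det h3
  rw [det_mul, det_mul, det_diagonal, mul_comm] at h4
  exact mul_left_cancel₀ h2 h4

omit [DecidableEq ι] in
lemma prod_ge {l : ι → ℝ} (hl : ∀ i, 0 ≤ l i) {ε : ℝ} (h0 : 0 < ε) (h1 : ε ≤ 1 / 2)
    (hs : ∑ i, (l i - 1) ^ 2 ≤ (Fintype.card ι : ℝ) / 16) :
    (ε / 2) ^ Fintype.card ι ≤ ∏ i, (l i + ε ^ 4) := by
  have hL : Real.log ε ≤ 0 := Real.log_nonpos h0.le (by linarith)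
  have key : ∀ i, 1 / 2 * Real.exp (16 * (l i - 1) ^ 2 * Real.log ε) ≤ l i + ε ^ 4 := by
    intro i
    have hp : 0 < ε ^ 4 := by positivity
    rcases le_total (1 / 2) (l i) with h | h
    · have : Real.exp (16 * (l i - 1) ^ 2 * Real.log ε) ≤ 1 :=
        Real.exp_le_one_iff.2 (mul_nonpos_of_nonneg_of_nonpos (by positivity) hL)
      linarith
    · have h2 : Real.exp (16 * (l i - 1) ^ 2 * Real.log ε) ≤ ε ^ 4 := by
        rw [← Real.exp_log hp, Real.log_pow]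
        refine Real.exp_le_exp.2 (mul_le_mul_of_nonpos_right ?_ hL)
        push_cast
        nlinarith
      linarith [hl i]
  refine le_trans ?_ (Finset.prod_le_prod (fun i _ => by positivity) fun i _ => key i)
  rw [Finset.prod_mul_distrib, ← Real.exp_sum, Finset.prod_const, Finset.card_univ,
    ← Finset.sum_mul, ← Finset.mul_sum, show ε / 2 = 1 / 2 * ε by ring, mul_pow]
  refine mul_le_mul_of_nonneg_left ?_ (by positivity)
  rw [← Real.exp_log (pow_pos h0 _), Real.log_pow]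
  exact Real.exp_le_exp.2 (mul_le_mul_of_nonpos_right (by linarith) hL)

omit [DecidableEq ι] in
lemma dot_le_of_norm {w : ι → ℝ} {r : ℝ} (hw : ‖w‖ ≤ r) : w ⬝ᵥ w ≤ Fintype.card ι * r ^ 2 := by
  calc w ⬝ᵥ w = ∑ i, w i * w i := rfl
    _ ≤ ∑ _i : ι, r ^ 2 := Finset.sum_le_sum fun i _ => by
        have h := (norm_le_pi_norm w i).trans hw
        rw [Real.norm_eq_abs] at h
        have := abs_nonneg (w i)
        nlinarith [abs_mul_abs_self (w i)]
    _ = Fintype.card ι * r ^ 2 := by simp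

lemma cov_move (hK : IsBody K) {t : ℝ} (θ ξ : ι → ℝ) {b : ℝ} (hb : 0 ≤ b)
    (hT : ∀ θ' : ι → ℝ, ∑ j, ∑ k, T3 K t θ' ξ (Pi.single j 1) (Pi.single k 1) ^ 2 ≤ b) :
    ∑ j, ∑ k, (cov K t (θ + ξ) j k - cov K t θ j k) ^ 2 ≤ b := by
  set B : ι × ι → ℝ := fun p => cov K t (θ + ξ) p.1 p.2 - cov K t θ p.1 p.2 with hB
  have hd : ∀ s : ℝ, HasDerivAt (fun s : ℝ => ∑ p : ι × ι, B p * cov K t (θ + s • ξ) p.1 p.2)
      (∑ p : ι × ι, B p * T3 K t (θ + s • ξ) ξ (Pi.single p.1 1) (Pi.single p.2 1)) s := by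
    intro s
    refine HasDerivAt.fun_sum fun p _ => HasDerivAt.const_mul _ ?_
    have := hK.hasDerivAt_cov t θ (Pi.single p.1 1) (Pi.single p.2 1) ξ s
    rw [T3_comm₂₃, T3_comm₁₂] at this
    simpa only [single_dotProduct, one_mul, mulVec_single_one, col_apply] using this
  obtain ⟨s, -, hs⟩ := exists_hasDerivAt_eq_slope _ _ (zero_lt_one (α := ℝ))
    (fun s _ => (hd s).continuousAt.continuousWithinAt) fun s _ => hd s
  simp only [one_smul, zero_smul, add_zero, sub_zero, div_one, ← Finset.sum_sub_distrib,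
    ← mul_sub] at hs
  have hcs := Finset.sum_mul_sq_le_sq_mul_sq Finset.univ B
    fun p : ι × ι => T3 K t (θ + s • ξ) ξ (Pi.single p.1 1) (Pi.single p.2 1)
  have h2 := hT (θ + s • ξ)
  rw [← Fintype.sum_prod_type'] at h2 ⊢
  have e : ∑ p : ι × ι, B p * (cov K t (θ + ξ) p.1 p.2 - cov K t θ p.1 p.2) = ∑ p, B p ^ 2 :=
    Finset.sum_congr rfl fun p _ => by simp only [hB, sq]
  rw [hs, e] at hcs
  have h0 : 0 ≤ ∑ p, B p ^ 2 := Finset.sum_nonneg fun p _ => sq_nonneg _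
  show ∑ p, B p ^ 2 ≤ b
  by_contra hc
  push Not at hc
  nlinarith [mul_le_mul_of_nonneg_left h2 h0]

omit [DecidableEq ι] in
lemma setIntegral_odd {W : Set (ι → ℝ)} (hW : MeasurableSet W) (hs : ∀ x ∈ W, -x ∈ W) (i : ι) :
    ∫ y in W, y i = 0 := by
  have h : ∫ y in W, y i = ∫ y in W, -y i := by
    rw [← integral_indicator hW, ← integral_indicator hW,
      ← integral_neg_eq_self (W.indicator fun y : ι → ℝ => y i)]
    congr 1
    funext y
    by_cases hy : y ∈ W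
    · rw [Set.indicator_of_mem hy, Set.indicator_of_mem (hs y hy)]
      rfl
    · have : -y ∉ W := fun h => hy (by simpa using hs _ h)
      rw [Set.indicator_of_notMem hy, Set.indicator_of_notMem this]
  rw [integral_neg] at h
  linarith

omit [DecidableEq ι] in
lemma Vor_smul (Q : Matrix ι ι ℝ) {c : ℝ} (hc : 0 < c) : Vor (c • Q) = Vor Q := by
  ext y
  simp only [Vor, qf, Set.mem_ofPred_eq, smul_mulVec, dotProduct_smul, smul_eq_mul,
    mul_le_mul_iff_right₀ hc]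

end Geo

open Geo

theorem vol (hT : T3Stmt) : VolStmt := by
  intro ι _ _ K t ε θ hK ht ht1 hs h0 h1
  set c : ℝ := t ^ 2 / 16 with hc
  have hc0 : 0 < c := by positivity
  have hc1 : c ≤ 1 := by rw [hc]; nlinarith
  have hδ : 0 < ε ^ 4 := by positivity
  have himg := lintegral_abs_det_fderiv_eq_addHaar_image (volume : Measure (ι → ℝ))
    (s := Metric.closedBall 0 c) measurableSet_closedBall (f := FM K t (ε ^ 4) θ)
    (f' := fderiv ℝ (FM K t (ε ^ 4) θ))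
    (fun x _ => (diff_FM hK t _ θ x).hasFDerivAt.hasFDerivWithinAt) (inj_FM hK t hδ θ).injOn
  have hsub : FM K t (ε ^ 4) θ '' Metric.closedBall 0 c ⊆
      K + Metric.closedBall (0 : ι → ℝ) (ε ^ 4) := by
    rintro _ ⟨ξ, hξ, rfl⟩
    refine ⟨_, hK.bar_mem t (θ + ξ), _, ?_, rfl⟩
    rw [mem_closedBall_zero_iff] at hξ ⊢
    rw [norm_smul, Real.norm_eq_abs, abs_of_pos hδ]
    nlinarith
  refine le_trans ?_ (measure_mono hsub)
  rw [← himg]
  have hdet : ∀ ξ ∈ Metric.closedBall (0 : ι → ℝ) c, ENNReal.ofReal ((ε / 2) ^ Fintype.card ι) ≤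
      ENNReal.ofReal |(fderiv ℝ (FM K t (ε ^ 4) θ) ξ).det| := by
    intro ξ hξ
    rw [mem_closedBall_zero_iff] at hξ
    refine ENNReal.ofReal_le_ofReal (le_trans ?_ (le_abs_self _))
    rw [det_fderiv_FM hK, det_cov_add]
    refine prod_ge (hK.lam_nonneg t _) h0 h1 ?_
    rw [← hs1_cov]
    have hn : (0 : ℝ) ≤ Fintype.card ι := Nat.cast_nonneg _
    have h2 := cov_move hK (t := t) θ ξ (b := Fintype.card ι / 64) (by positivity) fun θ' => by
      refine ((hT ι K t θ' hK ht).2.1 ξ).trans ?_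
      rw [div_le_iff₀ (by positivity)]
      have h3 := dot_le_of_norm hξ
      have h4 : c ^ 2 ≤ t ^ 3 / 256 := by
        rw [hc]
        have : 0 < t ^ 3 := by positivity
        nlinarith
      nlinarith [mul_le_mul_of_nonneg_left h4 hn]
    have h3 : hs1 (cov K t (θ + ξ)) ≤
        2 * (∑ j, ∑ k, (cov K t (θ + ξ) j k - cov K t θ j k) ^ 2) + 2 * hs1 (cov K t θ) := by
      simp only [hs1, Finset.mul_sum, ← Finset.sum_add_distrib]
      refine Finset.sum_le_sum fun j _ => Finset.sum_le_sum fun k _ => ?_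
      nlinarith [sq_nonneg (cov K t (θ + ξ) j k - 2 * cov K t θ j k + (1 : Matrix ι ι ℝ) j k)]
    linarith
  refine le_trans (le_of_eq ?_) (setLIntegral_mono' measurableSet_closedBall hdet)
  rw [setLIntegral_const, Real.volume_pi_closedBall _ hc0.le,
    ← ENNReal.ofReal_mul (by positivity), ← mul_pow]
  congr 2
  ring

theorem geo (hG : GuanStmt) (hV : VolStmt) (h1 : Dual1Stmt) (h2 : Dual2Stmt) (hW : VorStmt)
    (hF : FFStmt) : GeoStmt := by
  obtain ⟨t, ht, ht1, hG⟩ := hG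
  set E : ℝ := Real.exp (32 * Real.pi ^ 2 + 1 / 4) with hE
  have hE0 : 0 < E := Real.exp_pos _
  refine ⟨max 16 ((48 * E / t ^ 2) ^ 4), fun n Q σ hn hQ hdet hσ hiso hFF => ?_⟩
  rcases le_total σ 16 with h16 | h16
  · exact h16.trans (le_max_left _ _)
  refine le_trans ?_ (le_max_right _ _)
  obtain ⟨ρ, hρ2, rfl⟩ : ∃ ρ : ℝ, 2 ≤ ρ ∧ σ = ρ ^ 4 := by
    refine ⟨√(√σ), Real.le_sqrt_of_sq_le (Real.le_sqrt_of_sq_le (by linarith)), ?_⟩
    rw [show (4 : ℕ) = 2 * 2 by rfl, pow_mul, Real.sq_sqrt (Real.sqrt_nonneg _),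
      Real.sq_sqrt hσ.le]
  have hρ : 0 < ρ := by linarith
  obtain ⟨g0, hg0, hQg⟩ := Mat.exists_sq hQ
  set g : Matrix (Fin n) (Fin n) ℝ := (1 / ρ ^ 2) • g0 with hg
  have hgd : g.det = (1 / ρ ^ 2) ^ n * g0.det := by rw [hg, det_smul, Fintype.card_fin]
  have hg1 : g.det ≠ 0 := by
    rw [hgd]
    exact mul_ne_zero (by positivity) hg0
  have hgu : IsUnit g.det := hg1.isUnit
  have hgtu : IsUnit gᵀ.det := by rwa [det_transpose]
  have hgg : gᵀ * g = (1 / ρ ^ 4) • Q := by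
    rw [hg, transpose_smul, smul_mul_smul_comm, ← hQg]
    congr 1
    field_simp
  have hQu : IsUnit Q.det := hQ.det_pos.ne'.isUnit
  have hinv : g⁻¹ * g⁻¹ᵀ = ρ ^ 4 • Q⁻¹ := by
    rw [transpose_nonsing_inv, ← Matrix.mul_inv_rev, hgg]
    refine inv_eq_right_inv ?_
    rw [smul_mul_smul_comm, mul_nonsing_inv _ hQu, one_div_mul_cancel (by positivity), one_smul]
  obtain ⟨kF, kB, kM, kS, kC, kV, kvol, kI⟩ := (hW (Fin n)).2 g hg1 _ rfl
  set K := (fun y => g *ᵥ y) '' Vor (gᵀ * g) with hK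
  have habs : 0 < |g.det| := abs_pos.2 hg1
  have hEx : ∀ f : (Fin n → ℝ) → ℝ, Ex K 0 0 f = (∫ x in K, f x) / |g.det| := by
    intro f
    rw [Ex, Zf_zero, kvol, ENNReal.toReal_ofReal habs.le]
    simp [wt]
  have hbar : bar K 0 0 = 0 := by
    funext i
    rw [bar, hEx, setIntegral_odd kM kS i, zero_div, Pi.zero_apply]
  obtain ⟨θ, hθ⟩ := hG (Fin n) K kB fun v => by
    have e1 : v ⬝ᵥ cov K 0 0 *ᵥ v = ∫ y in Vor Q, ((gᵀ *ᵥ v) ⬝ᵥ y) ^ 2 := by
      rw [kB.cov_quad, hbar, hEx, kI _ (by fun_prop), mul_div_cancel_left₀ _ habs.ne', hgg,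
        Vor_smul Q (by positivity)]
      simp only [sub_zero, dotProduct_mulVec, mulVec_transpose]
    have e2 : ρ ^ 4 * qf Q⁻¹ (gᵀ *ᵥ v) = v ⬝ᵥ v := by
      have : (ρ ^ 4 • Q⁻¹) *ᵥ (gᵀ *ᵥ v) = g⁻¹ *ᵥ v := by
        rw [← hinv, mulVec_mulVec, Matrix.mul_assoc, transpose_nonsing_inv,
          nonsing_inv_mul _ hgtu, Matrix.mul_one]
      rw [qf, ← smul_eq_mul, ← dotProduct_smul, ← smul_mulVec, this, mulVec_transpose,
        ← dotProduct_mulVec, mulVec_mulVec, mul_nonsing_inv _ hgu, one_mulVec]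
    have := hiso (gᵀ *ᵥ v)
    rw [e2, div_mul_eq_mul_div, e2] at this
    rwa [e1]
  have hlow := hV (Fin n) K t (1 / ρ) θ kB ht ht1 hθ (by positivity)
    (one_div_le_one_div_of_le (by norm_num) hρ2)
  have hg' : (g⁻¹ᵀ).det ≠ 0 := by
    rw [det_transpose]
    exact (isUnit_nonsing_inv_det _ hgu).ne_zero
  obtain ⟨wF, wB, wM, wS, -, -, wvol, wI⟩ := (hW (Fin n)).2 g⁻¹ᵀ hg' _ rfl
  set W := (fun y => g⁻¹ᵀ *ᵥ y) '' Vor (g⁻¹ᵀᵀ * g⁻¹ᵀ) with hWd
  have hQi : Q⁻¹.PosDef := hQ.inv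
  have hmom : ∫ x in W, x ⬝ᵥ x ≤ 4 * n * ρ ^ 8 * (volume W).toReal := by
    rw [wI _ (by fun_prop), wvol, ENNReal.toReal_ofReal (abs_nonneg _), mul_comm]
    refine mul_le_mul_of_nonneg_right ?_ (abs_nonneg _)
    have e : ∀ y : Fin n → ℝ, (g⁻¹ᵀ *ᵥ y) ⬝ᵥ (g⁻¹ᵀ *ᵥ y) = qf (ρ ^ 4 • Q⁻¹) y := by
      intro y
      rw [qf, ← hinv, ← mulVec_mulVec, dotProduct_mulVec y, mulVec_transpose]
    simp only [e]
    rw [transpose_transpose, hinv,
      ← ((hW (Fin n)).1 _ (hQi.smul (by positivity : (0 : ℝ) < ρ ^ 4))).2.2,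
      (hF.1 (Fin n) _ hQi).2.2.1 _ (by positivity)]
    have : 0 < ρ ^ 4 := by positivity
    nlinarith
  have hpi := Real.pi_pos
  have hup := h2 (Fin n) (lat g) K (1 / ρ ^ 8) (Real.exp (32 * Real.pi ^ 2 * n)) ((1 / ρ) ^ 4)
    kF kM kS kC kB.2.1 kV (by positivity) fun x A hA => by
      have h := h1 (Fin n) (lat g⁻¹ᵀ) W (4 * n * ρ ^ 8) (ρ ^ 8 / (16 * Real.pi ^ 2))
        (A.map ⟨fun v => x + v, add_right_injective x⟩) wF wM wS wB.2.1 wB.2.2 hmom
        (by positivity) (by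
          intro u hu u' hu' w hw
          obtain ⟨v, hv, rfl⟩ := Finset.mem_map.1 hu
          obtain ⟨v', hv', rfl⟩ := Finset.mem_map.1 hu'
          obtain ⟨k, hk⟩ := (lat g).sub_mem (hA v hv) (hA v' hv')
          obtain ⟨l, rfl⟩ := hw
          refine ⟨k ⬝ᵥ l, ?_⟩
          simp only [Function.Embedding.coeFn_mk, add_sub_add_left_eq_sub]
          rw [← hk]
          simp only
          rw [mulVec_transpose, dotProduct_comm, ← dotProduct_mulVec, mulVec_mulVec,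
            nonsing_inv_mul _ hgu, one_mulVec]
          simp [dotProduct, zc, mul_comm])
      rw [Finset.sum_map] at h
      refine le_trans (le_of_eq (Finset.sum_congr rfl fun v _ => ?_)) (h.trans (le_of_eq ?_))
      · simp only [Function.Embedding.coeFn_mk]
        congr 1
        field_simp
        ring
      · congr 1
        field_simp
        ring
  have hfin := hlow.trans hup
  rw [kvol, ← ENNReal.ofReal_mul (by positivity), ENNReal.ofReal_le_ofReal_iff (by positivity),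
    Fintype.card_fin] at hfin
  have hd0 : |g0.det| ≤ 1 := by
    rw [hQg, det_mul, det_transpose] at hdet
    exact abs_le_one_iff_mul_self_le_one.2 hdet
  have hEn : Real.exp (32 * Real.pi ^ 2 * n) * 3 ^ n *
      Real.exp (n * ((1 / ρ) ^ 4) ^ 2 / (4 * (1 / ρ ^ 8))) = (3 * E) ^ n := by
    rw [mul_pow, hE, ← Real.exp_nat_mul, mul_right_comm, ← Real.exp_add, mul_comm]
    congr 2
    field_simp
  rw [hEn, hgd, abs_mul, abs_of_pos (by positivity : 0 < (1 / ρ ^ 2) ^ n), ← mul_assoc,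
    ← mul_pow] at hfin
  have h3 : (t ^ 2 / 16 * (1 / ρ)) ^ n ≤ (3 * E * (1 / ρ ^ 2)) ^ n :=
    hfin.trans (mul_le_of_le_one_right (by positivity) hd0)
  have h4 := (pow_le_pow_iff_left₀ (by positivity) (by positivity) hn.ne').1 h3
  refine pow_le_pow_left₀ hρ.le ?_ 4
  rw [le_div_iff₀ (by positivity)]
  have h5 := mul_le_mul_of_nonneg_right h4 (by positivity : (0 : ℝ) ≤ 16 * ρ ^ 2)
  have e1 : t ^ 2 / 16 * (1 / ρ) * (16 * ρ ^ 2) = ρ * t ^ 2 := by field_simp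
  have e2 : 3 * E * (1 / ρ ^ 2) * (16 * ρ ^ 2) = 48 * E := by
    field_simp
    ring
  linarith

end Pool.Agent.P.MP_d05bff_gt
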