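import Pool.Agent.P.MP_d05bff_gt.Greedy2

/-!
The greedy step and the iteration.
-/

namespace Pool.Agent.P.MP_d05bff_gt

namespace Greedy

open Matrix Module

universe u

variable {G : Type u} [AddCommGroup G] {m : ℕ}

theorem int_of_span {ι : Type} {τ : ι → Fin m → ℝ} {v : Fin m → ℝ}
    (h : ∀ i, ∃ z : ℤ, τ i ⬝ᵥ v = z) {x : Fin m → ℝ}
    (hx : x ∈ Submodule.span ℤ (Set.range τ)) : ∃ z : ℤ, x ⬝ᵥ v = z := by
  induction hx using Submodule.span_induction with
  | mem x hx =>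
    obtain ⟨i, rfl⟩ := hx
    exact h i
  | zero => exact ⟨0, by simp⟩
  | add x y _ _ hx hy =>
    obtain ⟨a, ha⟩ := hx
    obtain ⟨b, hb⟩ := hy
    exact ⟨a + b, by rw [add_dotProduct, ha, hb]; push_cast; rfl⟩
  | smul c x _ hx =>
    obtain ⟨a, ha⟩ := hx
    exact ⟨c * a, by rw [smul_dotProduct, ha]; simp⟩

theorem zero_of_span {κ ι : Type} [Fintype κ] {τ : ι → κ → ℝ} {v : κ → ℝ}
    (h : ∀ i, τ i ⬝ᵥ v = 0) {x : κ → ℝ} (hx : x ∈ Submodule.span ℝ (Set.range τ)) :
    x ⬝ᵥ v = 0 := by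
  induction hx using Submodule.span_induction with
  | mem x hx =>
    obtain ⟨i, rfl⟩ := hx
    exact h i
  | zero => simp
  | add x y _ _ hx hy => rw [add_dotProduct, hx, hy, add_zero]
  | smul c x _ hx => rw [smul_dotProduct, hx, smul_zero]

theorem span_int_le {κ ι : Type} {τ : ι → κ → ℝ} {W : Submodule ℝ (κ → ℝ)} (h : ∀ i, τ i ∈ W)
    {x : κ → ℝ} (hx : x ∈ Submodule.span ℤ (Set.range τ)) : x ∈ W := by
  have : Submodule.span ℤ (Set.range τ) ≤ W.restrictScalars ℤ := by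
    rw [Submodule.span_le]
    rintro _ ⟨j, rfl⟩
    exact h j
  exact this hx

/-- `τ` is within a factor two of the extremum for the weight `18`. -/
def Near (t : Fin m → G) {ι : Type} [Fintype ι] [DecidableEq ι] (τ : ι → Fin m → ℝ) : Prop :=
  (∀ j, τ j ∈ MM t) ∧ LinearIndependent ℝ τ ∧
    ∀ (p : ℕ) (a : Fin p → Fin m → ℝ), (∀ j, a j ∈ MM t) → LinearIndependent ℝ a →
      18 ^ Fintype.card ι * gd τ ≤ 2 * (18 ^ p * gd a)

variable {ι : Type} [Fintype ι] [DecidableEq ι]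

theorem short {t : Fin m → G} {τ : ι → Fin m → ℝ} (h : Near t τ) {v : Fin m → ℝ}
    (hv : v ∈ Submodule.span ℝ (Set.range τ)) (hz : ∀ i, ∃ z : ℤ, τ i ⬝ᵥ v = z)
    (hs : v ⬝ᵥ v < 9) : v = 0 := by
  obtain ⟨hM, hi, hn⟩ := h
  let φ : (Fin m → ℝ) →ₗ[ℝ] ℝ :=
    { toFun := fun x => x ⬝ᵥ v
      map_add' := fun x y => add_dotProduct x y v
      map_smul' := fun c x => smul_dotProduct c x v }
  obtain ⟨p, q, a, b, hpq, ha, hab, hτ, hgd, hb⟩ := adapted τ φ.ker
  have hbz : ∀ j, ∃ z : ℤ, b j ⬝ᵥ v = z := fun j => int_of_span hz (hab (Sum.inr j))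
  choose z hz' using hbz
  have hz0 : ∀ j, z j ≠ 0 := by
    intro j h0
    have := hb (Pi.single j 1) (by
      rw [Finset.sum_eq_single j]
      · change _ ⬝ᵥ v = 0
        simp [hz', h0]
      · intro i _ hij
        simp [hij]
      · simp)
    simpa using congrFun this j
  by_contra hv0
  have hvv : 0 < v ⬝ᵥ v :=
    lt_of_le_of_ne (dot_self_nonneg v) fun h0 => hv0 (dotProduct_self_eq_zero.mp h0.symm)
  match q, b, hpq, hab, hτ, hgd, hb, z, hz', hz0 with
  | 0, b, hpq, hab, hτ, hgd, hb, z, hz', hz0 =>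
    have h1 : ∀ i, τ i ⬝ᵥ v = 0 := fun i =>
      span_int_le (W := φ.ker) (fun j => by
        rcases j with j | j
        · exact ha j
        · exact j.elim0) (hτ i)
    exact hvv.ne' (zero_of_span h1 hv)
  | 1, b, hpq, hab, hτ, hgd, hb, z, hz', hz0 =>
    obtain ⟨P, hP⟩ := exists_pr (Submodule.span ℝ (Set.range a))
    have h1 := gd_elim a b hP
    have hpos := gd_pos τ hi
    have hia : LinearIndependent ℝ a :=
      (indep_of_gd (Sum.elim a b) (by rw [hgd]; exact hpos.ne')).comp Sum.inl Sum.inl_injective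
    have h2 := hn p a (fun j => span_le_MM hM (hab (Sum.inl j))) hia
    have h3 : gd (fun j => b j - P (b j)) = (b 0 - P (b 0)) ⬝ᵥ (b 0 - P (b 0)) := by
      simp [gd, gram]
    have h4 : (b 0 - P (b 0)) ⬝ᵥ v = z 0 := by
      rw [sub_dotProduct, hz', zero_of_span ha (hP.1 _), sub_zero]
    have h5 := cauchy (b 0 - P (b 0)) v
    have h6 : (1 : ℝ) ≤ (z 0 : ℝ) ^ 2 := by
      have := hz0 0
      have h7 : 0 < z 0 ^ 2 := by positivity
      exact_mod_cast h7
    rw [h4, ← h3] at h5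
    rw [← hpq, ← hgd, h1, pow_succ] at h2
    have hpa := gd_pos a hia
    have h8 : (0 : ℝ) < 18 ^ p * gd a := by positivity
    have h9 : 9 * gd (fun j => b j - P (b j)) ≤ 1 := by
      refine le_of_mul_le_mul_left ?_ h8
      linarith
    have h10 : 0 ≤ gd (fun j => b j - P (b j)) := h3 ▸ dot_self_nonneg _
    nlinarith
  | q + 2, b, hpq, hab, hτ, hgd, hb, z, hz', hz0 =>
    have := hb (Pi.single 0 (z 1) - Pi.single 1 (z 0)) (by
      change _ ⬝ᵥ v = 0
      simp only [Pi.sub_apply, sub_smul, Finset.sum_sub_distrib, sum_single, sub_dotProduct,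
        smul_dotProduct, hz']
      simp only [zsmul_eq_mul]
      ring)
    have h1 := congrFun this 0
    simp at h1
    exact hz0 1 h1

theorem sub [Finite G] (hM : MatStmt) {B : ℝ} {t : Fin m → G} (hB : Bd 2 B t)
    {τ : ι → Fin m → ℝ} (h : Near t τ) {α : Type} [Fintype α] [DecidableEq α]
    {β : α → Fin m → ℝ} (hβ : ∀ j, β j ∈ MM t) (hi : LinearIndependent ℝ β)
    (hlt : B * (2 ^ Fintype.card α * gd β) < 2) (i : ι) :
    τ i ∈ Submodule.span ℝ (Set.range β) := by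
  obtain ⟨hτM, hτi, hn⟩ := h
  obtain ⟨p, q, a, b, hpq, ha, hab, hτ, hgd, hb⟩ := adapted τ (Submodule.span ℝ (Set.range β))
  rcases Nat.eq_zero_or_pos q with rfl | hq
  · exact span_int_le (fun j => by
      rcases j with j | j
      · exact ha j
      · exact j.elim0) (hτ i)
  exfalso
  obtain ⟨P, hP⟩ := exists_pr (Submodule.span ℝ (Set.range a))
  obtain ⟨R, hR⟩ := exists_pr (Submodule.span ℝ (Set.range β))
  have hpos := gd_pos τ hτi
  have hia : LinearIndependent ℝ a :=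
    (indep_of_gd (Sum.elim a b) (by rw [hgd]; exact hpos.ne')).comp Sum.inl Sum.inl_injective
  have h2 := hn p a (fun j => span_le_MM hτM (hab (Sum.inl j))) hia
  have hMb : ∀ j, Sum.elim β b j ∈ MM t := by
    rintro (j | j)
    · exact hβ j
    · exact span_le_MM hτM (hab (Sum.inr j))
  have hib : LinearIndependent ℝ (Sum.elim β b) := by
    refine indepM hMb ?_
    rw [Fintype.linearIndependent_iff]
    intro g hg
    rw [Fintype.sum_sum_type] at hg
    simp only [Sum.elim_inl, Sum.elim_inr] at hg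
    have h3 : (fun j => g (Sum.inr j)) = 0 := by
      refine hb _ ?_
      rw [eq_neg_of_add_eq_zero_right hg]
      refine Submodule.neg_mem _ (Submodule.sum_mem _ fun j _ => ?_)
      exact zsmul_mem (Submodule.subset_span (Set.mem_range_self j)) _
    have h4 : ∀ j, g (Sum.inr j) = 0 := fun j => congrFun h3 j
    simp only [h4, zero_smul, Finset.sum_const_zero, add_zero] at hg
    rintro (j | j)
    · exact Fintype.linearIndependent_iff.mp (hi.restrict_scalars' ℤ) _ hg j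
    · exact h4 j
  have h3 := hB _ _ hMb hib
  rw [gd_elim β b hR, Fintype.card_sum, Fintype.card_fin, pow_add] at h3
  rw [← hpq, ← hgd, gd_elim a b hP, pow_add] at h2
  have h4 : gd (fun j => b j - R (b j)) ≤ gd (fun j => b j - P (b j)) := by
    have h5 := gd_contract hM (LinearMap.id - R) (fun x => by
      have := hR.pyth x
      have := dot_self_nonneg (R x)
      simp only [LinearMap.sub_apply, LinearMap.id_apply]
      linarith) (fun j => b j - P (b j))
    refine le_trans (le_of_eq ?_) h5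
    congr 1
    funext j
    have h6 : R (P (b j)) = P (b j) := hR.fix (Submodule.span_le.mpr (by
      rintro _ ⟨k, rfl⟩
      exact ha k) (hP.1 _))
    simp only [LinearMap.sub_apply, LinearMap.id_apply, map_sub, h6]
    abel
  have hpa := gd_pos a hia
  have h8 : (0 : ℝ) < 18 ^ p * gd a := by positivity
  have h9 : 18 ^ q * gd (fun j => b j - P (b j)) ≤ 2 := by
    refine le_of_mul_le_mul_left ?_ h8
    linarith
  set x := gd (fun j => b j - R (b j))
  set y := gd (fun j => b j - P (b j))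
  set A := B * (2 ^ Fintype.card α * gd β)
  have h10 : 1 ≤ A * (2 ^ q * x) := by
    refine h3.trans (le_of_eq ?_)
    simp only [A]
    ring
  have hA : 0 ≤ A := by
    have := hB.one_le
    have := gd_pos β hi
    positivity
  have hx : 0 ≤ 2 ^ q * x := by
    by_contra hneg
    nlinarith
  have h11 : (9 : ℝ) ≤ 9 ^ q := le_self_pow₀ (by norm_num) hq.ne'
  have h12 : (18 : ℝ) ^ q = 9 ^ q * 2 ^ q := by
    rw [← mul_pow]
    norm_num
  have h13 : 2 ^ q * x ≤ 2 ^ q * y := by gcongr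
  have h14 : 9 * (2 ^ q * x) ≤ 2 := by
    calc 9 * (2 ^ q * x) ≤ 9 ^ q * (2 ^ q * y) := by gcongr
      _ = 18 ^ q * y := by rw [h12]; ring
      _ ≤ 2 := h9
  nlinarith

theorem dot_succ (x y : Fin (m + 1) → ℝ) : x ⬝ᵥ y = x 0 * y 0 + Fin.tail x ⬝ᵥ Fin.tail y := by
  simp [dotProduct, Fin.sum_univ_succ, Fin.tail]

theorem tail_mem {t : Fin m → G} {s : G} {x : Fin (m + 1) → ℝ}
    (hx : x ∈ MM (Fin.cons s t : Fin (m + 1) → G)) : Fin.tail x ∈ MM t := by
  intro k hk
  obtain ⟨z, hz⟩ := hx (Fin.cons 0 k) (by simpa [Fin.sum_univ_succ] using hk)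
  refine ⟨z, ?_⟩
  rw [← hz, dot_succ]
  simp [zc, dotProduct, Fin.tail]

theorem head_cong {t : Fin m → G} {s : G} {x : Fin (m + 1) → ℝ}
    (hx : x ∈ MM (Fin.cons s t : Fin (m + 1) → G)) {σ : Fin m → ℤ} (hσ : ∑ i, σ i • t i = s) :
    ∃ z : ℤ, Fin.tail x ⬝ᵥ zc σ - x 0 = z := by
  obtain ⟨z, hz⟩ := hx (Fin.cons (-1) σ) (by simp [Fin.sum_univ_succ, hσ])
  refine ⟨z, ?_⟩
  rw [← hz, dot_succ]
  simp [zc, dotProduct, Fin.tail]
  ring

theorem lift [Finite G] {B : ℝ} {t : Fin m → G} (hB : Bd 2 B t) {s : G} {σ : Fin m → ℤ}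
    (hσ : ∑ i, σ i • t i = s) (hn : ¬ Bd 2 (B / 2) (Fin.cons s t : Fin (m + 1) → G)) :
    ∃ (q : ℕ) (β : Fin q → Fin m → ℝ) (l : Fin m → ℝ), (∀ j, β j ∈ MM t) ∧
      LinearIndependent ℝ β ∧ B * (2 ^ Fintype.card (Fin q) * gd β) < 2 ∧ l ⬝ᵥ l < 1 ∧
      ∀ j, ∃ z : ℤ, β j ⬝ᵥ (zc σ - l) = z := by
  classical
  unfold Bd at hn
  push Not at hn
  obtain ⟨ι, _, _, τ, hτM, hτi, hlt⟩ := hn
  let π : (Fin (m + 1) → ℝ) →ₗ[ℝ] (Fin m → ℝ) :=
    { toFun := Fin.tail
      map_add' := fun _ _ => rfl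
      map_smul' := fun _ _ => rfl }
  obtain ⟨p, q, a, b, hpq, ha, hab, -, hgd, hb⟩ := adapted τ π.ker
  have hpos := gd_pos τ hτi
  have hM' : ∀ j, Sum.elim a b j ∈ MM (Fin.cons s t : Fin (m + 1) → G) := fun j =>
    span_le_MM hτM (hab j)
  have hβM : ∀ j, Fin.tail (b j) ∈ MM t := fun j => tail_mem (hM' (Sum.inr j))
  have hβi : LinearIndependent ℝ (fun j => Fin.tail (b j)) := by
    refine indepM hβM ?_
    rw [Fintype.linearIndependent_iff]
    intro g hg j
    refine congrFun (hb g ?_) j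
    rw [LinearMap.mem_ker, map_sum]
    simp only [map_zsmul]
    exact hg
  have h1 := hB _ _ hβM hβi
  have hB1 := hB.one_le
  have hβp := gd_pos _ hβi
  rw [Fintype.card_fin] at h1
  rcases Nat.eq_zero_or_pos p with rfl | hp
  · have hg2 : gd b = gd τ := by
      rw [← hgd, ← gd_reindex (Equiv.emptySum (Fin 0) (Fin q)).symm]
      rfl
    rw [zero_add] at hpq
    rw [← hpq, ← hg2] at hlt
    set β := fun j => Fin.tail (b j)
    have hu : IsUnit (gram β).det := isUnit_iff_ne_zero.mpr hβp.ne'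
    let h : Fin q → ℝ := fun j => b j 0
    let c : Fin q → ℝ := (gram β)⁻¹ *ᵥ h
    have hc : gram β *ᵥ c = h := by
      simp only [c]
      rw [Matrix.mulVec_mulVec, Matrix.mul_nonsing_inv _ hu, Matrix.one_mulVec]
    let l : Fin m → ℝ := ∑ j, c j • β j
    have hl : ∀ j, β j ⬝ᵥ l = h j := by
      intro j
      rw [← hc]
      simp only [l]
      rw [dotProduct_sum]
      simp only [dotProduct_smul, smul_eq_mul]
      exact Finset.sum_congr rfl fun j _ => mul_comm _ _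
    have hll : l ⬝ᵥ l = h ⬝ᵥ c := by
      rw [← qf_gram, hc, dotProduct_comm]
    have hdet : gd b = gd β * (1 + l ⬝ᵥ l) := by
      have h2 : gram b = gram β * (1 + replicateCol Unit c * replicateRow Unit h) := by
        rw [Matrix.mul_add, Matrix.mul_one, ← Matrix.mul_assoc, ← Matrix.replicateCol_mulVec, hc]
        ext i j
        simp only [gram, of_apply, Matrix.add_apply, Matrix.mul_apply, replicateCol_apply,
          replicateRow_apply, Finset.univ_unique, Finset.sum_singleton, h, β]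
        rw [dot_succ]
        ring
      unfold gd
      rw [h2, Matrix.det_mul, Matrix.det_one_add_replicateCol_mul_replicateRow, hll]
    have hl0 := dot_self_nonneg l
    have h3 : B * (2 ^ q * gd β) * (1 + l ⬝ᵥ l) < 2 := by
      rw [hdet] at hlt
      linarith
    refine ⟨q, β, l, hβM, hβi, ?_, ?_, fun j => ?_⟩
    · rw [Fintype.card_fin]
      nlinarith
    · nlinarith
    · rw [dotProduct_sub, hl]
      exact head_cong (hM' (Sum.inr j)) hσ
  · exfalso
    obtain ⟨P, hP⟩ := exists_pr (Submodule.span ℝ (Set.range a))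
    have hia : LinearIndependent ℝ a :=
      (indep_of_gd (Sum.elim a b) (by rw [hgd]; exact hpos.ne')).comp Sum.inl Sum.inl_injective
    have ha' : ∀ i, Fin.tail (a i) = 0 := ha
    have hga : 1 ≤ gd a := by
      refine gd_int a hia fun i k => ?_
      refine Fin.cases ?_ (fun k => ⟨0, ?_⟩) k
      · obtain ⟨z, hz⟩ := head_cong (hM' (Sum.inl i)) hσ
        simp only [Sum.elim_inl, ha', zero_dotProduct, zero_sub] at hz
        exact ⟨-z, by push_cast; linarith⟩
      · simpa [Fin.tail] using congrFun (ha' i) k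
    have hPt : ∀ x, Fin.tail (P x) = 0 := fun x =>
      (Submodule.span_le.mpr (by
        rintro _ ⟨k, rfl⟩
        exact ha k) : _ ≤ π.ker) (hP.1 x)
    have ha0 : a ⟨0, hp⟩ 0 ≠ 0 := by
      intro h0
      refine hia.ne_zero ⟨0, hp⟩ ?_
      funext k
      exact Fin.cases h0 (fun k => congrFun (ha' _) k) k
    have hP0 : ∀ x, (x - P x) 0 = 0 := by
      intro x
      have := hP.2 x _ (Submodule.subset_span ⟨⟨0, hp⟩, rfl⟩)
      rw [dot_succ, ha', dotProduct_zero, add_zero] at this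
      exact (mul_eq_zero.mp this).resolve_right ha0
    have h2 : gd (fun j => b j - P (b j)) = gd (fun j => Fin.tail (b j)) := by
      unfold gd
      congr 1
      ext i j
      have h3 : ∀ x, Fin.tail (x - P x) = Fin.tail x := fun x => by
        change Fin.tail x - Fin.tail (P x) = _
        rw [hPt, sub_zero]
      simp only [gram, of_apply]
      rw [dot_succ, hP0, h3, h3, zero_mul, zero_add]
    rw [← hpq, ← hgd, gd_elim a b hP, h2, pow_add] at hlt
    have h4 : (2 : ℝ) ≤ 2 ^ p := le_self_pow₀ (by norm_num) hp.ne'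
    have h5 : 2 * 1 * (B * (2 ^ q * gd fun j => Fin.tail (b j))) ≤
        2 ^ p * gd a * (B * (2 ^ q * gd fun j => Fin.tail (b j))) := by gcongr
    nlinarith

theorem exists_near {B : ℝ} {t : Fin m → G} (hB : Bd 2 B t) (hn : ¬ Bd 18 1 t) :
    ∃ (ι : Type) (_ : Fintype ι) (_ : DecidableEq ι) (τ : ι → Fin m → ℝ), Near t τ ∧
      18 ^ Fintype.card ι * gd τ < 1 := by
  unfold Bd at hn
  push Not at hn
  obtain ⟨ι0, _, _, τ0, h0M, h0i, h0⟩ := hn
  rw [one_mul] at h0
  let A : Set ℝ := {x | ∃ (ι : Type) (_ : Fintype ι) (_ : DecidableEq ι) (τ : ι → Fin m → ℝ),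
    (∀ j, τ j ∈ MM t) ∧ LinearIndependent ℝ τ ∧ x = 18 ^ Fintype.card ι * gd τ}
  have hB1 := hB.one_le
  have hlow : ∀ x ∈ A, 1 / B ≤ x := by
    rintro _ ⟨ι, _, _, τ, h1, h2, rfl⟩
    rw [div_le_iff₀ (by linarith), mul_comm]
    refine (hB ι τ h1 h2).trans ?_
    have := gd_pos τ h2
    gcongr
    norm_num
  have hne : A.Nonempty := ⟨_, ι0, inferInstance, inferInstance, τ0, h0M, h0i, rfl⟩
  have hbd : BddBelow A := ⟨_, hlow⟩
  have h1 : 1 / B ≤ sInf A := le_csInf hne hlow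
  have h2 : 0 < sInf A := lt_of_lt_of_le (by positivity) h1
  have h3 : sInf A < 1 :=
    lt_of_le_of_lt (csInf_le hbd ⟨ι0, inferInstance, inferInstance, τ0, h0M, h0i, rfl⟩) h0
  obtain ⟨x, ⟨ι, _, _, τ, hM, hi, rfl⟩, hx⟩ :=
    exists_lt_of_csInf_lt hne (b := min 1 (2 * sInf A)) (lt_min h3 (by linarith))
  refine ⟨ι, inferInstance, inferInstance, τ, ⟨hM, hi, fun p a ha hia => ?_⟩,
    hx.trans_le (min_le_left _ _)⟩
  have h4 := csInf_le hbd ⟨Fin p, inferInstance, inferInstance, a, ha, hia, rfl⟩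
  rw [Fintype.card_fin] at h4
  have := min_le_right 1 (2 * sInf A)
  linarith

theorem step [Finite G] (hM : MatStmt) {S : Set G} (hR : Rigid S) {B : ℝ} {t : Fin m → G}
    (htS : ∀ i, t i ∈ S) (ht : AddSubgroup.closure (Set.range t) = ⊤) (hB : Bd 2 B t)
    (hn : ¬ Bd 18 1 t) : ∃ s ∈ S, Bd 2 (B / 2) (Fin.cons s t : Fin (m + 1) → G) := by
  classical
  by_contra hcon
  push Not at hcon
  obtain ⟨ι, _, _, τ, hτ, hlt⟩ := exists_near hB hn
  choose σ hσ using exists_coef ht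
  obtain ⟨P, hP⟩ := exists_pr (Submodule.span ℝ (Set.range τ))
  have key : ∀ s, ∃ l : Fin m → ℝ, s ∈ S → l ∈ Submodule.span ℝ (Set.range τ) ∧ l ⬝ᵥ l < 1 ∧
      ∀ i, ∃ z : ℤ, τ i ⬝ᵥ (zc (σ s) - l) = z := by
    intro s
    by_cases hs : s ∈ S
    swap
    · exact ⟨0, fun h => absurd h hs⟩
    obtain ⟨q, β, l, hβM, hβi, hβ, hl, hz⟩ := lift hB (hσ s) (hcon s hs)
    refine ⟨P l, fun _ => ⟨hP.1 l, ?_, fun i => ?_⟩⟩
    · have := hP.pyth l
      have := dot_self_nonneg (l - P l)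
      linarith
    · obtain ⟨z, hz⟩ := int_of_span hz (sat hB hβM hβi hβ (hτ.1 i) (sub hM hB hτ hβM hβi hβ i))
      refine ⟨z, ?_⟩
      have := hP.2 l _ (Submodule.subset_span ⟨i, rfl⟩)
      rw [dotProduct_comm, dotProduct_sub] at this
      rw [dotProduct_sub] at hz ⊢
      linarith
  choose l hl using key
  have hadd : ∀ a ∈ S, ∀ b ∈ S, a + b ∈ S → l (a + b) = l a + l b := by
    intro a ha b hb hab
    obtain ⟨a1, a2, a3⟩ := hl a ha
    obtain ⟨b1, b2, b3⟩ := hl b hb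
    obtain ⟨c1, c2, c3⟩ := hl _ hab
    refine (sub_eq_zero.mp (short hτ (Submodule.sub_mem _ (Submodule.add_mem _ a1 b1) c1)
      (fun i => ?_) ?_)).symm
    · obtain ⟨x, hx⟩ := a3 i
      obtain ⟨y, hy⟩ := b3 i
      obtain ⟨z, hz⟩ := c3 i
      obtain ⟨w, hw⟩ := MM.cong (hτ.1 i) (k := σ a + σ b) (l := σ (a + b)) (by
        simp only [Pi.add_apply, add_smul, Finset.sum_add_distrib, hσ])
      refine ⟨w - x - y + z, ?_⟩
      rw [zc_add, dotProduct_add] at hw
      rw [dotProduct_sub] at hx hy hz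
      rw [dotProduct_sub, dotProduct_add]
      push_cast
      linarith
    · have : (l a + l b - l (a + b)) ⬝ᵥ (l a + l b - l (a + b)) ≤
          3 * (l a ⬝ᵥ l a + l b ⬝ᵥ l b + l (a + b) ⬝ᵥ l (a + b)) := by
        simp only [dotProduct, ← Finset.sum_add_distrib, Finset.mul_sum]
        refine Finset.sum_le_sum fun k _ => ?_
        simp only [Pi.sub_apply, Pi.add_apply]
        nlinarith [sq_nonneg (l a k - l b k), sq_nonneg (l a k + l (a + b) k),
          sq_nonneg (l b k + l (a + b) k)]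
      linarith
  have hzero : ∀ s ∈ S, l s = 0 := by
    intro s hs
    funext k
    exact hR (fun g => l g k) (fun a ha b hb hab => congrFun (hadd a ha b hb hab) k) s hs
  have h1 : 1 ≤ gd τ := by
    refine gd_int τ hτ.2.1 fun i k => ?_
    obtain ⟨z, hz⟩ := (hl _ (htS k)).2.2 i
    rw [hzero _ (htS k), sub_zero] at hz
    obtain ⟨w, hw⟩ := MM.cong (hτ.1 i) (k := σ (t k)) (l := Pi.single k 1) (by
      rw [hσ, sum_single, one_smul])
    rw [dot_single, hz] at hw
    refine ⟨z - w, ?_⟩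
    push_cast at hw ⊢
    linarith
  have h2 : (1 : ℝ) ≤ 18 ^ Fintype.card ι := one_le_pow₀ (by norm_num)
  nlinarith

theorem iter [Finite G] (hM : MatStmt) {S : Set G} (hR : Rigid S) (k : ℕ) :
    ∀ (m : ℕ) (t : Fin m → G) (B : ℝ), B < 2 ^ k → (∀ i, t i ∈ S) →
      AddSubgroup.closure (Set.range t) = ⊤ → Bd 2 B t →
      ∃ (m' : ℕ) (t' : Fin m' → G), (∀ i, t' i ∈ S) ∧ AddSubgroup.closure (Set.range t') = ⊤ ∧
        (2 : ℝ) ^ m' ≤ 2 ^ m * B ∧ Bd 18 1 t' := by
  induction k with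
  | zero =>
    intro m t B hk _ _ hB
    have := hB.one_le
    simp at hk
    linarith
  | succ k ih =>
    intro m t B hk htS ht hB
    by_cases hn : Bd 18 1 t
    · exact ⟨m, t, htS, ht, le_mul_of_one_le_right (by positivity) hB.one_le, hn⟩
    obtain ⟨s, hs, hB'⟩ := step hM hR htS ht hB hn
    obtain ⟨m', t', h1, h2, h3, h4⟩ := ih (m + 1) _ (B / 2) (by rw [pow_succ] at hk; linarith)
      (fun i => Fin.cases hs htS i) (by
        rw [eq_top_iff, ← ht]
        exact AddSubgroup.closure_mono (by rw [Fin.range_cons]; exact Set.subset_insert _ _)) hB'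
    refine ⟨m', t', h1, h2, h3.trans (le_of_eq ?_), h4⟩
    ring

end Greedy

universe u

theorem greedy (hM : MatStmt) : GreedyStmt.{u} := by
  intro G _ _ S hS hR
  obtain ⟨m, t, htS, ht, hm⟩ := Greedy.start_gens S hS
  obtain ⟨k, hk⟩ := pow_unbounded_of_one_lt ((Nat.card G : ℝ) ^ 2) (one_lt_two (α := ℝ))
  obtain ⟨m', t', h1, h2, h3, h4⟩ := Greedy.iter hM hR k m t _ hk htS ht (Greedy.start_bd ht)
  refine ⟨m', t', h1, h2, ?_, fun r τ hτ hi => ?_⟩
  · have h5 : (2 : ℝ) ^ m ≤ Nat.card G := by exact_mod_cast hm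
    have h6 : (2 : ℝ) ^ m' ≤ (Nat.card G : ℝ) ^ 3 := by
      calc (2 : ℝ) ^ m' ≤ 2 ^ m * (Nat.card G : ℝ) ^ 2 := h3
        _ ≤ (Nat.card G : ℝ) * (Nat.card G : ℝ) ^ 2 := by gcongr
        _ = _ := by ring
    exact_mod_cast h6
  · have := h4 (Fin r) τ hτ hi
    rw [one_mul, Fintype.card_fin] at this
    exact this

end Pool.Agent.P.MP_d05bff_gt
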