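import Pool.Agent.P.MP_d05bff_gt.Iface

/-!
Gram determinant lemmas for the greedy choice of generators.
-/

namespace Pool.Agent.P.MP_d05bff_gt.Greedy

open Matrix Module

variable {κ : Type} [Fintype κ]

/-- Gram matrix of a family of vectors. -/
def gram {ι : Type} (τ : ι → κ → ℝ) : Matrix ι ι ℝ := Matrix.of fun i j => τ i ⬝ᵥ τ j

/-- Gram determinant of a family of vectors. -/
noncomputable def gd {ι : Type} [Fintype ι] [DecidableEq ι] (τ : ι → κ → ℝ) : ℝ := (gram τ).det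

theorem gram_eq {ι : Type} (τ : ι → κ → ℝ) : gram τ = Matrix.of τ * (Matrix.of τ)ᵀ := by
  ext i j
  simp [gram, Matrix.mul_apply, dotProduct]

theorem dot_self_nonneg (x : κ → ℝ) : 0 ≤ x ⬝ᵥ x :=
  Finset.sum_nonneg fun i _ => mul_self_nonneg (x i)

theorem cauchy (x y : κ → ℝ) : (x ⬝ᵥ y) ^ 2 ≤ (x ⬝ᵥ x) * (y ⬝ᵥ y) := by
  have := Finset.sum_mul_sq_le_sq_mul_sq Finset.univ x y
  simpa [dotProduct, sq] using this

variable {ι : Type} [Fintype ι] [DecidableEq ι]

theorem gd_reindex {ι' : Type} [Fintype ι'] [DecidableEq ι'] (e : ι' ≃ ι) (τ : ι → κ → ℝ) :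
    gd (τ ∘ e) = gd τ := by
  unfold gd
  rw [← Matrix.det_submatrix_equiv_self e]
  rfl

theorem gd_mul (E : Matrix ι ι ℝ) (τ σ : ι → κ → ℝ) (h : ∀ i, σ i = ∑ j, E i j • τ j) :
    gd σ = E.det ^ 2 * gd τ := by
  have h1 : Matrix.of σ = E * Matrix.of τ := by
    ext i k
    simp [h i, Matrix.mul_apply, Finset.sum_apply]
  unfold gd
  rw [gram_eq, gram_eq, h1, Matrix.transpose_mul, Matrix.mul_assoc, ← Matrix.mul_assoc (of τ),
    Matrix.det_mul, Matrix.det_mul, Matrix.det_transpose]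
  ring

theorem gd_basis {A : Type} [AddCommGroup A] (f : A →ₗ[ℤ] (κ → ℝ)) (b : Basis ι ℤ A)
    (v : ι → A) : gd (f ∘ v) = ((b.det v : ℤ) : ℝ) ^ 2 * gd (f ∘ b) := by
  rw [gd_mul ((b.toMatrix v)ᵀ.map (fun z => (z : ℝ))) (f ∘ b) (f ∘ v)]
  · congr 2
    rw [Basis.det_apply, Int.cast_det, ← Matrix.det_transpose]
    rfl
  · intro i
    simp only [Function.comp, Matrix.map_apply, Matrix.transpose_apply, Basis.toMatrix_apply]
    conv_lhs => rw [← b.sum_repr (v i)]
    rw [map_sum]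
    refine Finset.sum_congr rfl fun j _ => ?_
    rw [map_zsmul, Int.cast_smul_eq_zsmul]

omit [DecidableEq ι] in
theorem qf_gram (τ : ι → κ → ℝ) (x : ι → ℝ) :
    x ⬝ᵥ gram τ *ᵥ x = (∑ i, x i • τ i) ⬝ᵥ (∑ i, x i • τ i) := by
  have : (∑ i, x i • τ i) = x ᵥ* Matrix.of τ := by
    ext k
    simp [Matrix.vecMul, dotProduct, Finset.sum_apply]
  rw [this, gram_eq, ← Matrix.mulVec_mulVec, Matrix.dotProduct_mulVec, Matrix.mulVec_transpose]

omit [Fintype ι] [DecidableEq ι] in
theorem gram_herm (τ : ι → κ → ℝ) : (gram τ).IsHermitian := by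
  ext i j
  simp [gram, dotProduct_comm]

theorem gd_pos (τ : ι → κ → ℝ) (h : LinearIndependent ℝ τ) : 0 < gd τ := by
  have : (gram τ).PosDef := by
    rw [Matrix.posDef_iff_dotProduct_mulVec]
    refine ⟨gram_herm τ, fun x hx => ?_⟩
    simp only [star_trivial]
    rw [qf_gram]
    refine lt_of_le_of_ne (dot_self_nonneg _) fun h0 => hx ?_
    have h1 := dotProduct_self_eq_zero.mp h0.symm
    funext i
    exact Fintype.linearIndependent_iff.mp h x h1 i
  exact this.det_pos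

theorem indep_of_gd (τ : ι → κ → ℝ) (h : gd τ ≠ 0) : LinearIndependent ℝ τ := by
  rw [Fintype.linearIndependent_iff]
  intro x hx
  have h1 : gram τ *ᵥ x = 0 := by
    ext i
    have : (gram τ *ᵥ x) i = τ i ⬝ᵥ (∑ j, x j • τ j) := by
      rw [dotProduct_sum]
      simp only [dotProduct_smul, smul_eq_mul]
      exact Finset.sum_congr rfl fun j _ => mul_comm _ _
    rw [this, hx]
    simp
  have := Matrix.eq_zero_of_mulVec_eq_zero h h1
  intro i
  rw [this]
  rfl

theorem gd_int (τ : ι → κ → ℝ) (h : LinearIndependent ℝ τ) (hz : ∀ i k, ∃ z : ℤ, τ i k = z) :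
    1 ≤ gd τ := by
  choose z hz using hz
  have h1 : gd τ = (((Matrix.of fun i j => z i ⬝ᵥ z j).det : ℤ) : ℝ) := by
    rw [Int.cast_det]
    unfold gd
    congr 1
    ext i j
    simp [gram, dotProduct, hz]
  have h2 := gd_pos τ h
  rw [h1] at h2 ⊢
  exact_mod_cast h2

/-- `P` is the orthogonal projection onto `W`. -/
def IsPr (W : Submodule ℝ (κ → ℝ)) (P : (κ → ℝ) →ₗ[ℝ] (κ → ℝ)) : Prop :=
  (∀ x, P x ∈ W) ∧ ∀ x, ∀ w ∈ W, (x - P x) ⬝ᵥ w = 0

theorem exists_pr (W : Submodule ℝ (κ → ℝ)) : ∃ P, IsPr W P := by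
  classical
  let e := WithLp.linearEquiv 2 ℝ (κ → ℝ)
  let W' : Submodule ℝ (EuclideanSpace ℝ κ) := W.comap e.toLinearMap
  refine ⟨e.toLinearMap ∘ₗ W'.starProjection.toLinearMap ∘ₗ e.symm.toLinearMap, fun x => ?_,
    fun x w hw => ?_⟩
  · exact W'.starProjection_apply_mem (e.symm x)
  · have h1 := W'.starProjection_inner_eq_zero (e.symm x) (e.symm w) (by simpa [W'] using hw)
    rw [EuclideanSpace.inner_eq_star_dotProduct] at h1
    rw [dotProduct_comm]
    simpa [e] using h1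

theorem IsPr.fix {W : Submodule ℝ (κ → ℝ)} {P} (h : IsPr W P) {w : κ → ℝ} (hw : w ∈ W) :
    P w = w := by
  have h1 := h.2 w (w - P w) (W.sub_mem hw (h.1 w))
  exact (sub_eq_zero.mp (dotProduct_self_eq_zero.mp h1)).symm

theorem IsPr.pyth {W : Submodule ℝ (κ → ℝ)} {P} (h : IsPr W P) (x : κ → ℝ) :
    x ⬝ᵥ x = P x ⬝ᵥ P x + (x - P x) ⬝ᵥ (x - P x) := by
  have h1 := h.2 x (P x) (h.1 x)
  have h2 : x = P x + (x - P x) := by abel
  conv_lhs => rw [h2]
  rw [add_dotProduct, dotProduct_add, dotProduct_add, h1, dotProduct_comm (P x) (x - P x), h1]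
  ring

theorem gd_elim {α β : Type} [Fintype α] [DecidableEq α] [Fintype β] [DecidableEq β]
    (a : α → κ → ℝ) (b : β → κ → ℝ) {P} (hP : IsPr (Submodule.span ℝ (Set.range a)) P) :
    gd (Sum.elim a b) = gd a * gd (fun j => b j - P (b j)) := by
  have h1 : ∀ j, ∃ c : α → ℝ, ∑ i, c i • a i = P (b j) := fun j =>
    (Submodule.mem_span_range_iff_exists_fun ℝ).mp (hP.1 (b j))
  choose c hc using h1
  rw [gd_mul (Matrix.fromBlocks 1 0 (Matrix.of c) 1) (Sum.elim a fun j => b j - P (b j))]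
  · rw [Matrix.det_fromBlocks_zero₁₂]
    simp only [det_one, mul_one, one_pow, one_mul]
    unfold gd
    have : gram (Sum.elim a fun j => b j - P (b j)) =
        Matrix.fromBlocks (gram a) 0 0 (gram fun j => b j - P (b j)) := by
      ext (i | i) (j | j)
      · simp [gram]
      · simp only [gram, of_apply, Sum.elim_inl, Sum.elim_inr, fromBlocks_apply₁₂,
          Matrix.zero_apply]
        rw [dotProduct_comm]
        exact hP.2 _ _ (Submodule.subset_span ⟨i, rfl⟩)
      · simp only [gram, of_apply, Sum.elim_inl, Sum.elim_inr, fromBlocks_apply₂₁,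
          Matrix.zero_apply]
        exact hP.2 _ _ (Submodule.subset_span ⟨j, rfl⟩)
      · simp [gram]
    rw [this, Matrix.det_fromBlocks_zero₁₂]
  · rintro (i | j)
    · simp [Fintype.sum_sum_type, Matrix.one_apply]
    · simp [Fintype.sum_sum_type, Matrix.one_apply, hc]

theorem gd_contract (hM : MatStmt) (T : (κ → ℝ) →ₗ[ℝ] (κ → ℝ)) (hT : ∀ x, T x ⬝ᵥ T x ≤ x ⬝ᵥ x)
    (g : ι → κ → ℝ) : gd (fun j => T (g j)) ≤ gd g := by
  refine hM.1 ι _ _ ?_ ?_
  · rw [Matrix.posSemidef_iff_dotProduct_mulVec]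
    refine ⟨gram_herm _, fun x => ?_⟩
    simp only [star_trivial]
    rw [qf_gram]
    exact dot_self_nonneg _
  · rw [Matrix.posSemidef_iff_dotProduct_mulVec]
    refine ⟨(gram_herm _).sub (gram_herm _), fun x => ?_⟩
    simp only [star_trivial]
    rw [Matrix.sub_mulVec, dotProduct_sub, qf_gram, qf_gram, sub_nonneg]
    have : ∑ i, x i • T (g i) = T (∑ i, x i • g i) := by simp
    rw [this]
    exact hT _

omit [Fintype κ] [Fintype ι] [DecidableEq ι] in
theorem indep_of_int [Finite κ] (N : ℕ) (hN : N ≠ 0) (τ : ι → κ → ℝ)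
    (hz : ∀ i k, ∃ z : ℤ, (N : ℝ) * τ i k = z) (h : LinearIndependent ℤ τ) :
    LinearIndependent ℝ τ := by
  choose z hz using hz
  have hN' : (N : ℝ) ≠ 0 := by exact_mod_cast hN
  have h1 : LinearIndependent ℤ z := by
    rw [linearIndependent_iff'] at h ⊢
    intro s g hg
    refine h s g ?_
    funext k
    have h2 := congrFun hg k
    simp only [Finset.sum_apply, Pi.smul_apply, smul_eq_mul, Pi.zero_apply] at h2
    have h3 : ∑ i ∈ s, (g i : ℝ) * (z i k : ℝ) = 0 := by exact_mod_cast h2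
    simp only [Finset.sum_apply, Pi.smul_apply, Pi.zero_apply]
    simp only [zsmul_eq_mul]
    refine mul_left_cancel₀ hN' ?_
    rw [Finset.mul_sum, mul_zero, ← h3]
    refine Finset.sum_congr rfl fun i _ => ?_
    rw [← hz]
    ring
  have h2 := (linearIndependent_algebraMap_comp_iff (S := ℝ)).mpr h1
  rw [linearIndependent_iff'] at h2 ⊢
  intro s g hg
  refine h2 s g ?_
  funext k
  have h3 := congrFun hg k
  simp only [Finset.sum_apply, Pi.smul_apply, smul_eq_mul, Pi.zero_apply] at h3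
  simp only [Finset.sum_apply, Pi.smul_apply, smul_eq_mul, Pi.zero_apply, Function.comp,
    algebraMap_int_eq, eq_intCast]
  have : ∑ i ∈ s, g i * (z i k : ℝ) = N * ∑ i ∈ s, g i * τ i k := by
    rw [Finset.mul_sum]
    refine Finset.sum_congr rfl fun i _ => ?_
    rw [← hz]
    ring
  rw [this, h3, mul_zero]

/-- Adapted basis. -/
theorem adapted (τ : ι → κ → ℝ) (W : Submodule ℝ (κ → ℝ)) :
    ∃ (p q : ℕ) (a : Fin p → κ → ℝ) (b : Fin q → κ → ℝ), p + q = Fintype.card ι ∧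
      (∀ i, a i ∈ W) ∧ (∀ i, Sum.elim a b i ∈ Submodule.span ℤ (Set.range τ)) ∧
      (∀ i, τ i ∈ Submodule.span ℤ (Set.range (Sum.elim a b))) ∧
      gd (Sum.elim a b) = gd τ ∧ ∀ y : Fin q → ℤ, ∑ j, y j • b j ∈ W → y = 0 := by
  classical
  let f : (ι → ℤ) →ₗ[ℤ] (κ → ℝ) := Fintype.linearCombination ℤ τ
  let K : Submodule ℤ (ι → ℤ) := (W.restrictScalars ℤ).comap f
  have htf : Module.IsTorsionFree ℤ ((ι → ℤ) ⧸ K) := by
    refine Module.IsTorsionFree.of_smul_eq_zero fun c x hx => ?_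
    obtain ⟨x, rfl⟩ := K.mkQ_surjective x
    by_cases hc : c = 0
    · exact Or.inl hc
    · right
      rw [← map_smul, Submodule.mkQ_apply, Submodule.Quotient.mk_eq_zero] at hx
      rw [Submodule.mkQ_apply, Submodule.Quotient.mk_eq_zero]
      have hx' : (c : ℝ) • f x ∈ W := by
        rw [Int.cast_smul_eq_zsmul, ← map_zsmul]
        exact hx
      have hc' : (c : ℝ) ≠ 0 := by exact_mod_cast hc
      exact (W.smul_mem_iff hc').mp hx'
  let bK := Module.finBasis ℤ K
  let bQ := Module.finBasis ℤ ((ι → ℤ) ⧸ K)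
  let bb := bK.sumQuot bQ
  let b0 := Pi.basisFun ℤ ι
  have hel : (Sum.elim (fun i => f (bb (Sum.inl i))) fun j => f (bb (Sum.inr j))) = f ∘ bb := by
    funext i
    cases i <;> rfl
  have hτ : f ∘ b0 = τ := by
    funext i
    simp [f, b0]
  refine ⟨_, _, fun i => f (bb (Sum.inl i)), fun j => f (bb (Sum.inr j)), ?_, ?_, ?_, ?_, ?_, ?_⟩
  · have := Fintype.card_congr (bb.indexEquiv b0)
    simpa using this
  · intro i
    simp only [bb, Basis.sumQuot_inl]
    exact (bK i).2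
  · intro i
    rw [hel, ← Fintype.range_linearCombination]
    exact ⟨_, rfl⟩
  · intro i
    rw [hel, ← hτ, Set.range_comp, ← Submodule.map_span, bb.span_eq]
    exact ⟨b0 i, trivial, rfl⟩
  · rw [hel, ← gd_reindex (b0.indexEquiv bb), ← hτ]
    have h1 : (f ∘ bb) ∘ (b0.indexEquiv bb) = f ∘ (bb.reindex (b0.indexEquiv bb).symm) := by
      funext i
      simp
    rw [h1, gd_basis f b0]
    have h2 := b0.isUnit_det (bb.reindex (b0.indexEquiv bb).symm)
    rcases Int.isUnit_iff.mp h2 with h | h <;> rw [h] <;> simp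
  · intro y hy
    have h1 : ∑ j, y j • bb (Sum.inr j) ∈ K := by
      change f _ ∈ W
      rw [map_sum]
      simpa only [map_zsmul] using hy
    rw [← Submodule.Quotient.mk_eq_zero, ← Submodule.mkQ_apply, map_sum] at h1
    simp only [map_smul, Submodule.mkQ_apply, bb, Basis.sumQuot_inr] at h1
    funext j
    exact Fintype.linearIndependent_iff.mp bQ.linearIndependent y h1 j

end Pool.Agent.P.MP_d05bff_gt.Greedy
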