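import Pool.Agent.P.MP_d05bff_gt.Greedy1

/-!
Dual lattices of relation lattices: the starting bound and the lattice lemmas of the step.
-/

namespace Pool.Agent.P.MP_d05bff_gt.Greedy

open Matrix Module

universe u

variable {G : Type u} [AddCommGroup G] {m : ℕ}

/-- The dual of the lattice of relations of `t`. -/
def MM (t : Fin m → G) : Submodule ℤ (Fin m → ℝ) where
  carrier := {ξ | ∀ k : Fin m → ℤ, ∑ i, k i • t i = 0 → ∃ z : ℤ, ξ ⬝ᵥ zc k = z}
  add_mem' := by
    intro x y hx hy k hk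
    obtain ⟨a, ha⟩ := hx k hk
    obtain ⟨b, hb⟩ := hy k hk
    exact ⟨a + b, by rw [add_dotProduct, ha, hb]; push_cast; rfl⟩
  zero_mem' := fun k _ => ⟨0, by simp⟩
  smul_mem' := by
    intro c x hx k hk
    obtain ⟨a, ha⟩ := hx k hk
    exact ⟨c * a, by rw [smul_dotProduct, ha]; simp⟩

/-- Uniform lower bound for weighted Gram determinants of independent families. -/
def Bd (c B : ℝ) (t : Fin m → G) : Prop :=
  ∀ (ι : Type) [Fintype ι] [DecidableEq ι] (τ : ι → Fin m → ℝ), (∀ j, τ j ∈ MM t) →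
    LinearIndependent ℝ τ → 1 ≤ B * (c ^ Fintype.card ι * gd τ)

theorem zc_sub (k l : Fin m → ℤ) : zc (k - l) = zc k - zc l := by
  funext i
  simp [zc]

theorem zc_add (k l : Fin m → ℤ) : zc (k + l) = zc k + zc l := by
  funext i
  simp [zc]

theorem dot_single (x : Fin m → ℝ) (i : Fin m) (c : ℤ) : x ⬝ᵥ zc (Pi.single i c) = c * x i := by
  have : zc (Pi.single i c) = Pi.single i (c : ℝ) := by
    funext j
    by_cases h : j = i
    · subst h; simp [zc]
    · simp [zc, h]
  rw [this, dotProduct_single, mul_comm]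

theorem sum_single (t : Fin m → G) (i : Fin m) (c : ℤ) :
    ∑ j, (Pi.single i c : Fin m → ℤ) j • t j = c • t i := by
  rw [Finset.sum_eq_single i]
  · simp
  · intro j _ h
    simp [h]
  · simp

theorem MM.cong {t : Fin m → G} {x : Fin m → ℝ} (hx : x ∈ MM t) {k l : Fin m → ℤ}
    (h : ∑ i, k i • t i = ∑ i, l i • t i) : ∃ z : ℤ, x ⬝ᵥ zc k - x ⬝ᵥ zc l = z := by
  obtain ⟨z, hz⟩ := hx (k - l) (by simp [sub_smul, Finset.sum_sub_distrib, h])
  exact ⟨z, by rw [← hz, zc_sub, dotProduct_sub]⟩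

theorem indepM [Finite G] {t : Fin m → G} {ι : Type} {τ : ι → Fin m → ℝ} (h : ∀ j, τ j ∈ MM t)
    (hi : LinearIndependent ℤ τ) : LinearIndependent ℝ τ := by
  refine indep_of_int (Nat.card G) Nat.card_pos.ne' τ (fun j k => ?_) hi
  obtain ⟨z, hz⟩ := h j (Pi.single k (Nat.card G : ℤ)) (by
    rw [sum_single, natCast_zsmul]
    exact card_nsmul_eq_zero')
  exact ⟨z, by rw [← hz, dot_single]; simp⟩

theorem span_le_MM {t : Fin m → G} {ι : Type} {τ : ι → Fin m → ℝ} (h : ∀ j, τ j ∈ MM t) :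
    Submodule.span ℤ (Set.range τ) ≤ MM t := by
  rw [Submodule.span_le]
  rintro _ ⟨j, rfl⟩
  exact h j

theorem exists_coef {t : Fin m → G} (ht : AddSubgroup.closure (Set.range t) = ⊤) (g : G) :
    ∃ k : Fin m → ℤ, ∑ i, k i • t i = g := by
  have h1 : g ∈ Submodule.span ℤ (Set.range t) := by
    have : g ∈ AddSubgroup.closure (Set.range t) := by rw [ht]; trivial
    rw [← Submodule.span_int_eq_addSubgroupClosure] at this
    exact this
  exact (Submodule.mem_span_range_iff_exists_fun ℤ).mp h1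

theorem start_bd [Finite G] {t : Fin m → G} (ht : AddSubgroup.closure (Set.range t) = ⊤) :
    Bd 2 ((Nat.card G : ℝ) ^ 2) t := by
  classical
  intro ι _ _ τ hτ hi
  choose k hk using exists_coef ht
  let f : (ι → ℤ) →ₗ[ℤ] (Fin m → ℝ) := Fintype.linearCombination ℤ τ
  have hf : ∀ x, f x ∈ MM t := fun x => span_le_MM hτ (by
    rw [← Fintype.range_linearCombination]
    exact ⟨x, rfl⟩)
  let ex : ℝ → ℂ := fun y => Complex.exp (2 * Real.pi * Complex.I * y)
  have ex_add : ∀ y y', ex (y + y') = ex y * ex y' := by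
    intro y y'
    simp only [ex, ← Complex.exp_add]
    congr 1
    push_cast
    ring
  have ex_int : ∀ z : ℤ, ex z = 1 := by
    intro z
    simp only [ex]
    rw [Complex.exp_eq_one_iff]
    exact ⟨z, by push_cast; ring⟩
  have ex_one : ∀ y, ex y = 1 → ∃ z : ℤ, y = z := by
    intro y hy
    obtain ⟨z, hz⟩ := Complex.exp_eq_one_iff.mp hy
    refine ⟨z, ?_⟩
    have h2 : (2 * Real.pi * Complex.I : ℂ) ≠ 0 := by simp [Real.pi_ne_zero]
    have h3 : (y : ℂ) = z := mul_left_cancel₀ h2 (by rw [hz]; ring)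
    exact_mod_cast h3
  let χ : (ι → ℤ) → AddChar G ℂ := fun x =>
    { toFun := fun g => ex (f x ⬝ᵥ zc (k g))
      map_zero_eq_one' := by
        obtain ⟨z, hz⟩ := hf x (k 0) (hk 0)
        rw [hz, ex_int]
      map_add_eq_mul' := by
        intro a b
        obtain ⟨z, hz⟩ := MM.cong (hf x) (k := k (a + b)) (l := k a + k b) (by
          simp only [Pi.add_apply, add_smul, Finset.sum_add_distrib, hk])
        rw [← ex_add, ← dotProduct_add, ← zc_add, sub_eq_iff_eq_add.mp hz, ex_add, ex_int,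
          one_mul] }
  let Ψ : (ι → ℤ) →+ AddChar G ℂ := AddMonoidHom.mk' χ (by
    intro x y
    ext g
    change ex (f (x + y) ⬝ᵥ zc (k g)) = ex (f x ⬝ᵥ zc (k g)) * ex (f y ⬝ᵥ zc (k g))
    rw [map_add, add_dotProduct, ex_add])
  have hidx : Ψ.ker.index ≤ Nat.card G := by
    rw [AddSubgroup.index_ker]
    have := Fintype.ofFinite G
    refine (Nat.card_le_card_of_injective _ Subtype.val_injective).trans ?_
    rw [Nat.card_eq_fintype_card, Nat.card_eq_fintype_card, AddChar.card_eq]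
  have hfin : Ψ.ker.FiniteIndex := by
    have := Fintype.ofFinite G
    infer_instance
  have hrk := AddSubgroup.finrank_eq_of_finiteIndex Ψ.ker
  have hfree : Module.Free ℤ Ψ.ker := inferInstanceAs (Module.Free ℤ Ψ.ker.toIntSubmodule)
  have hfg : Module.Finite ℤ Ψ.ker := inferInstanceAs (Module.Finite ℤ Ψ.ker.toIntSubmodule)
  let b1 := Module.finBasisOfFinrankEq ℤ Ψ.ker (n := Fintype.card ι) (by simpa using hrk)
  let bN := b1.reindex (Fintype.equivFin ι).symm
  let b0 := Pi.basisFun ℤ ι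
  have h1 := AddSubgroup.index_eq_natAbs_det b0 Ψ.ker bN
  have hτ0 : f ∘ b0 = τ := by
    funext i
    simp [f, b0]
  have h2 := gd_basis f b0 (fun i => (bN i : ι → ℤ))
  rw [hτ0] at h2
  have hpos := gd_pos τ hi
  have hd : ((b0.det fun i => (bN i : ι → ℤ) : ℤ) : ℝ) ^ 2 = (Ψ.ker.index : ℝ) ^ 2 := by
    rw [h1, Nat.cast_natAbs, Int.cast_abs, sq_abs]
  rw [hd] at h2
  have hne : (0 : ℝ) < Ψ.ker.index := by
    exact_mod_cast Nat.pos_of_ne_zero hfin.index_ne_zero
  have h3 : 1 ≤ gd (f ∘ fun i => (bN i : ι → ℤ)) := by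
    refine gd_int _ (indep_of_gd _ (by rw [h2]; positivity)) fun i j => ?_
    have h4 : Ψ (bN i) = 0 := (bN i).2
    have h5 : ex (f (bN i) ⬝ᵥ zc (k (t j))) = 1 := by
      have := congrArg (fun c : AddChar G ℂ => c (t j)) h4
      exact this
    obtain ⟨z, hz⟩ := ex_one _ h5
    obtain ⟨z', hz'⟩ := MM.cong (hf (bN i)) (k := k (t j)) (l := Pi.single j 1) (by
      rw [hk, sum_single, one_smul])
    rw [dot_single, hz] at hz'
    refine ⟨z - z', ?_⟩
    simp only [Function.comp]
    push_cast at hz' ⊢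
    linarith
  have h4 : (Ψ.ker.index : ℝ) ^ 2 ≤ (Nat.card G : ℝ) ^ 2 := by
    gcongr
  have h5 : (1 : ℝ) ≤ 2 ^ Fintype.card ι := one_le_pow₀ (by norm_num)
  calc (1 : ℝ) ≤ (Ψ.ker.index : ℝ) ^ 2 * gd τ := h2 ▸ h3
    _ ≤ (Nat.card G : ℝ) ^ 2 * (1 * gd τ) := by rw [one_mul]; gcongr
    _ ≤ _ := by gcongr

theorem start_gens [Finite G] (S : Set G) (hS : AddSubgroup.closure S = ⊤) :
    ∃ (m : ℕ) (t : Fin m → G), (∀ i, t i ∈ S) ∧ AddSubgroup.closure (Set.range t) = ⊤ ∧
      2 ^ m ≤ Nat.card G := by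
  have key : ∀ n : ℕ, (∃ (m : ℕ) (t : Fin m → G), (∀ i, t i ∈ S) ∧
      AddSubgroup.closure (Set.range t) = ⊤ ∧ 2 ^ m ≤ Nat.card G) ∨
      ∃ t : Fin n → G, (∀ i, t i ∈ S) ∧
        2 ^ n ≤ Nat.card (AddSubgroup.closure (Set.range t)) := by
    intro n
    induction n with
    | zero => exact Or.inr ⟨Fin.elim0, fun i => i.elim0, Nat.card_pos⟩
    | succ n ih =>
      rcases ih with h | ⟨t, ht, hc⟩
      · exact Or.inl h
      by_cases htop : AddSubgroup.closure (Set.range t) = ⊤
      · refine Or.inl ⟨n, t, ht, htop, hc.trans ?_⟩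
        exact Nat.card_le_card_of_injective _ Subtype.val_injective
      right
      have : ∃ s ∈ S, s ∉ AddSubgroup.closure (Set.range t) := by
        by_contra hcon
        push Not at hcon
        exact htop (top_le_iff.mp (hS ▸ (AddSubgroup.closure_le _).mpr hcon))
      obtain ⟨s, hs, hs'⟩ := this
      refine ⟨Fin.cons s t, fun i => Fin.cases hs ht i, ?_⟩
      have hle : AddSubgroup.closure (Set.range t) ≤
          AddSubgroup.closure (Set.range (Fin.cons s t : Fin (n + 1) → G)) :=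
        AddSubgroup.closure_mono (by rw [Fin.range_cons]; exact Set.subset_insert _ _)
      obtain ⟨d, hd⟩ := AddSubgroup.card_dvd_of_le hle
      have hd0 : d ≠ 0 := by
        rintro rfl
        exact Nat.card_pos.ne' hd
      have hd1 : d ≠ 1 := by
        rintro rfl
        have := AddSubgroup.eq_of_le_of_card_ge hle (by omega)
        exact hs' (this ▸ AddSubgroup.subset_closure ⟨0, rfl⟩)
      rw [hd, pow_succ]
      exact Nat.mul_le_mul hc (by omega)
  rcases key (Nat.card G) with h | ⟨t, -, hc⟩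
  · exact h
  · have h1 : Nat.card (AddSubgroup.closure (Set.range t)) ≤ Nat.card G :=
      Nat.card_le_card_of_injective _ Subtype.val_injective
    have h2 := Nat.lt_two_pow_self (n := Nat.card G)
    omega

theorem Bd.one_le {c B : ℝ} {t : Fin m → G} (h : Bd c B t) : 1 ≤ B := by
  have := h (Fin 0) Fin.elim0 (fun j => j.elim0) linearIndependent_empty_type
  simpa [gd] using this

/-- Almost extremal families are saturated. -/
theorem sat [Finite G] {B : ℝ} {t : Fin m → G} (hB : Bd 2 B t) {ι : Type} [Fintype ι]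
    [DecidableEq ι] {β : ι → Fin m → ℝ} (hβ : ∀ j, β j ∈ MM t) (hi : LinearIndependent ℝ β)
    (hlt : B * (2 ^ Fintype.card ι * gd β) < 2) {x : Fin m → ℝ} (hx : x ∈ MM t)
    (hxs : x ∈ Submodule.span ℝ (Set.range β)) : x ∈ Submodule.span ℤ (Set.range β) := by
  classical
  let L := Submodule.span ℤ (insert x (Set.range β))
  have hfg : Module.Finite ℤ L :=
    Module.Finite.span_of_finite ℤ ((Set.finite_range β).insert x)
  have hLM : L ≤ MM t := by
    rw [Submodule.span_le]
    rintro _ (rfl | ⟨j, rfl⟩)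
    · exact hx
    · exact hβ j
  have hLW : L ≤ (Submodule.span ℝ (Set.range β)).restrictScalars ℤ := by
    rw [Submodule.span_le]
    rintro _ (rfl | ⟨j, rfl⟩)
    · exact hxs
    · exact Submodule.subset_span ⟨j, rfl⟩
  let b1 := Module.finBasis ℤ L
  have hβL : ∀ j, β j ∈ L := fun j => Submodule.subset_span (Or.inr ⟨j, rfl⟩)
  have hi1 : LinearIndependent ℝ (L.subtype ∘ b1) :=
    indepM (t := t) (fun j => hLM (b1 j).2) (b1.linearIndependent.map' _ L.ker_subtype)
  have hiZ : LinearIndependent ℤ (fun j => (⟨β j, hβL j⟩ : L)) :=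
    LinearIndependent.of_comp L.subtype (hi.restrict_scalars' ℤ)
  have hc : Module.finrank ℤ L = Fintype.card ι := by
    apply le_antisymm
    · have h1 := linearIndependent_le_span_aux' (R := ℝ) (L.subtype ∘ b1) hi1 (Set.range β)
        (by
          rintro _ ⟨j, rfl⟩
          exact hLW (b1 j).2)
      rw [Fintype.card_fin] at h1
      exact h1.trans (Fintype.card_range_le β)
    · exact hiZ.fintype_card_le_finrank
  let b := (Module.finBasisOfFinrankEq ℤ L hc).reindex (Fintype.equivFin ι).symm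
  have hib : LinearIndependent ℝ (L.subtype ∘ b) :=
    indepM (t := t) (fun j => hLM (b j).2) (b.linearIndependent.map' _ L.ker_subtype)
  have h1 := gd_basis L.subtype b (fun j => (⟨β j, hβL j⟩ : L))
  change gd β = _ at h1
  have h2 := hB ι _ (fun j => hLM (b j).2) hib
  have hp := gd_pos _ hib
  have hp' := gd_pos _ hi
  have hB1 := hB.one_le
  set d := b.det (fun j => (⟨β j, hβL j⟩ : L)) with hd
  have hd0 : d ≠ 0 := by
    intro h0
    rw [h0] at h1
    simp at h1
    linarith
  have hd2 : d ^ 2 < 2 := by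
    have h3 : ((d : ℝ)) ^ 2 * 1 < 2 := by
      refine lt_of_le_of_lt ?_ hlt
      rw [h1]
      calc (d : ℝ) ^ 2 * 1 ≤ (d : ℝ) ^ 2 * (B * (2 ^ Fintype.card ι * gd (L.subtype ∘ b))) :=
            mul_le_mul_of_nonneg_left h2 (sq_nonneg _)
        _ = _ := by ring
    rw [mul_one] at h3
    exact_mod_cast h3
  have hu : IsUnit d := by
    rw [Int.isUnit_iff]
    have h3 : d < 2 := by nlinarith
    have h4 : -2 < d := by nlinarith
    omega
  have h5 := (b.is_basis_iff_det.mpr hu).2
  have h6 : (⟨x, Submodule.subset_span (Or.inl rfl)⟩ : L) ∈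
      Submodule.span ℤ (Set.range fun j => (⟨β j, hβL j⟩ : L)) := by
    rw [h5]
    trivial
  have h7 := Submodule.mem_map_of_mem (f := L.subtype) h6
  rw [Submodule.map_span, ← Set.range_comp] at h7
  exact h7

end Pool.Agent.P.MP_d05bff_gt.Greedy
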