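import Pool.Agent.P.MP_d05bff_gt.Iface

/-!
One-variable lemmas for the eigenvalue tail bound: test functions, polynomial approximation,
divided differences.
-/

namespace Pool.Agent.P.MP_d05bff_gt

open Set Polynomial

namespace Guan

/-- Logistic cut-off. -/
noncomputable def ps (D z : ℝ) : ℝ := Real.sigmoid (D * (z - 3))

/-- The test function. -/
noncomputable def g0 (D z : ℝ) : ℝ := ps D z * (1 + z ^ 2)

/-- Its first derivative. -/
noncomputable def g1 (D z : ℝ) : ℝ := D * ps D z * (1 - ps D z) * (1 + z ^ 2) + 2 * z * ps D z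

/-- Its second derivative. -/
noncomputable def g2 (D z : ℝ) : ℝ :=
  D ^ 2 * ps D z * (1 - ps D z) * (1 - 2 * ps D z) * (1 + z ^ 2) +
    4 * z * (D * ps D z * (1 - ps D z)) + 2 * ps D z

/-- The tail function. -/
noncomputable def hh (z : ℝ) : ℝ := 3 * (max (z - 3) 0) ^ 2

theorem ps_pos (D z : ℝ) : 0 < ps D z := Real.sigmoid_pos _

theorem ps_lt_one (D z : ℝ) : ps D z < 1 := Real.sigmoid_lt_one _

@[fun_prop]
theorem continuous_ps (D : ℝ) : Continuous (ps D) :=
  continuous_sigmoid.comp (f := fun z => D * (z - 3)) (by fun_prop)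

@[fun_prop]
theorem continuous_g0 (D : ℝ) : Continuous (g0 D) := by unfold g0; fun_prop

@[fun_prop]
theorem continuous_g2 (D : ℝ) : Continuous (g2 D) := by unfold g2; fun_prop

@[fun_prop]
theorem continuous_hh : Continuous hh := by unfold hh; fun_prop

theorem hasDerivAt_ps (D z : ℝ) : HasDerivAt (ps D) (D * ps D z * (1 - ps D z)) z := by
  have h1 : HasDerivAt (fun z : ℝ => D * (z - 3)) D z := by
    simpa using ((hasDerivAt_id z).sub_const 3).const_mul D
  have h := (Real.hasDerivAt_sigmoid (D * (z - 3))).comp z h1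
  convert! h using 1
  unfold ps; ring

theorem hasDerivAt_g0 (D z : ℝ) : HasDerivAt (g0 D) (g1 D z) z := by
  have h1 : HasDerivAt (fun z : ℝ => 1 + z ^ 2) (2 * z) z := by
    simpa using (hasDerivAt_pow 2 z).const_add 1
  have h := (hasDerivAt_ps D z).mul h1
  convert! h using 1
  unfold g1; ring

theorem hasDerivAt_g1 (D z : ℝ) : HasDerivAt (g1 D) (g2 D z) z := by
  have h1 : HasDerivAt (fun z : ℝ => 1 + z ^ 2) (2 * z) z := by
    simpa using (hasDerivAt_pow 2 z).const_add 1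
  have h2 : HasDerivAt (fun z : ℝ => 2 * z) 2 z := by
    simpa using (hasDerivAt_id z).const_mul 2
  have hp := hasDerivAt_ps D z
  have h := (((hp.const_mul D).mul (hp.const_sub 1)).mul h1).add (h2.mul hp)
  convert! h using 1
  unfold g2
  simp only [Pi.mul_apply]
  ring

theorem g0_nonneg (D z : ℝ) : 0 ≤ g0 D z := mul_nonneg (ps_pos D z).le (by positivity)

theorem g0_mono {D a b : ℝ} (hD : 0 ≤ D) (ha : 0 ≤ a) (hab : a ≤ b) : g0 D a ≤ g0 D b := by
  have h1 : ps D a ≤ ps D b := Real.sigmoid_le (by gcongr)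
  unfold g0
  have := (ps_pos D b).le
  gcongr

theorem g1_nonneg {D z : ℝ} (hD : 0 ≤ D) (hz : 0 ≤ z) : 0 ≤ g1 D z := by
  have h1 := (ps_pos D z).le
  have h2 := sub_nonneg.2 (ps_lt_one D z).le
  unfold g1
  positivity

theorem g2_le {D z : ℝ} (hD : 1 ≤ D) (_hz : 0 ≤ z) : g2 D z ≤ 5 * D ^ 2 * g0 D z := by
  have h1 := (ps_pos D z).le
  have h2 := (ps_lt_one D z).le
  unfold g2 g0
  set p := ps D z
  have e1 : (1 - p) * (1 - 2 * p) ≤ 1 := by nlinarith
  have e2 : D ^ 2 * p * (1 - p) * (1 - 2 * p) * (1 + z ^ 2) ≤ D ^ 2 * (p * (1 + z ^ 2)) := by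
    have : D ^ 2 * p * (1 - p) * (1 - 2 * p) * (1 + z ^ 2) =
        D ^ 2 * (p * (1 + z ^ 2)) * ((1 - p) * (1 - 2 * p)) := by ring
    rw [this]
    exact mul_le_of_le_one_right (by positivity) e1
  have hD2 : D ≤ D ^ 2 := by nlinarith
  have e3 : 4 * z * (D * p * (1 - p)) ≤ 2 * D ^ 2 * (p * (1 + z ^ 2)) := by
    have e5 : 4 * z ≤ 2 * (1 + z ^ 2) := by nlinarith [sq_nonneg (z - 1)]
    have e6 : 0 ≤ 1 - p := by linarith
    have e7 : D * p * (1 - p) ≤ D ^ 2 * p * 1 := by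
      gcongr
      linarith
    calc 4 * z * (D * p * (1 - p)) ≤ (2 * (1 + z ^ 2)) * (D ^ 2 * p * 1) :=
          mul_le_mul e5 e7 (by positivity) (by positivity)
      _ = _ := by ring
  have e4 : 2 * p ≤ 2 * D ^ 2 * (p * (1 + z ^ 2)) := by
    calc 2 * p = 2 * 1 * (p * 1) := by ring
      _ ≤ _ := by
        gcongr
        · nlinarith
        · nlinarith
  linarith

theorem half_le_ps {D z : ℝ} (hD : 0 ≤ D) (hz : 3 ≤ z) : 1 / 2 ≤ ps D z := by
  have : Real.sigmoid 0 ≤ ps D z := Real.sigmoid_le (mul_nonneg hD (by linarith))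
  rw [Real.sigmoid_zero] at this
  linarith

theorem dps_le {D z : ℝ} (hD : 0 ≤ D) (hz : 4 ≤ z) : z * (D * ps D z * (1 - ps D z)) ≤ 4 := by
  have h1 := (ps_pos D z).le
  have h2 := (ps_lt_one D z).le
  have h3 : 1 - ps D z = ps D z * Real.exp (-(D * (z - 3))) := by
    unfold ps
    rw [Real.sigmoid_mul_rexp_neg, Real.sigmoid_neg]
  have h4 : D * (z - 3) * Real.exp (-(D * (z - 3))) ≤ 1 := by
    rw [Real.exp_neg, ← div_eq_mul_inv, div_le_one (Real.exp_pos _)]
    linarith [Real.add_one_le_exp (D * (z - 3))]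
  rw [h3]
  calc z * (D * ps D z * (ps D z * Real.exp (-(D * (z - 3)))))
      ≤ (4 * (z - 3)) * (D * 1 * (1 * Real.exp (-(D * (z - 3))))) := by
        have h5 : z ≤ 4 * (z - 3) := by linarith
        have h6 : 0 ≤ 4 * (z - 3) := by linarith
        gcongr
    _ = 4 * (D * (z - 3) * Real.exp (-(D * (z - 3)))) := by ring
    _ ≤ 4 := by linarith

theorem g2_le_big {D z : ℝ} (hD : 0 ≤ D) (hz : 4 ≤ z) : g2 D z ≤ 18 := by
  have h1 := (ps_pos D z).le
  have h2 := (ps_lt_one D z).le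
  have h3 := half_le_ps hD (by linarith : 3 ≤ z)
  have h4 := dps_le hD hz
  unfold g2
  have e1 : D ^ 2 * ps D z * (1 - ps D z) * (1 - 2 * ps D z) * (1 + z ^ 2) ≤ 0 := by
    apply mul_nonpos_of_nonpos_of_nonneg _ (by positivity)
    apply mul_nonpos_of_nonneg_of_nonpos _ (by linarith)
    have := sub_nonneg.2 h2
    positivity
  nlinarith

theorem g1_le_big {D z : ℝ} (hD : 0 ≤ D) (hz : 4 ≤ z) : g1 D z ≤ 7 * z := by
  have h1 := (ps_pos D z).le
  have h2 := (ps_lt_one D z).le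
  have h4 := dps_le hD hz
  unfold g1
  set d := D * ps D z * (1 - ps D z)
  have hd : 0 ≤ d := by
    have := sub_nonneg.2 h2
    positivity
  have e1 : d ≤ 1 := by nlinarith
  have e2 : d * z ^ 2 ≤ 4 * z := by nlinarith
  nlinarith

theorem hh_nonneg (z : ℝ) : 0 ≤ hh z := by unfold hh; positivity

theorem hh_le_g0 {D : ℝ} (hD : 0 ≤ D) (z : ℝ) : hh z ≤ 6 * g0 D z := by
  rcases le_total z 3 with h | h
  · have : hh z = 0 := by simp [hh, max_eq_right (sub_nonpos.2 h)]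
    rw [this]; linarith [g0_nonneg D z]
  · have h1 := half_le_ps hD h
    unfold hh g0
    rw [max_eq_left (sub_nonneg.2 h)]
    nlinarith

theorem sq_le_hh {z : ℝ} (hz : 8 < z) : z ^ 2 ≤ hh z := by
  unfold hh
  rw [max_eq_left (by linarith)]
  nlinarith

theorem le_hh (z : ℝ) : z ≤ 8 + hh z := by
  rcases le_or_gt z 8 with h | h
  · linarith [hh_nonneg z]
  · nlinarith [sq_le_hh h]

theorem mul_g0_min {D z : ℝ} (hD : 0 ≤ D) (hz : 0 ≤ z) : z * g0 D (min z 8) ≤ 17 * g0 D z := by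
  rcases le_total z 8 with h | h
  · rw [min_eq_left h]; nlinarith [g0_nonneg D z]
  · rw [min_eq_right h]
    have h1 := half_le_ps hD (by linarith : 3 ≤ z)
    have h2 := (ps_lt_one D 8).le
    unfold g0
    nlinarith

theorem g0_small {D z : ℝ} (hD : 0 ≤ D) (hz : 0 ≤ z) (hz' : z ≤ 17 / 16) :
    g0 D z ≤ 3 * Real.exp (-D) := by
  have h1 : ps D z ≤ Real.exp (-D) := by
    have h2 : ps D z ≤ Real.sigmoid (-D) := Real.sigmoid_le (by nlinarith)
    rw [← Real.sigmoid_mul_rexp_neg] at h2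
    exact h2.trans (mul_le_of_le_one_left (Real.exp_pos _).le (Real.sigmoid_le_one _))
  unfold g0
  rw [mul_comm 3]
  gcongr
  nlinarith

theorem exists_antideriv (p : ℝ[X]) (c : ℝ) : ∃ P : ℝ[X], derivative P = p ∧ P.eval 0 = c := by
  have h : ∃ P : ℝ[X], derivative P = p := by
    induction p using Polynomial.induction_on' with
    | add p q hp hq =>
      obtain ⟨P, rfl⟩ := hp
      obtain ⟨Q, rfl⟩ := hq
      exact ⟨P + Q, by simp⟩
    | monomial n a =>
      refine ⟨monomial (n + 1) (a / (n + 1)), ?_⟩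
      rw [derivative_monomial_succ]
      congr 1
      field_simp
  obtain ⟨P, rfl⟩ := h
  exact ⟨P + C (c - P.eval 0), by simp, by simp⟩

theorem approx_step {f f' : ℝ → ℝ} (hf : ∀ z, HasDerivAt f (f' z) z) {B η : ℝ} (p : ℝ[X])
    (hp : ∀ z ∈ Icc 0 B, |p.eval z - f' z| ≤ η) :
    ∃ P : ℝ[X], derivative P = p ∧ ∀ z ∈ Icc 0 B, |P.eval z - f z| ≤ η * B := by
  obtain ⟨P, rfl, h0⟩ := exists_antideriv p (f 0)
  refine ⟨P, rfl, fun z hz => ?_⟩
  have h := norm_image_sub_le_of_norm_deriv_le_segment' (f := fun z => P.eval z - f z)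
    (f' := fun z => (derivative P).eval z - f' z) (a := 0) (b := B) (C := η)
    (fun x _ => ((P.hasDerivAt x).sub (hf x)).hasDerivWithinAt)
    (fun x hx => hp x (Ico_subset_Icc_self hx)) z hz
  simp only [h0, sub_self, sub_zero, Real.norm_eq_abs] at h
  have hη : 0 ≤ η := (abs_nonneg _).trans (hp z hz)
  exact h.trans (mul_le_mul_of_nonneg_left hz.2 hη)

theorem exists_poly_C2 {f f' f'' : ℝ → ℝ} (hf : ∀ z, HasDerivAt f (f' z) z)
    (hf' : ∀ z, HasDerivAt f' (f'' z) z) (hc : Continuous f'') {B ε : ℝ} (hB : 0 ≤ B)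
    (hε : 0 < ε) : ∃ P : ℝ[X], ∀ z ∈ Icc 0 B, |P.eval z - f z| ≤ ε ∧
      |P.derivative.eval z - f' z| ≤ ε ∧ |P.derivative.derivative.eval z - f'' z| ≤ ε := by
  set η := ε / (1 + B) ^ 2 with hη
  have hη0 : 0 < η := by positivity
  have hε' : ε = η * (1 + B) ^ 2 := by rw [hη]; field_simp
  obtain ⟨p, hp⟩ := exists_polynomial_near_of_continuousOn 0 B f'' hc.continuousOn η hη0
  obtain ⟨P1, rfl, h1⟩ := approx_step hf' p fun z hz => (hp z hz).le
  obtain ⟨P, rfl, h0⟩ := approx_step hf P1 h1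
  refine ⟨P, fun z hz => ⟨(h0 z hz).trans ?_, (h1 z hz).trans ?_, (hp z hz).le.trans ?_⟩⟩ <;>
    rw [hε'] <;> nlinarith [mul_nonneg hη0.le hB, mul_nonneg (mul_nonneg hη0.le hB) hB]

theorem dd_le {f : ℝ → ℝ} (hf : Continuous f) {a b c : ℝ}
    (h : ∀ z, min a b ≤ z → z ≤ max a b → f z ≤ c) : dd f a b ≤ c := by
  unfold dd
  calc ∫ s in (0 : ℝ)..1, f (b + s * (a - b)) ≤ ∫ _s in (0 : ℝ)..1, c := by
        refine intervalIntegral.integral_mono_on zero_le_one
          (Continuous.intervalIntegrable (by fun_prop) _ _) (by simp) fun s hs => h _ ?_ ?_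
        · rcases le_total a b with hab | hab
          · rw [min_eq_left hab]; nlinarith [hs.1, hs.2]
          · rw [min_eq_right hab]; nlinarith [hs.1, hs.2]
        · rcases le_total a b with hab | hab
          · rw [max_eq_right hab]; nlinarith [hs.1, hs.2]
          · rw [max_eq_left hab]; nlinarith [hs.1, hs.2]
    _ = c := by simp

theorem dd_mul (p : ℝ[X]) (a b : ℝ) :
    dd (fun z => p.derivative.eval z) a b * (a - b) = p.eval a - p.eval b := by
  unfold dd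
  rw [← intervalIntegral.integral_mul_const]
  have h := intervalIntegral.integral_eq_sub_of_hasDerivAt (a := 0) (b := 1)
    (f := fun s => p.eval (b + s * (a - b)))
    (f' := fun s => p.derivative.eval (b + s * (a - b)) * (a - b))
    (fun s _ => by
      have h1 : HasDerivAt (fun s : ℝ => b + s * (a - b)) (a - b) s := by
        simpa using ((hasDerivAt_id s).mul_const (a - b)).const_add b
      exact (p.hasDerivAt _).comp s h1)
    (Continuous.intervalIntegrable (by fun_prop) _ _)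
  rw [h]
  simp

theorem dd_small {D B ε : ℝ} (hD : 1 ≤ D) {P : ℝ[X]}
    (hP : ∀ z ∈ Icc 0 B, |P.derivative.derivative.eval z - g2 D z| ≤ ε) {a b : ℝ}
    (ha : a ∈ Icc 0 B) (hb : b ∈ Icc 0 B) :
    dd (fun z => P.derivative.derivative.eval z) a b ≤ 5 * D ^ 2 * g0 D (max a b) + ε := by
  refine dd_le (by fun_prop) fun z h1 h2 => ?_
  have hz0 : 0 ≤ z := (le_min ha.1 hb.1).trans h1
  have h3 := (abs_le.1 (hP z ⟨hz0, h2.trans (max_le ha.2 hb.2)⟩)).2
  have h4 := g2_le hD hz0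
  have h5 := g0_mono (by linarith : 0 ≤ D) hz0 h2
  nlinarith [sq_nonneg D]

theorem dd_big {D B ε : ℝ} (hD : 1 ≤ D) {P : ℝ[X]}
    (hP1 : ∀ z ∈ Icc 0 B, |P.derivative.eval z - g1 D z| ≤ ε)
    (hP : ∀ z ∈ Icc 0 B, |P.derivative.derivative.eval z - g2 D z| ≤ ε) {a b : ℝ}
    (ha : a ∈ Icc 0 B) (hb : b ∈ Icc 0 B) (h8 : 8 < max a b) :
    dd (fun z => P.derivative.derivative.eval z) a b ≤ 18 + ε := by
  have hD0 : 0 ≤ D := by linarith
  have hε : 0 ≤ ε := (abs_nonneg _).trans (hP a ha)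
  rcases le_or_gt 4 (min a b) with h4 | h4
  · refine dd_le (by fun_prop) fun z h1 h2 => ?_
    have hz0 : 0 ≤ z := (le_min ha.1 hb.1).trans h1
    have h3 := (abs_le.1 (hP z ⟨hz0, h2.trans (max_le ha.2 hb.2)⟩)).2
    have h5 := g2_le_big hD0 (h4.trans h1)
    linarith
  have key := dd_mul P.derivative a b
  have ha1 := abs_le.1 (hP1 a ha)
  have hb1 := abs_le.1 (hP1 b hb)
  set d := dd (fun z => P.derivative.derivative.eval z) a b
  by_contra hn
  push Not at hn
  rcases le_total a b with hab | hab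
  · rw [max_eq_right hab] at h8
    rw [min_eq_left hab] at h4
    have h5 := g1_le_big hD0 (by linarith : 4 ≤ b)
    have h6 := g1_nonneg hD0 ha.1
    nlinarith
  · rw [max_eq_left hab] at h8
    rw [min_eq_right hab] at h4
    have h5 := g1_le_big hD0 (by linarith : 4 ≤ a)
    have h6 := g1_nonneg hD0 hb.1
    nlinarith

theorem le_of_deriv {f f' : ℝ → ℝ} {t : ℝ} (ht : 0 ≤ t) (hc : ContinuousOn f (Icc 0 t))
    (hd : ∀ s ∈ Ioo 0 t, HasDerivAt f (f' s) s) (h : ∀ s ∈ Ioo 0 t, f' s ≤ 0) : f t ≤ f 0 :=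
  antitoneOn_of_hasDerivWithinAt_nonpos (convex_Icc 0 t) hc
    (fun s hs => (hd s (by rwa [interior_Icc] at hs)).hasDerivWithinAt)
    (fun s hs => h s (by rwa [interior_Icc] at hs)) ⟨le_rfl, ht⟩ ⟨ht, le_rfl⟩ ht

theorem symm3 {ι : Type} [Fintype ι] (x y : ι → ι → ι → ℝ) (w : ι → ι → ℝ)
    (h12 : ∀ i j k, x i j k = x j i k) (h23 : ∀ i j k, x i j k = x i k j)
    (hw : ∀ i j k, w i j ≤ y i j k + y j i k + y k i j) :
    ∑ i, ∑ j, ∑ k, x i j k ^ 2 * w i j ≤ 3 * ∑ l, ∑ j, ∑ k, x l j k ^ 2 * y l j k := by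
  have e2 : ∑ i, ∑ j, ∑ k, x i j k ^ 2 * y j i k = ∑ l, ∑ j, ∑ k, x l j k ^ 2 * y l j k := by
    rw [Finset.sum_comm]
    exact Finset.sum_congr rfl fun i _ => Finset.sum_congr rfl fun j _ =>
      Finset.sum_congr rfl fun k _ => by rw [h12]
  have e3 : ∑ i, ∑ j, ∑ k, x i j k ^ 2 * y k i j = ∑ l, ∑ j, ∑ k, x l j k ^ 2 * y l j k := by
    rw [Finset.sum_congr rfl fun i _ => Finset.sum_comm, Finset.sum_comm]
    exact Finset.sum_congr rfl fun k _ => Finset.sum_congr rfl fun i _ =>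
      Finset.sum_congr rfl fun j _ => by rw [h23 i j k, h12 i k j]
  calc ∑ i, ∑ j, ∑ k, x i j k ^ 2 * w i j
      ≤ ∑ i, ∑ j, ∑ k, (x i j k ^ 2 * y i j k + x i j k ^ 2 * y j i k + x i j k ^ 2 * y k i j) :=
        Finset.sum_le_sum fun i _ => Finset.sum_le_sum fun j _ => Finset.sum_le_sum fun k _ => by
          rw [← mul_add, ← mul_add]
          exact mul_le_mul_of_nonneg_left (hw i j k) (sq_nonneg _)
    _ = _ := by
        simp only [Finset.sum_add_distrib]
        rw [e2, e3]; ring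

end Guan

end Pool.Agent.P.MP_d05bff_gt
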