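import Pool.Agent.P.MP_d05bff_gt.Basic
import Pool.Agent.P.MP_d05bff_gt.GuanFun

/-!
Eigenvalue tail bound for the localisation process.
-/

namespace Pool.Agent.P.MP_d05bff_gt

open MeasureTheory Matrix Set Polynomial

namespace Guan

variable {ι : Type} [Fintype ι] [DecidableEq ι] {K : Set (ι → ℝ)}

omit [DecidableEq ι] in
theorem tensor (lm : ι → ℝ) (x : ι → ι → ι → ℝ) (h12 : ∀ i j k, x i j k = x j i k)
    (h23 : ∀ i j k, x i j k = x i k j) {s : ℝ} (hs : 0 < s) (h0 : ∀ i, 0 ≤ lm i)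
    (h1 : ∀ i, lm i ≤ 1 / s)
    (h3 : ∀ (u : ℝ) (i : ι), 0 < u →
      ∑ j, ∑ k, (if lm j ≤ u ∧ lm k ≤ u then x i j k ^ 2 else 0) ≤ 4 * lm i * u * √(u / s))
    (w : ι → ι → ℝ) (G : ℝ → ℝ) (hG0 : ∀ z, 0 ≤ G z) (hGm : ∀ a b, 0 ≤ a → a ≤ b → G a ≤ G b)
    {β : ℝ} (hβ : 0 ≤ β) (hw1 : ∀ i j, max (lm i) (lm j) ≤ 8 → w i j ≤ G (max (lm i) (lm j)))
    (hw2 : ∀ i j, 8 < max (lm i) (lm j) → w i j ≤ β) :
    ∑ i, ∑ j, ∑ k, x i j k ^ 2 * w i j ≤
      ∑ l, (288 / √s * (lm l * G (min (lm l) 8)) + 12 * β / s * hh (lm l)) := by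
  classical
  let y : ι → ι → ι → ℝ := fun l j k =>
    (if lm j ≤ 8 ∧ lm k ≤ 8 then G (min (lm l) 8) else 0) +
      (if lm j ≤ lm l ∧ lm k ≤ lm l then (if 8 < lm l then β else 0) else 0)
  have ya : ∀ l j k, 0 ≤ (if lm j ≤ 8 ∧ lm k ≤ 8 then G (min (lm l) 8) else 0) := fun l j k => by
    split_ifs
    · exact hG0 _
    · exact le_rfl
  have yb : ∀ l j k, 0 ≤ (if lm j ≤ lm l ∧ lm k ≤ lm l then (if 8 < lm l then β else 0) else 0) :=
    fun l j k => by split_ifs <;> first | exact hβ | exact le_rfl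
  have y0 : ∀ l j k, 0 ≤ y l j k := fun l j k => add_nonneg (ya l j k) (yb l j k)
  have y1 : ∀ l j k z, lm j ≤ 8 → lm k ≤ 8 → 0 ≤ z → z ≤ lm l → z ≤ 8 → G z ≤ y l j k :=
    fun l j k z hj hk hz hl h8 => by
      have := yb l j k
      have h := hGm z (min (lm l) 8) hz (le_min hl h8)
      simp only [y]
      rw [if_pos ⟨hj, hk⟩]
      linarith
  have y2 : ∀ l j k, lm j ≤ lm l → lm k ≤ lm l → 8 < lm l → β ≤ y l j k :=
    fun l j k hj hk hl => by
      have := ya l j k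
      simp only [y]
      rw [if_pos (show lm j ≤ lm l ∧ lm k ≤ lm l from ⟨hj, hk⟩), if_pos hl]
      linarith
  have hw : ∀ i j k, w i j ≤ y i j k + y j i k + y k i j := by
    intro i j k
    have a1 := y0 i j k
    have a2 := y0 j i k
    have a3 := y0 k i j
    have hm0 : 0 ≤ max (lm i) (lm j) := (h0 i).trans (le_max_left _ _)
    have hi := le_max_left (lm i) (lm j)
    have hj := le_max_right (lm i) (lm j)
    rcases le_or_gt (max (lm i) (lm j)) 8 with h8 | h8
    · have h := hw1 i j h8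
      rcases le_total (max (lm i) (lm j)) (lm k) with hk | hk
      · linarith [y1 k i j _ (hi.trans h8) (hj.trans h8) hm0 hk h8]
      · rcases le_total (lm i) (lm j) with hij | hij
        · linarith [y1 j i k _ (hi.trans h8) (hk.trans h8) hm0 (max_eq_right hij).le h8]
        · linarith [y1 i j k _ (hj.trans h8) (hk.trans h8) hm0 (max_eq_left hij).le h8]
    · have h := hw2 i j h8
      rcases le_total (max (lm i) (lm j)) (lm k) with hk | hk
      · linarith [y2 k i j (hi.trans hk) (hj.trans hk) (h8.trans_le hk)]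
      · rcases le_total (lm i) (lm j) with hij | hij
        · rw [max_eq_right hij] at h8 hk
          linarith [y2 j i k hij hk h8]
        · rw [max_eq_left hij] at h8 hk
          linarith [y2 i j k hij hk h8]
  refine (symm3 x y w h12 h23 hw).trans ?_
  rw [Finset.mul_sum]
  refine Finset.sum_le_sum fun l _ => ?_
  have e : ∑ j, ∑ k, x l j k ^ 2 * y l j k =
      G (min (lm l) 8) * ∑ j, ∑ k, (if lm j ≤ 8 ∧ lm k ≤ 8 then x l j k ^ 2 else 0) +
      (if 8 < lm l then β else 0) *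
        ∑ j, ∑ k, (if lm j ≤ lm l ∧ lm k ≤ lm l then x l j k ^ 2 else 0) := by
    simp only [Finset.mul_sum, ← Finset.sum_add_distrib]
    refine Finset.sum_congr rfl fun j _ => Finset.sum_congr rfl fun k _ => ?_
    simp only [y]
    split_ifs <;> ring
  have hss : 0 < √s := Real.sqrt_pos.2 hs
  have b1 : √(8 / s) ≤ 3 / √s := by
    rw [Real.sqrt_div (by norm_num)]
    gcongr
    rw [Real.sqrt_le_iff]; norm_num
  have b2 : G (min (lm l) 8) * ∑ j, ∑ k, (if lm j ≤ 8 ∧ lm k ≤ 8 then x l j k ^ 2 else 0) ≤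
      96 / √s * (lm l * G (min (lm l) 8)) := by
    have := h0 l
    have := hG0 (min (lm l) 8)
    calc _ ≤ G (min (lm l) 8) * (4 * lm l * 8 * (3 / √s)) := by
          gcongr
          exact (h3 8 l (by norm_num)).trans (by gcongr)
      _ = _ := by ring
  have b3 : (if 8 < lm l then β else 0) *
      ∑ j, ∑ k, (if lm j ≤ lm l ∧ lm k ≤ lm l then x l j k ^ 2 else 0) ≤
      4 * β / s * hh (lm l) := by
    split_ifs with h8
    · have b4 : √(lm l / s) ≤ 1 / s := by
        rw [Real.sqrt_le_iff]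
        refine ⟨by positivity, ?_⟩
        calc lm l / s ≤ (1 / s) / s := by gcongr; exact h1 l
          _ = _ := by ring
      have := h0 l
      calc _ ≤ β * (4 * lm l * lm l * (1 / s)) := by
            gcongr
            exact (h3 (lm l) l (by linarith)).trans (by gcongr)
        _ = 4 * β / s * lm l ^ 2 := by ring
        _ ≤ _ := by gcongr; exact sq_le_hh h8
    · have := hh_nonneg (lm l)
      rw [zero_mul]; positivity
  rw [e]
  calc _ ≤ 3 * (96 / √s * (lm l * G (min (lm l) 8)) + 4 * β / s * hh (lm l)) := by linarith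
    _ = _ := by ring

theorem lam_le_inv (hT : T3Stmt) (hK : IsBody K) {s : ℝ} (hs : 0 < s) (θ : ι → ℝ) (i : ι) :
    lam K s θ i ≤ 1 / s := by
  have h := (hT ι K s θ hK hs).1 (evec K s θ i)
  rwa [← lam_eq, evec_dot, if_pos rfl] at h

theorem tensor_lam (hT : T3Stmt) (hK : IsBody K) {s : ℝ} (hs : 0 < s) (θ : ι → ℝ)
    (w : ι → ι → ℝ) (G : ℝ → ℝ) (hG0 : ∀ z, 0 ≤ G z) (hGm : ∀ a b, 0 ≤ a → a ≤ b → G a ≤ G b)
    {β : ℝ} (hβ : 0 ≤ β) (hw1 : ∀ i j, max (lam K s θ i) (lam K s θ j) ≤ 8 →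
      w i j ≤ G (max (lam K s θ i) (lam K s θ j)))
    (hw2 : ∀ i j, 8 < max (lam K s θ i) (lam K s θ j) → w i j ≤ β) :
    ∑ i, ∑ j, ∑ k, T3 K s θ (evec K s θ i) (evec K s θ j) (evec K s θ k) ^ 2 * w i j ≤
      ∑ l, (288 / √s * (lam K s θ l * G (min (lam K s θ l) 8)) +
        12 * β / s * hh (lam K s θ l)) :=
  tensor (lam K s θ) (fun i j k => T3 K s θ (evec K s θ i) (evec K s θ j) (evec K s θ k))
    (fun _ _ _ => T3_comm₁₂ ..) (fun _ _ _ => T3_comm₂₃ ..) hs (hK.lam_nonneg s θ)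
    (lam_le_inv hT hK hs θ) (hT ι K s θ hK hs).2.2 w G hG0 hGm hβ hw1 hw2

/-- Average of a spectral function. -/
noncomputable def sp (K : Set (ι → ℝ)) (f : ℝ → ℝ) (s : ℝ) : ℝ :=
  avg K s (fun θ => ∑ i, f (lam K s θ i))

theorem spec_bound (hK : IsBody K) {f : ℝ → ℝ} (hf : Continuous f) :
    ∃ M, ∀ t θ, |∑ i, f (lam K t θ i)| ≤ M := by
  obtain ⟨B, hB⟩ := hK.exists_bound_lam
  obtain ⟨M, hM⟩ := (isCompact_Icc (a := (0 : ℝ)) (b := B)).exists_bound_of_continuousOn
    hf.continuousOn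
  refine ⟨∑ _i : ι, M, fun t θ => (Finset.abs_sum_le_sum_abs _ _).trans ?_⟩
  exact Finset.sum_le_sum fun i _ => hM _ ⟨hK.lam_nonneg t θ i, hB t θ i⟩

theorem spec_cont (hG : GenStmt) (hK : IsBody K) {f : ℝ → ℝ} (hf : Continuous f) (s : ℝ) :
    Continuous fun θ => ∑ i, f (lam K s θ i) := by
  have h := ((hG ι K hK).1 f hf).comp (f := fun θ : ι → ℝ => (s, θ)) (Continuous.prodMk_right s)
  simpa only [Function.comp_def] using h

theorem continuousOn_sp (hG : GenStmt) (hK : IsBody K) {f : ℝ → ℝ} (hf : Continuous f) :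
    ContinuousOn (sp K f) (Icc 0 1) := by
  obtain ⟨M, hM⟩ := spec_bound hK hf
  exact hK.continuousOn_avg (G := fun t θ => ∑ i, f (lam K t θ i)) ((hG ι K hK).1 f hf) hM

theorem sp_mono (hG : GenStmt) (hK : IsBody K) {f g : ℝ → ℝ} (hf : Continuous f)
    (hg : Continuous g) {s : ℝ} (hs : 0 ≤ s) (h : ∀ θ i, f (lam K s θ i) ≤ g (lam K s θ i)) :
    sp K f s ≤ sp K g s := by
  obtain ⟨M, hM⟩ := spec_bound hK hf
  obtain ⟨M', hM'⟩ := spec_bound hK hg
  exact hK.avg_mono hs (spec_cont hG hK hf s) (spec_cont hG hK hg s) (hM s) (hM' s)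
    fun θ => Finset.sum_le_sum fun i _ => h θ i

theorem sp_add (hG : GenStmt) (hK : IsBody K) {f g : ℝ → ℝ} (hf : Continuous f)
    (hg : Continuous g) {s : ℝ} (hs : 0 ≤ s) :
    sp K (fun z => f z + g z) s = sp K f s + sp K g s := by
  obtain ⟨M, hM⟩ := spec_bound hK hf
  obtain ⟨M', hM'⟩ := spec_bound hK hg
  unfold sp
  simp only [Finset.sum_add_distrib]
  exact hK.avg_add hs (spec_cont hG hK hf s) (spec_cont hG hK hg s) (hM s) (hM' s)

theorem sp_mul (c : ℝ) (f : ℝ → ℝ) (s : ℝ) : sp K (fun z => c * f z) s = c * sp K f s := by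
  unfold sp
  simp only [← Finset.mul_sum]
  exact avg_const_mul s c _

theorem sp_const (c s : ℝ) : sp K (fun _ => c) s = c * sp K (fun _ => 1) s := by
  rw [← sp_mul]; simp

theorem avg_gen_le (hG : GenStmt) (hK : IsBody K) (P : ℝ[X]) {F : ℝ → ℝ} (hF : Continuous F)
    {s : ℝ} (hs : 0 < s) (h : ∀ θ, gen K P s θ ≤ ∑ i, F (lam K s θ i)) :
    avg K s (gen K P s) ≤ sp K F s := by
  obtain ⟨M, hM⟩ := spec_bound hK hF
  obtain ⟨h1, ⟨B, hB⟩, -⟩ := (hG ι K hK).2 P s hs
  exact hK.avg_mono hs.le h1 (spec_cont hG hK hF s) hB (hM s) h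

theorem hasDerivAt_sp (hG : GenStmt) (hK : IsBody K) (P : ℝ[X]) {s : ℝ} (hs : 0 < s) :
    HasDerivAt (sp K fun z => P.eval z) (avg K s (gen K P s)) s :=
  ((hG ι K hK).2 P s hs).2.2

theorem sp_one (hG : GenStmt) (hK : IsBody K) {s : ℝ} (hs : s ∈ Icc (0 : ℝ) 1) :
    sp K (fun _ => 1) s = sp K (fun _ => 1) 0 := by
  have key : ∀ c : ℝ, sp K (fun _ => c) s ≤ sp K (fun _ => c) 0 := fun c => by
    refine le_of_deriv (f' := fun r => avg K r (gen K (C c) r)) hs.1
      ((continuousOn_sp hG hK continuous_const).mono (Icc_subset_Icc_right hs.2))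
      (fun r hr => ?_) fun r hr => ?_
    · simpa using hasDerivAt_sp hG hK (C c) hr.1
    · have : gen K (C c) r = fun _ => 0 := by
        funext θ; simp [gen, dd]
      rw [this]; simp [avg]
  have h1 := key 1
  have h2 := key (-1)
  rw [sp_const (-1) s, sp_const (-1) 0] at h2
  linarith

theorem sp_zero_le (hK : IsBody K) {f : ℝ → ℝ} {c : ℝ} (h : ∀ i, f (lam K 0 0 i) ≤ c) :
    sp K f 0 ≤ c * sp K (fun _ => 1) 0 := by
  rw [← sp_const]
  unfold sp
  rw [avg_zero, avg_zero (fun _ => ∑ _i : ι, c)]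
  exact mul_le_mul_of_nonneg_right (Finset.sum_le_sum fun i _ => h i)
    (hK.avg_nonneg 0 fun _ => zero_le_one)

theorem sp_one_pos [Nonempty ι] (hK : IsBody K) : 0 < sp K (fun _ => 1) 0 :=
  hK.avg_pos le_rfl continuous_const (B := |∑ _i : ι, (1 : ℝ)|) (fun _ => le_rfl)
    fun _ => by simp [Fintype.card_pos]

omit [DecidableEq ι] in
theorem Ex_ratio (hK : IsBody K) {R : ℝ} (hR : ∀ x ∈ K, ‖x‖ ≤ R) {s : ℝ} (hs : 0 ≤ s)
    (θ : ι → ℝ) {f : (ι → ℝ) → ℝ} (hf : Continuous f) (hf0 : ∀ x, 0 ≤ f x) :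
    Ex K s θ f ≤ Real.exp (2 * R * ∑ i, |θ i| + s * (Fintype.card ι * R ^ 2)) * Ex K 0 0 f := by
  set A := R * ∑ i, |θ i| with hA
  set E := s * (Fintype.card ι * R ^ 2) with hE
  have h1 : ∀ x ∈ K, |θ ⬝ᵥ x| ≤ A := fun x hx => by
    rw [hA, Finset.mul_sum]
    refine (Finset.abs_sum_le_sum_abs _ _).trans (Finset.sum_le_sum fun i _ => ?_)
    rw [abs_mul, mul_comm]
    exact mul_le_mul_of_nonneg_right ((norm_le_pi_norm x i).trans (hR x hx)) (abs_nonneg _)
  have h2 : ∀ x : ι → ℝ, 0 ≤ x ⬝ᵥ x := fun x => Finset.sum_nonneg fun i _ => mul_self_nonneg _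
  have h3 : ∀ x ∈ K, x ⬝ᵥ x ≤ Fintype.card ι * R ^ 2 := fun x hx => by
    calc x ⬝ᵥ x ≤ ∑ _i : ι, R ^ 2 := Finset.sum_le_sum fun i _ => by
          have : |x i| ≤ R := (norm_le_pi_norm x i).trans (hR x hx)
          rw [← sq, ← sq_abs]
          exact pow_le_pow_left₀ (abs_nonneg _) this 2
      _ = _ := by simp
  have w0 : ∀ x : ι → ℝ, wt 0 0 x = 1 := fun x => by simp [wt]
  have n1 : ∫ x in K, f x * wt s θ x ≤ Real.exp A * ∫ x in K, f x * wt 0 0 x := by
    rw [← integral_const_mul]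
    refine setIntegral_mono_on (hK.integrableOn_mul_wt hf s θ) (hK.integrableOn (by fun_prop))
      hK.measurableSet fun x hx => ?_
    rw [w0, mul_one, mul_comm]
    refine mul_le_mul_of_nonneg_right (Real.exp_le_exp.2 ?_) (hf0 x)
    nlinarith [(abs_le.1 (h1 x hx)).2, mul_nonneg hs (h2 x)]
  have n2 : Real.exp (-A - E) * Zf K 0 0 ≤ Zf K s θ := by
    unfold Zf
    rw [← integral_const_mul]
    refine setIntegral_mono_on (hK.integrableOn (by fun_prop)) (hK.integrableOn (by fun_prop))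
      hK.measurableSet fun x hx => ?_
    rw [w0, mul_one]
    refine Real.exp_le_exp.2 ?_
    nlinarith [(abs_le.1 (h1 x hx)).1, mul_nonneg hs (h2 x), mul_le_mul_of_nonneg_left (h3 x hx) hs]
  have z0 := hK.Zf_pos 0 0
  have n0 : 0 ≤ ∫ x in K, f x * wt 0 0 x :=
    integral_nonneg fun x => mul_nonneg (hf0 x) (wt_pos _ _ _).le
  unfold Ex
  calc (∫ x in K, f x * wt s θ x) / Zf K s θ
      ≤ (Real.exp A * ∫ x in K, f x * wt 0 0 x) / (Real.exp (-A - E) * Zf K 0 0) := by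
        gcongr
    _ = _ := by
        rw [mul_div_mul_comm, ← Real.exp_sub]
        congr 2
        rw [hA]; ring

theorem crude (hK : IsBody K)
    (h0 : ∀ v : ι → ℝ, |v ⬝ᵥ cov K 0 0 *ᵥ v - v ⬝ᵥ v| ≤ (v ⬝ᵥ v) / 16) (q : ℕ) :
    ∃ C : ℝ, ∀ s ∈ Ioc (0 : ℝ) 1, sp K hh s ≤ C * s ^ q := by
  obtain ⟨R, hR0, hR⟩ := hK.exists_bound
  obtain ⟨B, hB⟩ := hK.exists_bound_lam
  set E := Fintype.card ι * R ^ 2 with hE
  have hE0 : 0 ≤ E := by positivity
  set M := (volume K).toReal * (Fintype.card ι * (3 * B ^ 2 * ((2 * q).factorial * Real.exp E)))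
    with hM
  refine ⟨M * ∫ w : ι → ℝ, Real.exp (3 * R * ∑ i, |w i|) * Real.exp (-(w ⬝ᵥ w) / 2),
    fun s hs => ?_⟩
  rw [mul_right_comm, ← integral_const_mul]
  refine integral_mono_of_nonneg (ae_of_all _ fun w => ?_)
    ((integrable_exp_abs_gauss (3 * R)).const_mul _) (ae_of_all _ fun w => ?_)
  · exact mul_nonneg (mul_nonneg (hK.Zf_pos _ _).le (Finset.sum_nonneg fun i _ => hh_nonneg _))
      (Real.exp_pos _).le
  simp only
  rw [← mul_assoc]
  refine mul_le_mul_of_nonneg_right ?_ (Real.exp_pos _).le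
  set W := ∑ i, |w i| with hW
  have hW0 : 0 ≤ W := Finset.sum_nonneg fun i _ => abs_nonneg _
  have e : ∑ i, |(√s • w) i| = √s * W := by
    rw [hW, Finset.mul_sum]
    exact Finset.sum_congr rfl fun i _ => by
      rw [Pi.smul_apply, smul_eq_mul, abs_mul, abs_of_nonneg (Real.sqrt_nonneg s)]
  have hs1 : √s ≤ 1 := Real.sqrt_le_one.2 hs.2
  have hs0 : 0 ≤ √s := Real.sqrt_nonneg s
  have hss : √s * √s = s := Real.mul_self_sqrt hs.1.le
  have hZ : Zf K s (√s • w) ≤ (volume K).toReal * Real.exp (R * W) := by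
    refine (hK.Zf_le hR hs.1.le _).trans ?_
    rw [e]
    gcongr
    exact mul_le_of_le_one_left hW0 hs1
  have hY : 0 ≤ 2 * R * W + E := by positivity
  have hl : ∀ i, hh (lam K s (√s • w) i) ≤
      3 * B ^ 2 * ((2 * q).factorial * Real.exp E) * s ^ q * Real.exp (2 * R * W) := by
    intro i
    rcases le_or_gt (lam K s (√s • w) i) 3 with h3 | h3
    · have : hh (lam K s (√s • w) i) = 0 := by simp [hh, max_eq_right (sub_nonpos.2 h3)]
      rw [this]
      have := hs.1.le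
      positivity
    have a1 : lam K s (√s • w) i ≤ Real.exp (2 * R * (√s * W) + s * E) * (17 / 16) := by
      rw [lam_eq]
      refine (hK.cov_quad_le s _ _ (bar K 0 0)).trans ?_
      refine (Ex_ratio hK hR hs.1.le _ (by fun_prop) fun x => sq_nonneg _).trans ?_
      rw [e, ← hK.cov_quad]
      gcongr
      have := (abs_le.1 (h0 (evec K s (√s • w) i))).2
      rw [evec_dot, if_pos rfl] at this
      linarith
    have a2 : 1 ≤ 2 * R * (√s * W) + s * E := by
      by_contra hn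
      push Not at hn
      have := Real.exp_le_exp.2 hn.le
      have := Real.exp_one_lt_d9
      linarith
    have a3 : 1 ≤ √s * (2 * R * W + E) := by
      have : s * E ≤ √s * E := by
        gcongr
        nlinarith
      nlinarith
    have a4 : 1 ≤ s ^ q * (2 * R * W + E) ^ (2 * q) := by
      have := one_le_pow₀ (n := 2 * q) a3
      rwa [mul_pow, pow_mul, Real.sq_sqrt hs.1.le] at this
    have a5 : (2 * R * W + E) ^ (2 * q) ≤ (2 * q).factorial * Real.exp (2 * R * W + E) := by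
      have := Real.pow_div_factorial_le_exp _ hY (2 * q)
      rwa [div_le_iff₀' (by positivity)] at this
    have a6 : hh (lam K s (√s • w) i) ≤ 3 * B ^ 2 := by
      unfold hh
      rw [max_eq_left (by linarith)]
      gcongr
      linarith [hB s (√s • w) i]
    have := hs.1.le
    calc hh (lam K s (√s • w) i) ≤ 3 * B ^ 2 * 1 := by linarith
      _ ≤ 3 * B ^ 2 * (s ^ q * ((2 * q).factorial * Real.exp (2 * R * W + E))) := by
          gcongr
          exact a4.trans (by gcongr)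
      _ = _ := by rw [Real.exp_add]; ring
  calc Zf K s (√s • w) * ∑ i, hh (lam K s (√s • w) i)
      ≤ ((volume K).toReal * Real.exp (R * W)) * ∑ _i : ι,
        3 * B ^ 2 * ((2 * q).factorial * Real.exp E) * s ^ q * Real.exp (2 * R * W) :=
        mul_le_mul hZ (Finset.sum_le_sum fun i _ => hl i)
          (Finset.sum_nonneg fun i _ => hh_nonneg _) (by positivity)
    _ = _ := by
        rw [hM, show 3 * R * W = R * W + 2 * R * W by ring, Real.exp_add]
        simp only [Finset.sum_const, Finset.card_univ, nsmul_eq_mul]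
        ring

theorem gen_le (hT : T3Stmt) (hK : IsBody K) {B T : ℝ} (hB : ∀ t θ i, lam K t θ i ≤ B)
    (hT3 : ∀ t θ u v w, u ⬝ᵥ u ≤ 1 → v ⬝ᵥ v ≤ 1 → w ⬝ᵥ w ≤ 1 → |T3 K t θ u v w| ≤ T)
    {D ε : ℝ} (hD : 1 ≤ D) (hε : 0 ≤ ε) {P : ℝ[X]}
    (hP1 : ∀ z ∈ Icc 0 B, |P.derivative.eval z - g1 D z| ≤ ε)
    (hP2 : ∀ z ∈ Icc 0 B, |P.derivative.derivative.eval z - g2 D z| ≤ ε) {s : ℝ} (hs : 0 < s)
    (θ : ι → ℝ) : gen K P s θ ≤ ∑ l, (12240 * D ^ 2 / √s * g0 D (lam K s θ l) +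
      108 / s * hh (lam K s θ l) + ε * (B ^ 2 + Fintype.card ι ^ 2 * T ^ 2)) := by
  have hD0 : 0 ≤ D := by linarith
  have hm : ∀ i, lam K s θ i ∈ Icc 0 B := fun i => ⟨hK.lam_nonneg s θ i, hB s θ i⟩
  have h1 := tensor_lam hT hK hs θ
    (fun i j => dd (fun z => P.derivative.derivative.eval z) (lam K s θ i) (lam K s θ j) - ε)
    (fun z => 5 * D ^ 2 * g0 D z) (fun z => by have := g0_nonneg D z; positivity)
    (fun a b ha hab => by have := g0_mono hD0 ha hab; gcongr) (β := 18) (by norm_num)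
    (fun i j _ => by linarith [dd_small hD hP2 (hm i) (hm j)])
    (fun i j h8 => by linarith [dd_big hD hP1 hP2 (hm i) (hm j) h8])
  have h2 : ∀ i, ∑ j, ∑ k, T3 K s θ (evec K s θ i) (evec K s θ j) (evec K s θ k) ^ 2 ≤
      Fintype.card ι ^ 2 * T ^ 2 := fun i => by
    calc _ ≤ ∑ _j : ι, ∑ _k : ι, T ^ 2 :=
          Finset.sum_le_sum fun j _ => Finset.sum_le_sum fun k _ => by
            rw [← sq_abs]
            refine pow_le_pow_left₀ (abs_nonneg _) (hT3 _ _ _ _ _ ?_ ?_ ?_) 2 <;>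
              rw [evec_dot, if_pos rfl]
      _ = _ := by simp; ring
  have h3 : ∀ i, -(lam K s θ i ^ 2 * P.derivative.eval (lam K s θ i)) ≤ ε * B ^ 2 := fun i => by
    have a1 := (abs_le.1 (hP1 _ (hm i))).1
    have a2 := g1_nonneg hD0 (hm i).1
    have a3 : lam K s θ i ^ 2 ≤ B ^ 2 := pow_le_pow_left₀ (hm i).1 (hm i).2 2
    nlinarith [sq_nonneg (lam K s θ i), mul_le_mul_of_nonneg_left a3 hε]
  have h4 : ∑ i, ∑ j, ∑ k, T3 K s θ (evec K s θ i) (evec K s θ j) (evec K s θ k) ^ 2 *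
      dd (fun z => P.derivative.derivative.eval z) (lam K s θ i) (lam K s θ j) =
      ∑ i, ∑ j, ∑ k, T3 K s θ (evec K s θ i) (evec K s θ j) (evec K s θ k) ^ 2 *
        (dd (fun z => P.derivative.derivative.eval z) (lam K s θ i) (lam K s θ j) - ε) +
      ∑ i, ε * ∑ j, ∑ k, T3 K s θ (evec K s θ i) (evec K s θ j) (evec K s θ k) ^ 2 := by
    simp only [Finset.mul_sum, ← Finset.sum_add_distrib]
    exact Finset.sum_congr rfl fun i _ => Finset.sum_congr rfl fun j _ =>
      Finset.sum_congr rfl fun k _ => by ring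
  have hss : 0 < √s := Real.sqrt_pos.2 hs
  unfold gen
  rw [h4]
  calc _ ≤ -(∑ i, lam K s θ i ^ 2 * P.derivative.eval (lam K s θ i)) +
        1 / 2 * (∑ l, (288 / √s * (lam K s θ l * (5 * D ^ 2 * g0 D (min (lam K s θ l) 8))) +
          12 * 18 / s * hh (lam K s θ l)) + ∑ _i : ι, ε * (Fintype.card ι ^ 2 * T ^ 2)) := by
        gcongr with i
        exact h2 i
    _ ≤ _ := by
        rw [← Finset.sum_neg_distrib, ← Finset.sum_add_distrib, Finset.mul_sum,
          ← Finset.sum_add_distrib]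
        refine Finset.sum_le_sum fun i _ => ?_
        have a1 := h3 i
        have a2 : 720 * D ^ 2 / √s * (lam K s θ i * g0 D (min (lam K s θ i) 8)) ≤
            720 * D ^ 2 / √s * (17 * g0 D (lam K s θ i)) :=
          mul_le_mul_of_nonneg_left (mul_g0_min hD0 (hm i).1) (by positivity)
        have a3 : 0 ≤ ε * (Fintype.card ι ^ 2 * T ^ 2) := by positivity
        calc _ = -(lam K s θ i ^ 2 * P.derivative.eval (lam K s θ i)) +
              720 * D ^ 2 / √s * (lam K s θ i * g0 D (min (lam K s θ i) 8)) +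
              108 / s * hh (lam K s θ i) + 1 / 2 * (ε * (Fintype.card ι ^ 2 * T ^ 2)) := by ring
          _ ≤ ε * B ^ 2 + 720 * D ^ 2 / √s * (17 * g0 D (lam K s θ i)) +
              108 / s * hh (lam K s θ i) + ε * (Fintype.card ι ^ 2 * T ^ 2) := by linarith
          _ = _ := by ring

theorem gronwall (hT : T3Stmt) (hG : GenStmt) (hK : IsBody K)
    (h0 : ∀ v : ι → ℝ, |v ⬝ᵥ cov K 0 0 *ᵥ v - v ⬝ᵥ v| ≤ (v ⬝ᵥ v) / 16) (p : ℕ) {S : ℝ}
    (hS0 : 0 ≤ S)
    (hS : ∀ s ∈ Ioc (0 : ℝ) 1, sp K hh s ≤ S * sp K (fun _ => 1) 0 * s ^ (p + 1))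
    {D : ℝ} (hD : 1 ≤ D) {t : ℝ} (ht : t ∈ Ioc (0 : ℝ) 1) :
    sp K (g0 D) t ≤ Real.exp (24480 * D ^ 2 * √t) *
      ((3 * Real.exp (-D) + 108 * S * t ^ (p + 1) / (p + 1)) * sp K (fun _ => 1) 0) := by
  obtain ⟨B', hB'⟩ := hK.exists_bound_lam
  set B := max B' 0
  have hB0 : 0 ≤ B := le_max_right _ _
  have hB : ∀ t θ i, lam K t θ i ≤ B := fun t θ i => (hB' t θ i).trans (le_max_left _ _)
  obtain ⟨T, -, hT3⟩ := hK.exists_bound_T3
  have hD0 : 0 ≤ D := by linarith
  set N := sp K (fun _ => 1) 0 with hN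
  have hN0 : 0 ≤ N := hK.avg_nonneg _ fun _ => by positivity
  set c := B ^ 2 + Fintype.card ι ^ 2 * T ^ 2 with hc
  have hc0 : 0 ≤ c := by positivity
  set E := Real.exp (24480 * D ^ 2 * √t) with hE
  have hE0 : 0 < E := Real.exp_pos _
  have hm : ∀ s θ i, lam K s θ i ∈ Icc 0 B := fun s θ i => ⟨hK.lam_nonneg s θ i, hB s θ i⟩
  have key : ∀ ε : ℝ, 0 < ε → sp K (g0 D) t ≤
      E * ((3 * Real.exp (-D) + 108 * S * t ^ (p + 1) / (p + 1)) * N) + ε * (E * (2 + c) * N) := by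
    intro ε hε
    obtain ⟨P, hP⟩ := exists_poly_C2 (hasDerivAt_g0 D) (hasDerivAt_g1 D) (continuous_g2 D) hB0 hε
    have a1 : ∀ s ∈ Icc (0 : ℝ) 1, sp K (g0 D) s ≤ sp K (fun z => P.eval z) s + ε * N := by
      intro s hs
      rw [hN, ← sp_one hG hK hs, ← sp_const,
        ← sp_add hG hK (by fun_prop) continuous_const hs.1]
      refine sp_mono hG hK (by fun_prop) (by fun_prop) hs.1 fun θ i => ?_
      linarith [(abs_le.1 (hP _ (hm s θ i)).1).1]
    have a2 : sp K (fun z => P.eval z) 0 ≤ (3 * Real.exp (-D) + ε) * N := by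
      refine sp_zero_le hK fun i => ?_
      have b1 : lam K 0 0 i ≤ 17 / 16 := by
        have := (abs_le.1 (h0 (evec K 0 0 i))).2
        rw [← lam_eq, evec_dot, if_pos rfl] at this
        linarith
      linarith [(abs_le.1 (hP _ (hm 0 0 i)).1).2, g0_small hD0 (hm 0 0 i).1 b1]
    have a3 : ∀ s ∈ Ioc (0 : ℝ) 1, avg K s (gen K P s) ≤
        12240 * D ^ 2 / √s * (sp K (fun z => P.eval z) s + ε * N) +
          (108 * S * N * s ^ p + ε * c * N) := by
      intro s hs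
      have hs' : s ∈ Icc (0 : ℝ) 1 := Ioc_subset_Icc_self hs
      have b1 := avg_gen_le hG hK P
        (F := fun z => 12240 * D ^ 2 / √s * g0 D z + 108 / s * hh z + ε * c) (by fun_prop) hs.1
        (gen_le hT hK hB hT3 hD hε.le (fun z hz => (hP z hz).2.1) (fun z hz => (hP z hz).2.2) hs.1)
      rw [sp_add hG hK (by fun_prop) continuous_const hs'.1,
        sp_add hG hK (by fun_prop) (by fun_prop) hs'.1, sp_mul, sp_mul, sp_const,
        sp_one hG hK hs', ← hN] at b1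
      have hs0 := hs.1
      have b2 : 108 / s * sp K hh s ≤ 108 * S * N * s ^ p := by
        calc 108 / s * sp K hh s ≤ 108 / s * (S * N * s ^ (p + 1)) := by
              gcongr
              exact hS s hs
          _ = _ := by field_simp; ring
      have b3 : 12240 * D ^ 2 / √s * sp K (g0 D) s ≤
          12240 * D ^ 2 / √s * (sp K (fun z => P.eval z) s + ε * N) := by
        gcongr
        exact a1 s hs'
      linarith
    have a4 := le_of_deriv (t := t)
      (f := fun s => Real.exp (-(24480 * D ^ 2 * √s)) * (sp K (fun z => P.eval z) s + ε * N) -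
        (108 * S * N * s ^ (p + 1) / (p + 1) + ε * c * N * s))
      (f' := fun s => (Real.exp (-(24480 * D ^ 2 * √s)) * -(24480 * D ^ 2 * (1 / (2 * √s))) *
          (sp K (fun z => P.eval z) s + ε * N) +
        Real.exp (-(24480 * D ^ 2 * √s)) * avg K s (gen K P s)) -
        (108 * S * N * s ^ p + ε * c * N)) ht.1.le
      (by
        have := (continuousOn_sp hG hK (f := fun z => P.eval z) (by fun_prop)).mono
          (Icc_subset_Icc_right ht.2)
        fun_prop)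
      (fun s hs => by
        have b1 := (((Real.hasDerivAt_sqrt hs.1.ne').const_mul (24480 * D ^ 2)).neg.exp).mul
          ((hasDerivAt_sp hG hK P hs.1).add_const (ε * N))
        have b2 := (((hasDerivAt_pow (p + 1) s).const_mul (108 * S * N)).div_const (p + 1)).add
          ((hasDerivAt_id s).const_mul (ε * c * N))
        convert! b1.sub b2 using 1
        simp only [Pi.neg_apply, Nat.cast_add, Nat.cast_one, Nat.add_sub_cancel, mul_one]
        field_simp)
      (fun s hs => by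
        have b1 := a3 s ⟨hs.1, hs.2.le.trans ht.2⟩
        have hs0 := hs.1
        have b2 : Real.exp (-(24480 * D ^ 2 * √s)) ≤ 1 :=
          Real.exp_le_one_iff.2 (neg_nonpos.2 (by positivity))
        have b3 := Real.exp_pos (-(24480 * D ^ 2 * √s))
        set e := Real.exp (-(24480 * D ^ 2 * √s))
        have b4 : 0 ≤ 108 * S * N * s ^ p + ε * c * N := by positivity
        have b5 := mul_le_mul_of_nonneg_left b1 b3.le
        have b6 := mul_le_of_le_one_left b4 b2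
        have b7 : e * -(24480 * D ^ 2 * (1 / (2 * √s))) * (sp K (fun z => P.eval z) s + ε * N) =
            -(e * (12240 * D ^ 2 / √s * (sp K (fun z => P.eval z) s + ε * N))) := by ring
        rw [b7]
        linarith [mul_add e (12240 * D ^ 2 / √s * (sp K (fun z => P.eval z) s + ε * N))
          (108 * S * N * s ^ p + ε * c * N)])
    simp only [Real.sqrt_zero, mul_zero, neg_zero, Real.exp_zero, one_mul, pow_succ _ p,
      zero_div, add_zero, sub_zero] at a4
    rw [← pow_succ, Real.exp_neg, ← hE] at a4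
    have a5 : ε * c * N * t ≤ ε * c * N := mul_le_of_le_one_right (by positivity) ht.2
    have a6 : E⁻¹ * (sp K (fun z => P.eval z) t + ε * N) ≤
        (3 * Real.exp (-D) + 108 * S * t ^ (p + 1) / (p + 1)) * N + ε * ((2 + c) * N) := by
      have : 108 * S * N * t ^ (p + 1) / (p + 1) = 108 * S * t ^ (p + 1) / (p + 1) * N := by ring
      linarith
    rw [inv_mul_le_iff₀ hE0] at a6
    linarith [a1 t (Ioc_subset_Icc_self ht)]
  refine le_of_forall_pos_le_add fun δ hδ => ?_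
  have hX : 0 ≤ E * (2 + c) * N := by positivity
  refine (key (δ / (E * (2 + c) * N + 1)) (by positivity)).trans ?_
  gcongr
  rw [div_mul_eq_mul_div, div_le_iff₀ (by positivity)]
  nlinarith

theorem boot (hT : T3Stmt) (hG : GenStmt) (hK : IsBody K)
    (h0 : ∀ v : ι → ℝ, |v ⬝ᵥ cov K 0 0 *ᵥ v - v ⬝ᵥ v| ≤ (v ⬝ᵥ v) / 16) (p : ℕ)
    (hp : 1296 * Real.exp 24480 ≤ p + 1) {S : ℝ} (hS0 : 0 ≤ S)
    (hS : ∀ s ∈ Ioc (0 : ℝ) 1, sp K hh s ≤ S * sp K (fun _ => 1) 0 * s ^ (p + 1)) :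
    ∀ t ∈ Ioc (0 : ℝ) 1, sp K hh t ≤
      (18 * Real.exp 24480 * (4 * (p + 1)).factorial + S / 2) * sp K (fun _ => 1) 0 *
        t ^ (p + 1) := by
  intro t ht
  have ht0 := ht.1
  have h1 : 0 < √t := Real.sqrt_pos.2 ht0
  have h2 : 0 < √√t := Real.sqrt_pos.2 h1
  have hD : 1 ≤ (√√t)⁻¹ :=
    (one_le_inv₀ h2).2 (Real.sqrt_le_one.2 (Real.sqrt_le_one.2 ht.2))
  have hD2 : ((√√t)⁻¹) ^ 2 = (√t)⁻¹ := by rw [inv_pow, Real.sq_sqrt h1.le]
  have hD4 : ((√√t)⁻¹) ^ 4 = t⁻¹ := by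
    rw [show 4 = 2 * 2 by norm_num, pow_mul, hD2, inv_pow, Real.sq_sqrt ht0.le]
  have h3 := gronwall hT hG hK h0 p hS0 hS hD ht
  rw [hD2, mul_assoc, inv_mul_cancel₀ h1.ne', mul_one] at h3
  set D := (√√t)⁻¹
  have h4 : Real.exp (-D) ≤ (4 * (p + 1)).factorial * t ^ (p + 1) := by
    have := Real.pow_div_factorial_le_exp _ (by linarith : 0 ≤ D) (4 * (p + 1))
    rw [pow_mul, hD4] at this
    rw [Real.exp_neg, inv_le_comm₀ (Real.exp_pos _) (by positivity)]
    refine le_trans (le_of_eq ?_) this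
    rw [inv_pow]
    field_simp
  have h5 : sp K hh t ≤ 6 * sp K (g0 D) t := by
    rw [← sp_mul]
    exact sp_mono hG hK (by fun_prop) (by fun_prop) ht0.le fun θ i => hh_le_g0 (by linarith) _
  have hN0 : 0 ≤ sp K (fun _ => 1) 0 := hK.avg_nonneg _ fun _ => by positivity
  set N := sp K (fun _ => 1) 0
  have hE := Real.exp_pos 24480
  set E := Real.exp 24480
  have h6 : 6 * E * (108 / (p + 1)) ≤ 1 / 2 := by
    rw [← mul_div_assoc, div_le_iff₀ (by positivity)]
    linarith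
  calc sp K hh t ≤ 6 * (E * ((3 * ((4 * (p + 1)).factorial * t ^ (p + 1)) +
        108 * S * t ^ (p + 1) / (p + 1)) * N)) := by
        refine h5.trans ?_
        gcongr
        refine h3.trans ?_
        gcongr
    _ = (18 * E * (4 * (p + 1)).factorial + 6 * E * (108 / (p + 1)) * S) * N * t ^ (p + 1) := by
        ring
    _ ≤ (18 * E * (4 * (p + 1)).factorial + 1 / 2 * S) * N * t ^ (p + 1) := by gcongr
    _ = _ := by ring

theorem tail (hT : T3Stmt) (hG : GenStmt) : ∃ S₀ : ℝ, 0 ≤ S₀ ∧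
    ∀ (ι : Type) [Fintype ι] [DecidableEq ι] [Nonempty ι] (K : Set (ι → ℝ)), IsBody K →
      (∀ v : ι → ℝ, |v ⬝ᵥ cov K 0 0 *ᵥ v - v ⬝ᵥ v| ≤ (v ⬝ᵥ v) / 16) →
      ∀ s ∈ Ioc (0 : ℝ) 1, sp K hh s ≤ S₀ * sp K (fun _ => 1) 0 * s := by
  obtain ⟨p, hp⟩ := exists_nat_ge (1296 * Real.exp 24480)
  have hp' : 1296 * Real.exp 24480 ≤ p + 1 := by linarith
  set c : ℝ := 18 * Real.exp 24480 * (4 * (p + 1)).factorial with hc
  have hc0 : 0 ≤ c := by positivity
  refine ⟨2 * c + 1, by positivity, fun ι _ _ _ K hK h0 s hs => ?_⟩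
  obtain ⟨C, hC⟩ := crude hK h0 (p + 1)
  have hN := sp_one_pos hK
  set N := sp K (fun _ => 1) 0 with hNd
  have key : ∀ k : ℕ, ∀ s ∈ Ioc (0 : ℝ) 1,
      sp K hh s ≤ (2 * c + |C| / N / 2 ^ k) * N * s ^ (p + 1) := by
    intro k
    induction k with
    | zero =>
      intro s hs
      refine (hC s hs).trans ?_
      have := hs.1.le
      gcongr
      rw [pow_zero, div_one, add_mul, div_mul_cancel₀ _ hN.ne']
      have : 0 ≤ 2 * c * N := by positivity
      linarith [le_abs_self C]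
    | succ k ih =>
      intro s hs
      refine (boot hT hG hK h0 p hp' (by positivity) ih s hs).trans (le_of_eq ?_)
      rw [← hc, ← hNd]
      ring
  obtain ⟨k, hk⟩ := pow_unbounded_of_one_lt (|C| / N) (one_lt_two (α := ℝ))
  refine (key k s hs).trans ?_
  have := hs.1.le
  gcongr
  · rw [div_le_one (by positivity)]; exact hk.le
  · exact pow_le_of_le_one this hs.2 (Nat.succ_ne_zero p)

theorem gen_sq_le (hT : T3Stmt) (hK : IsBody K) {s : ℝ} (hs : s ∈ Ioc (0 : ℝ) 1) (θ : ι → ℝ) :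
    gen K ((X - C 1) ^ 2) s θ ≤ ∑ l, (300 / s * hh (lam K s θ l) + 2305 / √s) := by
  have e1 : ∀ z : ℝ, ((X - C 1 : ℝ[X]) ^ 2).derivative.eval z = 2 * (z - 1) := fun z => by
    simp [sq]; ring
  have e2 : ∀ z : ℝ, ((X - C 1 : ℝ[X]) ^ 2).derivative.derivative.eval z = 2 := fun z => by
    simp [sq]; ring
  have h1 := tensor_lam hT hK hs.1 θ (fun _ _ => 2) (fun _ => 2) (fun _ => by norm_num)
    (fun _ _ _ _ => le_rfl) (β := 2) (by norm_num) (fun _ _ _ => le_rfl) (fun _ _ _ => le_rfl)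
  have e3 : ∀ a b : ℝ, dd (fun _ => 2) a b = 2 := fun a b => by simp [dd]
  unfold gen
  simp only [e1, e2, e3]
  have hs0 := hs.1
  have hss : 0 < √s := Real.sqrt_pos.2 hs0
  have hs1 : √s ≤ 1 := Real.sqrt_le_one.2 hs.2
  have b1 : 1 ≤ 1 / √s := by rw [le_div_iff₀ hss]; linarith
  have b2 : 1 / √s ≤ 1 / s := by
    gcongr
    nlinarith [Real.mul_self_sqrt hs0.le]
  calc _ ≤ -(∑ i, lam K s θ i ^ 2 * (2 * (lam K s θ i - 1))) +
        1 / 2 * ∑ l, (288 / √s * (lam K s θ l * 2) + 12 * 2 / s * hh (lam K s θ l)) := by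
        gcongr
    _ ≤ _ := by
        rw [← Finset.sum_neg_distrib, Finset.mul_sum, ← Finset.sum_add_distrib]
        refine Finset.sum_le_sum fun i _ => ?_
        have a0 := hK.lam_nonneg s θ i
        have a1 := le_hh (lam K s θ i)
        have a2 := hh_nonneg (lam K s θ i)
        set z := lam K s θ i
        have a3 : -(z ^ 2 * (2 * (z - 1))) ≤ 1 := by
          nlinarith [mul_nonneg a0 (sq_nonneg (z - 1)), sq_nonneg (z - 1 / 2),
            mul_nonneg a0 (sq_nonneg (z - 2 / 3))]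
        have a4 : 1 / √s * z ≤ 1 / √s * (8 + hh z) := by gcongr
        have a5 : 1 / √s * hh z ≤ 1 / s * hh z := by gcongr
        calc _ = -(z ^ 2 * (2 * (z - 1))) + 288 * (1 / √s * z) + 12 * (1 / s * hh z) := by ring
          _ ≤ 1 / √s + 288 * (1 / √s * 8 + 1 / s * hh z) + 12 * (1 / s * hh z) := by
              linarith [mul_add (1 / √s) 8 (hh z)]
          _ = _ := by ring

end Guan

open Guan in
theorem guan (hT : T3Stmt) (hG : GenStmt) (_hI : ItoStmt) : GuanStmt := by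
  obtain ⟨S, hS0, hS⟩ := tail hT hG
  set M := 2305 + 300 * S with hM
  have hM1 : 1 ≤ M := by linarith
  have hτ : 0 < 1 / (512 * M) := by positivity
  have hτ1 : 1 / (512 * M) ≤ 1 := by rw [div_le_one (by positivity)]; linarith
  have ht1 : (1 / (512 * M)) ^ 2 ≤ 1 := pow_le_one₀ hτ.le hτ1
  refine ⟨(1 / (512 * M)) ^ 2, by positivity, ht1, fun ι _ _ K hK h0 => ?_⟩
  rcases isEmpty_or_nonempty ι with hι | hι
  · exact ⟨0, by simp [hs1]⟩
  have hsq : √((1 / (512 * M)) ^ 2) = 1 / (512 * M) := Real.sqrt_sq hτ.le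
  set t := (1 / (512 * M)) ^ 2 with ht
  have ht0 : 0 < t := by positivity
  have hN := sp_one_pos hK
  set N := sp K (fun _ => 1) 0 with hNd
  have a1 := le_of_deriv (t := t)
    (f := fun s => sp K (fun z => ((X - C 1 : ℝ[X]) ^ 2).eval z) s - 2 * M * N * √s)
    (f' := fun s => avg K s (gen K ((X - C 1) ^ 2) s) - 2 * M * N * (1 / (2 * √s))) ht0.le
    (by
      have := (continuousOn_sp hG hK (f := fun z => ((X - C 1 : ℝ[X]) ^ 2).eval z)
        (by fun_prop)).mono (Icc_subset_Icc_right ht1)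
      fun_prop)
    (fun s hs => (hasDerivAt_sp hG hK _ hs.1).sub
      ((Real.hasDerivAt_sqrt hs.1.ne').const_mul (2 * M * N)))
    (fun s hs => by
      have hs' : s ∈ Ioc (0 : ℝ) 1 := ⟨hs.1, hs.2.le.trans ht1⟩
      have b1 := avg_gen_le hG hK _ (F := fun z => 300 / s * hh z + 2305 / √s) (by fun_prop)
        hs.1 (gen_sq_le hT hK hs')
      rw [sp_add hG hK (by fun_prop) continuous_const hs.1.le, sp_mul, sp_const,
        sp_one hG hK (Ioc_subset_Icc_self hs'), ← hNd] at b1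
      have hs0 := hs.1
      have hss : 0 < √s := Real.sqrt_pos.2 hs0
      have b2 : 1 ≤ 1 / √s := by
        rw [le_div_iff₀ hss]; linarith [Real.sqrt_le_one.2 hs'.2]
      have b3 : 300 / s * sp K hh s ≤ 300 * S * N * (1 / √s) := by
        calc 300 / s * sp K hh s ≤ 300 / s * (S * N * s) := by
              gcongr
              exact hS ι K hK h0 s hs'
          _ = 300 * S * N * 1 := by field_simp
          _ ≤ _ := by gcongr
      have b4 : 2 * M * N * (1 / (2 * √s)) = 300 * S * N * (1 / √s) + 2305 / √s * N := by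
        rw [hM]; ring
      linarith)
  have a2 : sp K (fun z => ((X - C 1 : ℝ[X]) ^ 2).eval z) 0 ≤ 1 / 256 * N := by
    refine sp_zero_le hK fun i => ?_
    have := h0 (evec K 0 0 i)
    rw [← lam_eq, evec_dot, if_pos rfl] at this
    have h2 := pow_le_pow_left₀ (abs_nonneg _) this 2
    rw [sq_abs] at h2
    simp only [eval_pow, eval_sub, eval_X, eval_C]
    linarith
  by_contra hn
  push Not at hn
  have a3 : 1 / 64 * N ≤ sp K (fun z => ((X - C 1 : ℝ[X]) ^ 2).eval z) t := by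
    rw [hNd, ← sp_one hG hK ⟨ht0.le, ht1⟩, ← sp_const]
    obtain ⟨B, hB⟩ := spec_bound hK (f := fun z => ((X - C 1 : ℝ[X]) ^ 2).eval z) (by fun_prop)
    refine hK.avg_mono ht0.le continuous_const
      (spec_cont hG hK (f := fun z => ((X - C 1 : ℝ[X]) ^ 2).eval z) (by fun_prop) t)
      (B := |∑ _i : ι, (1 / 64 : ℝ)|) (fun _ => le_rfl) (hB t) fun θ => ?_
    have := (hn θ).le
    rw [hs1_cov] at this
    simp only [eval_pow, eval_sub, eval_X, eval_C, Finset.sum_const, Finset.card_univ,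
      nsmul_eq_mul]
    linarith
  simp only [Real.sqrt_zero, mul_zero, sub_zero, hsq] at a1
  have a4 : 2 * M * N * (1 / (512 * M)) = 1 / 256 * N := by field_simp; norm_num
  linarith

end Pool.Agent.P.MP_d05bff_gt
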