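import Pool.Agent.P.MP_d05bff_gt.TopoIface

/-!
First singular homology surjects onto the abelianised fundamental group.
-/

namespace Pool.Agent.P.MP_d05bff_gt

open CategoryTheory Limits Simplicial

universe u

namespace Hurewicz

variable {X : Type u} [TopologicalSpace X] [PathConnectedSpace X] (x : X)

/-- The class of a path closed up by the chosen paths from the base point. -/
noncomputable def kap {y z : X} (q : Path.Homotopic.Quotient y z) :
    Additive (Abelianization (FundamentalGroup X x)) :=
  Additive.ofMul (Abelianization.of (FundamentalGroup.fromPath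
    ((Path.Homotopic.Quotient.mk (PathConnectedSpace.somePath x y)).trans
      (q.trans (Path.Homotopic.Quotient.mk (PathConnectedSpace.somePath x z)).symm))))

omit [PathConnectedSpace X] in
theorem of_trans (p q : Path.Homotopic.Quotient x x) :
    Abelianization.of (FundamentalGroup.fromPath (p.trans q)) =
      Abelianization.of (FundamentalGroup.fromPath p) *
        Abelianization.of (FundamentalGroup.fromPath q) := by
  rw [mul_comm, ← map_mul]
  rfl

theorem kap_trans {y z w : X} (q : Path.Homotopic.Quotient y z)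
    (q' : Path.Homotopic.Quotient z w) : kap x (q.trans q') = kap x q + kap x q' := by
  unfold kap
  rw [← ofMul_mul, ← of_trans]
  congr 3
  rw [Path.Homotopic.Quotient.trans_assoc, Path.Homotopic.Quotient.trans_assoc, Path.Homotopic.Quotient.trans_assoc,
    ← Path.Homotopic.Quotient.trans_assoc (Path.Homotopic.Quotient.symm _), Path.Homotopic.Quotient.symm_trans, Path.Homotopic.Quotient.refl_trans]

theorem kap_loop (q : Path.Homotopic.Quotient x x) :
    kap x q = Additive.ofMul (Abelianization.of (FundamentalGroup.fromPath q)) := by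
  unfold kap
  rw [of_trans, of_trans, mul_left_comm, ← of_trans, Path.Homotopic.Quotient.trans_symm]
  congr 1
  exact (congrArg _ (map_one Abelianization.of)).trans (mul_one _)

/-- The class attached to a parametrised curve. -/
noncomputable def kf (f : C(unitInterval, X)) : Additive (Abelianization (FundamentalGroup X x)) :=
  kap x (Path.Homotopic.Quotient.mk (⟨f, rfl, rfl⟩ : Path (f 0) (f 1)))

theorem kf_path {y z : X} (γ : Path y z) : kf x γ.toContinuousMap = kap x (Path.Homotopic.Quotient.mk γ) := by
  obtain ⟨f, rfl, rfl⟩ := γ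
  rfl

theorem tri {Y : Type} [TopologicalSpace Y] [SimplyConnectedSpace Y] (T : C(Y, X)) {a b c : Y}
    (p : Path b c) (q : Path a c) (r : Path a b) :
    kf x (T.comp p.toContinuousMap) - kf x (T.comp q.toContinuousMap) +
      kf x (T.comp r.toContinuousMap) = 0 := by
  have e : ∀ {a b : Y} (p : Path a b), kf x (T.comp p.toContinuousMap) =
      kap x (Path.Homotopic.Quotient.mk (p.map T.continuous)) := fun p => kf_path x (p.map T.continuous)
  have h : Path.Homotopic.Quotient.mk (q.map T.continuous) = Path.Homotopic.Quotient.mk ((r.trans p).map T.continuous) :=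
    Path.Homotopic.Quotient.eq.2 ((SimplyConnectedSpace.paths_homotopic q (r.trans p)).map T)
  rw [e, e, e, h, Path.map_trans, Path.Homotopic.Quotient.mk_trans, kap_trans]
  abel

/-- The parametrisation of the one dimensional simplex. -/
noncomputable def par : C(unitInterval, stdSimplex ℝ (Fin 2)) :=
  ⟨stdSimplexHomeomorphUnitInterval.symm, stdSimplexHomeomorphUnitInterval.symm.continuous⟩

theorem par_zero : par 0 = stdSimplex.vertex 0 :=
  stdSimplexHomeomorphUnitInterval.symm_apply_eq.2 rfl

theorem par_one : par 1 = stdSimplex.vertex 1 :=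
  stdSimplexHomeomorphUnitInterval.symm_apply_eq.2 rfl

/-- An edge of the two dimensional simplex. -/
noncomputable def edge (i a b : Fin 3) (ha : i.succAbove 0 = a) (hb : i.succAbove 1 = b) :
    Path (stdSimplex.vertex a : stdSimplex ℝ (Fin 3)) (stdSimplex.vertex b) where
  toFun s := stdSimplex.map i.succAbove (par s)
  continuous_toFun := (stdSimplex.continuous_map _).comp par.continuous
  source' := by rw [par_zero, stdSimplex.map_vertex, ha]
  target' := by rw [par_one, stdSimplex.map_vertex, hb]

/-- The class attached to a singular simplex of dimension one. -/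
noncomputable def ks (s : TopCat.toSSet.obj (TopCat.of X) _⦋1⦌) :
    Additive (Abelianization (FundamentalGroup X x)) :=
  kf x ((TopCat.toSSetObjEquiv (TopCat.of X) _ s).comp par)

theorem ks_tri (t : TopCat.toSSet.obj (TopCat.of X) _⦋2⦌) :
    ks x ((TopCat.toSSet.obj (TopCat.of X)).δ 0 t) - ks x ((TopCat.toSSet.obj (TopCat.of X)).δ 1 t) +
      ks x ((TopCat.toSSet.obj (TopCat.of X)).δ 2 t) = 0 := by
  have : ContractibleSpace (stdSimplex ℝ (Fin 3)) :=
    (convex_stdSimplex ℝ (Fin 3)).contractibleSpace ⟨_, single_mem_stdSimplex ℝ 0⟩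
  exact tri x (Y := stdSimplex ℝ (Fin 3)) (TopCat.toSSetObjEquiv (TopCat.of X) _ t)
    (edge 0 1 2 rfl rfl) (edge 1 0 2 rfl rfl) (edge 2 0 1 rfl rfl)

/-- The homomorphism from the integers sending one to a given element. -/
noncomputable def zh {A : Type u} [AddCommGroup A] (a : A) :
    AddCommGrpCat.of (ULift.{u} ℤ) ⟶ AddCommGrpCat.of A :=
  AddCommGrpCat.ofHom
    { toFun := fun n => n.down • a
      map_zero' := zero_zsmul a
      map_add' := fun m n => add_zsmul a m.down n.down }

theorem zh_tri {A : Type u} [AddCommGroup A] (a b c : A) (h : a - b + c = 0) :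
    (-1 : ℤ) ^ 0 • zh a + (-1 : ℤ) ^ 1 • zh b + (-1 : ℤ) ^ 2 • zh c = 0 := by
  rw [pow_zero, one_smul, pow_one, neg_one_smul, neg_one_sq, one_smul]
  ext n
  change n.down • a + -(n.down • b) + n.down • c = 0
  rw [← sub_eq_add_neg, ← smul_sub, ← smul_add, h, smul_zero]

/-- The map on singular chains of dimension one. -/
noncomputable def psi :
    ((TopCat.toSSet.obj (TopCat.of X)).chainComplex (AddCommGrpCat.of (ULift.{u} ℤ))).X 1 ⟶
      AddCommGrpCat.of (Additive (Abelianization (FundamentalGroup X x))) :=
  Sigma.desc fun s => zh (ks x s)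

theorem ι_psi (s : TopCat.toSSet.obj (TopCat.of X) _⦋1⦌) :
    (TopCat.toSSet.obj (TopCat.of X)).ιChainComplex s ≫ psi x = zh (ks x s) :=
  Sigma.ι_desc _ _

theorem d_psi : ((TopCat.toSSet.obj (TopCat.of X)).chainComplex
    (AddCommGrpCat.of (ULift.{u} ℤ))).d 2 1 ≫ psi x = 0 := by
  refine SSet.chainComplex_hom_ext fun t => ?_
  rw [← Category.assoc, SSet.ιChainComplex_d, comp_zero, Fin.sum_univ_three,
    Preadditive.add_comp, Preadditive.add_comp, Preadditive.zsmul_comp, Preadditive.zsmul_comp,
    Preadditive.zsmul_comp, ι_psi, ι_psi, ι_psi]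
  have h := ks_tri x t
  exact zh_tri _ _ _ h

end Hurewicz

open Hurewicz in
theorem hurewicz : HurewiczStmt.{u} := by
  intro X _ _ x
  let S := TopCat.toSSet.obj (TopCat.of X)
  let K := S.chainComplex (AddCommGrpCat.of (ULift.{u} ℤ))
  let F := K.homologyι 1 ≫ K.descOpcycles (psi x) 2 (by simp) (d_psi x)
  refine ⟨F.hom, fun a => ?_⟩
  obtain ⟨g, rfl⟩ : ∃ g : FundamentalGroup X x, Additive.ofMul (Abelianization.of g) = a :=
    QuotientGroup.mk_surjective (Additive.toMul a)
  obtain ⟨γ, rfl⟩ := Path.Homotopic.Quotient.mk_surjective (FundamentalGroup.toPath g)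
  let s : S _⦋1⦌ := (TopCat.toSSetObjEquiv (TopCat.of X) _).symm
    (γ.toContinuousMap.comp ⟨stdSimplexHomeomorphUnitInterval,
      stdSimplexHomeomorphUnitInterval.continuous⟩)
  have hs : ks x s = Additive.ofMul (Abelianization.of
      (FundamentalGroup.fromPath (Path.Homotopic.Quotient.mk γ))) := by
    rw [← kap_loop, ← kf_path, ks, Equiv.apply_symm_apply]
    congr 1
  have hδ : S.δ 0 s = S.δ 1 s := by
    apply TopCat.toSSetObj₀Equiv.injective
    have e : ∀ i : Fin 2, TopCat.toSSetObj₀Equiv (S.δ i s) =
        γ (stdSimplexHomeomorphUnitInterval (stdSimplex.map i.succAbove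
          (default : stdSimplex ℝ (Fin 1)))) := fun i => rfl
    rw [e, e, Subsingleton.elim (default : stdSimplex ℝ (Fin 1)) (stdSimplex.vertex 0),
      stdSimplex.map_vertex, stdSimplex.map_vertex]
    exact γ.target.trans γ.source.symm
  have hd : S.ιChainComplex s ≫ K.d 1 0 = 0 := by
    rw [SSet.ιChainComplex_d, Fin.sum_univ_two, hδ]
    simp
  have key : K.liftCycles (S.ιChainComplex s) 0 (by simp) hd ≫ K.homologyπ 1 ≫ F =
      zh (ks x s) := by
    rw [HomologicalComplex.homology_π_ι_assoc, HomologicalComplex.p_descOpcycles,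
      HomologicalComplex.liftCycles_i_assoc, ι_psi]
  refine ⟨(K.liftCycles (S.ιChainComplex s) 0 (by simp) hd ≫ K.homologyπ 1).hom ⟨1⟩, ?_⟩
  have h2 := congrArg (fun φ => φ.hom ⟨1⟩) key
  exact h2.trans ((one_zsmul _).trans hs)

end Pool.Agent.P.MP_d05bff_gt
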