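import Pool.Agent.P.MP_d05bff_gt.Basic

/-!
The Ito formula for functions of tilted expectations, through the backward heat equation.
-/

namespace Pool.Agent.P.MP_d05bff_gt

open MeasureTheory Matrix Set Filter Topology

namespace Ito

variable {ι : Type} [Fintype ι] [DecidableEq ι]

/-- Continuous functions of exponential growth for nonnegative times. -/
def Gr (R : ℝ) (U : ℝ × (ι → ℝ) → ℝ) : Prop :=
  Continuous U ∧ ∃ B : ℝ, ∀ s θ, 0 ≤ s → |U (s, θ)| ≤ B * Real.exp (R * ∑ i, |θ i|)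

omit [DecidableEq ι] in
theorem intg {h : (ι → ℝ) → ℝ} (hc : Continuous h) {B c : ℝ}
    (hB : ∀ w, |h w| ≤ B * Real.exp (c * ∑ i, |w i|)) :
    Integrable (fun w : ι → ℝ => h w * Real.exp (-(w ⬝ᵥ w) / 2)) := by
  refine ((integrable_exp_abs_gauss c).const_mul B).mono' (by fun_prop) (ae_of_all _ fun w => ?_)
  rw [Real.norm_eq_abs, abs_mul, abs_of_pos (Real.exp_pos _), ← mul_assoc]
  exact mul_le_mul_of_nonneg_right (hB w) (Real.exp_pos _).le

omit [DecidableEq ι] in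
theorem Gr.bound {R : ℝ} (hR : 0 ≤ R) {U : ℝ × (ι → ℝ) → ℝ} (hU : Gr R U) (T : ℝ) :
    ∃ B : ℝ, 0 ≤ B ∧ ∀ (s : ℝ) (w : ι → ℝ), 0 ≤ s → s ≤ T →
      |U (s, √s • w)| ≤ B * Real.exp (R * √T * ∑ i, |w i|) := by
  obtain ⟨B, hB⟩ := hU.2
  have hB0 : 0 ≤ B := by
    have := (abs_nonneg _).trans (hB 0 0 le_rfl)
    exact nonneg_of_mul_nonneg_left this (Real.exp_pos _)
  refine ⟨B, hB0, fun s w h0 hT => (hB s _ h0).trans ?_⟩
  refine mul_le_mul_of_nonneg_left (Real.exp_le_exp.2 ?_) hB0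
  rw [mul_assoc]
  refine mul_le_mul_of_nonneg_left ?_ hR
  rw [Finset.mul_sum]
  refine Finset.sum_le_sum fun i _ => ?_
  rw [Pi.smul_apply, smul_eq_mul, abs_mul, abs_of_nonneg (Real.sqrt_nonneg s)]
  exact mul_le_mul_of_nonneg_right (Real.sqrt_le_sqrt hT) (abs_nonneg _)

omit [DecidableEq ι] in
theorem abs_le_exp (w : ι → ℝ) (k : ι) : |w k| ≤ Real.exp (∑ i, |w i|) := by
  have h1 : |w k| ≤ ∑ i, |w i| :=
    Finset.single_le_sum (f := fun i => |w i|) (fun i _ => abs_nonneg _) (Finset.mem_univ k)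
  have h2 := Real.add_one_le_exp (∑ i, |w i|)
  linarith

omit [DecidableEq ι] in
theorem Gr.intg {R : ℝ} (hR : 0 ≤ R) {U : ℝ × (ι → ℝ) → ℝ} (hU : Gr R U) {t : ℝ} (ht : 0 ≤ t) :
    Integrable (fun w : ι → ℝ => U (t, √t • w) * Real.exp (-(w ⬝ᵥ w) / 2)) := by
  obtain ⟨B, -, hB⟩ := hU.bound hR t
  exact Ito.intg (hU.1.comp (by fun_prop)) fun w => hB t w ht le_rfl

omit [DecidableEq ι] in
theorem Gr.intg_mul {R : ℝ} (hR : 0 ≤ R) {U : ℝ × (ι → ℝ) → ℝ} (hU : Gr R U) {t : ℝ}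
    (ht : 0 ≤ t) (k : ι) :
    Integrable (fun w : ι → ℝ => U (t, √t • w) * w k * Real.exp (-(w ⬝ᵥ w) / 2)) := by
  obtain ⟨B, hB0, hB⟩ := hU.bound hR t
  have hc := hU.1
  refine Ito.intg (h := fun w => U (t, √t • w) * w k) (by fun_prop) (B := B) (c := R * √t + 1)
    fun w => ?_
  rw [abs_mul, add_mul, one_mul, Real.exp_add, ← mul_assoc]
  exact mul_le_mul (hB t w ht le_rfl) (abs_le_exp w k) (abs_nonneg _) (by positivity)

theorem lineDeriv_gauss (w : ι → ℝ) (k : ι) :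
    HasLineDerivAt ℝ (fun w : ι → ℝ => Real.exp (-(w ⬝ᵥ w) / 2))
      (-(w k * Real.exp (-(w ⬝ᵥ w) / 2))) w (Pi.single k 1) := by
  unfold HasLineDerivAt
  have e : (fun s : ℝ => Real.exp (-((w + s • (Pi.single k 1 : ι → ℝ)) ⬝ᵥ
      (w + s • (Pi.single k 1 : ι → ℝ))) / 2)) =
      fun s : ℝ => Real.exp (-(w ⬝ᵥ w) / 2 - s * w k - s ^ 2 / 2) := by
    funext s
    congr 1
    simp only [add_dotProduct, dotProduct_add, dotProduct_smul, smul_dotProduct, smul_eq_mul,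
      dotProduct_single, single_dotProduct, Pi.single_eq_same, Pi.add_apply, Pi.smul_apply]
    ring
  rw [e]
  have h : HasDerivAt (fun s : ℝ => -(w ⬝ᵥ w) / 2 - s * w k - s ^ 2 / 2) (-w k) 0 := by
    have := (((hasDerivAt_id (0 : ℝ)).mul_const (w k)).const_sub (-(w ⬝ᵥ w) / 2)).sub
      ((hasDerivAt_pow 2 (0 : ℝ)).div_const 2)
    exact this.congr_deriv (by simp)
  refine h.exp.congr_deriv ?_
  simp
  ring

/-- Gaussian integration by parts. -/
theorem gauss_ibp {R : ℝ} (hR : 0 ≤ R) {V V' : ℝ × (ι → ℝ) → ℝ} (hV : Gr R V) (hV' : Gr R V')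
    {t : ℝ} (ht : 0 ≤ t) (k : ι)
    (hd : ∀ θ : ι → ℝ, HasDerivAt (fun s : ℝ => V (t, θ + s • (Pi.single k 1 : ι → ℝ)))
      (V' (t, θ)) 0) :
    ∫ w : ι → ℝ, V (t, √t • w) * w k * Real.exp (-(w ⬝ᵥ w) / 2) =
      √t * ∫ w : ι → ℝ, V' (t, √t • w) * Real.exp (-(w ⬝ᵥ w) / 2) := by
  have key := integral_bilinear_hasLineDerivAt_right_eq_neg_left_of_integrable
    (μ := (volume : Measure (ι → ℝ))) (B := ContinuousLinearMap.mul ℝ ℝ)
    (f := fun w : ι → ℝ => V (t, √t • w)) (f' := fun w : ι → ℝ => √t * V' (t, √t • w))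
    (g := fun w : ι → ℝ => Real.exp (-(w ⬝ᵥ w) / 2))
    (g' := fun w : ι → ℝ => -(w k * Real.exp (-(w ⬝ᵥ w) / 2))) (v := Pi.single k 1)
    (by simpa [mul_assoc] using (hV'.intg hR ht).const_mul √t)
    (by simpa [mul_assoc] using (hV.intg_mul hR ht k).neg)
    (by simpa using hV.intg hR ht)
    (fun w _ => by
      unfold HasLineDerivAt
      have h1 : HasDerivAt (fun s : ℝ => √t * s) √t 0 := by
        simpa using (hasDerivAt_id (0 : ℝ)).const_mul √t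
      have h2 := HasDerivAt.comp_of_eq (0 : ℝ) (hd (√t • w)) h1 (by simp)
      convert! h2 using 1
      · funext s
        simp only [Function.comp, smul_add, smul_smul]
      · ring)
    (fun w _ => lineDeriv_gauss w k)
  simp only [ContinuousLinearMap.mul_apply', mul_neg, integral_neg, neg_inj, mul_assoc] at key ⊢
  rw [key, integral_const_mul]

/-- Derivative of Gaussian averages. -/
theorem heat {R : ℝ} (hR : 0 ≤ R) {U Ut : ℝ × (ι → ℝ) → ℝ} {Uk Ukk : ι → ℝ × (ι → ℝ) → ℝ}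
    (hU : Gr R U) (hUt : Gr R Ut) (hUk : ∀ k, Gr R (Uk k)) (hUkk : ∀ k, Gr R (Ukk k))
    (hd : Differentiable ℝ U) (h1 : ∀ p, fderiv ℝ U p (1, 0) = Ut p)
    (h2 : ∀ p k, fderiv ℝ U p (0, Pi.single k 1) = Uk k p)
    (h3 : ∀ t θ k, HasDerivAt (fun s : ℝ => Uk k (t, θ + s • (Pi.single k 1 : ι → ℝ)))
      (Ukk k (t, θ)) 0) {t : ℝ} (ht : 0 < t) :
    HasDerivAt (fun s : ℝ => ∫ w : ι → ℝ, U (s, √s • w) * Real.exp (-(w ⬝ᵥ w) / 2))
      (∫ w : ι → ℝ, (Ut (t, √t • w) + 1 / 2 * ∑ k, Ukk k (t, √t • w)) *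
        Real.exp (-(w ⬝ᵥ w) / 2)) t := by
  obtain ⟨B, hB0, hB⟩ := hUt.bound hR (2 * t)
  choose C hC0 hC using fun k => (hUk k).bound hR (2 * t)
  have hst : 0 < √(t / 2) := Real.sqrt_pos.2 (by positivity)
  have hmain := hasDerivAt_integral_of_dominated_loc_of_deriv_le (μ := (volume : Measure (ι → ℝ)))
    (F := fun (s : ℝ) (w : ι → ℝ) => U (s, √s • w) * Real.exp (-(w ⬝ᵥ w) / 2))
    (F' := fun (s : ℝ) (w : ι → ℝ) => (Ut (s, √s • w) +
      ∑ k, 1 / (2 * √s) * (Uk k (s, √s • w) * w k)) * Real.exp (-(w ⬝ᵥ w) / 2))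
    (bound := fun w => (B + ∑ k, 1 / (2 * √(t / 2)) * C k) *
      (Real.exp ((R * √(2 * t) + 1) * ∑ i, |w i|) * Real.exp (-(w ⬝ᵥ w) / 2)))
    (x₀ := t) (s := Ioo (t / 2) (2 * t)) (Ioo_mem_nhds (by linarith) (by linarith))
    (Eventually.of_forall fun s => by
      have := hU.1
      exact Continuous.aestronglyMeasurable (by fun_prop))
    (hU.intg hR ht.le)
    (by
      have a1 := hUt.1
      have a2 := fun k => (hUk k).1
      exact Continuous.aestronglyMeasurable (by fun_prop))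
    (ae_of_all _ fun w s hs => by
      have hs0 : 0 ≤ s := by linarith [hs.1]
      rw [Real.norm_eq_abs, abs_mul, abs_of_pos (Real.exp_pos _), ← mul_assoc]
      refine mul_le_mul_of_nonneg_right ?_ (Real.exp_pos _).le
      rw [add_mul (R * √(2 * t)), one_mul, Real.exp_add, add_mul, Finset.sum_mul]
      have hE : 1 ≤ Real.exp (∑ i, |w i|) :=
        Real.one_le_exp (Finset.sum_nonneg fun i _ => abs_nonneg _)
      refine (abs_add_le _ _).trans (add_le_add ?_ ?_)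
      · refine (hB s w hs0 hs.2.le).trans ?_
        rw [← mul_assoc]
        exact le_mul_of_one_le_right (by positivity) hE
      · refine (Finset.abs_sum_le_sum_abs _ _).trans (Finset.sum_le_sum fun k _ => ?_)
        have hss : √(t / 2) ≤ √s := Real.sqrt_le_sqrt hs.1.le
        have hC0k := hC0 k
        rw [abs_mul, abs_mul, abs_of_nonneg (by positivity : 0 ≤ 1 / (2 * √s)), mul_assoc,
          ← mul_assoc (C k)]
        refine mul_le_mul (by gcongr) ?_ (by positivity) (by positivity)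
        exact mul_le_mul (hC k s w hs0 hs.2.le) (abs_le_exp w k) (abs_nonneg _) (by positivity))
    ((integrable_exp_abs_gauss _).const_mul _)
    (ae_of_all _ fun w s hs => by
      have hs0 : 0 < s := by linarith [hs.1]
      refine HasDerivAt.mul_const ?_ _
      have hl : HasDerivAt (fun s : ℝ => ((s, √s • w) : ℝ × (ι → ℝ)))
          (1, (1 / (2 * √s)) • w) s :=
        (hasDerivAt_id s).prodMk ((Real.hasDerivAt_sqrt hs0.ne').smul_const w)
      have h := (hd (s, √s • w)).hasFDerivAt.comp_hasDerivAt s hl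
      refine h.congr_deriv (Eq.symm ?_)
      have e : ((1, (1 / (2 * √s)) • w) : ℝ × (ι → ℝ)) =
          (1, 0) + ∑ k, (1 / (2 * √s) * w k) • ((0, Pi.single k 1) : ℝ × (ι → ℝ)) := by
        ext i
        · simp [Prod.fst_sum]
        · simp [Prod.snd_sum, Finset.sum_apply, Pi.single_apply]
      rw [e, map_add, map_sum, h1]
      congr 1
      refine Finset.sum_congr rfl fun k _ => ?_
      rw [map_smul, h2, smul_eq_mul]
      ring)
  refine hmain.2.congr_deriv (Eq.symm ?_)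
  have hs : √t ≠ 0 := (Real.sqrt_pos.2 ht).ne'
  have i1 := hUt.intg hR ht.le
  have i2 := fun k => (hUk k).intg_mul hR ht.le k
  have i3 := fun k => (hUkk k).intg hR ht.le
  simp only [add_mul, Finset.sum_mul, Finset.mul_sum, mul_assoc] at i2 ⊢
  rw [integral_add i1 (integrable_finsetSum _ fun k _ => (i3 k).const_mul _),
    integral_add i1 (integrable_finsetSum _ fun k _ => (i2 k).const_mul _),
    integral_finsetSum _ fun k _ => (i3 k).const_mul _,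
    integral_finsetSum _ fun k _ => (i2 k).const_mul _]
  congr 1
  refine Finset.sum_congr rfl fun k _ => ?_
  have := gauss_ibp hR (hUk k) (hUkk k) ht.le k fun θ => h3 t θ k
  simp only [mul_assoc] at this
  rw [integral_const_mul, integral_const_mul, this]
  field_simp

section Bd

variable {X : Type} [TopologicalSpace X] {E F : Type} [NormedAddCommGroup E]
  [NormedAddCommGroup F]

/-- Bounded continuous maps. -/
def Bd (g : X → E) : Prop := Continuous g ∧ ∃ B : ℝ, ∀ p, ‖g p‖ ≤ B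

theorem Bd.comp [ProperSpace E] {g : X → E} (hg : Bd g) {G : E → F} (hG : Continuous G) :
    Bd (fun p => G (g p)) := by
  obtain ⟨hc, B, hB⟩ := hg
  obtain ⟨C, hC⟩ := (isCompact_closedBall (0 : E) B).exists_bound_of_continuousOn hG.continuousOn
  exact ⟨hG.comp hc, C, fun p => hC _ (by simpa using hB p)⟩

theorem Bd.add {f g : X → E} (hf : Bd f) (hg : Bd g) : Bd (fun p => f p + g p) := by
  obtain ⟨hc, B, hB⟩ := hf
  obtain ⟨hc', B', hB'⟩ := hg
  exact ⟨hc.add hc', B + B', fun p => (norm_add_le _ _).trans (add_le_add (hB p) (hB' p))⟩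

theorem Bd.sub {f g : X → E} (hf : Bd f) (hg : Bd g) : Bd (fun p => f p - g p) := by
  obtain ⟨hc, B, hB⟩ := hf
  obtain ⟨hc', B', hB'⟩ := hg
  exact ⟨hc.sub hc', B + B', fun p => (norm_sub_le _ _).trans (add_le_add (hB p) (hB' p))⟩

theorem Bd.mul {f g : X → ℝ} (hf : Bd f) (hg : Bd g) : Bd (fun p => f p * g p) := by
  obtain ⟨hc, B, hB⟩ := hf
  obtain ⟨hc', B', hB'⟩ := hg
  refine ⟨hc.mul hc', B * B', fun p => ?_⟩
  rw [norm_mul]
  exact mul_le_mul (hB p) (hB' p) (norm_nonneg _) ((norm_nonneg _).trans (hB p))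

theorem Bd.app [NormedSpace ℝ E] [NormedSpace ℝ F] {f : X → E →L[ℝ] F} {g : X → E} (hf : Bd f)
    (hg : Bd g) : Bd (fun p => f p (g p)) := by
  obtain ⟨hc, B, hB⟩ := hf
  obtain ⟨hc', B', hB'⟩ := hg
  refine ⟨hc.clm_apply hc', B * B', fun p => ((f p).le_opNorm _).trans ?_⟩
  exact mul_le_mul (hB p) (hB' p) (norm_nonneg _) ((norm_nonneg _).trans (hB p))

theorem Bd.pi {J : Type} [Fintype J] {g : X → J → ℝ} (hg : ∀ j, Bd (fun p => g p j)) : Bd g := by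
  choose B hB using fun j => (hg j).2
  refine ⟨continuous_pi fun j => (hg j).1, ∑ j, |B j|, fun p => ?_⟩
  refine (pi_norm_le_iff_of_nonneg (Finset.sum_nonneg fun j _ => abs_nonneg _)).2 fun j => ?_
  exact ((hB j p).trans (le_abs_self _)).trans
    (Finset.single_le_sum (f := fun j => |B j|) (fun i _ => abs_nonneg _) (Finset.mem_univ j))

end Bd

variable {K : Set (ι → ℝ)} {J : Type} [Fintype J] {φ : (ι → ℝ) → J → ℝ} {Ψ : (J → ℝ) → ℝ}

omit [DecidableEq ι] in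
theorem bd_Ex (hK : IsBody K) {f : (ι → ℝ) → ℝ} (hf : Continuous f) :
    Bd (fun p : ℝ × (ι → ℝ) => Ex K p.1 p.2 f) := by
  obtain ⟨B, -, hB⟩ := hK.exists_bound_Ex hf
  exact ⟨hK.continuous_Ex hf, B, fun p => hB _ _⟩

omit [DecidableEq ι] in
theorem gr_mul (hK : IsBody K) {R : ℝ} (hR : ∀ x ∈ K, ‖x‖ ≤ R) {g : ℝ × (ι → ℝ) → ℝ}
    (hg : Bd g) : Gr R (fun p => Zf K p.1 p.2 * g p) := by
  obtain ⟨hc, B, hB⟩ := hg
  refine ⟨hK.continuous_Zf.mul hc, B * (volume K).toReal, fun s θ hs => ?_⟩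
  rw [abs_mul, abs_of_pos (hK.Zf_pos _ _), mul_comm, mul_assoc]
  exact mul_le_mul (hB (s, θ)) (hK.Zf_le hR hs θ) (hK.Zf_pos _ _).le
    ((norm_nonneg _).trans (hB (s, θ)))

/-- Covariance of `φ` with a function `l`. -/
noncomputable def Cl (K : Set (ι → ℝ)) (φ : (ι → ℝ) → J → ℝ) (l : (ι → ℝ) → ℝ) (t : ℝ)
    (θ : ι → ℝ) : J → ℝ :=
  fun j => Ex K t θ (fun x => φ x j * l x) - Ex K t θ (fun x => φ x j) * Ex K t θ l

omit [DecidableEq ι] in
theorem bd_Mv (hK : IsBody K) (hφ : Continuous φ) :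
    Bd (fun p : ℝ × (ι → ℝ) => Mv K φ p.1 p.2) :=
  Bd.pi fun j => bd_Ex hK (by fun_prop)

omit [DecidableEq ι] in
theorem bd_Cl (hK : IsBody K) (hφ : Continuous φ) {l : (ι → ℝ) → ℝ} (hl : Continuous l) :
    Bd (fun p : ℝ × (ι → ℝ) => Cl K φ l p.1 p.2) :=
  Bd.pi fun j => (bd_Ex hK (by fun_prop)).sub ((bd_Ex hK (by fun_prop)).mul (bd_Ex hK hl))

omit [DecidableEq ι] [Fintype J] in
theorem hasDerivAt_Mv (hK : IsBody K) (hφ : Continuous φ) (t τ : ℝ) (θ v : ι → ℝ) :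
    HasDerivAt (fun s : ℝ => Mv K φ (t + s * τ) (θ + s • v))
      (Cl K φ (fun x => v ⬝ᵥ x - τ / 2 * (x ⬝ᵥ x)) t θ) 0 := by
  refine hasDerivAt_pi.2 fun j => ?_
  have := hK.hasDerivAt_Ex (f := fun x => φ x j) (by fun_prop) t τ θ v 0
  simpa only [zero_mul, add_zero, zero_smul] using! this

/-- First order term: derivative of `Z Ψ(M)` in the direction dual to `l`, divided by `Z`. -/
noncomputable def D1 (K : Set (ι → ℝ)) (φ : (ι → ℝ) → J → ℝ) (Ψ : (J → ℝ) → ℝ)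
    (l : (ι → ℝ) → ℝ) (p : ℝ × (ι → ℝ)) : ℝ :=
  Ex K p.1 p.2 l * Ψ (Mv K φ p.1 p.2) + fderiv ℝ Ψ (Mv K φ p.1 p.2) (Cl K φ l p.1 p.2)

omit [DecidableEq ι] in
theorem bd_D1 (hK : IsBody K) (hφ : Continuous φ) (hΨ : ContDiff ℝ 2 Ψ) {l : (ι → ℝ) → ℝ}
    (hl : Continuous l) : Bd (D1 K φ Ψ l) :=
  ((bd_Ex hK hl).mul ((bd_Mv hK hφ).comp hΨ.continuous)).add
    (((bd_Mv hK hφ).comp (hΨ.continuous_fderiv (by norm_num))).app (bd_Cl hK hφ hl))

omit [DecidableEq ι] in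
theorem diff_U (hK : IsBody K) (hφ : Continuous φ) (hΨ : ContDiff ℝ 2 Ψ) :
    Differentiable ℝ (fun p : ℝ × (ι → ℝ) => Zf K p.1 p.2 * Ψ (Mv K φ p.1 p.2)) := by
  refine (hK.contDiff_Zf.differentiable (by simp)).mul
    ((hΨ.differentiable (by norm_num)).comp (differentiable_pi.2 fun j => ?_))
  exact (hK.contDiff_Ex (f := fun x => φ x j) (by fun_prop)).differentiable (by simp)

omit [DecidableEq ι] in
theorem fderiv_U (hK : IsBody K) (hφ : Continuous φ) (hΨ : ContDiff ℝ 2 Ψ) (p q : ℝ × (ι → ℝ)) :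
    fderiv ℝ (fun p : ℝ × (ι → ℝ) => Zf K p.1 p.2 * Ψ (Mv K φ p.1 p.2)) p q =
      Zf K p.1 p.2 * D1 K φ Ψ (fun x => q.2 ⬝ᵥ x - q.1 / 2 * (x ⬝ᵥ x)) p := by
  have h1 := ((diff_U hK hφ hΨ) p).hasFDerivAt.hasLineDerivAt q
  unfold HasLineDerivAt at h1
  refine h1.unique ?_
  have hZ := hK.hasDerivAt_Zf p.1 q.1 p.2 q.2 0
  have hM := hasDerivAt_Mv hK hφ p.1 q.1 p.2 q.2
  have hP := HasFDerivAt.comp_hasDerivAt_of_eq (0 : ℝ)
    ((hΨ.differentiable (by norm_num)) (Mv K φ p.1 p.2)).hasFDerivAt hM (by simp)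
  have h := hZ.mul hP
  refine HasDerivAt.congr_deriv h ?_
  simp only [zero_mul, add_zero, zero_smul, Function.comp, D1]
  ring

theorem hasDerivAt_Ex_k (hK : IsBody K) {f : (ι → ℝ) → ℝ} (hf : Continuous f) (t : ℝ)
    (θ : ι → ℝ) (k : ι) :
    HasDerivAt (fun s : ℝ => Ex K t (θ + s • (Pi.single k 1 : ι → ℝ)) f)
      (Ex K t θ (fun x => f x * x k) - Ex K t θ f * Ex K t θ (fun x => x k)) 0 := by
  simpa using hK.hasDerivAt_Ex hf t 0 θ (Pi.single k 1) 0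

theorem hasDerivAt_Uk (hK : IsBody K) (hφ : Continuous φ) (hΨ : ContDiff ℝ 2 Ψ) (t : ℝ)
    (θ : ι → ℝ) (k : ι) :
    HasDerivAt (fun s : ℝ => Zf K t (θ + s • (Pi.single k 1 : ι → ℝ)) *
        D1 K φ Ψ (fun x => x k) (t, θ + s • (Pi.single k 1 : ι → ℝ)))
      (Zf K t θ * (D1 K φ Ψ (fun x => x k * x k) (t, θ) +
        fderiv ℝ (fderiv ℝ Ψ) (Mv K φ t θ) (Cl K φ (fun x => x k) t θ)
          (Cl K φ (fun x => x k) t θ))) 0 := by
  have hZ : HasDerivAt (fun s : ℝ => Zf K t (θ + s • (Pi.single k 1 : ι → ℝ)))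
      (Zf K t θ * Ex K t θ (fun x => x k)) 0 := by
    simpa using hK.hasDerivAt_Zf t 0 θ (Pi.single k 1) 0
  have hM : HasDerivAt (fun s : ℝ => Mv K φ t (θ + s • (Pi.single k 1 : ι → ℝ)))
      (Cl K φ (fun x => x k) t θ) 0 := by
    simpa using hasDerivAt_Mv hK hφ t 0 θ (Pi.single k 1)
  have ha := hasDerivAt_Ex_k hK (f := fun x => x k) (by fun_prop) t θ k
  have hC : HasDerivAt (fun s : ℝ => Cl K φ (fun x => x k) t (θ + s • (Pi.single k 1 : ι → ℝ)))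
      (Cl K φ (fun x => x k * x k) t θ -
        (2 * Ex K t θ (fun x => x k)) • Cl K φ (fun x => x k) t θ) 0 := by
    refine hasDerivAt_pi.2 fun j => ?_
    have b1 := hasDerivAt_Ex_k hK (f := fun x => φ x j * x k) (by fun_prop) t θ k
    have b2 := hasDerivAt_Ex_k hK (f := fun x => φ x j) (by fun_prop) t θ k
    refine HasDerivAt.congr_deriv (b1.sub (b2.mul ha)) ?_
    simp only [zero_smul, add_zero, Cl, Pi.sub_apply, Pi.smul_apply, smul_eq_mul, mul_assoc]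
    ring
  have hP := HasFDerivAt.comp_hasDerivAt_of_eq (0 : ℝ)
    ((hΨ.differentiable (by norm_num)) (Mv K φ t θ)).hasFDerivAt hM (by simp)
  have hd2 : Differentiable ℝ (fderiv ℝ Ψ) :=
    (hΨ.fderiv_right (m := 1) (by norm_num)).differentiable (by norm_num)
  have hP2 := HasFDerivAt.comp_hasDerivAt_of_eq (0 : ℝ) (hd2 (Mv K φ t θ)).hasFDerivAt hM
    (by simp)
  have h := hZ.mul ((ha.mul hP).add (hP2.clm_apply hC))
  refine HasDerivAt.congr_deriv h ?_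
  simp only [zero_smul, add_zero, Function.comp, D1, map_sub, map_smul, smul_eq_mul,
    Pi.add_apply, Pi.mul_apply]
  ring

omit [DecidableEq ι] [Fintype J] in
theorem D1_sum (hK : IsBody K) (hφ : Continuous φ) (p : ℝ × (ι → ℝ)) :
    D1 K φ Ψ (fun x => -(1 / 2 * (x ⬝ᵥ x))) p =
      -(1 / 2 * ∑ k, D1 K φ Ψ (fun x => x k * x k) p) := by
  have e : ∀ f : (ι → ℝ) → ℝ, Continuous f →
      Ex K p.1 p.2 (fun x => f x * -(1 / 2 * (x ⬝ᵥ x))) =
        -(1 / 2 * ∑ k, Ex K p.1 p.2 (fun x => f x * (x k * x k))) := by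
    intro f hf
    rw [← hK.Ex_sum p.1 p.2 _ fun k => by fun_prop, ← neg_mul, ← Ex_const_mul]
    congr 1
    funext x
    rw [← Finset.mul_sum, dotProduct]
    ring
  have e1 := e (fun _ => 1) continuous_const
  simp only [one_mul] at e1
  have e2 : Cl K φ (fun x => -(1 / 2 * (x ⬝ᵥ x))) p.1 p.2 =
      -((1 / 2 : ℝ) • ∑ k, Cl K φ (fun x => x k * x k) p.1 p.2) := by
    funext j
    simp only [Cl, Pi.neg_apply, Pi.smul_apply, Finset.sum_apply, smul_eq_mul]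
    rw [e (fun x => φ x j) (by fun_prop), e1, Finset.sum_sub_distrib, ← Finset.mul_sum]
    ring
  simp only [D1]
  rw [e1, e2, map_neg, map_smul, map_sum, Finset.sum_add_distrib, ← Finset.sum_mul, smul_eq_mul]
  ring

end Ito

theorem ito : ItoStmt := by
  intro ι _ _ J _ K φ Ψ t hK hφ hΨ ht
  obtain ⟨R, hR0, hR⟩ := hK.exists_bound
  have hc2 : Continuous (fderiv ℝ (fderiv ℝ Ψ)) :=
    (hΨ.fderiv_right (m := 1) (by norm_num)).continuous_fderiv (by norm_num)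
  have key := Ito.heat (R := R) hR0.le
    (U := fun p : ℝ × (ι → ℝ) => Zf K p.1 p.2 * Ψ (Mv K φ p.1 p.2))
    (Ut := fun p => Zf K p.1 p.2 * Ito.D1 K φ Ψ (fun x => -(1 / 2 * (x ⬝ᵥ x))) p)
    (Uk := fun k p => Zf K p.1 p.2 * Ito.D1 K φ Ψ (fun x => x k) p)
    (Ukk := fun k p => Zf K p.1 p.2 * (Ito.D1 K φ Ψ (fun x => x k * x k) p +
        fderiv ℝ (fderiv ℝ Ψ) (Mv K φ p.1 p.2) (Ito.Cl K φ (fun x => x k) p.1 p.2)
          (Ito.Cl K φ (fun x => x k) p.1 p.2)))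
    (Ito.gr_mul hK hR ((Ito.bd_Mv hK hφ).comp hΨ.continuous))
    (Ito.gr_mul hK hR (Ito.bd_D1 hK hφ hΨ (by fun_prop)))
    (fun k => Ito.gr_mul hK hR (Ito.bd_D1 hK hφ hΨ (by fun_prop)))
    (fun k => Ito.gr_mul hK hR ((Ito.bd_D1 hK hφ hΨ (by fun_prop)).add
      ((((Ito.bd_Mv hK hφ).comp hc2).app (Ito.bd_Cl hK hφ (by fun_prop))).app
        (Ito.bd_Cl hK hφ (by fun_prop)))))
    (Ito.diff_U hK hφ hΨ)
    (fun p => by rw [Ito.fderiv_U hK hφ hΨ]; simp)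
    (fun p k => by rw [Ito.fderiv_U hK hφ hΨ]; simp)
    (fun s θ k => Ito.hasDerivAt_Uk hK hφ hΨ s θ k) ht
  refine HasDerivAt.congr_deriv key ?_
  unfold avg
  congr 1
  funext w
  congr 1
  rw [Ito.D1_sum hK hφ, ← Finset.mul_sum, Finset.sum_add_distrib]
  have : ∀ k, Ito.Cl K φ (fun x => x k) t (√t • w) = Cv K φ t (√t • w) k := fun k => rfl
  simp only [this]
  ring

end Pool.Agent.P.MP_d05bff_gt
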