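import Pool.Agent.P.MP_d05bff_gt.Bochner

/-!
Lichnerowicz inequality and the improved Lichnerowicz inequality.
-/

namespace Pool.Agent.P.MP_d05bff_gt

open MeasureTheory Matrix Bochner

namespace Poincare

variable {ι : Type} [Fintype ι]

/-- Continuous functions in the weighted `L²` space. -/
def Sq (V f : (ι → ℝ) → ℝ) : Prop :=
  Continuous f ∧ Integrable (fun x => f x ^ 2 * Real.exp (-V x))

/-- Dirichlet energy. -/
noncomputable def En (b : ι → ι → ℝ) (V h : (ι → ℝ) → ℝ) : ℝ :=
  ∑ j, IV V (fun x => D (b j) h x ^ 2)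

variable {V f g h : (ι → ℝ) → ℝ}

theorem Sq.int (hV : Smooth V) (hf : Sq V f) (hg : Sq V g) :
    Integrable (fun x => f x * g x * Real.exp (-V x)) := by
  refine Integrable.mono' (hf.2.add hg.2)
    ((hf.1.mul hg.1).mul (rho_smooth hV).continuous).aestronglyMeasurable
    (Filter.Eventually.of_forall fun x => ?_)
  have hρ := Real.exp_pos (-V x)
  rw [Real.norm_eq_abs, abs_mul, abs_of_pos hρ, Pi.add_apply, ← add_mul]
  refine mul_le_mul_of_nonneg_right ?_ hρ.le
  rw [abs_le]
  constructor <;> nlinarith [sq_nonneg (f x + g x), sq_nonneg (f x - g x)]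

theorem sq_supp (hV : Smooth V) (hf : Continuous f) (hs : HasCompactSupport f) : Sq V f := by
  refine ⟨hf, ?_⟩
  simp_rw [sq]
  exact int_supp hV hf hf hs

theorem Sq.lin (hV : Smooth V) (hf : Sq V f) (hg : Sq V g) (p q : ℝ) :
    Sq V (fun x => p * f x + q * g x) := by
  refine ⟨(continuous_const.mul hf.1).add (continuous_const.mul hg.1), ?_⟩
  have h := ((hf.2.const_mul (p ^ 2)).add ((hf.int hV hg).const_mul (2 * p * q))).add
    (hg.2.const_mul (q ^ 2))
  refine h.congr (Filter.Eventually.of_forall fun x => ?_)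
  simp only [Pi.add_apply]; ring

theorem IV_lin (hV : Smooth V) (hf : Sq V f) (hg : Sq V g) (p q : ℝ) :
    IV V (fun x => (p * f x + q * g x) ^ 2) = p ^ 2 * IV V (fun x => f x ^ 2) +
      2 * p * q * IV V (fun x => f x * g x) + q ^ 2 * IV V (fun x => g x ^ 2) := by
  unfold IV
  rw [← integral_const_mul, ← integral_const_mul, ← integral_const_mul,
    ← integral_add (hf.2.const_mul _) ((hf.int hV hg).const_mul _), ← integral_add]
  · congr 1; funext x; ring
  · exact (hf.2.const_mul _).add ((hf.int hV hg).const_mul _)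
  · exact hg.2.const_mul _

theorem IV_mul_lin (hV : Smooth V) (hh : Sq V h) (hf : Sq V f) (hg : Sq V g) (p q : ℝ) :
    IV V (fun x => h x * (p * f x + q * g x)) =
      p * IV V (fun x => h x * f x) + q * IV V (fun x => h x * g x) := by
  unfold IV
  rw [← integral_const_mul, ← integral_const_mul,
    ← integral_add ((hh.int hV hf).const_mul _) ((hh.int hV hg).const_mul _)]
  congr 1; funext x; ring

theorem IV_sq_nonneg (V f : (ι → ℝ) → ℝ) : 0 ≤ IV V (fun x => f x ^ 2) :=
  integral_nonneg fun _ => mul_nonneg (sq_nonneg _) (Real.exp_pos _).le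

theorem En_nonneg (b : ι → ι → ℝ) (V h : (ι → ℝ) → ℝ) : 0 ≤ En b V h :=
  Finset.sum_nonneg fun _ _ => IV_sq_nonneg _ _

theorem amgm (hV : Smooth V) (hf : Sq V f) (hg : Sq V g) {l : ℝ} (hl : 0 < l) :
    2 * |IV V (fun x => f x * g x)| ≤
      l * IV V (fun x => f x ^ 2) + IV V (fun x => g x ^ 2) / l := by
  have h1 := IV_sq_nonneg V (fun x => l * f x + 1 * g x)
  have h2 := IV_sq_nonneg V (fun x => l * f x + (-1) * g x)
  rw [IV_lin hV hf hg] at h1 h2
  have h3 : IV V (fun x => g x ^ 2) = l * (IV V (fun x => g x ^ 2) / l) := by field_simp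
  generalize IV V (fun x => g x ^ 2) / l = C at h3 ⊢
  rw [h3] at h1 h2
  rcases abs_cases (IV V (fun x => f x * g x)) with ⟨h, -⟩ | ⟨h, -⟩ <;> rw [h] <;> nlinarith

theorem Sq.sum {J : Type} (hV : Smooth V) (s : Finset J) {F : J → (ι → ℝ) → ℝ}
    (hF : ∀ j, Sq V (F j)) : Sq V (fun x => ∑ j ∈ s, F j x) := by
  classical
  induction s using Finset.induction_on with
  | empty =>
    simp only [Finset.sum_empty]
    exact sq_supp hV continuous_zero HasCompactSupport.zero
  | insert a s ha ih =>
    simp_rw [Finset.sum_insert ha]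
    simpa using (hF a).lin hV ih 1 1

theorem shear {A B : (ι → ℝ) → ℝ} (hA : Integrable A) (hB : Integrable B) :
    Integrable (fun z => ∫ x, A x * B (x + z)) ∧
      ∫ z, ∫ x, A x * B (x + z) = (∫ x, A x) * ∫ x, B x := by
  have h1 : Integrable (fun p : (ι → ℝ) × (ι → ℝ) => A p.1 * B (p.1 + p.2))
      ((volume : Measure (ι → ℝ)).prod volume) :=
    (measurePreserving_prod_add (volume : Measure (ι → ℝ)) volume).integrable_comp_of_integrable
      (hA.mul_prod hB)
  refine ⟨h1.integral_prod_right, ?_⟩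
  rw [← integral_integral_swap (f := fun x z => A x * B (x + z)) h1]
  simp_rw [integral_const_mul, integral_add_left_eq_self]
  rw [integral_mul_const]

theorem transl {A : (ι → ℝ) → ℝ} (hA : Integrable A) (hh : Smooth h) (hs : HasCompactSupport h)
    (z : ι → ℝ) {M : ℝ} (hM : ∀ s ∈ Set.Ico (0 : ℝ) 1, |∫ x, A x * D z h (x + s • z)| ≤ M) :
    |(∫ x, A x * h (x + z)) - ∫ x, A x * h x| ≤ M := by
  obtain ⟨C, hC⟩ := (D_cont (one _ hh) z).bounded_above_of_compact_support (D_supp hs z)
  obtain ⟨C', hC'⟩ := hh.continuous.bounded_above_of_compact_support hs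
  have hd : ∀ s : ℝ, HasDerivAt (fun s : ℝ => ∫ x, A x * h (x + s • z))
      (∫ x, A x * D z h (x + s • z)) s := by
    intro s
    refine (hasDerivAt_integral_of_dominated_loc_of_deriv_le (μ := volume)
      (F := fun (s : ℝ) x => A x * h (x + s • z)) (F' := fun (s : ℝ) x => A x * D z h (x + s • z))
      (bound := fun x => ‖A x‖ * C) Filter.univ_mem ?_ ?_ ?_ ?_ (hA.norm.mul_const C) ?_).2
    · exact Filter.Eventually.of_forall fun s => hA.aestronglyMeasurable.mul
        (hh.continuous.comp (continuous_id.add continuous_const)).aestronglyMeasurable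
    · exact hA.mul_bdd (c := C')
        (hh.continuous.comp (continuous_id.add continuous_const)).aestronglyMeasurable
        (Filter.Eventually.of_forall fun x => hC' _)
    · exact hA.aestronglyMeasurable.mul
        ((D_cont (one _ hh) z).comp (continuous_id.add continuous_const)).aestronglyMeasurable
    · refine Filter.Eventually.of_forall fun x s _ => ?_
      rw [norm_mul]
      exact mul_le_mul_of_nonneg_left (hC _) (norm_nonneg _)
    · refine Filter.Eventually.of_forall fun x s _ => ?_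
      refine HasDerivAt.const_mul _ ?_
      have h1 : HasDerivAt (fun s : ℝ => x + s • z) z s := by
        simpa using ((hasDerivAt_id s).smul_const z).const_add x
      exact (((one _ hh).differentiable (by norm_num)) (x + s • z)).hasFDerivAt.comp_hasDerivAt s h1
  have := norm_image_sub_le_of_norm_deriv_le_segment_01'
    (fun s _ => (hd s).hasDerivWithinAt) (fun s hs => hM s hs)
  simpa using this

theorem D_dir [DecidableEq ι] {b d : ι → ι → ℝ} (hbd : ∀ i j, d i ⬝ᵥ b j = if i = j then 1 else 0)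
    (h : (ι → ℝ) → ℝ) (z x : ι → ℝ) : D z h x = ∑ j, (d j ⬝ᵥ z) * D (b j) h x := by
  have h1 : (Matrix.of d) * (Matrix.of b)ᵀ = 1 := by
    ext i j
    rw [Matrix.mul_apply, Matrix.one_apply, ← hbd i j]
    rfl
  have h2 := mul_eq_one_comm.1 h1
  have h3 : z = ∑ j, (d j ⬝ᵥ z) • b j := by
    have h4 : ((Matrix.of b)ᵀ * Matrix.of d) *ᵥ z = z := by rw [h2, Matrix.one_mulVec]
    rw [← Matrix.mulVec_mulVec] at h4
    funext i
    rw [← congrFun h4 i, Finset.sum_apply]
    refine Finset.sum_congr rfl fun j _ => ?_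
    simp only [Matrix.transpose_apply, Matrix.of_apply, Pi.smul_apply, smul_eq_mul]
    rw [mul_comm]
    rfl
  unfold D
  conv_lhs => rw [h3]
  rw [map_sum]
  simp only [map_smul, smul_eq_mul]

theorem bdd_supp {A : (ι → ℝ) → ℝ} (hA : Continuous A) (hs : HasCompactSupport A) :
    ∃ R K : ℝ, 0 ≤ R ∧ (∀ x, |A x| ≤ K) ∧ ∀ x, R < ‖x‖ → A x = 0 := by
  obtain ⟨K, hK⟩ := hA.bounded_above_of_compact_support hs
  obtain ⟨R, hR⟩ := hs.isCompact.isBounded.subset_closedBall 0
  refine ⟨max R 0, K, le_max_right _ _, hK, fun x hx => ?_⟩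
  refine image_eq_zero_of_notMem_tsupport fun hx' => ?_
  have := mem_closedBall_zero_iff.1 (hR hx')
  have := le_max_left R 0
  linarith

theorem erg1 [DecidableEq ι] {b d : ι → ι → ℝ}
    (hbd : ∀ i j, d i ⬝ᵥ b j = if i = j then 1 else 0) (hV : Smooth V) (h1 : Sq V (fun _ => 1))
    {G P : (ι → ℝ) → ℝ} (hG : Continuous G) (hGs : HasCompactSupport G) (hP : Continuous P)
    (hPs : HasCompactSupport P) :
    ∃ M : ℝ, 0 ≤ M ∧ ∀ h, Smooth h → HasCompactSupport h → ∀ η, 0 < η →
      |(∫ x, G x) * (∫ x, P x * h x) - (∫ x, G x * h x) * ∫ x, P x| ≤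
        M * (η + En b V h / η) := by
  obtain ⟨R1, K1, hR1, hK1, hZ1⟩ := bdd_supp hG hGs
  obtain ⟨R2, K2, hR2, hK2, hZ2⟩ := bdd_supp hP hPs
  obtain ⟨W, hW⟩ := (isCompact_closedBall (0 : ι → ℝ) (R1 + (R1 + R2))).bddAbove_image
    hV.continuous.continuousOn
  have hcont : Continuous (fun z : ι → ℝ => ∑ j, |d j ⬝ᵥ z|) :=
    continuous_finsetSum _ fun j _ => (continuous_const.dotProduct continuous_id).abs
  obtain ⟨S, hS⟩ := (isCompact_closedBall (0 : ι → ℝ) (R1 + R2)).bddAbove_image hcont.continuousOn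
  have hS1 : ∀ z : ι → ℝ, ‖z‖ ≤ R1 + R2 → ∀ j, |d j ⬝ᵥ z| ≤ S := fun z hz j =>
    (Finset.single_le_sum (f := fun j => |d j ⬝ᵥ z|) (fun _ _ => abs_nonneg _)
      (Finset.mem_univ j)).trans (hS ⟨z, mem_closedBall_zero_iff.2 hz, rfl⟩)
  have hS0 : 0 ≤ S := le_trans (Finset.sum_nonneg fun _ _ => abs_nonneg _)
    (hS ⟨0, Metric.mem_closedBall_self (by linarith), rfl⟩)
  have hK10 : 0 ≤ K1 := (abs_nonneg _).trans (hK1 0)
  have hK20 : 0 ≤ K2 := (abs_nonneg _).trans (hK2 0)
  set m := IV V (fun _ => (1 : ℝ) ^ 2) with hm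
  have hm0 : 0 ≤ m := IV_sq_nonneg V (fun _ => 1)
  set K := K1 * K2 * Real.exp W * S with hK
  have hK0 : 0 ≤ K := by positivity
  set v := (volume : Measure (ι → ℝ)).real (Metric.closedBall 0 (R1 + R2)) with hv
  have hv0 : 0 ≤ v := measureReal_nonneg
  refine ⟨v * (K * (Fintype.card ι * m + 1)), by positivity, fun h hh hs η hη => ?_⟩
  have hE := En_nonneg b V h
  have hDj : ∀ j, Sq V (D (b j) h) := fun j => sq_supp hV (D_cont (one _ hh) _) (D_supp hs _)
  have key : ∀ z : ι → ℝ, ‖z‖ ≤ R1 + R2 →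
      |(∫ x, G x * P (x + z) * h (x + z)) - ∫ x, G x * P (x + z) * h x| ≤
        K * (Fintype.card ι * m + 1) * (η + En b V h / η) := by
    intro z hz
    refine transl (A := fun x => G x * P (x + z)) (Continuous.integrable_of_hasCompactSupport
      (hG.mul (hP.comp (continuous_id.add continuous_const))) hGs.mul_right) hh hs z ?_
    intro s hs01
    have e1 := integral_add_right_eq_self (μ := (volume : Measure (ι → ℝ)))
      (fun x => G (x - s • z) * P (x - s • z + z) * D z h x) (s • z)
    simp only [add_sub_cancel_right] at e1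
    rw [e1, ← Real.norm_eq_abs]
    have hint : ∀ j, Integrable (fun x => K * (η * ((1 : ℝ) ^ 2 * Real.exp (-V x)) +
        D (b j) h x ^ 2 * Real.exp (-V x) / η)) := fun j =>
      ((h1.2.const_mul η).add ((hDj j).2.div_const η)).const_mul K
    refine (norm_integral_le_of_norm_le (integrable_finsetSum Finset.univ fun j _ => hint j)
      (Filter.Eventually.of_forall fun x => ?_)).trans ?_
    · have hρ := Real.exp_pos (-V x)
      have hA : |G (x - s • z) * P (x - s • z + z)| ≤ K1 * K2 * Real.exp W * Real.exp (-V x) := by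
        by_cases hx : R1 < ‖x - s • z‖
        · rw [hZ1 _ hx, zero_mul, abs_zero]; positivity
        · have h2 : ‖s • z‖ ≤ R1 + R2 := by
            rw [norm_smul, Real.norm_eq_abs, abs_of_nonneg hs01.1]
            nlinarith [hs01.1, hs01.2, norm_nonneg z]
          have h3 : ‖x‖ ≤ R1 + (R1 + R2) := by
            have := norm_add_le (x - s • z) (s • z)
            rw [sub_add_cancel] at this
            linarith
          have h4 : V x ≤ W := hW ⟨x, mem_closedBall_zero_iff.2 h3, rfl⟩
          have h5 : 1 ≤ Real.exp W * Real.exp (-V x) := by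
            rw [← Real.exp_add]; exact Real.one_le_exp (by linarith)
          rw [abs_mul, mul_assoc (K1 * K2)]
          exact (mul_le_mul (hK1 _) (hK2 _) (abs_nonneg _) hK10).trans
            (le_mul_of_one_le_right (by positivity) h5)
      rw [Real.norm_eq_abs, abs_mul, D_dir hbd]
      refine (mul_le_mul hA (Finset.abs_sum_le_sum_abs _ _) (abs_nonneg _) (by positivity)).trans ?_
      rw [Finset.mul_sum]
      refine Finset.sum_le_sum fun j _ => ?_
      have h6 : |D (b j) h x| ≤ η + D (b j) h x ^ 2 / η := by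
        rw [← sq_abs, ← sub_nonneg]
        have : η + |D (b j) h x| ^ 2 / η - |D (b j) h x| =
            ((η - |D (b j) h x|) ^ 2 + η * |D (b j) h x|) / η := by field_simp; ring
        rw [this]; positivity
      have h7 := mul_le_mul (hS1 z hz j) h6 (abs_nonneg _) hS0
      rw [abs_mul]
      calc _ ≤ K1 * K2 * Real.exp W * Real.exp (-V x) * (S * (η + D (b j) h x ^ 2 / η)) :=
            mul_le_mul_of_nonneg_left h7 (by positivity)
        _ = _ := by rw [hK]; ring
    · rw [integral_finsetSum _ fun j _ => hint j]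
      have e2 : ∀ j, ∫ x, K * (η * ((1 : ℝ) ^ 2 * Real.exp (-V x)) +
          D (b j) h x ^ 2 * Real.exp (-V x) / η) =
          K * (η * m + IV V (fun x => D (b j) h x ^ 2) / η) := by
        intro j
        rw [integral_const_mul, integral_add (h1.2.const_mul η) ((hDj j).2.div_const η),
          integral_const_mul, integral_div]
        rfl
      simp_rw [e2]
      rw [← Finset.mul_sum, Finset.sum_add_distrib, ← Finset.sum_div, mul_assoc K]
      refine mul_le_mul_of_nonneg_left ?_ hK0
      simp only [Finset.sum_const, Finset.card_univ, nsmul_eq_mul]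
      change _ + En b V h / η ≤ _
      have h8 : 0 ≤ En b V h / η := by positivity
      have h9 : 0 ≤ (Fintype.card ι : ℝ) * m := by positivity
      nlinarith [mul_nonneg h9 h8]
  have hGi := hG.integrable_of_hasCompactSupport (μ := volume) hGs
  have hPi := hP.integrable_of_hasCompactSupport (μ := volume) hPs
  have s1 := shear hGi (Continuous.integrable_of_hasCompactSupport (μ := volume)
    (hP.mul hh.continuous) hPs.mul_right)
  have s2 := shear (Continuous.integrable_of_hasCompactSupport (μ := volume)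
    (hG.mul hh.continuous) hGs.mul_right) hPi
  simp only [Pi.mul_apply] at s1 s2
  rw [← s1.2, ← s2.2, ← integral_sub s1.1 s2.1, ← Real.norm_eq_abs]
  refine (norm_integral_le_of_norm_le (g := (Metric.closedBall (0 : ι → ℝ) (R1 + R2)).indicator
    fun _ => K * (Fintype.card ι * m + 1) * (η + En b V h / η))
    ((integrableOn_const measure_closedBall_lt_top.ne).integrable_indicator
      measurableSet_closedBall) (Filter.Eventually.of_forall fun z => ?_)).trans ?_
  · by_cases hz : ‖z‖ ≤ R1 + R2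
    · rw [Set.indicator_of_mem (mem_closedBall_zero_iff.2 hz)]
      have := key z hz
      simp_rw [mul_assoc (G _), mul_comm (P _) (h _)] at this
      simp_rw [mul_assoc (G _), mul_comm (P _) (h _)]
      exact this
    · rw [Set.indicator_of_notMem (fun h' => hz (mem_closedBall_zero_iff.1 h'))]
      have h0 : ∀ x, G x = 0 ∨ P (x + z) = 0 := by
        intro x
        by_cases hx : R1 < ‖x‖
        · exact Or.inl (hZ1 x hx)
        · refine Or.inr (hZ2 _ ?_)
          have := norm_sub_le (x + z) x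
          rw [add_sub_cancel_left] at this
          linarith
      have h2 : ∀ x, G x * (P (x + z) * h (x + z)) = 0 := fun x => by
        rcases h0 x with h' | h' <;> simp [h']
      have h3 : ∀ x, G x * h x * P (x + z) = 0 := fun x => by
        rcases h0 x with h' | h' <;> simp [h']
      simp [h2, h3]
  · rw [integral_indicator_const _ measurableSet_closedBall, smul_eq_mul]
    exact le_of_eq (by rw [hv]; ring)

theorem erg (hD : DenseStmt) [DecidableEq ι] {b d : ι → ι → ℝ}
    (hbd : ∀ i j, d i ⬝ᵥ b j = if i = j then 1 else 0) (hV : Smooth V) (h1 : Sq V (fun _ => 1))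
    (hf : Sq V f) (h0 : IV V f = 0) {γ B : ℝ} (hγ : 0 < γ) (hB : 0 ≤ B) :
    ∃ η : ℝ, 0 < η ∧ ∀ h, Smooth h → HasCompactSupport h → IV V (fun x => h x ^ 2) ≤ B →
      En b V h ≤ η → |IV V (fun x => f x * h x)| ≤ γ := by
  have hρ := (rho_smooth hV).continuous
  set φ : (ι → ℝ) → ℝ := fun x => max 0 (1 - ‖x‖) with hφ
  have hφc : Continuous φ := continuous_const.max (continuous_const.sub continuous_norm)
  have hφs : HasCompactSupport φ := HasCompactSupport.intro (isCompact_closedBall 0 1)
    fun x hx => max_eq_left (by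
      have : ¬ ‖x‖ ≤ 1 := fun h => hx (mem_closedBall_zero_iff.2 h)
      linarith)
  have hp : 0 < IV V φ := Continuous.integral_pos_of_hasCompactSupport_nonneg_nonzero (x := 0)
    (hφc.mul hρ) hφs.mul_right (fun x => mul_nonneg (le_max_left _ _) (Real.exp_pos _).le)
    (by simp [hφ])
  have hφq := sq_supp hV hφc hφs
  have hQ := IV_sq_nonneg V φ
  have hm := IV_sq_nonneg V (fun _ => 1)
  set m := IV V (fun _ => (1 : ℝ) ^ 2) with hm'
  set Q := IV V (fun x => φ x ^ 2) with hQ'
  set p := IV V φ with hp'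
  set C := (1 + B) / 2 + ((1 + m) / 2 * ((Q + B) / 2) + 2) / p with hC
  have hC0 : 0 < C := by positivity
  set θ := γ / C with hθ
  have hθ0 : 0 < θ := by positivity
  obtain ⟨u, hu, hus, hε⟩ := hD ι b V f 1 (θ ^ 2) hV hf.1 hf.2 one_pos (by positivity)
  set g : (ι → ℝ) → ℝ := fun x => 1 * u x - Lop b V u x with hg
  have hgc : Continuous g :=
    (continuous_const.mul hu.continuous).sub (Lop_smooth b hV hu).continuous
  have hgs : HasCompactSupport g := hus.mul_left.sub (Lop_supp b V hus)
  have hgq := sq_supp hV hgc hgs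
  obtain ⟨M, hM0, hM⟩ := erg1 hbd hV h1 (hgc.mul hρ) hgs.mul_right (hφc.mul hρ) hφs.mul_right
  have hr : Sq V (fun x => 1 * f x + (-1) * g x) := hf.lin hV hgq 1 (-1)
  have hε' : IV V (fun x => (1 * f x + (-1) * g x) ^ 2) ≤ θ ^ 2 := by
    refine le_of_eq_of_le ?_ hε
    congr 1; funext x; rw [hg]; ring
  refine ⟨(θ / (M + 1)) ^ 2, by positivity, fun h hh hs hhB hE => ?_⟩
  have hhq := sq_supp hV hh.continuous hs
  have hθ' : 0 < θ / (M + 1) := by positivity
  have a1 := hM h hh hs _ hθ'
  have e1 : (∫ x, (φ * fun y => Real.exp (-V y)) x * h x) = IV V (fun x => φ x * h x) := by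
    unfold IV; congr 1; funext x; simp only [Pi.mul_apply]; ring
  have e2 : (∫ x, (g * fun y => Real.exp (-V y)) x * h x) = IV V (fun x => g x * h x) := by
    unfold IV; congr 1; funext x; simp only [Pi.mul_apply]; ring
  rw [e1, e2] at a1
  change |IV V g * _ - _ * p| ≤ _ at a1
  have a2 : M * (θ / (M + 1) + En b V h / (θ / (M + 1))) ≤ 2 * θ := by
    have b1 : En b V h / (θ / (M + 1)) ≤ θ / (M + 1) := by
      rw [div_le_iff₀ hθ', ← sq]; exact hE
    have b2 : M * (θ / (M + 1)) ≤ θ := by
      rw [← mul_div_assoc, div_le_iff₀ (by positivity)]; nlinarith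
    nlinarith
  have key : ∀ k, Sq V k → ∀ T, IV V (fun x => k x ^ 2) ≤ T →
      |IV V (fun x => k x * f x) - IV V (fun x => k x * g x)| ≤ (1 + T) / 2 * θ := by
    intro k hk T hT
    have c1 := amgm hV hk hr hθ0
    rw [IV_mul_lin hV hk hf hgq] at c1
    have c2 : IV V (fun x => (1 * f x + (-1) * g x) ^ 2) / θ ≤ θ := by
      rw [div_le_iff₀ hθ0, ← sq]; exact hε'
    rw [one_mul, neg_one_mul, ← sub_eq_add_neg] at c1
    nlinarith
  have a3 := key h hhq B hhB
  have a4 := key _ h1 m le_rfl
  simp only [one_mul] at a4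
  change |IV V f - IV V g| ≤ _ at a4
  rw [h0, zero_sub, abs_neg] at a4
  have a5 := amgm hV hφq hhq one_pos
  have a6 : |IV V g * IV V (fun x => φ x * h x)| ≤ (1 + m) / 2 * θ * ((Q + B) / 2) := by
    rw [abs_mul]
    exact mul_le_mul a4 (by linarith) (abs_nonneg _) (by positivity)
  have e3 : IV V (fun x => f x * h x) = IV V (fun x => h x * f x) := by simp_rw [mul_comm]
  have e4 : IV V (fun x => g x * h x) = IV V (fun x => h x * g x) := by simp_rw [mul_comm]
  rw [e4] at a1
  rw [e3]
  have a7 : |IV V (fun x => h x * g x)| ≤ ((1 + m) / 2 * ((Q + B) / 2) + 2) / p * θ := by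
    rw [div_mul_eq_mul_div, le_div_iff₀ hp, ← abs_of_pos hp, ← abs_mul]
    have := abs_sub_abs_le_abs_sub (IV V (fun x => h x * g x) * p)
      (IV V g * IV V (fun x => φ x * h x))
    rw [abs_sub_comm] at this
    linarith
  have a8 := abs_sub_abs_le_abs_sub (IV V (fun x => h x * f x)) (IV V (fun x => h x * g x))
  have a9 : γ = C * θ := by rw [hθ]; field_simp
  rw [a9, hC]
  linarith

/-- The Poincare inequality with constant `κ`. -/
def PI (b : ι → ι → ℝ) (V : (ι → ℝ) → ℝ) (κ : ℝ) : Prop :=
  ∀ f : (ι → ℝ) → ℝ, ContDiff ℝ 1 f → Integrable (fun x => f x ^ 2 * Real.exp (-V x)) →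
    (∀ j, Integrable (fun x => D (b j) f x ^ 2 * Real.exp (-V x))) → IV V f = 0 →
    κ * IV V (fun x => f x ^ 2) ≤ En b V f

theorem dual (hD : DenseStmt) [DecidableEq ι] {b d : ι → ι → ℝ}
    (hbd : ∀ i j, d i ⬝ᵥ b j = if i = j then 1 else 0) (hV : Smooth V) (h1 : Sq V (fun _ => 1))
    {k : ℝ} (hk : 0 < k) (hkL : ∀ u, Smooth u → HasCompactSupport u →
      k * En b V u ≤ IV V (fun x => Lop b V u x ^ 2)) : PI b V k := by
  intro f hf1 hf2 hf3 h0
  have hf : Sq V f := ⟨hf1.continuous, hf2⟩
  have ha := IV_sq_nonneg V f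
  set a := IV V (fun x => f x ^ 2) with ha'
  have main : ∀ γ : ℝ, 0 < γ → γ ≤ 1 → a ≤ En b V f / k + 3 * γ := by
    intro γ hγ hγ1
    obtain ⟨η, hη, hη'⟩ := erg hD hbd hV h1 hf h0 hγ (B := 2 * a + 2) (by positivity)
    set δ := η / (2 * a + 2) with hδ
    have hδ0 : 0 < δ := by positivity
    obtain ⟨u, hu, hus, hε⟩ := hD ι b V f δ γ hV hf.1 hf.2 hδ0 hγ
    have huq := sq_supp hV hu.continuous hus
    have hLq := sq_supp hV (Lop_smooth b hV hu).continuous (Lop_supp b V hus)
    have hy := huq.lin hV hLq δ (-1)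
    have hε' : IV V (fun x => (1 * f x + (-1) * (δ * u x + (-1) * Lop b V u x)) ^ 2) ≤ γ := by
      refine le_of_eq_of_le ?_ hε
      congr 1; funext x; ring
    have hY := IV_lin hV huq hLq δ (-1)
    have hfy := IV_mul_lin hV hf huq hLq δ (-1)
    rw [IV_lin hV hf hy] at hε'
    have hb := amgm hV hf hy two_pos
    have hb' := le_abs_self (IV V (fun x => f x * (δ * u x + (-1) * Lop b V u x)))
    rw [ibpL b hV hu hus (one _ hu)] at hY
    rw [ibpL b hV hu hus hf1] at hfy
    simp_rw [← sq] at hY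
    change _ = _ + 2 * δ * (-1) * (-En b V u) + _ at hY
    set Y := IV V (fun x => (δ * u x + (-1) * Lop b V u x) ^ 2) with hY'
    have hYB : Y ≤ 2 * a + 2 := by nlinarith
    have hE := En_nonneg b V u
    have hU := IV_sq_nonneg V u
    have hP := IV_sq_nonneg V (Lop b V u)
    have hkE := hkL u hu hus
    have hdu : Smooth (fun x => δ * u x) := contDiff_const.mul hu
    have e1 : IV V (fun x => (δ * u x) ^ 2) = δ ^ 2 * IV V (fun x => u x ^ 2) := by
      unfold IV; rw [← integral_const_mul]; congr 1; funext x; ring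
    have e2 : En b V (fun x => δ * u x) = δ ^ 2 * En b V u := by
      unfold En
      rw [Finset.mul_sum]
      refine Finset.sum_congr rfl fun j _ => ?_
      unfold IV; rw [← integral_const_mul]; congr 1; funext x
      beta_reduce
      rw [D_mul contDiff_const (one _ hu), D_const]; ring
    have e3 : IV V (fun x => f x * (δ * u x)) = δ * IV V (fun x => f x * u x) := by
      unfold IV; rw [← integral_const_mul]; congr 1; funext x; ring
    have hsm := hη' _ hdu hus.mul_left (by rw [e1]; nlinarith [mul_nonneg hδ0.le hE]) (by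
      rw [e2]
      have c1 : δ * En b V u ≤ 2 * a + 2 := by
        nlinarith [mul_nonneg hδ0.le hE, mul_nonneg (sq_nonneg δ) hU]
      have c2 : η = δ * (2 * a + 2) := by rw [hδ]; field_simp
      rw [c2, sq, mul_assoc]
      exact mul_le_mul_of_nonneg_left c1 hδ0.le)
    rw [e3] at hsm
    have hsm' := le_abs_self (δ * IV V (fun x => f x * u x))
    have hcross : 2 * ∑ j, IV V (fun x => D (b j) f x * D (b j) u x) ≤
        k * En b V u + En b V f / k := by
      unfold En
      rw [Finset.mul_sum, Finset.mul_sum, Finset.sum_div, ← Finset.sum_add_distrib]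
      refine Finset.sum_le_sum fun j _ => ?_
      have c1 := amgm hV (sq_supp hV (D_cont (one _ hu) (b j)) (D_supp hus _))
        (⟨D_cont hf1 (b j), hf3 j⟩ : Sq V (D (b j) f)) hk
      have c2 := le_abs_self (IV V (fun x => D (b j) u x * D (b j) f x))
      simp_rw [mul_comm (D (b j) f _)]
      linarith
    nlinarith [mul_nonneg hδ0.le hE, mul_nonneg (sq_nonneg δ) hU]
  rw [mul_comm, ← le_div_iff₀ hk]
  refine le_of_forall_pos_le_add fun ε hε => ?_
  have := main (min (ε / 3) 1) (by positivity) (min_le_right _ _)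
  have := min_le_left (ε / 3) 1
  linarith

theorem boch [DecidableEq ι] {b : ι → ι → ℝ} {t : ℝ} (hV : Smooth V)
    (hH : ∀ x c : ι → ℝ, t * ∑ j, c j ^ 2 ≤ ∑ i, ∑ j, D (b i) (D (b j) V) x * c i * c j)
    {w : (ι → ℝ) → ℝ} (hw : Smooth w) (hs : HasCompactSupport w) :
    ∑ j, En b V (D (b j) w) + t * En b V w ≤ IV V (fun x => Lop b V w x ^ 2) := by
  rw [(bochner ι b V w hV hw hs).2, Finset.sum_comm]
  refine add_le_add le_rfl ?_
  have hq : ∀ j, Sq V (D (b j) w) := fun j => sq_supp hV (D_cont (one _ hw) _) (D_supp hs _)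
  unfold En
  rw [← IV_sum fun j => (hq j).2]
  unfold IV
  rw [← integral_const_mul]
  refine integral_mono ?_ ?_ fun x => ?_
  · refine Integrable.const_mul ?_ _
    simp_rw [Finset.sum_mul]
    exact integrable_finsetSum _ fun j _ => (hq j).2
  · simp_rw [Finset.sum_mul]
    exact integrable_finsetSum _ fun i _ => integrable_finsetSum _ fun j _ =>
      int_supp hV ((D_smooth (D_smooth hV _) _).continuous.mul (hq _).1) (hq _).1 (D_supp hs _)
  · beta_reduce
    rw [← mul_assoc]
    exact mul_le_mul_of_nonneg_right (hH x fun j => D (b j) w x) (Real.exp_pos _).le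

theorem sq_of_le (hV : Smooth V) (hI : Integrable (fun x => (1 + x ⬝ᵥ x) * Real.exp (-V x)))
    (hf : Continuous f) (hle : ∀ x, f x ^ 2 ≤ 1 + x ⬝ᵥ x) : Sq V f := by
  refine ⟨hf, Integrable.mono' hI
    ((hf.pow 2).mul (rho_smooth hV).continuous).aestronglyMeasurable
    (Filter.Eventually.of_forall fun x => ?_)⟩
  rw [Real.norm_eq_abs, abs_of_nonneg (by positivity)]
  exact mul_le_mul_of_nonneg_right (hle x) (Real.exp_pos _).le

theorem sq_one (hV : Smooth V) (hI : Integrable (fun x => (1 + x ⬝ᵥ x) * Real.exp (-V x))) :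
    Sq V (fun _ => 1) :=
  sq_of_le hV hI continuous_const fun x => by
    have : 0 ≤ x ⬝ᵥ x := Finset.sum_nonneg fun i _ => mul_self_nonneg _
    linarith

theorem sq_coord (hV : Smooth V) (hI : Integrable (fun x => (1 + x ⬝ᵥ x) * Real.exp (-V x)))
    (i : ι) : Sq V (fun x => x i) :=
  sq_of_le hV hI (continuous_apply i) fun x => by
    have : x i * x i ≤ x ⬝ᵥ x := Finset.single_le_sum (f := fun i => x i * x i)
      (fun i _ => mul_self_nonneg _) (Finset.mem_univ i)
    nlinarith

theorem step [DecidableEq ι] {b d : ι → ι → ℝ} {t u κ : ℝ} {a : ι → ℝ}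
    (hbd : ∀ i j, d i ⬝ᵥ b j = if i = j then 1 else 0) (hV : Smooth V)
    (hH : ∀ x c : ι → ℝ, t * ∑ j, c j ^ 2 ≤ ∑ i, ∑ j, D (b i) (D (b j) V) x * c i * c j)
    (hI : Integrable (fun x => (1 + x ⬝ᵥ x) * Real.exp (-V x))) (hu : 0 < u)
    (hc : ∀ c : ι → ℝ, IV V (fun x => (∑ j, c j * (d j ⬝ᵥ (x - a))) ^ 2) ≤
      u * (∑ j, c j ^ 2) * IV V (fun _ => 1)) (hκ : 0 ≤ κ) (hP : PI b V κ)
    {w : (ι → ℝ) → ℝ} (hw : Smooth w) (hs : HasCompactSupport w) :
    (κ + t) * En b V w ≤ (1 + κ * u) * IV V (fun x => Lop b V w x ^ 2) := by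
  have h1 := sq_one hV hI
  have hb := boch hV hH hw hs
  have hq : ∀ j, Sq V (D (b j) w) := fun j => sq_supp hV (D_cont (one _ hw) _) (D_supp hs _)
  have hm : 0 < IV V (fun _ => 1) := by
    refine integral_pos_of_integrable_nonneg_nonzero (x := 0)
      (continuous_const.mul (rho_smooth hV).continuous) (by simpa using h1.2)
      (fun x => by positivity) (by positivity)
  set m := IV V (fun _ => 1) with hm'
  set c : ι → ℝ := fun j => IV V (D (b j) w) with hc'
  have s1 : ∀ j, κ * (IV V (fun x => D (b j) w x ^ 2) - c j ^ 2 / m) ≤ En b V (D (b j) w) := by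
    intro j
    have hsm := D_smooth hw (b j)
    have hD : ∀ i x, D (b i) (fun x => D (b j) w x - c j / m) x = D (b i) (D (b j) w) x := by
      intro i x
      rw [D_sub (one _ hsm) contDiff_const, D_const, sub_zero]
    have e0 : (fun x => D (b j) w x - c j / m) = fun x => 1 * D (b j) w x + (-(c j / m)) * 1 := by
      funext x; ring
    have e1 := IV_lin hV (hq j) h1 1 (-(c j / m))
    have e2 := IV_mul_lin hV h1 (hq j) h1 1 (-(c j / m))
    have e3 := ((hq j).lin hV h1 1 (-(c j / m))).2
    simp only [one_mul, mul_one, one_pow, ← sub_eq_add_neg] at e1 e2 e3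
    change _ = _ + _ * c j + _ * m at e1
    change _ = c j + _ * m at e2
    have h := hP (fun x => D (b j) w x - c j / m) ((one _ hsm).sub contDiff_const) e3
      (fun i => by
        simp_rw [hD]
        exact (sq_supp hV (D_cont (one _ hsm) _) (D_supp (D_supp hs _) _)).2)
      (by rw [e2]; field_simp; ring)
    unfold En at h ⊢
    simp_rw [hD] at h
    rw [e1] at h
    refine le_of_eq_of_le ?_ h
    field_simp
    ring
  set l : (ι → ℝ) → ℝ := fun x => ∑ j, c j * (d j ⬝ᵥ (x - a)) with hl
  have hlq : Sq V l := by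
    refine Sq.sum hV _ fun j => ?_
    have h2 : Sq V (fun x => d j ⬝ᵥ (x - a)) := by
      refine Sq.sum hV Finset.univ (F := fun i x => d j i * (x - a) i) fun i => ?_
      have h3 := (sq_coord hV hI i).lin hV h1 (d j i) (-(d j i * a i))
      have e : (fun x : ι → ℝ => d j i * (x - a) i) =
          fun x => d j i * x i + -(d j i * a i) * 1 := by
        funext x; simp only [Pi.sub_apply]; ring
      rw [e]; exact h3
    simpa using h2.lin hV h2 (c j) 0
  have hder : ∀ x, HasFDerivAt l (∑ j, c j • ∑ i, d j i •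
      (ContinuousLinearMap.proj i : (ι → ℝ) →L[ℝ] ℝ)) x := by
    intro x
    refine HasFDerivAt.fun_sum fun j _ => HasFDerivAt.const_mul ?_ _
    exact HasFDerivAt.fun_sum fun i _ =>
      HasFDerivAt.const_mul ((hasFDerivAt_apply i x).sub_const (a i)) _
  have hl1 : ContDiff ℝ 1 l := by
    refine ContDiff.sum fun j _ => contDiff_const.mul ?_
    exact ContDiff.sum fun i _ => contDiff_const.mul ((contDiff_apply ℝ ℝ i).sub contDiff_const)
  have hDl : ∀ i x, D (b i) l x = c i := by
    intro i x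
    unfold D
    rw [(hder x).fderiv]
    simp only [_root_.sum_apply, _root_.smul_apply, ContinuousLinearMap.proj_apply, smul_eq_mul]
    have : ∀ j, ∑ k, d j k * b i k = if j = i then 1 else 0 := fun j => hbd j i
    simp [this]
  have s2 := ibpL b hV hw hs hl1
  have e4 : ∀ j, IV V (fun x => D (b j) l x * D (b j) w x) = c j ^ 2 := by
    intro j
    simp_rw [hDl]
    rw [sq]
    change _ = c j * IV V (D (b j) w)
    unfold IV
    rw [← integral_const_mul]; congr 1; funext x; ring
  simp_rw [e4] at s2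
  have hLq := sq_supp hV (Lop_smooth b hV hw).continuous (Lop_supp b V hs)
  have hum : 0 < u * m := by positivity
  have s3 := amgm hV hLq hlq hum
  simp_rw [mul_comm (Lop b V w _)] at s3
  rw [s2, abs_neg] at s3
  have s4 : IV V (fun x => l x ^ 2) / (u * m) ≤ ∑ j, c j ^ 2 := by
    rw [div_le_iff₀ hum]
    exact (hc c).trans (le_of_eq (by ring))
  have s5 := le_abs_self (∑ j, c j ^ 2)
  have s6 : (∑ j, c j ^ 2) / m ≤ u * IV V (fun x => Lop b V w x ^ 2) := by
    rw [div_le_iff₀ hm]; nlinarith
  have s7 := Finset.sum_le_sum fun j (_ : j ∈ Finset.univ) => s1 j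
  rw [← Finset.mul_sum, Finset.sum_sub_distrib, ← Finset.sum_div] at s7
  change κ * (En b V w - _) ≤ _ at s7
  nlinarith [mul_le_mul_of_nonneg_left s6 hκ]

end Poincare

open Poincare in
theorem poincare (hD : DenseStmt) : PoincareStmt := by
  intro ι _ _ b d V t hV ht hbd hH hI f hf1 hf2 hf3 h0
  have h1 := sq_one hV hI
  constructor
  · refine dual hD hbd hV h1 ht (fun w hw hs => ?_) f hf1 hf2 hf3 h0
    have := boch hV hH hw hs
    have h2 : 0 ≤ ∑ j, En b V (D (b j) w) := Finset.sum_nonneg fun j _ => En_nonneg _ _ _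
    linarith
  · intro u a hu hc
    set s := √(t / u) with hs
    have hs0 : 0 ≤ s := Real.sqrt_nonneg _
    have hs2 : s ^ 2 * u = t := by
      rw [hs, Real.sq_sqrt (by positivity)]; field_simp
    have hcl : IsClosed {κ : ℝ | PI b V κ} := by
      unfold PI
      simp only [Set.ofPred_forall]
      refine isClosed_iInter fun f => isClosed_iInter fun _ => isClosed_iInter fun _ =>
        isClosed_iInter fun _ => isClosed_iInter fun _ => ?_
      exact isClosed_le (continuous_id.mul continuous_const) continuous_const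
    have hdown : ∀ κ κ' : ℝ, κ' ≤ κ → PI b V κ → PI b V κ' := fun κ κ' h hκ f g1 g2 g3 g4 =>
      (mul_le_mul_of_nonneg_right h (IV_sq_nonneg V f)).trans (hκ f g1 g2 g3 g4)
    have hz : PI b V 0 := fun f _ _ _ _ => by rw [zero_mul]; exact En_nonneg _ _ _
    have hK : IsCompact (Set.Icc 0 s ∩ {κ : ℝ | PI b V κ}) := isCompact_Icc.inter_right hcl
    obtain ⟨k, ⟨⟨hk0, hks⟩, hk⟩, hmax⟩ := hK.exists_isMaxOn ⟨0, ⟨le_rfl, hs0⟩, hz⟩
      continuous_id.continuousOn
    have hpos : 0 < 1 + k * u := by positivity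
    have hnext : PI b V ((k + t) / (1 + k * u)) := by
      refine dual hD hbd hV h1 (by positivity) fun w hw hws => ?_
      rw [div_mul_eq_mul_div, div_le_iff₀ hpos, mul_comm _ (1 + k * u)]
      exact step hbd hV hH hI hu hc hk0 hk hw hws
    have hle : min s ((k + t) / (1 + k * u)) ≤ k :=
      hmax (a := min s ((k + t) / (1 + k * u)))
        ⟨⟨le_min hs0 (by positivity), min_le_left _ _⟩, hdown _ _ (min_le_right _ _) hnext⟩
    have hsk : s ≤ k := by
      rcases min_le_iff.1 hle with h | h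
      · exact h
      · rw [div_le_iff₀ hpos] at h
        have h2 : s ^ 2 ≤ k ^ 2 := by
          refine le_of_mul_le_mul_right ?_ hu
          nlinarith
        exact (pow_le_pow_iff_left₀ hs0 hk0 two_ne_zero).1 h2
    exact hdown k s hsk hk f hf1 hf2 hf3 h0

end Pool.Agent.P.MP_d05bff_gt
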