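import Pool.Agent.P.MP_d05bff_gt.Basic

/-!
Poincare inequalities on polytopes; covariance and third moment bounds.
-/

namespace Pool.Agent.P.MP_d05bff_gt

open MeasureTheory Matrix Filter Topology

namespace Poly

variable {ι : Type} [Fintype ι]

/-- Continuous functions of at most exponential growth. -/
def PG (g : (ι → ℝ) → ℝ) : Prop :=
  Continuous g ∧ ∃ C c : ℝ, 0 ≤ C ∧ 0 ≤ c ∧ ∀ x, |g x| ≤ C * Real.exp (c * ∑ i, |x i|)

theorem PG.const (a : ℝ) : PG (fun _ : ι → ℝ => a) :=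
  ⟨continuous_const, |a|, 0, abs_nonneg a, le_rfl, fun x => by simp⟩

theorem PG.coord (i : ι) : PG (fun x : ι → ℝ => x i) := by
  refine ⟨continuous_apply i, 1, 1, zero_le_one, zero_le_one, fun x => ?_⟩
  have h1 : |x i| ≤ ∑ i, |x i| :=
    Finset.single_le_sum (f := fun i => |x i|) (fun _ _ => abs_nonneg _) (Finset.mem_univ i)
  have h2 := Real.add_one_le_exp (∑ i, |x i|)
  rw [one_mul, one_mul]
  linarith

theorem PG.add {f g : (ι → ℝ) → ℝ} (hf : PG f) (hg : PG g) : PG (fun x => f x + g x) := by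
  obtain ⟨h1, C, c, hC, hc, hf⟩ := hf
  obtain ⟨h2, C', c', hC', hc', hg⟩ := hg
  refine ⟨h1.add h2, C + C', c + c', by positivity, by positivity, fun x => ?_⟩
  have hS : 0 ≤ ∑ i, |x i| := Finset.sum_nonneg fun _ _ => abs_nonneg _
  have e1 : Real.exp (c * ∑ i, |x i|) ≤ Real.exp ((c + c') * ∑ i, |x i|) := by
    gcongr; linarith
  have e2 : Real.exp (c' * ∑ i, |x i|) ≤ Real.exp ((c + c') * ∑ i, |x i|) := by
    gcongr; linarith
  calc |f x + g x| ≤ |f x| + |g x| := abs_add_le _ _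
    _ ≤ C * Real.exp ((c + c') * ∑ i, |x i|) + C' * Real.exp ((c + c') * ∑ i, |x i|) :=
        add_le_add ((hf x).trans (by gcongr)) ((hg x).trans (by gcongr))
    _ = _ := by ring

theorem PG.mul {f g : (ι → ℝ) → ℝ} (hf : PG f) (hg : PG g) : PG (fun x => f x * g x) := by
  obtain ⟨h1, C, c, hC, hc, hf⟩ := hf
  obtain ⟨h2, C', c', hC', hc', hg⟩ := hg
  refine ⟨h1.mul h2, C * C', c + c', by positivity, by positivity, fun x => ?_⟩
  rw [abs_mul, add_mul, Real.exp_add]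
  calc |f x| * |g x| ≤ (C * Real.exp (c * ∑ i, |x i|)) * (C' * Real.exp (c' * ∑ i, |x i|)) :=
        mul_le_mul (hf x) (hg x) (abs_nonneg _) (by positivity)
    _ = _ := by ring

theorem PG.sum {α : Type*} (s : Finset α) {f : α → (ι → ℝ) → ℝ} (hf : ∀ a, PG (f a)) :
    PG (fun x => ∑ a ∈ s, f a x) := by
  classical
  induction s using Finset.induction_on with
  | empty => simpa using PG.const (ι := ι) 0
  | insert a s ha ih =>
    simp only [Finset.sum_insert ha]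
    exact (hf a).add ih

theorem PG.sq {f : (ι → ℝ) → ℝ} (hf : PG f) : PG (fun x => f x ^ 2) := by
  simp only [pow_two]
  exact hf.mul hf

theorem PG.sub_const {f : (ι → ℝ) → ℝ} (hf : PG f) (a : ℝ) : PG (fun x => f x - a) := by
  simp only [sub_eq_add_neg]
  exact hf.add (PG.const _)

theorem PG.dot (v a : ι → ℝ) : PG (fun x : ι → ℝ => v ⬝ᵥ (x - a)) :=
  PG.sum _ fun i => (PG.const (v i)).mul ((PG.coord i).sub_const (a i))

theorem PG.int {g : (ι → ℝ) → ℝ} (hg : PG g) {t : ℝ} (ht : 0 < t) (θ : ι → ℝ) :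
    Integrable (fun x => |g x| * wt t θ x) := by
  obtain ⟨h1, C, c, hC, hc, hg⟩ := hg
  have hs : 0 < √t := Real.sqrt_pos.2 ht
  refine (((integrable_exp_abs_gauss (ι := ι) ((c + ‖θ‖) / √t)).comp_smul hs.ne').const_mul
    C).mono' (by fun_prop) (ae_of_all _ fun x => ?_)
  have e : ∑ i, |(√t • x) i| = √t * ∑ i, |x i| := by
    rw [Finset.mul_sum]
    exact Finset.sum_congr rfl fun i _ => by
      rw [Pi.smul_apply, smul_eq_mul, abs_mul, abs_of_nonneg hs.le]
  have e2 : (√t • x) ⬝ᵥ (√t • x) = t * (x ⬝ᵥ x) := by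
    rw [smul_dotProduct, dotProduct_smul, smul_eq_mul, smul_eq_mul, ← mul_assoc,
      Real.mul_self_sqrt ht.le]
  have e3 : θ ⬝ᵥ x ≤ ‖θ‖ * ∑ i, |x i| := by
    rw [Finset.mul_sum]
    refine Finset.sum_le_sum fun i _ => (le_abs_self _).trans ?_
    rw [abs_mul]
    exact mul_le_mul_of_nonneg_right (norm_le_pi_norm θ i) (abs_nonneg _)
  rw [Real.norm_eq_abs, abs_mul, abs_abs, abs_of_pos (wt_pos t θ x), e, e2, ← mul_assoc (_ / _),
    div_mul_cancel₀ _ hs.ne']
  calc |g x| * wt t θ x ≤ C * Real.exp (c * ∑ i, |x i|) *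
        Real.exp (‖θ‖ * ∑ i, |x i| - t / 2 * (x ⬝ᵥ x)) := by
        refine mul_le_mul (hg x) ?_ (wt_pos t θ x).le (by positivity)
        unfold wt
        gcongr
    _ = _ := by
        rw [mul_assoc, ← Real.exp_add, ← Real.exp_add]
        congr 2
        ring

/-- The penalty term. -/
noncomputable def pen (s : Finset ((ι → ℝ) × ℝ)) (k : ℕ) (x : ι → ℝ) : ℝ :=
  ∑ p ∈ s, Real.exp ((k + 1 : ℝ) * (p.1 ⬝ᵥ x - p.2)) / (k + 1)

/-- The smooth approximating potentials. -/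
noncomputable def VV (s : Finset ((ι → ℝ) × ℝ)) (t : ℝ) (θ : ι → ℝ) (k : ℕ) (x : ι → ℝ) : ℝ :=
  t / 2 * (x ⬝ᵥ x) - θ ⬝ᵥ x + pen s k x

variable {s : Finset ((ι → ℝ) × ℝ)} {t : ℝ} {θ : ι → ℝ}

theorem pen_nonneg (k : ℕ) (x : ι → ℝ) : 0 ≤ pen s k x :=
  Finset.sum_nonneg fun _ _ => by positivity

theorem exp_VV (k : ℕ) (x : ι → ℝ) :
    Real.exp (-VV s t θ k x) = wt t θ x * Real.exp (-pen s k x) := by
  rw [wt, ← Real.exp_add, VV]
  congr 1
  ring

theorem smooth_VV (k : ℕ) : Smooth (VV s t θ k) := by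
  unfold VV pen dotProduct Smooth
  simp only [div_eq_mul_inv]
  fun_prop

theorem bound_VV (g : (ι → ℝ) → ℝ) (k : ℕ) (x : ι → ℝ) :
    ‖g x * Real.exp (-VV s t θ k x)‖ ≤ |g x| * wt t θ x := by
  rw [Real.norm_eq_abs, abs_mul, abs_of_pos (Real.exp_pos _), exp_VV]
  refine mul_le_mul_of_nonneg_left (mul_le_of_le_one_right (wt_pos t θ x).le ?_) (abs_nonneg _)
  exact Real.exp_le_one_iff.2 (neg_nonpos.2 (pen_nonneg k x))

theorem PG.meas {g : (ι → ℝ) → ℝ} (hg : PG g) (k : ℕ) :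
    AEStronglyMeasurable (fun x => g x * Real.exp (-VV s t θ k x)) volume :=
  (hg.1.mul (smooth_VV k).continuous.neg.rexp).aestronglyMeasurable

theorem PG.intV {g : (ι → ℝ) → ℝ} (hg : PG g) (ht : 0 < t) (k : ℕ) :
    Integrable (fun x => g x * Real.exp (-VV s t θ k x)) :=
  (hg.int ht θ).mono' (hg.meas k) (ae_of_all _ (bound_VV g k))

theorem pen_in {x : ι → ℝ} (hx : ∀ p ∈ s, p.1 ⬝ᵥ x ≤ p.2) :
    Tendsto (fun k => pen s k x) atTop (𝓝 0) := by
  have h : Tendsto (fun k : ℕ => ∑ p ∈ s, Real.exp ((k + 1 : ℝ) * (p.1 ⬝ᵥ x - p.2)) / (k + 1))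
      atTop (𝓝 (∑ _p ∈ s, 0)) := by
    refine tendsto_finsetSum _ fun p hp => ?_
    refine squeeze_zero (fun k => by positivity) (fun k => ?_) tendsto_one_div_add_atTop_nhds_zero_nat
    gcongr
    exact Real.exp_le_one_iff.2 (mul_nonpos_of_nonneg_of_nonpos (by positivity)
      (sub_nonpos.2 (hx p hp)))
  simpa [pen] using h

theorem pen_out {x : ι → ℝ} (hx : ¬ ∀ p ∈ s, p.1 ⬝ᵥ x ≤ p.2) :
    Tendsto (fun k => pen s k x) atTop atTop := by
  push Not at hx
  obtain ⟨p, hp, hx⟩ := hx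
  have hδ : 0 < p.1 ⬝ᵥ x - p.2 := sub_pos.2 hx
  set δ := p.1 ⬝ᵥ x - p.2 with hd
  have h1 : Tendsto (fun k : ℕ => (k : ℝ) * (δ ^ 2 / 2)) atTop atTop :=
    tendsto_natCast_atTop_atTop.atTop_mul_const (by positivity)
  refine tendsto_atTop_mono (fun k => ?_) h1
  refine le_trans ?_ (Finset.single_le_sum
    (f := fun p : (ι → ℝ) × ℝ => Real.exp ((k + 1 : ℝ) * (p.1 ⬝ᵥ x - p.2)) / (k + 1))
    (fun _ _ => by positivity) hp)
  rw [← hd, le_div_iff₀ (by positivity)]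
  have h2 := Real.quadratic_le_exp_of_nonneg (x := (k + 1 : ℝ) * δ) (by positivity)
  have h3 : (0 : ℝ) ≤ k := Nat.cast_nonneg k
  nlinarith [mul_nonneg h3 hδ.le, mul_nonneg h3 (sq_nonneg δ), sq_nonneg δ]

theorem PG.lim {K : Set (ι → ℝ)} (hK : IsBody K) (hs : K = {x | ∀ p ∈ s, p.1 ⬝ᵥ x ≤ p.2})
    (ht : 0 < t) {g : (ι → ℝ) → ℝ} (hg : PG g) :
    Tendsto (fun k => IV (VV s t θ k) g) atTop (𝓝 (Zf K t θ * Ex K t θ g)) := by
  rw [Ex, mul_div_cancel₀ _ (hK.Zf_pos t θ).ne', ← integral_indicator hK.measurableSet]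
  refine tendsto_integral_of_dominated_convergence _ (fun k => hg.meas k) (hg.int ht θ)
    (fun k => ae_of_all _ (bound_VV g k)) (ae_of_all _ fun x => ?_)
  simp only [exp_VV]
  by_cases hx : x ∈ K
  · rw [Set.indicator_of_mem hx]
    have h := ((pen_in (s := s) (by rwa [hs] at hx)).neg.rexp.const_mul (wt t θ x)).const_mul (g x)
    simpa using h
  · rw [Set.indicator_of_notMem hx]
    have h := ((Real.tendsto_exp_neg_atTop_nhds_zero.comp
      (pen_out (s := s) (by rwa [hs] at hx))).const_mul (wt t θ x)).const_mul (g x)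
    simpa using h

theorem D_of {f : (ι → ℝ) → ℝ} (hf : ContDiff ℝ 1 f) {v x : ι → ℝ} {a : ℝ}
    (h : HasDerivAt (fun r : ℝ => f (x + r • v)) a 0) : D v f x = a := by
  have h1 : HasDerivAt (fun r : ℝ => x + r • v) v 0 := by
    simpa using ((hasDerivAt_id (0 : ℝ)).smul_const v).const_add x
  have h2 := (hf.differentiable (by norm_num) (x + (0 : ℝ) • v)).hasFDerivAt.comp_hasDerivAt 0 h1
  rw [zero_smul, add_zero] at h2
  exact h2.unique h

theorem hd_dot (a x v : ι → ℝ) : HasDerivAt (fun r : ℝ => a ⬝ᵥ (x + r • v)) (a ⬝ᵥ v) 0 := by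
  simp only [dotProduct_add, dotProduct_smul, smul_eq_mul]
  simpa using ((hasDerivAt_id (0 : ℝ)).mul_const (a ⬝ᵥ v)).const_add (a ⬝ᵥ x)

theorem hd_exp (c : ℝ) (p : (ι → ℝ) × ℝ) (x v : ι → ℝ) :
    HasDerivAt (fun r : ℝ => Real.exp (c * (p.1 ⬝ᵥ (x + r • v) - p.2)))
      (Real.exp (c * (p.1 ⬝ᵥ x - p.2)) * (c * (p.1 ⬝ᵥ v))) 0 := by
  simpa using (((hd_dot p.1 x v).sub_const p.2).const_mul c).exp

theorem D_VV (k : ℕ) (w : ι → ℝ) : D w (VV s t θ k) = fun x => t * (w ⬝ᵥ x) - θ ⬝ᵥ w +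
    ∑ p ∈ s, Real.exp ((k + 1 : ℝ) * (p.1 ⬝ᵥ x - p.2)) * (p.1 ⬝ᵥ w) := by
  funext x
  refine D_of ((smooth_VV k).of_le (by exact_mod_cast le_top)) ?_
  have h1 : HasDerivAt (fun r : ℝ => (x + r • w) ⬝ᵥ (x + r • w)) (2 * (w ⬝ᵥ x)) 0 := by
    simp only [dotProduct_add, add_dotProduct, dotProduct_smul, smul_dotProduct, smul_eq_mul,
      dotProduct_comm x w]
    have h := hasDerivAt_id (0 : ℝ)
    convert! ((h.mul_const (w ⬝ᵥ x)).const_add (x ⬝ᵥ x)).add
      (h.mul ((h.mul_const (w ⬝ᵥ w)).const_add (w ⬝ᵥ x))) using 1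
    simp only [id]
    ring
  unfold VV pen
  convert! ((h1.const_mul (t / 2)).sub (hd_dot θ x w)).add
    (HasDerivAt.fun_sum fun p (_ : p ∈ s) => (hd_exp (k + 1) p x w).div_const (k + 1)) using 1
  congr 1
  · ring
  · refine Finset.sum_congr rfl fun p _ => ?_
    field_simp

theorem DD_VV (k : ℕ) (v w x : ι → ℝ) : D v (D w (VV s t θ k)) x = t * (w ⬝ᵥ v) +
    ∑ p ∈ s, Real.exp ((k + 1 : ℝ) * (p.1 ⬝ᵥ x - p.2)) * ((k + 1) * (p.1 ⬝ᵥ v)) * (p.1 ⬝ᵥ w) := by
  rw [D_VV]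
  refine D_of (by unfold dotProduct; fun_prop) ?_
  exact (((hd_dot w x v).const_mul t).sub_const _).add
    (HasDerivAt.fun_sum fun p (_ : p ∈ s) => (hd_exp (k + 1) p x v).mul_const _)

theorem hess_VV (k : ℕ) (b : ι → ι → ℝ) (ht : 0 < t)
    (hb : ∀ c : ι → ℝ, ∑ j, c j ^ 2 ≤ (∑ j, c j • b j) ⬝ᵥ (∑ j, c j • b j)) (x c : ι → ℝ) :
    t * ∑ j, c j ^ 2 ≤ ∑ i, ∑ j, D (b i) (D (b j) (VV s t θ k)) x * c i * c j := by
  have e : ∑ i, ∑ j, D (b i) (D (b j) (VV s t θ k)) x * c i * c j =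
      t * ((∑ j, c j • b j) ⬝ᵥ (∑ j, c j • b j)) + ∑ p ∈ s,
        Real.exp ((k + 1 : ℝ) * (p.1 ⬝ᵥ x - p.2)) * (k + 1) * (p.1 ⬝ᵥ ∑ j, c j • b j) ^ 2 := by
    have e0 : ∀ i j, D (b i) (D (b j) (VV s t θ k)) x * c i * c j = t * (b j ⬝ᵥ b i) * c i * c j +
        ∑ p ∈ s, Real.exp ((k + 1 : ℝ) * (p.1 ⬝ᵥ x - p.2)) * ((k + 1) * (p.1 ⬝ᵥ b i)) *
          (p.1 ⬝ᵥ b j) * c i * c j := fun i j => by
      rw [DD_VV, add_mul, add_mul, Finset.sum_mul, Finset.sum_mul]
    simp only [e0, Finset.sum_add_distrib]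
    congr 1
    · rw [dotProduct_sum, Finset.mul_sum]
      refine Finset.sum_congr rfl fun i _ => ?_
      rw [sum_dotProduct, Finset.mul_sum]
      refine Finset.sum_congr rfl fun j _ => ?_
      rw [smul_dotProduct, dotProduct_smul, smul_eq_mul, smul_eq_mul]
      ring
    · rw [Finset.sum_congr rfl fun i _ => Finset.sum_comm, Finset.sum_comm]
      refine Finset.sum_congr rfl fun p _ => ?_
      rw [dotProduct_sum, sq, Finset.sum_mul_sum, Finset.mul_sum]
      refine Finset.sum_congr rfl fun i _ => ?_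
      rw [Finset.mul_sum]
      refine Finset.sum_congr rfl fun j _ => ?_
      rw [dotProduct_smul, dotProduct_smul, smul_eq_mul, smul_eq_mul]
      ring
  rw [e]
  refine le_add_of_le_of_nonneg (mul_le_mul_of_nonneg_left (hb c) ht.le)
    (Finset.sum_nonneg fun _ _ => by positivity)

theorem IV_sq_sub (ht : 0 < t) (k : ℕ) {f : (ι → ℝ) → ℝ} (hf : PG f) (m : ℝ) :
    IV (VV s t θ k) (fun x => (f x - m) ^ 2) = IV (VV s t θ k) (fun x => f x ^ 2) -
      2 * m * IV (VV s t θ k) f + m ^ 2 * IV (VV s t θ k) (fun _ => 1) := by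
  unfold IV
  have h1 : Integrable (fun x => f x ^ 2 * Real.exp (-VV s t θ k x) -
      2 * m * (f x * Real.exp (-VV s t θ k x))) := (hf.sq.intV ht k).sub ((hf.intV ht k).const_mul _)
  rw [← integral_const_mul, ← integral_const_mul,
    ← integral_sub (hf.sq.intV ht k) ((hf.intV ht k).const_mul _),
    ← integral_add h1 (((PG.const 1).intV ht k).const_mul _)]
  congr 1
  funext x
  ring

theorem IV_sub (ht : 0 < t) (k : ℕ) {f : (ι → ℝ) → ℝ} (hf : PG f) (m : ℝ) :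
    IV (VV s t θ k) (fun x => f x - m) =
      IV (VV s t θ k) f - m * IV (VV s t θ k) (fun _ => 1) := by
  unfold IV
  rw [← integral_const_mul, ← integral_sub (hf.intV ht k) (((PG.const 1).intV ht k).const_mul _)]
  congr 1
  funext x
  ring

theorem IV_one_pos (ht : 0 < t) (k : ℕ) : 0 < IV (VV s t θ k) (fun _ => 1) := by
  unfold IV
  rw [integral_pos_iff_support_of_nonneg (fun x => by positivity) ((PG.const 1).intV ht k)]
  have : Function.support (fun x => 1 * Real.exp (-VV s t θ k x)) = Set.univ := by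
    ext x; simp
  rw [this]
  exact isOpen_univ.measure_pos _ Set.univ_nonempty

theorem IV_quad (ht : 0 < t) (k : ℕ) {l : ι → (ι → ℝ) → ℝ} (hl : ∀ j, PG (l j)) (c : ι → ℝ) :
    IV (VV s t θ k) (fun x => (∑ j, c j * l j x) ^ 2) =
      ∑ i, ∑ j, c i * c j * IV (VV s t θ k) (fun x => l i x * l j x) := by
  unfold IV
  simp only [← integral_const_mul]
  have hi : ∀ i j, Integrable (fun x => c i * c j * (l i x * l j x * Real.exp (-VV s t θ k x))) :=
    fun i j => (((hl i).mul (hl j)).intV ht k).const_mul _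
  rw [Finset.sum_congr rfl fun i _ => (integral_finsetSum _ fun j _ => hi i j).symm,
    ← integral_finsetSum _ fun i _ => integrable_finsetSum _ fun j _ => hi i j]
  congr 1
  funext x
  rw [sq, Finset.sum_mul_sum, Finset.sum_mul]
  refine Finset.sum_congr rfl fun i _ => ?_
  rw [Finset.sum_mul]
  exact Finset.sum_congr rfl fun j _ => by ring

theorem Ex_quad {K : Set (ι → ℝ)} (hK : IsBody K) {l : ι → (ι → ℝ) → ℝ}
    (hl : ∀ j, Continuous (l j)) (c : ι → ℝ) :
    Ex K t θ (fun x => (∑ j, c j * l j x) ^ 2) =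
      ∑ i, ∑ j, c i * c j * Ex K t θ (fun x => l i x * l j x) := by
  simp only [← Ex_const_mul]
  rw [Finset.sum_congr rfl fun i _ => (hK.Ex_sum t θ _ fun j => by fun_prop).symm,
    ← hK.Ex_sum t θ _ fun i => by fun_prop]
  congr 1
  funext x
  rw [sq, Finset.sum_mul_sum]
  exact Finset.sum_congr rfl fun i _ => Finset.sum_congr rfl fun j _ => by ring

/-- Variance for the tilted measure. -/
noncomputable def Var (K : Set (ι → ℝ)) (t : ℝ) (θ : ι → ℝ) (f : (ι → ℝ) → ℝ) : ℝ :=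
  Ex K t θ (fun x => f x ^ 2) - Ex K t θ f ^ 2

/-- Poincare inequality with constant `κ` along the family `b`. -/
def PI (K : Set (ι → ℝ)) (t : ℝ) (θ : ι → ℝ) (b : ι → ι → ℝ) (κ : ℝ) : Prop :=
  ∀ f : (ι → ℝ) → ℝ, ContDiff ℝ 1 f → PG f → (∀ j, PG (D (b j) f)) →
    κ * Var K t θ f ≤ ∑ j, Ex K t θ (fun x => D (b j) f x ^ 2)

theorem pass {K : Set (ι → ℝ)} (hK : IsBody K) (hs : K = {x | ∀ p ∈ s, p.1 ⬝ᵥ x ≤ p.2})
    (ht : 0 < t) (b : ι → ι → ℝ) {κ : ℝ} (κ' : ℕ → ℝ) (hκ : Tendsto κ' atTop (𝓝 κ))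
    (h : ∀ (k : ℕ) (f : (ι → ℝ) → ℝ), ContDiff ℝ 1 f → PG f → (∀ j, PG (D (b j) f)) →
      IV (VV s t θ k) f = 0 → κ' k * IV (VV s t θ k) (fun x => f x ^ 2) ≤
        ∑ j, IV (VV s t θ k) (fun x => D (b j) f x ^ 2)) : PI K t θ b κ := by
  intro f hf h0 h1
  have hZ := hK.Zf_pos t θ
  have l1 := (PG.const 1).lim (θ := θ) hK hs ht
  rw [hK.Ex_const, mul_one] at l1
  have l2 := h0.lim (θ := θ) hK hs ht
  have l3 := h0.sq.lim (θ := θ) hK hs ht
  have l4 := tendsto_finsetSum Finset.univ fun j _ => (h1 j).sq.lim (θ := θ) hK hs ht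
  have l5 := hκ.mul (l3.sub ((l2.pow 2).div l1 hZ.ne'))
  have key := le_of_tendsto_of_tendsto' l5 l4 fun k => by
    have hp := IV_one_pos (s := s) (θ := θ) ht k
    set m := IV (VV s t θ k) f / IV (VV s t θ k) (fun _ => 1) with hm
    have hD : ∀ j, D (b j) (fun x => f x - m) = D (b j) f := fun j => by
      funext x; simp only [D, fderiv_sub_const]
    have h2 := h k (fun x => f x - m) (hf.sub contDiff_const) (h0.sub_const m)
      (fun j => by rw [hD]; exact h1 j)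
      (by rw [IV_sub ht k h0, hm, div_mul_cancel₀ _ hp.ne', sub_self])
    simp only [hD] at h2
    rw [IV_sq_sub ht k h0] at h2
    refine le_of_eq_of_le ?_ h2
    congr 1
    simp only [Pi.div_apply, hm]
    field_simp
    ring
  rw [← Finset.mul_sum] at key
  refine le_of_mul_le_mul_left (le_of_eq_of_le ?_ key) hZ
  unfold Var
  field_simp

theorem poly [DecidableEq ι] (hP : PoincareStmt) {K : Set (ι → ℝ)} (hK : IsBody K) (ht : 0 < t)
    (b d : ι → ι → ℝ) (hbd : ∀ i j, d i ⬝ᵥ b j = if i = j then 1 else 0)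
    (hb : ∀ c : ι → ℝ, ∑ j, c j ^ 2 ≤ (∑ j, c j • b j) ⬝ᵥ (∑ j, c j • b j)) :
    PI K t θ b t ∧ ∀ (u : ℝ) (a : ι → ℝ), 0 < u →
      (∀ c : ι → ℝ, Ex K t θ (fun x => (∑ j, c j * (d j ⬝ᵥ (x - a))) ^ 2) ≤ u * ∑ j, c j ^ 2) →
      PI K t θ b (√(t / u)) := by
  obtain ⟨s, hs⟩ := hK.1
  have hI : PG (fun x : ι → ℝ => 1 + x ⬝ᵥ x) :=
    (PG.const 1).add (PG.sum _ fun i => (PG.coord i).mul (PG.coord i))
  have H := fun (k : ℕ) (f : (ι → ℝ) → ℝ) (hf : ContDiff ℝ 1 f) (h0 : PG f)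
    (h1 : ∀ j, PG (D (b j) f)) (h2 : IV (VV s t θ k) f = 0) =>
    hP ι b d (VV s t θ k) t (smooth_VV k) ht hbd (hess_VV k b ht hb) (hI.intV ht k) f hf
      (h0.sq.intV ht k) (fun j => (h1 j).sq.intV ht k) h2
  refine ⟨pass hK hs ht b (fun _ => t) tendsto_const_nhds
    fun k f hf h0 h1 h2 => (H k f hf h0 h1 h2).1, fun u a hu hc => ?_⟩
  have hZ := hK.Zf_pos t θ
  have l1 := (PG.const 1).lim (θ := θ) hK hs ht
  rw [hK.Ex_const, mul_one] at l1
  set M : ℕ → ι → ι → ℝ := fun k i j =>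
    IV (VV s t θ k) (fun x => (d i ⬝ᵥ (x - a)) * (d j ⬝ᵥ (x - a))) / IV (VV s t θ k) (fun _ => 1) -
      Ex K t θ (fun x => (d i ⬝ᵥ (x - a)) * (d j ⬝ᵥ (x - a))) with hM
  have l2 : ∀ i j, Tendsto (fun k => |M k i j|) atTop (𝓝 0) := fun i j => by
    have h := (((((PG.dot (d i) a).mul (PG.dot (d j) a)).lim (θ := θ) hK hs ht).div l1
      hZ.ne').sub_const (Ex K t θ (fun x => (d i ⬝ᵥ (x - a)) * (d j ⬝ᵥ (x - a))))).abs
    rwa [mul_div_cancel_left₀ _ hZ.ne', sub_self, abs_zero] at h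
  have l3 : Tendsto (fun k => u + ∑ i, ∑ j, |M k i j|) atTop (𝓝 u) := by
    simpa using (tendsto_finsetSum Finset.univ fun i _ =>
      tendsto_finsetSum Finset.univ fun j _ => l2 i j).const_add u
  refine pass hK hs ht b (fun k => √(t / (u + ∑ i, ∑ j, |M k i j|)))
    ((tendsto_const_nhds.div l3 hu.ne').sqrt) fun k f hf h0 h1 h2 => ?_
  refine (H k f hf h0 h1 h2).2 _ a (by positivity) fun c => ?_
  have hp := IV_one_pos (s := s) (θ := θ) ht k
  rw [IV_quad ht k (fun j => PG.dot (d j) a), ← div_le_iff₀ hp]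
  have h3 := hc c
  rw [Ex_quad hK (fun j => by fun_prop)] at h3
  have h4 : ∀ i, c i ^ 2 ≤ ∑ j, c j ^ 2 := fun i =>
    Finset.single_le_sum (f := fun j => c j ^ 2) (fun _ _ => sq_nonneg _) (Finset.mem_univ i)
  have h5 : ∑ i, ∑ j, c i * c j * M k i j ≤ (∑ i, ∑ j, |M k i j|) * ∑ j, c j ^ 2 := by
    rw [Finset.sum_mul]
    refine Finset.sum_le_sum fun i _ => ?_
    rw [Finset.sum_mul]
    refine Finset.sum_le_sum fun j _ => (le_abs_self _).trans ?_
    rw [abs_mul, mul_comm]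
    refine mul_le_mul_of_nonneg_left (abs_le.2 ⟨?_, ?_⟩) (abs_nonneg _)
    · nlinarith [h4 i, h4 j, sq_nonneg (c i + c j)]
    · nlinarith [h4 i, h4 j, sq_nonneg (c i - c j)]
  simp only [hM, mul_sub, Finset.sum_sub_distrib, ← mul_div_assoc, ← Finset.sum_div] at h5
  simp only [hM]
  linarith

theorem contDiff_dot (v a : ι → ℝ) : ContDiff ℝ 1 (fun x : ι → ℝ => v ⬝ᵥ (x - a)) := by
  simp only [dotProduct, Pi.sub_apply]
  fun_prop

theorem hd_dot' (v a x w : ι → ℝ) :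
    HasDerivAt (fun r : ℝ => v ⬝ᵥ (x + r • w - a)) (v ⬝ᵥ w) 0 := by
  simp only [dotProduct_sub]
  exact (hd_dot v x w).sub_const _

theorem cov_le [DecidableEq ι] {K : Set (ι → ℝ)} (hK : IsBody K) (ht : 0 < t)
    (h : PI K t θ (fun j => Pi.single j 1) t) (v : ι → ℝ) :
    v ⬝ᵥ cov K t θ *ᵥ v ≤ (v ⬝ᵥ v) / t := by
  have hD : ∀ j, D (Pi.single j 1) (fun x : ι → ℝ => v ⬝ᵥ (x - bar K t θ)) = fun _ => v j :=
    fun j => funext fun x => D_of (contDiff_dot _ _) (by
      have := hd_dot' v (bar K t θ) x (Pi.single j 1)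
      rwa [dotProduct_single_one] at this)
  have h1 := h _ (contDiff_dot v (bar K t θ)) (PG.dot _ _) fun j => by
    rw [hD]; exact PG.const _
  simp only [hD, hK.Ex_const, Var, hK.Ex_dot_sub_bar] at h1
  rw [← hK.cov_quad] at h1
  rw [le_div_iff₀ ht]
  simp only [dotProduct, ← sq] at h1 ⊢
  linarith

theorem quad [DecidableEq ι] {K : Set (ι → ℝ)} (hK : IsBody K) (e : ι → ι → ℝ)
    (he : ∀ i j, e i ⬝ᵥ e j = if i = j then 1 else 0) (β : ι → ℝ) (H : ι → ι → ℝ)
    (hH : ∀ j k, H j k = H k j) (v : ι → ℝ) (hT : ∀ j k, H j k * T3 K t θ v (e j) (e k) = H j k ^ 2)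
    {κ w : ℝ} (hκ : 0 < κ) (hw0 : 0 ≤ w) (h : PI K t θ (fun j => β j • e j) κ)
    (hw : ∀ l, β l ^ 2 * ((∑ k, H l k • e k) ⬝ᵥ cov K t θ *ᵥ (∑ k, H l k • e k)) ≤
      w * ∑ k, H l k ^ 2) :
    κ * ∑ j, ∑ k, H j k ^ 2 ≤ 4 * w * (v ⬝ᵥ cov K t θ *ᵥ v) := by
  set a := bar K t θ with ha
  set f : (ι → ℝ) → ℝ := fun x => ∑ j, ∑ k, H j k * ((e j ⬝ᵥ (x - a)) * (e k ⬝ᵥ (x - a))) with hf
  have hf1 : ContDiff ℝ 1 f :=
    ContDiff.sum fun j _ => ContDiff.sum fun k _ =>
      contDiff_const.mul ((contDiff_dot _ _).mul (contDiff_dot _ _))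
  have hf0 : PG f :=
    PG.sum _ fun j => PG.sum _ fun k => (PG.const _).mul ((PG.dot _ _).mul (PG.dot _ _))
  have hD : ∀ l, D (β l • e l) f = fun x => 2 * β l * ((∑ k, H l k • e k) ⬝ᵥ (x - a)) := by
    intro l
    funext x
    refine D_of hf1 ?_
    convert! HasDerivAt.fun_sum fun j (_ : j ∈ Finset.univ) =>
      HasDerivAt.fun_sum fun k (_ : k ∈ Finset.univ) =>
        ((hd_dot' (e j) a x (β l • e l)).fun_mul (hd_dot' (e k) a x (β l • e l))).const_mul (H j k)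
      using 1
    simp only [dotProduct_smul, he, smul_eq_mul, zero_smul, add_zero, mul_add,
      Finset.sum_add_distrib, sum_dotProduct, smul_dotProduct]
    have e1 : ∑ j, ∑ k, H j k * ((β l * if j = l then 1 else 0) * (e k ⬝ᵥ (x - a))) =
        β l * ∑ k, H l k * (e k ⬝ᵥ (x - a)) := by
      rw [Finset.sum_eq_single l (fun j _ hj => by simp [hj]) (by simp), Finset.mul_sum]
      exact Finset.sum_congr rfl fun k _ => by simp only [if_true]; ring
    have e2 : ∑ j, ∑ k, H j k * ((e j ⬝ᵥ (x - a)) * (β l * if k = l then 1 else 0)) =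
        β l * ∑ k, H l k * (e k ⬝ᵥ (x - a)) := by
      rw [Finset.mul_sum]
      refine Finset.sum_congr rfl fun j _ => ?_
      rw [Finset.sum_eq_single l (fun k _ hk => by simp [hk]) (by simp), hH j l]
      simp only [if_true]; ring
    rw [e1, e2]
    ring
  have h1 := h f hf1 hf0 fun l => by
    rw [hD]; exact (PG.const _).mul (PG.dot _ _)
  have h2 : ∑ l, Ex K t θ (fun x => D (β l • e l) f x ^ 2) ≤ 4 * w * ∑ j, ∑ k, H j k ^ 2 := by
    rw [Finset.mul_sum]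
    refine Finset.sum_le_sum fun l _ => ?_
    simp only [hD, mul_pow]
    rw [Ex_const_mul, ← hK.cov_quad]
    linarith [hw l]
  have h3 : ∑ j, ∑ k, H j k ^ 2 = Ex K t θ (fun x => (v ⬝ᵥ (x - a)) * (f x - Ex K t θ f)) := by
    have hc := hf0.1
    simp only [mul_sub]
    rw [hK.Ex_sub t θ (by fun_prop) (by fun_prop), Ex_mul_const,
      hK.Ex_dot_sub_bar, zero_mul, sub_zero]
    simp only [← hT, T3, ← Ex_const_mul]
    rw [Finset.sum_congr rfl fun i _ => (hK.Ex_sum t θ _ fun j => by fun_prop).symm,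
      ← hK.Ex_sum t θ _ fun i => by fun_prop]
    congr 1
    funext x
    simp only [hf, Finset.mul_sum]
    exact Finset.sum_congr rfl fun i _ => Finset.sum_congr rfl fun j _ => by ring
  have h4 : Ex K t θ (fun x => (f x - Ex K t θ f) ^ 2) = Var K t θ f := by
    have e1 : (fun x => (f x - Ex K t θ f) ^ 2) =
        fun x => (f x ^ 2 - 2 * Ex K t θ f * f x) + Ex K t θ f ^ 2 := by funext x; ring
    have hc := hf0.1
    rw [e1, hK.Ex_add t θ (by fun_prop) (by fun_prop), hK.Ex_sub t θ (by fun_prop) (by fun_prop),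
      Ex_const_mul, hK.Ex_const, Var]
    ring
  have h5 := hK.Ex_mul_sq_le t θ (f := fun x => v ⬝ᵥ (x - a)) (g := fun x => f x - Ex K t θ f)
    (by fun_prop) (hf0.1.sub continuous_const)
  rw [← h3, h4, ← hK.cov_quad] at h5
  have hq := hK.cov_quad_nonneg t θ v
  set S := ∑ j, ∑ k, H j k ^ 2
  have hS : 0 ≤ S := Finset.sum_nonneg fun _ _ => Finset.sum_nonneg fun _ _ => sq_nonneg _
  rcases hS.eq_or_lt with h0 | h0
  · rw [← h0, mul_zero]
    positivity
  · refine le_of_mul_le_mul_right ?_ h0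
    have h6 := mul_le_mul_of_nonneg_left (h1.trans h2) hq
    nlinarith [mul_le_mul_of_nonneg_left h5 hκ.le]

end Poly

/-- Covariance and third moment bounds on polytopes. -/
theorem t3 (hP : PoincareStmt) : T3Stmt := by
  intro ι _ _ K t θ hK ht
  have hsingle : ∀ i j : ι, (Pi.single i 1 : ι → ℝ) ⬝ᵥ Pi.single j 1 = if i = j then 1 else 0 :=
    fun i j => by rw [single_dotProduct, one_mul, Pi.single_apply]
  have hsum : ∀ c : ι → ℝ, ∑ j, c j • (Pi.single j 1 : ι → ℝ) = c := fun c => by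
    funext i; simp [Finset.sum_apply, Pi.single_apply]
  have h1 := (Poly.poly (θ := θ) hP hK ht (fun j => Pi.single j 1) (fun j => Pi.single j 1) hsingle
    (fun c => by rw [hsum]; simp only [dotProduct, sq, le_refl])).1
  have hcov := Poly.cov_le hK ht h1
  refine ⟨hcov, fun v => ?_, fun u i hu => ?_⟩
  · have h := Poly.quad hK (fun j => Pi.single j 1) hsingle (fun _ => 1)
      (fun j k => T3 K t θ v (Pi.single j 1) (Pi.single k 1)) (fun j k => T3_comm₂₃ _ _ _ _ _) v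
      (fun j k => (sq _).symm) ht (w := 1 / t) (by positivity) (by simpa only [one_smul] using h1)
      (fun l => by
        rw [hsum, one_pow, one_mul]
        refine (hcov _).trans (le_of_eq ?_)
        simp only [dotProduct, sq]
        ring)
    have h2 := h.trans (mul_le_mul_of_nonneg_left (hcov v) (by positivity))
    rw [le_div_iff₀ (by positivity)]
    field_simp at h2
    linarith
  · set β : ι → ℝ := fun j => √(max 1 (lam K t θ j / u)) with hβ
    have hβ2 : ∀ j, β j ^ 2 = max 1 (lam K t θ j / u) := fun j =>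
      Real.sq_sqrt (zero_le_one.trans (le_max_left _ _))
    have hβ0 : ∀ j, 0 < β j := fun j => Real.sqrt_pos.2 (one_pos.trans_le (le_max_left _ _))
    have hev : ∀ (c : ι → ℝ) (j : ι), evec K t θ j ⬝ᵥ ∑ k, c k • evec K t θ k = c j := by
      intro c j
      simp [dotProduct_sum, evec_dot]
    have h2 := (Poly.poly (θ := θ) hP hK ht (fun j => β j • evec K t θ j)
      (fun j => (β j)⁻¹ • evec K t θ j)
      (fun i j => by
        rw [smul_dotProduct, dotProduct_smul, evec_dot]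
        split_ifs with h
        · rw [h, smul_eq_mul, smul_eq_mul, mul_one, inv_mul_cancel₀ (hβ0 j).ne']
        · simp)
      (fun c => by
        simp only [smul_smul]
        rw [← sum_evec_dot_mul (K := K) t θ]
        refine Finset.sum_le_sum fun j _ => ?_
        rw [hev (fun k => c k * β k), ← sq, mul_pow, hβ2]
        exact le_mul_of_one_le_right (sq_nonneg _) (le_max_left _ _))).2 u (bar K t θ) hu
      (fun c => by
        have e : ∀ x, ∑ j, c j * (((β j)⁻¹ • evec K t θ j) ⬝ᵥ (x - bar K t θ)) =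
            (∑ j, (c j * (β j)⁻¹) • evec K t θ j) ⬝ᵥ (x - bar K t θ) := fun x => by
          simp only [sum_dotProduct, smul_dotProduct, smul_eq_mul, mul_assoc]
        simp only [e]
        rw [← hK.cov_quad, cov_quad_eq_sum, Finset.mul_sum]
        refine Finset.sum_le_sum fun j _ => ?_
        have h3 : lam K t θ j ≤ u * β j ^ 2 := by
          rw [hβ2, mul_comm, ← div_le_iff₀ hu]
          exact le_max_right _ _
        rw [hev (fun k => c k * (β k)⁻¹), mul_pow, inv_pow, ← div_eq_mul_inv, ← mul_div_assoc,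
          div_le_iff₀ (pow_pos (hβ0 j) 2)]
        nlinarith [mul_le_mul_of_nonneg_right h3 (sq_nonneg (c j))])
    set H : ι → ι → ℝ := fun j k => if lam K t θ j ≤ u ∧ lam K t θ k ≤ u then
      T3 K t θ (evec K t θ i) (evec K t θ j) (evec K t θ k) else 0 with hH
    have hs : 0 < √(t / u) := Real.sqrt_pos.2 (by positivity)
    have h := Poly.quad hK (evec K t θ) (evec_dot t θ) β H
      (fun j k => by simp only [hH, and_comm, T3_comm₂₃ t θ _ (evec K t θ j)]) (evec K t θ i)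
      (fun j k => by simp only [hH]; split_ifs <;> ring) hs hu.le h2
      (fun l => by
        rw [cov_quad_eq_sum, Finset.mul_sum, Finset.mul_sum]
        refine Finset.sum_le_sum fun k _ => ?_
        rw [hev (H l)]
        simp only [hH]
        split_ifs with h
        · rw [hβ2, max_eq_left ((div_le_one hu).2 h.1), one_mul]
          exact mul_le_mul_of_nonneg_right h.2 (sq_nonneg _)
        · simp)
    rw [← lam_eq] at h
    have e : ∀ j k, (if lam K t θ j ≤ u ∧ lam K t θ k ≤ u then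
        T3 K t θ (evec K t θ i) (evec K t θ j) (evec K t θ k) ^ 2 else 0) = H j k ^ 2 :=
      fun j k => by simp only [hH]; split_ifs <;> ring
    simp only [e]
    have e2 : √(u / t) = (√(t / u))⁻¹ := by rw [← Real.sqrt_inv, inv_div]
    rw [e2, ← div_eq_mul_inv, le_div_iff₀ hs]
    linarith

end Pool.Agent.P.MP_d05bff_gt
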