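import Pool.Agent.P.MP_d05bff_gt.PolyIface

/-!
Covariance and third moment bounds from the Poincare inequalities on polytopes.
-/

namespace Pool.Agent.P.MP_d05bff_gt

open MeasureTheory Matrix

namespace Poly2

variable {ι : Type} [Fintype ι] [DecidableEq ι] {K : Set (ι → ℝ)}

omit [DecidableEq ι] in
theorem hasFDerivAt_dot (v a x : ι → ℝ) : HasFDerivAt (fun x : ι → ℝ => v ⬝ᵥ (x - a))
    (∑ i, v i • (ContinuousLinearMap.proj i : (ι → ℝ) →L[ℝ] ℝ)) x := by
  have h : (fun x : ι → ℝ => v ⬝ᵥ (x - a)) = fun x =>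
      (∑ i, v i • (ContinuousLinearMap.proj i : (ι → ℝ) →L[ℝ] ℝ)) x - v ⬝ᵥ a := by
    funext x
    simp [dotProduct, mul_sub, Finset.sum_sub_distrib]
  rw [h]
  exact (ContinuousLinearMap.hasFDerivAt _).sub_const _

omit [DecidableEq ι] in
theorem contDiff_dot (v a : ι → ℝ) : ContDiff ℝ 1 (fun x : ι → ℝ => v ⬝ᵥ (x - a)) := by
  unfold dotProduct
  fun_prop

omit [DecidableEq ι] in
theorem D_dot (w v a x : ι → ℝ) : D w (fun x => v ⬝ᵥ (x - a)) x = v ⬝ᵥ w := by
  unfold D
  rw [(hasFDerivAt_dot v a x).fderiv]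
  simp [dotProduct]

/-- Quadratic form in the coordinates along the family `e`. -/
def Q (e H : ι → ι → ℝ) (a x : ι → ℝ) : ℝ :=
  ∑ j, ∑ k, H j k * ((e j ⬝ᵥ (x - a)) * (e k ⬝ᵥ (x - a)))

omit [DecidableEq ι] in
theorem contDiff_Q (e H : ι → ι → ℝ) (a : ι → ℝ) : ContDiff ℝ 1 (Q e H a) := by
  unfold Q
  exact ContDiff.sum fun j _ => ContDiff.sum fun k _ =>
    contDiff_const.mul ((contDiff_dot _ _).mul (contDiff_dot _ _))

omit [DecidableEq ι] in
theorem D_Q (e H : ι → ι → ℝ) (a w x : ι → ℝ) : D w (Q e H a) x =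
    ∑ j, ∑ k, H j k * ((e j ⬝ᵥ (x - a)) * (e k ⬝ᵥ w) + (e k ⬝ᵥ (x - a)) * (e j ⬝ᵥ w)) := by
  have h := HasFDerivAt.fun_sum (u := Finset.univ) fun j _ =>
    HasFDerivAt.fun_sum (u := Finset.univ) fun k _ =>
      ((hasFDerivAt_dot (e j) a x).fun_mul (hasFDerivAt_dot (e k) a x)).const_mul (H j k)
  unfold D Q
  rw [h.fderiv]
  simp [dotProduct, mul_add]

theorem D_Q_on {e H : ι → ι → ℝ} (he : ∀ i j, e i ⬝ᵥ e j = if i = j then 1 else 0)
    (hH : ∀ j k, H j k = H k j) (a x : ι → ℝ) (β : ℝ) (i : ι) :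
    D (β • e i) (Q e H a) x = β * (2 * ((∑ k, H i k • e k) ⬝ᵥ (x - a))) := by
  rw [D_Q, sum_dotProduct]
  simp only [dotProduct_smul, he, smul_eq_mul, mul_ite, mul_one, mul_zero, mul_add,
    Finset.sum_add_distrib, smul_dotProduct, Finset.sum_ite_eq', Finset.mem_univ, if_true]
  rw [Finset.sum_comm (f := fun j k => if j = i then H j k * ((e k ⬝ᵥ (x - a)) * β) else 0)]
  simp only [Finset.sum_ite_eq', Finset.mem_univ, if_true]
  rw [two_mul, mul_add, Finset.mul_sum]
  congr 1 <;> refine Finset.sum_congr rfl fun j _ => ?_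
  · rw [hH j i]; ring
  · ring

omit [DecidableEq ι] in
theorem cs (hK : IsBody K) (t : ℝ) (θ v : ι → ℝ) (e H : ι → ι → ℝ) :
    (∑ j, ∑ k, H j k * T3 K t θ v (e j) (e k)) ^ 2 ≤ (v ⬝ᵥ cov K t θ *ᵥ v) *
      Ex K t θ (fun x => (Q e H (bar K t θ) x - Ex K t θ (Q e H (bar K t θ))) ^ 2) := by
  have hc : Continuous (Q e H (bar K t θ)) := (contDiff_Q _ _ _).continuous
  have h := hK.Ex_mul_sq_le t θ (f := fun x => v ⬝ᵥ (x - bar K t θ))
    (g := fun x => Q e H (bar K t θ) x - Ex K t θ (Q e H (bar K t θ))) (by fun_prop) (by fun_prop)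
  rw [← hK.cov_quad] at h
  refine le_of_eq_of_le ?_ h
  congr 1
  simp only [mul_sub]
  rw [hK.Ex_sub t θ (by fun_prop) (by fun_prop), Ex_mul_const, hK.Ex_dot_sub_bar, zero_mul,
    sub_zero]
  unfold Q T3
  simp only [Finset.mul_sum]
  rw [hK.Ex_sum t θ _ fun j => by fun_prop]
  refine Finset.sum_congr rfl fun j _ => ?_
  rw [hK.Ex_sum t θ _ fun k => by fun_prop]
  refine Finset.sum_congr rfl fun k _ => ?_
  rw [← Ex_const_mul]
  congr 1
  funext x
  ring

omit [DecidableEq ι] in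
theorem Ex_sq (hK : IsBody K) (t : ℝ) (θ w : ι → ℝ) :
    Ex K t θ (fun x => (2 * (w ⬝ᵥ (x - bar K t θ))) ^ 2) = 4 * (w ⬝ᵥ cov K t θ *ᵥ w) := by
  rw [hK.cov_quad, ← Ex_const_mul]
  congr 1
  funext x
  ring

theorem norm_on {e : ι → ι → ℝ} (he : ∀ i j, e i ⬝ᵥ e j = if i = j then 1 else 0) (c : ι → ℝ) :
    (∑ j, c j • e j) ⬝ᵥ (∑ j, c j • e j) = ∑ j, c j ^ 2 := by
  rw [sum_dotProduct]
  refine Finset.sum_congr rfl fun j _ => ?_
  rw [dotProduct_sum]
  simp [he, sq]

theorem quad_evec (t : ℝ) (θ c : ι → ℝ) :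
    (∑ j, c j • evec K t θ j) ⬝ᵥ cov K t θ *ᵥ (∑ j, c j • evec K t θ j) =
      ∑ j, lam K t θ j * c j ^ 2 := by
  rw [cov_quad_eq_sum]
  refine Finset.sum_congr rfl fun j _ => ?_
  rw [dotProduct_sum]
  simp [evec_dot]

theorem single_on (i j : ι) :
    (Pi.single i 1 : ι → ℝ) ⬝ᵥ Pi.single j 1 = if i = j then 1 else 0 := by
  simp [Pi.single_apply, eq_comm]

theorem le_of_sq_le {S A : ℝ} (hA : 0 ≤ A) (h : S ^ 2 ≤ A * S) : S ≤ A := by
  by_contra hc
  push Not at hc
  nlinarith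

end Poly2

open Poly2 in
theorem t3_of_poly (h : PolyStmt) : T3Stmt := by
  intro ι _ _ K t θ hK ht
  have hstd := h ι K t θ (fun j => Pi.single j 1) (fun j => Pi.single j 1) hK ht single_on
    (fun c => (norm_on single_on c).ge)
  have h1 : ∀ v : ι → ℝ, v ⬝ᵥ cov K t θ *ᵥ v ≤ (v ⬝ᵥ v) / t := by
    intro v
    have := (hstd _ (contDiff_dot v (bar K t θ))).1
    simp only [D_dot, hK.Ex_dot_sub_bar, sub_zero, hK.Ex_const] at this
    rw [← hK.cov_quad] at this
    rw [le_div_iff₀ ht, mul_comm]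
    refine this.trans (le_of_eq ?_)
    simp [dotProduct, Pi.single_apply, sq]
  refine ⟨h1, fun v => ?_, fun u i hu => ?_⟩
  · set H : ι → ι → ℝ := fun j k => T3 K t θ v (Pi.single j 1) (Pi.single k 1) with hH
    have hs : ∀ j k, H j k = H k j := fun j k => T3_comm₂₃ t θ v _ _
    have h2 := (hstd _ (contDiff_Q (fun j => Pi.single j 1) H (bar K t θ))).1
    have h3 := cs hK t θ v (fun j => Pi.single j 1) H
    have hD : ∀ j x, D (Pi.single j 1) (Q (fun j => Pi.single j 1) H (bar K t θ)) x =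
        2 * ((∑ k, H j k • (Pi.single k 1 : ι → ℝ)) ⬝ᵥ (x - bar K t θ)) := by
      intro j x
      have := D_Q_on (e := fun j => Pi.single j 1) single_on hs (bar K t θ) x 1 j
      rwa [one_smul, one_mul] at this
    simp only [hD, Ex_sq hK] at h2
    have h4 : ∑ j, 4 * ((∑ k, H j k • (Pi.single k 1 : ι → ℝ)) ⬝ᵥ cov K t θ *ᵥ
        (∑ k, H j k • (Pi.single k 1 : ι → ℝ))) ≤ 4 * (∑ j, ∑ k, H j k ^ 2) / t := by
      rw [Finset.mul_sum, Finset.sum_div]
      refine Finset.sum_le_sum fun j _ => ?_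
      have := h1 (∑ k, H j k • (Pi.single k 1 : ι → ℝ))
      rw [norm_on (e := fun j => Pi.single j 1) single_on] at this
      rw [mul_div_assoc]
      linarith
    have e : ∑ j, ∑ k, H j k * T3 K t θ v (Pi.single j 1) (Pi.single k 1) =
        ∑ j, ∑ k, H j k ^ 2 := by simp only [hH, sq]
    rw [e] at h3
    set S := ∑ j, ∑ k, H j k ^ 2
    set W := Ex K t θ (fun x => (Q (fun j => Pi.single j 1) H (bar K t θ) x -
      Ex K t θ (Q (fun j => Pi.single j 1) H (bar K t θ))) ^ 2)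
    have hW0 : 0 ≤ W := hK.Ex_nonneg t θ fun x _ => sq_nonneg _
    have hW : W ≤ 4 * S / t / t := by
      rw [le_div_iff₀ ht]
      linarith
    have hv : 0 ≤ v ⬝ᵥ v := Finset.sum_nonneg fun i _ => mul_self_nonneg _
    refine le_of_sq_le (by positivity) (h3.trans ?_)
    calc _ ≤ (v ⬝ᵥ v) / t * (4 * S / t / t) :=
          mul_le_mul (h1 v) hW hW0 (by positivity)
      _ = _ := by field_simp
  · set e := evec K t θ with he
    set l := lam K t θ with hl
    set H : ι → ι → ℝ := fun j k =>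
      if l j ≤ u ∧ l k ≤ u then T3 K t θ (e i) (e j) (e k) else 0 with hH
    have hs : ∀ j k, H j k = H k j := by
      intro j k
      simp only [hH, and_comm (a := l j ≤ u), T3_comm₂₃ t θ (e i) (e j)]
    let β : ι → ℝ := fun j => √(max 1 (l j / u))
    have hβ2 : ∀ j, β j ^ 2 = max 1 (l j / u) := fun j =>
      Real.sq_sqrt (le_trans zero_le_one (le_max_left _ _))
    have hβ0 : ∀ j, 0 < β j := fun j => Real.sqrt_pos.2 (lt_of_lt_of_le one_pos (le_max_left _ _))
    have hon : ∀ i j, e i ⬝ᵥ e j = if i = j then 1 else 0 := evec_dot t θ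
    have h2 := (h ι K t θ (fun j => β j • e j) (fun j => (β j)⁻¹ • e j) hK ht
      (by
        intro a b
        rw [smul_dotProduct, dotProduct_smul, hon]
        split_ifs with hab
        · subst hab
          simp [(hβ0 a).ne']
        · simp)
      (by
        intro c
        simp only [smul_smul]
        rw [norm_on hon]
        refine Finset.sum_le_sum fun j _ => ?_
        rw [mul_pow, hβ2]
        nlinarith [le_max_left 1 (l j / u), sq_nonneg (c j)])
      _ (contDiff_Q e H (bar K t θ))).2 u hu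
      (by
        intro c
        have e1 : (fun x => (∑ j, c j * (((β j)⁻¹ • e j) ⬝ᵥ (x - bar K t θ))) ^ 2) =
            fun x => ((∑ j, (c j * (β j)⁻¹) • e j) ⬝ᵥ (x - bar K t θ)) ^ 2 := by
          funext x
          rw [sum_dotProduct]
          simp only [smul_dotProduct, smul_eq_mul, mul_assoc]
        rw [e1, ← hK.cov_quad, quad_evec, Finset.mul_sum]
        refine Finset.sum_le_sum fun j _ => ?_
        have h5 : l j ≤ u * β j ^ 2 := by
          rw [hβ2, mul_comm, ← div_le_iff₀ hu]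
          exact le_max_right _ _
        have h6 : 0 < β j ^ 2 := pow_pos (hβ0 j) 2
        rw [mul_pow, inv_pow, ← hl, ← div_eq_mul_inv, ← mul_div_assoc, div_le_iff₀ h6]
        nlinarith [sq_nonneg (c j)])
    have hD : ∀ j x, D (β j • e j) (Q e H (bar K t θ)) x =
        2 * ((∑ k, H j k • e k) ⬝ᵥ (x - bar K t θ)) := by
      intro j x
      rw [D_Q_on hon hs]
      by_cases hj : l j ≤ u
      · have : β j = 1 := by
          show √(max 1 (l j / u)) = 1
          rw [max_eq_left ((div_le_one hu).2 hj), Real.sqrt_one]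
        rw [this, one_mul]
      · simp [hH, hj]
    simp only [hD, Ex_sq hK] at h2
    have h4 : ∑ j, 4 * ((∑ k, H j k • e k) ⬝ᵥ cov K t θ *ᵥ (∑ k, H j k • e k)) ≤
        4 * u * ∑ j, ∑ k, H j k ^ 2 := by
      rw [Finset.mul_sum]
      refine Finset.sum_le_sum fun j _ => ?_
      rw [quad_evec, mul_assoc, Finset.mul_sum _ _ u]
      refine mul_le_mul_of_nonneg_left (Finset.sum_le_sum fun k _ => ?_) (by norm_num)
      by_cases hk : l k ≤ u
      · exact mul_le_mul_of_nonneg_right hk (sq_nonneg _)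
      · simp [hH, hk]
    have h3 := cs hK t θ (e i) e H
    have e1 : ∑ j, ∑ k, H j k * T3 K t θ (e i) (e j) (e k) = ∑ j, ∑ k, H j k ^ 2 := by
      refine Finset.sum_congr rfl fun j _ => Finset.sum_congr rfl fun k _ => ?_
      simp only [hH]
      split_ifs <;> simp [sq]
    have e2 : ∑ j, ∑ k, (if l j ≤ u ∧ l k ≤ u then T3 K t θ (e i) (e j) (e k) ^ 2 else 0) =
        ∑ j, ∑ k, H j k ^ 2 := by
      refine Finset.sum_congr rfl fun j _ => Finset.sum_congr rfl fun k _ => ?_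
      simp only [hH]
      split_ifs <;> simp
    rw [e1, ← lam_eq, ← hl] at h3
    rw [e2]
    set S := ∑ j, ∑ k, H j k ^ 2
    set W := Ex K t θ (fun x => (Q e H (bar K t θ) x - Ex K t θ (Q e H (bar K t θ))) ^ 2)
    have hli : 0 ≤ l i := hK.lam_nonneg t θ i
    have hsq : √(u / t) * √(t / u) = 1 := by
      rw [← Real.sqrt_mul (by positivity), show u / t * (t / u) = 1 by field_simp, Real.sqrt_one]
    have hW : W ≤ √(u / t) * (4 * u * S) := by
      calc W = √(u / t) * (√(t / u) * W) := by rw [← mul_assoc, hsq, one_mul]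
        _ ≤ _ := mul_le_mul_of_nonneg_left (h2.trans h4) (Real.sqrt_nonneg _)
    refine le_of_sq_le (by positivity) (h3.trans ?_)
    calc _ ≤ l i * (√(u / t) * (4 * u * S)) := mul_le_mul_of_nonneg_left hW hli
      _ = _ := by ring

end Pool.Agent.P.MP_d05bff_gt
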