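import Pool.Agent.P.MP_d05bff_gt.Basic

/-!
Statement of the Poincare inequalities on polytopes.
-/

namespace Pool.Agent.P.MP_d05bff_gt

open MeasureTheory Matrix

/-- Lichnerowicz and improved Lichnerowicz inequalities for tilted measures on polytopes. -/
def PolyStmt : Prop :=
  ∀ (ι : Type) [Fintype ι] [DecidableEq ι] (K : Set (ι → ℝ)) (t : ℝ) (θ : ι → ℝ)
    (b d : ι → ι → ℝ), IsBody K → 0 < t → (∀ i j, d i ⬝ᵥ b j = if i = j then 1 else 0) →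
    (∀ c : ι → ℝ, ∑ j, c j ^ 2 ≤ (∑ j, c j • b j) ⬝ᵥ (∑ j, c j • b j)) →
    ∀ f : (ι → ℝ) → ℝ, ContDiff ℝ 1 f →
      t * Ex K t θ (fun x => (f x - Ex K t θ f) ^ 2) ≤
        ∑ j, Ex K t θ (fun x => D (b j) f x ^ 2) ∧
      ∀ u : ℝ, 0 < u →
        (∀ c : ι → ℝ, Ex K t θ (fun x => (∑ j, c j * (d j ⬝ᵥ (x - bar K t θ))) ^ 2) ≤
          u * ∑ j, c j ^ 2) →
        √(t / u) * Ex K t θ (fun x => (f x - Ex K t θ f) ^ 2) ≤
          ∑ j, Ex K t θ (fun x => D (b j) f x ^ 2)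

end Pool.Agent.P.MP_d05bff_gt
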