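import Pool.Agent.P.MP_d05bff_gt.Mat

/-!
Splitting of lattices along almost tight dual sublattices, crude bound and duality.
-/

namespace Pool.Agent.P.MP_d05bff_gt

open Matrix MeasureTheory

namespace Split

theorem mc_mul {α β γ : Type} [Fintype β] (A : Matrix α β ℤ) (B : Matrix β γ ℤ) :
    mc (A * B) = mc A * mc B := by
  ext i j; simp [mc, mul_apply]

theorem mc_transpose {α β : Type} (A : Matrix α β ℤ) : mc Aᵀ = (mc A)ᵀ := rfl

theorem mc_one {α : Type} [DecidableEq α] : mc (1 : Matrix α α ℤ) = 1 := by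
  ext i j; by_cases h : i = j <;> simp [mc, one_apply, h]

theorem mc_zero {α β : Type} : mc (0 : Matrix α β ℤ) = 0 := by
  ext i j; simp [mc]

theorem mc_det {α : Type} [Fintype α] [DecidableEq α] (A : Matrix α α ℤ) :
    (mc A).det = (A.det : ℝ) := by
  rw [Int.cast_det]; rfl

theorem mc_mulVec {α β : Type} [Fintype β] (A : Matrix α β ℤ) (k : β → ℤ) :
    mc A *ᵥ zc k = zc (A *ᵥ k) := by
  ext i; simp [mc, zc, mulVec, dotProduct]

theorem inj_of_left {α β : Type} [Fintype α] [Fintype β] [DecidableEq β] {R : Type} [CommRing R]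
    {W : Matrix α β R} {W' : Matrix β α R} (h : W' * W = 1) : Function.Injective W.mulVec := by
  intro x y hxy
  have := congrArg (W' *ᵥ ·) hxy
  simpa [mulVec_mulVec, h] using this

theorem inj_mul {α β γ : Type} [Fintype β] [Fintype γ] {W : Matrix α β ℤ} {U : Matrix β γ ℤ}
    (hW : Function.Injective W.mulVec) (hU : Function.Injective U.mulVec) :
    Function.Injective (W * U).mulVec := by
  intro x y hxy
  apply hU; apply hW
  simpa [mulVec_mulVec] using hxy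

variable {ι κ : Type} [Fintype ι] [DecidableEq ι] [Fintype κ] [DecidableEq κ]

omit [DecidableEq ι] [Fintype κ] [DecidableEq κ] in
theorem conj_submatrix {γ : Type} (M : Matrix ι ι ℝ) (U : Matrix ι κ ℤ) (e : γ → κ) :
    (mc (U.submatrix id e))ᵀ * M * mc (U.submatrix id e) =
      ((mc U)ᵀ * M * mc U).submatrix e e := by
  ext i j; simp [mc, mul_apply]

omit [DecidableEq ι] [Fintype ι] [DecidableEq κ] in
theorem inj_submatrix {γ : Type} [Fintype γ] {U : Matrix ι κ ℤ} (hU : Function.Injective U.mulVec)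
    (e : γ ≃ κ) : Function.Injective (U.submatrix id e).mulVec := by
  intro x y hxy
  have h1 : ∀ z : γ → ℤ, (U.submatrix id e) *ᵥ z = U *ᵥ (z ∘ e.symm) := fun z => by
    rw [submatrix_mulVec_equiv]; rfl
  rw [h1, h1] at hxy
  have := hU hxy
  funext i
  simpa using congrFun this (e i)

/-- The defining inequality of `Cls` for an arbitrary finite index type. -/
theorem cls_gen {Q : Matrix ι ι ℝ} (hQ : Cls Q) (U : Matrix ι κ ℤ)
    (hU : Function.Injective U.mulVec) : 1 ≤ ((mc U)ᵀ * Q⁻¹ * mc U).det := by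
  have h := hQ.2 _ (U.submatrix id (Fintype.equivFin κ).symm) (inj_submatrix hU _)
  rwa [conj_submatrix, det_submatrix_equiv_self] at h

theorem det_le_conj (e : ι ≃ κ) (W : Matrix ι κ ℤ) (hW : Function.Injective W.mulVec)
    {Q : Matrix ι ι ℝ} (hQ : 0 ≤ Q.det) : Q.det ≤ ((mc W)ᵀ * Q * mc W).det := by
  rw [← det_submatrix_equiv_self e, ← conj_submatrix, det_mul, det_mul, det_transpose, mc_det]
  have h1 : (W.submatrix id e).det ≠ 0 := fun h0 => by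
    obtain ⟨v, hv, hv0⟩ := Matrix.exists_mulVec_eq_zero_iff.2 h0
    exact hv (inj_submatrix hW e (by rw [hv0, mulVec_zero]))
  have h2 : (1 : ℝ) ≤ ((W.submatrix id e).det : ℝ) ^ 2 := by
    have : (1 : ℤ) ≤ (W.submatrix id e).det ^ 2 := by
      have := sq_pos_of_ne_zero h1
      omega
    exact_mod_cast this
  nlinarith

omit [DecidableEq ι] in
theorem posDef_conj {Q : Matrix ι ι ℝ} (hQ : Q.PosDef) {W : Matrix ι κ ℤ} {W' : Matrix κ ι ℤ}
    (h : W' * W = 1) : ((mc W)ᵀ * Q * mc W).PosDef := by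
  have h1 : mc W' * mc W = 1 := by rw [← mc_mul, h, mc_one]
  have := hQ.conjTranspose_mul_mul_same (inj_of_left h1)
  rwa [conjTranspose_eq_transpose_of_trivial] at this

theorem inv_conj {Q : Matrix ι ι ℝ} (hQ : Q.PosDef) {W : Matrix ι κ ℤ} {W' : Matrix κ ι ℤ}
    (h1 : W * W' = 1) (h2 : W' * W = 1) :
    ((mc W)ᵀ * Q * mc W)⁻¹ = (mc W'ᵀ)ᵀ * Q⁻¹ * mc W'ᵀ := by
  have hu : IsUnit Q.det := hQ.det_pos.ne'.isUnit
  have e1 : mc W * mc W' = 1 := by rw [← mc_mul, h1, mc_one]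
  have e2 : (mc W)ᵀ * (mc W')ᵀ = 1 := by rw [← transpose_mul, ← mc_mul, h2, mc_one, transpose_one]
  apply inv_eq_right_inv
  rw [mc_transpose, transpose_transpose]
  calc (mc W)ᵀ * Q * mc W * (mc W' * Q⁻¹ * (mc W')ᵀ)
      = (mc W)ᵀ * (Q * ((mc W * mc W') * Q⁻¹)) * (mc W')ᵀ := by simp only [Matrix.mul_assoc]
    _ = 1 := by rw [e1, Matrix.one_mul, mul_nonsing_inv _ hu, Matrix.mul_one, e2]

theorem cls_conj {Q : Matrix ι ι ℝ} (hQ : Cls Q) {W : Matrix ι κ ℤ} {W' : Matrix κ ι ℤ}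
    (h1 : W * W' = 1) (h2 : W' * W = 1) : Cls ((mc W)ᵀ * Q * mc W) := by
  refine ⟨posDef_conj hQ.1 h2, fun r U hU => ?_⟩
  have h3 : Function.Injective (W'ᵀ).mulVec :=
    inj_of_left (W' := Wᵀ) (by rw [← transpose_mul, h2, transpose_one])
  have h := hQ.2 r (W'ᵀ * U) (inj_mul h3 hU)
  rw [inv_conj hQ.1 h1 h2]
  rw [mc_mul, transpose_mul] at h
  simpa only [Matrix.mul_assoc] using h

section Block

variable {α β : Type} [Fintype α] [DecidableEq α] [Fintype β] [DecidableEq β]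

omit [Fintype α] [DecidableEq α] [Fintype β] [DecidableEq β] in
theorem posDef₁₁ {Q : Matrix (α ⊕ β) (α ⊕ β) ℝ} (hQ : Q.PosDef) : Q.toBlocks₁₁.PosDef :=
  hQ.submatrix (e := Sum.inl) Sum.inl_injective

omit [Fintype α] [DecidableEq α] [Fintype β] [DecidableEq β] in
theorem posDef₂₂ {Q : Matrix (α ⊕ β) (α ⊕ β) ℝ} (hQ : Q.PosDef) : Q.toBlocks₂₂.PosDef :=
  hQ.submatrix (e := Sum.inr) Sum.inr_injective

omit [Fintype α] [DecidableEq α] [Fintype β] [DecidableEq β] in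
theorem block_symm {Q : Matrix (α ⊕ β) (α ⊕ β) ℝ} (hQ : Q.PosDef) :
    Q.toBlocks₂₁ = Q.toBlocks₁₂ᵀ := by
  ext i j
  have := congrFun (congrFun (Mat.symm_of_posDef hQ) (Sum.inr i)) (Sum.inl j)
  simpa [toBlocks₂₁, toBlocks₁₂] using this.symm

theorem block_eqs {Q : Matrix (α ⊕ β) (α ⊕ β) ℝ} (hQ : Q.PosDef) :
    Q.toBlocks₁₁ * Q⁻¹.toBlocks₁₁ + Q.toBlocks₁₂ * Q⁻¹.toBlocks₂₁ = 1 ∧
    Q.toBlocks₂₁ * Q⁻¹.toBlocks₁₁ + Q.toBlocks₂₂ * Q⁻¹.toBlocks₂₁ = 0 ∧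
    Q.toBlocks₂₁ * Q⁻¹.toBlocks₁₂ + Q.toBlocks₂₂ * Q⁻¹.toBlocks₂₂ = 1 := by
  have hu : IsUnit Q.det := hQ.det_pos.ne'.isUnit
  have h := mul_nonsing_inv Q hu
  rw [← fromBlocks_toBlocks Q⁻¹] at h
  nth_rewrite 1 [← fromBlocks_toBlocks Q] at h
  rw [fromBlocks_multiply, ← fromBlocks_one, fromBlocks_inj] at h
  exact ⟨h.1, h.2.2.1, h.2.2.2⟩

theorem inv₁₁ {Q : Matrix (α ⊕ β) (α ⊕ β) ℝ} (hQ : Q.PosDef) :
    (Q⁻¹.toBlocks₁₁)⁻¹ = Q.toBlocks₁₁ - Q.toBlocks₁₂ * Q.toBlocks₂₂⁻¹ * Q.toBlocks₂₁ := by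
  obtain ⟨h1, h2, -⟩ := block_eqs hQ
  have hu : IsUnit Q.toBlocks₂₂.det := (posDef₂₂ hQ).det_pos.ne'.isUnit
  apply inv_eq_left_inv
  have h3 : Q.toBlocks₂₁ * Q⁻¹.toBlocks₁₁ = -(Q.toBlocks₂₂ * Q⁻¹.toBlocks₂₁) :=
    eq_neg_of_add_eq_zero_left h2
  rw [Matrix.sub_mul, Matrix.mul_assoc, h3, Matrix.mul_neg, sub_neg_eq_add, Matrix.mul_assoc,
    nonsing_inv_mul_cancel_left _ _ hu, h1]

theorem inv₂₂ {Q : Matrix (α ⊕ β) (α ⊕ β) ℝ} (hQ : Q.PosDef) :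
    Q.toBlocks₂₂⁻¹ =
      Q⁻¹.toBlocks₂₂ - Q⁻¹.toBlocks₂₁ * (Q⁻¹.toBlocks₁₁)⁻¹ * Q⁻¹.toBlocks₁₂ := by
  obtain ⟨-, h2, h3⟩ := block_eqs hQ
  have hu : IsUnit Q⁻¹.toBlocks₁₁.det := (posDef₁₁ hQ.inv).det_pos.ne'.isUnit
  apply inv_eq_right_inv
  have h4 : Q.toBlocks₂₂ * Q⁻¹.toBlocks₂₁ = -(Q.toBlocks₂₁ * Q⁻¹.toBlocks₁₁) :=
    eq_neg_of_add_eq_zero_right h2
  rw [Matrix.mul_sub, ← Matrix.mul_assoc, ← Matrix.mul_assoc, h4, Matrix.neg_mul, Matrix.neg_mul,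
    sub_neg_eq_add, mul_nonsing_inv_cancel_right _ _ hu, add_comm, h3]

theorem det_block₂₂ {Q : Matrix (α ⊕ β) (α ⊕ β) ℝ} (hQ : Q.PosDef) :
    Q.det * Q⁻¹.toBlocks₁₁.det = Q.toBlocks₂₂.det := by
  have hu : IsUnit Q.toBlocks₂₂.det := (posDef₂₂ hQ).det_pos.ne'.isUnit
  have hu' : IsUnit Q⁻¹.toBlocks₁₁.det := (posDef₁₁ hQ.inv).det_pos.ne'.isUnit
  let _ := invertibleOfIsUnitDet _ hu
  have h := det_fromBlocks₂₂ Q.toBlocks₁₁ Q.toBlocks₁₂ Q.toBlocks₂₁ Q.toBlocks₂₂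
  rw [fromBlocks_toBlocks, invOf_eq_nonsing_inv, ← inv₁₁ hQ] at h
  rw [h, mul_assoc, ← det_mul, nonsing_inv_mul _ hu', det_one, mul_one]

theorem qf_block {Q : Matrix (α ⊕ β) (α ⊕ β) ℝ} (hQ : Q.PosDef) (x : α → ℝ) (y : β → ℝ) :
    qf Q (Sum.elim x y) = qf (Q⁻¹.toBlocks₁₁)⁻¹ x +
      qf Q.toBlocks₂₂ (y + (Q.toBlocks₂₂⁻¹ * Q.toBlocks₂₁) *ᵥ x) := by
  have hu : IsUnit Q.toBlocks₂₂.det := (posDef₂₂ hQ).det_pos.ne'.isUnit
  let _ := invertibleOfIsUnitDet _ hu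
  have h := schur_complement_eq₂₂ Q.toBlocks₁₁ Q.toBlocks₁₂ x y (posDef₂₂ hQ).1
  rw [conjTranspose_eq_transpose_of_trivial, ← block_symm hQ, fromBlocks_toBlocks, ← inv₁₁ hQ] at h
  simp only [star_trivial, ← dotProduct_mulVec] at h
  unfold qf
  rw [h, add_comm, add_comm y]

theorem cls₁₁ {Q : Matrix (α ⊕ β) (α ⊕ β) ℝ} (hQ : Cls Q) : Cls (Q⁻¹.toBlocks₁₁)⁻¹ := by
  have hP := posDef₁₁ hQ.1.inv
  refine ⟨hP.inv, fun r U hU => ?_⟩
  rw [nonsing_inv_nonsing_inv _ hP.det_pos.ne'.isUnit]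
  have h1 : Function.Injective (fromRows U (0 : Matrix β (Fin r) ℤ)).mulVec := by
    intro x y hxy
    apply hU
    funext i
    simpa using congrFun hxy (Sum.inl i)
  have h := hQ.2 r _ h1
  convert h using 2
  ext i j
  simp [mc, mul_apply, toBlocks₁₁]

theorem cls₂₂ {Q : Matrix (α ⊕ β) (α ⊕ β) ℝ} (hQ : Cls Q) {c : ℝ} (hc : 1 ≤ c)
    (hd : Q⁻¹.toBlocks₁₁.det ≤ c) : Cls (c⁻¹ • Q.toBlocks₂₂) := by
  have hP := posDef₁₁ hQ.1.inv
  have h22 := posDef₂₂ hQ.1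
  have hc0 : 0 < c := by linarith
  refine ⟨h22.smul (inv_pos.2 hc0), fun s U hU => ?_⟩
  have hi : (c⁻¹ • Q.toBlocks₂₂)⁻¹ = c • Q.toBlocks₂₂⁻¹ := by
    apply inv_eq_right_inv
    rw [Matrix.smul_mul, Matrix.mul_smul, smul_smul, inv_mul_cancel₀ hc0.ne', one_smul,
      mul_nonsing_inv _ h22.det_pos.ne'.isUnit]
  rw [hi, Matrix.mul_smul, Matrix.smul_mul, det_smul, Fintype.card_fin]
  rcases Nat.eq_zero_or_pos s with rfl | hs
  · simp
  have h1 : Function.Injective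
      (fromBlocks (1 : Matrix α α ℤ) (0 : Matrix α (Fin s) ℤ) (0 : Matrix β α ℤ) U).mulVec := by
    intro x y hxy
    rw [fromBlocks_mulVec, fromBlocks_mulVec] at hxy
    funext i
    rcases i with i | i
    · simpa using congrFun hxy (Sum.inl i)
    · have : U *ᵥ (x ∘ Sum.inr) = U *ᵥ (y ∘ Sum.inr) := by
        funext j
        simpa using congrFun hxy (Sum.inr j)
      exact congrFun (hU this) i
  have h := cls_gen hQ _ h1
  have h2 : mc (fromBlocks (1 : Matrix α α ℤ) (0 : Matrix α (Fin s) ℤ) (0 : Matrix β α ℤ) U) =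
      fromBlocks 1 0 0 (mc U) := by
    rw [← mc_one, ← mc_zero, ← mc_zero]
    ext (i | i) (j | j) <;> rfl
  let _ := invertibleOfIsUnitDet _ hP.det_pos.ne'.isUnit
  rw [h2, ← fromBlocks_toBlocks Q⁻¹, fromBlocks_transpose, fromBlocks_multiply,
    fromBlocks_multiply] at h
  simp only [transpose_one, transpose_zero, Matrix.one_mul, Matrix.zero_mul, Matrix.mul_one,
    Matrix.mul_zero, add_zero, zero_add] at h
  rw [det_fromBlocks₁₁, invOf_eq_nonsing_inv] at h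
  have h3 : (mc U)ᵀ * Q⁻¹.toBlocks₂₂ * mc U -
      (mc U)ᵀ * Q⁻¹.toBlocks₂₁ * (Q⁻¹.toBlocks₁₁)⁻¹ * (Q⁻¹.toBlocks₁₂ * mc U) =
      (mc U)ᵀ * Q.toBlocks₂₂⁻¹ * mc U := by
    rw [inv₂₂ hQ.1]
    simp only [Matrix.mul_sub, Matrix.sub_mul, Matrix.mul_assoc]
  rw [h3] at h
  set d := ((mc U)ᵀ * Q.toBlocks₂₂⁻¹ * mc U).det
  have hp := hP.det_pos
  have hd0 : 0 < d := by
    by_contra hn
    push Not at hn
    nlinarith
  have h4 : c ≤ c ^ s := le_self_pow₀ hc hs.ne'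
  nlinarith

theorem ff_block (hF : FFStmt) {Q : Matrix (α ⊕ β) (α ⊕ β) ℝ} (hQ : Q.PosDef) :
    FF Q ≤ FF (Q⁻¹.toBlocks₁₁)⁻¹ + FF Q.toBlocks₂₂ :=
  hF.2.2 α β Q _ _ _ hQ (posDef₁₁ hQ.inv).inv (posDef₂₂ hQ) (qf_block hQ)

omit [Fintype α] [DecidableEq α] [Fintype β] [DecidableEq β] [DecidableEq ι] in
theorem conj₁₁ (M : Matrix ι ι ℝ) (W : Matrix ι (α ⊕ β) ℤ) :
    ((mc W)ᵀ * M * mc W).toBlocks₁₁ = (mc W.toCols₁)ᵀ * M * mc W.toCols₁ := by
  ext i j; simp [mc, mul_apply, toBlocks₁₁]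

omit [Fintype α] [DecidableEq α] [Fintype β] [DecidableEq β] [DecidableEq ι] in
theorem conj₂₂ (M : Matrix ι ι ℝ) (W : Matrix ι (α ⊕ β) ℤ) :
    ((mc W)ᵀ * M * mc W).toBlocks₂₂ = (mc W.toCols₂)ᵀ * M * mc W.toCols₂ := by
  ext i j; simp [mc, mul_apply, toBlocks₂₂]

end Block

theorem inj_of_det {E : Matrix ι ι ℤ} (hE : E.det ≠ 0) : Function.Injective E.mulVec := by
  intro x y hxy
  by_contra h
  apply hE
  exact Matrix.exists_mulVec_eq_zero_iff.1 ⟨x - y, sub_ne_zero.2 h, by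
    rw [mulVec_sub, hxy, sub_self]⟩

theorem split1 (hF : FFStmt) (n r : ℕ) (Q : Matrix (Fin n) (Fin n) ℝ)
    (U : Matrix (Fin n) (Fin r) ℤ) (κ : ℝ) (hQ : Cls Q) (hU : Function.Injective U.mulVec)
    (hκ : 0 ≤ κ) (hd : ((mc U)ᵀ * Q⁻¹ * mc U).det ≤ 1 + κ) :
    ∃ (l : ℕ) (Q₁ : Matrix (Fin r) (Fin r) ℝ) (Q₂ : Matrix (Fin l) (Fin l) ℝ),
      r + l = n ∧ Cls Q₁ ∧ Cls Q₂ ∧ FF Q ≤ FF Q₁ + (1 + κ) * FF Q₂ := by
  obtain ⟨l, W, W', E, hl, h1, h2, hE, hUW⟩ := Mat.smith n r U hU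
  have h1' : W'ᵀ * Wᵀ = 1 := by rw [← transpose_mul, h1, transpose_one]
  have h2' : Wᵀ * W'ᵀ = 1 := by rw [← transpose_mul, h2, transpose_one]
  set Q' := (mc W'ᵀ)ᵀ * Q * mc W'ᵀ with hQ'
  have hC : Cls Q' := cls_conj hQ h1' h2'
  have hi : Q'⁻¹ = (mc W)ᵀ * Q⁻¹ * mc W := by rw [hQ', inv_conj hQ.1 h1' h2', transpose_transpose]
  have hP := posDef₁₁ hC.1.inv
  have hd' : Q'⁻¹.toBlocks₁₁.det ≤ 1 + κ := by
    refine le_trans (det_le_conj (Equiv.refl _) E (inj_of_det hE) hP.det_pos.le) ?_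
    rw [hUW, mc_mul, transpose_mul] at hd
    rw [hi, conj₁₁]
    simpa only [Matrix.mul_assoc] using hd
  have hc : (1 : ℝ) ≤ 1 + κ := by linarith
  refine ⟨l, _, _, hl, cls₁₁ hC, cls₂₂ hC hc hd', ?_⟩
  have e1 : FF Q' = FF Q := hF.2.1 _ _ Q _ _ hQ.1 h1' h2'
  have e2 := (hF.1 _ _ (posDef₂₂ hC.1)).2.2.1 (1 + κ)⁻¹ (by positivity)
  rw [e2, ← mul_assoc, mul_inv_cancel₀ (by positivity), one_mul, ← e1]
  exact ff_block hF hC.1

theorem det_le_one {Q : Matrix ι ι ℝ} (hQ : Cls Q) : Q.det ≤ 1 := by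
  have h := cls_gen hQ (1 : Matrix ι ι ℤ) (inj_of_left (W' := 1) (Matrix.one_mul _))
  rw [mc_one, transpose_one, Matrix.one_mul, Matrix.mul_one, det_nonsing_inv,
    Ring.inverse_eq_inv'] at h
  have := hQ.1.det_pos
  rwa [one_le_inv₀ this] at h

theorem minkowski [Nonempty ι] {Q : Matrix ι ι ℝ} (hQ : Q.PosDef) (hd : Q.det ≤ 1) :
    ∃ k : ι → ℤ, k ≠ 0 ∧ qf Q (zc k) ≤ 4 * Fintype.card ι := by
  obtain ⟨g, hg, rfl⟩ := Mat.exists_sq hQ
  let b := Pi.basisFun ℝ ι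
  have fund := ZSpan.isAddFundamentalDomain' b (volume : Measure (ι → ℝ))
  let s : Set (ι → ℝ) := (toLin' g) ⁻¹' Metric.closedBall 0 2
  have hs : ∀ x ∈ s, -x ∈ s := fun x hx => by simpa [s, mulVec_neg] using hx
  have hc : Convex ℝ s := (convex_closedBall _ _).linear_preimage _
  have hg1 : |g.det| ≤ 1 := by
    rw [det_mul, det_transpose] at hd
    rw [← sq_le_one_iff_abs_le_one]; nlinarith
  have hv : volume (ZSpan.fundamentalDomain b) * 2 ^ Module.finrank ℝ (ι → ℝ) < volume s := by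
    rw [ZSpan.fundamentalDomain_pi_basisFun, volume_pi, Measure.pi_pi, Real.volume_Ico, sub_zero,
      ENNReal.ofReal_one, Finset.prod_const_one, one_mul, Module.finrank_fintype_fun_eq_card,
      ← volume_pi, Measure.addHaar_preimage_linearMap _ (by rwa [LinearMap.det_toLin']),
      LinearMap.det_toLin', Real.volume_pi_closedBall _ (by norm_num),
      ← ENNReal.ofReal_mul (abs_nonneg _)]
    have : (2 : ENNReal) ^ Fintype.card ι = ENNReal.ofReal (2 ^ Fintype.card ι) := by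
      rw [ENNReal.ofReal_pow (by norm_num)]; simp
    rw [this, ENNReal.ofReal_lt_ofReal_iff_of_nonneg (by positivity)]
    have h1 : 1 ≤ |g.det⁻¹| := by
      rw [abs_inv, one_le_inv₀ (abs_pos.2 hg)]; exact hg1
    have h2 : (2 : ℝ) ^ Fintype.card ι < (2 * 2) ^ Fintype.card ι :=
      pow_lt_pow_left₀ (by norm_num) (by norm_num) Fintype.card_ne_zero
    exact h2.trans_le (le_mul_of_one_le_left (by positivity) h1)
  have : Countable (Submodule.span ℤ (Set.range b)).toAddSubgroup :=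
    inferInstanceAs (Countable (Submodule.span ℤ (Set.range b)))
  obtain ⟨x, hx0, hx⟩ := exists_ne_zero_mem_lattice_of_measure_mul_two_pow_lt_measure fund hs hc hv
  have hx2 := (b.mem_span_iff_repr_mem ℤ (x : ι → ℝ)).1 x.2
  choose k hk using hx2
  have hxk : (x : ι → ℝ) = zc k := by
    funext i
    have := hk i
    simp only [b, Pi.basisFun_repr] at this
    rw [← this]; rfl
  refine ⟨k, fun h0 => hx0 ?_, ?_⟩
  · apply Subtype.ext
    rw [hxk, h0]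
    funext i; simp [zc]
  · rw [hxk] at hx
    have h3 : ∀ i, |(g *ᵥ zc k) i| ≤ 2 := fun i => by
      have h4 : ‖g *ᵥ zc k‖ ≤ 2 := by simpa [s] using hx
      exact le_trans (norm_le_pi_norm (g *ᵥ zc k) i) h4
    rw [qf, ← mulVec_mulVec, dotProduct_mulVec, vecMul_transpose, dotProduct]
    calc ∑ i, (g *ᵥ zc k) i * (g *ᵥ zc k) i ≤ ∑ _i : ι, (4 : ℝ) :=
          Finset.sum_le_sum fun i _ => by
            have := h3 i
            rw [← sq, ← sq_abs]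
            nlinarith [abs_nonneg ((g *ᵥ zc k) i)]
      _ = 4 * Fintype.card ι := by simp [mul_comm]

theorem split2 (hF : FFStmt) (n : ℕ) : ∃ C : ℝ, ∀ Q : Matrix (Fin (n + 1)) (Fin (n + 1)) ℝ,
    Cls Q → ∃ Q₁ : Matrix (Fin n) (Fin n) ℝ, Cls Q₁ ∧ FF Q ≤ FF Q₁ + C := by
  refine ⟨4 * (n + 1), fun Q hQ => ?_⟩
  obtain ⟨k, hk0, hk⟩ := minkowski hQ.1 (det_le_one hQ)
  let U : Matrix (Fin (n + 1)) (Fin 1) ℤ := Matrix.of fun i _ => k i
  have hU : Function.Injective U.mulVec := by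
    intro x y hxy
    obtain ⟨i, hi⟩ := Function.ne_iff.1 hk0
    have := congrFun hxy i
    simp only [U, mulVec, dotProduct, of_apply, Finset.univ_unique, Finset.sum_singleton] at this
    funext j
    rw [Subsingleton.elim j default]
    exact mul_left_cancel₀ hi this
  obtain ⟨l, W, W', E, hl, h1, h2, hE, hUW⟩ := Mat.smith (n + 1) 1 U hU
  obtain rfl : l = n := by omega
  let V : Matrix (Fin (l + 1)) (Fin l ⊕ Fin 1) ℤ := W.submatrix id (Equiv.sumComm _ _)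
  let V' : Matrix (Fin l ⊕ Fin 1) (Fin (l + 1)) ℤ := W'.submatrix (Equiv.sumComm _ _) id
  have g1 : V * V' = 1 := by
    simp only [V, V']
    rw [submatrix_mul_equiv, h1, submatrix_id_id]
  have g2 : V' * V = 1 := by
    simp only [V, V']
    rw [← submatrix_mul _ _ _ id _ Function.bijective_id, h2, submatrix_one_equiv]
  set Q' := (mc V)ᵀ * Q * mc V with hQ'
  have hC : Cls Q' := cls_conj hQ g1 g2
  refine ⟨_, cls₁₁ hC, ?_⟩
  have e1 : FF Q' = FF Q := hF.2.1 _ _ Q _ _ hQ.1 g1 g2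
  have e2 := (hF.1 _ _ (posDef₂₂ hC.1)).2.1
  have e3 := ff_block hF hC.1
  have hP := (posDef₂₂ hC.1).det_pos
  have e4 := det_le_conj (Equiv.refl _) E (inj_of_det hE) hP.le
  have e5 : (mc E)ᵀ * Q'.toBlocks₂₂ * mc E = (mc U)ᵀ * Q * mc U := by
    have : V.toCols₂ = W.toCols₁ := rfl
    rw [hQ', conj₂₂, this, hUW, mc_mul, transpose_mul]
    simp only [Matrix.mul_assoc]
  have e6 : ((mc U)ᵀ * Q * mc U).det = qf Q (zc k) := by
    rw [det_unique, Matrix.mul_assoc]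
    rfl
  rw [e5, e6] at e4
  rw [det_unique] at e4 hP
  simp only [Finset.univ_unique, Finset.sum_singleton] at e2
  rw [abs_of_pos hP] at e2
  simp only [Fintype.card_fin, Nat.cast_add, Nat.cast_one] at hk
  linarith

theorem split3 (n : ℕ) (Q : Matrix (Fin n) (Fin n) ℝ) (hQ : Cls Q) (hd : 1 / 2 ≤ Q.det) :
    Cls ((1 / 2 : ℝ) • Q⁻¹) := by
  have hu : IsUnit Q.det := hQ.1.det_pos.ne'.isUnit
  refine ⟨hQ.1.inv.smul (by norm_num), fun r U hU => ?_⟩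
  have hi : ((1 / 2 : ℝ) • Q⁻¹)⁻¹ = (2 : ℝ) • Q := by
    apply inv_eq_right_inv
    rw [Matrix.smul_mul, Matrix.mul_smul, smul_smul, nonsing_inv_mul _ hu]
    norm_num
  rw [hi, Matrix.mul_smul, Matrix.smul_mul, det_smul, Fintype.card_fin]
  rcases Nat.eq_zero_or_pos r with rfl | hr
  · simp
  obtain ⟨l, W, W', E, hl, h1, h2, hE, hUW⟩ := Mat.smith n r U hU
  set Q' := (mc W)ᵀ * Q * mc W with hQ'
  have hP : Q'.PosDef := posDef_conj hQ.1 h2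
  have hu' : IsUnit Q'.det := hP.det_pos.ne'.isUnit
  have e1 := det_block₂₂ hP.inv
  rw [nonsing_inv_nonsing_inv _ hu', det_nonsing_inv, Ring.inverse_eq_inv'] at e1
  have e2 : 1 ≤ Q'⁻¹.toBlocks₂₂.det := by
    rw [hQ', inv_conj hQ.1 h1 h2, conj₂₂]
    refine hQ.2 l _ (inj_of_left (W' := Wᵀ.toRows₂) ?_)
    have h3 : Wᵀ * W'ᵀ = 1 := by rw [← transpose_mul, h2, transpose_one]
    rw [← fromRows_toRows Wᵀ, ← fromCols_toCols W'ᵀ, fromRows_mul_fromCols, ← fromBlocks_one,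
      fromBlocks_inj] at h3
    exact h3.2.2.2
  have e3 : Q.det ≤ Q'.det :=
    det_le_conj (finSumFinEquiv.trans (finCongr hl)).symm W (inj_of_left h2) hQ.1.det_pos.le
  have e4 := det_le_conj (Equiv.refl _) E (inj_of_det hE) (posDef₁₁ hP).det_pos.le
  have e5 : (mc E)ᵀ * Q'.toBlocks₁₁ * mc E = (mc U)ᵀ * Q * mc U := by
    rw [hQ', conj₁₁, hUW, mc_mul, transpose_mul]
    simp only [Matrix.mul_assoc]
  rw [e5] at e4
  have e6 : Q'.det ≤ Q'.toBlocks₁₁.det := by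
    rw [← e1, le_inv_mul_iff₀ hP.det_pos, mul_one] at e2
    exact e2
  have e7 : (2 : ℝ) ≤ 2 ^ r := le_self_pow₀ (by norm_num) hr.ne'
  nlinarith

end Split

theorem split (hF : FFStmt) : SplitStmt :=
  ⟨Split.split1 hF, Split.split2 hF, Split.split3⟩

end Pool.Agent.P.MP_d05bff_gt
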