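import Pool.Agent.P.MP_d05bff_gt.TopoCover

/-!
Reduction of the diameter bound for the universal abelian cover to the combinatorial theorem.
-/

namespace Pool.Agent.P.MP_d05bff_gt

open unitInterval Set
open scoped ENNReal

universe u v

namespace Topo

theorem loop_of_list {X : Type u} [MetricSpace X] {G : Type u} [AddCommGroup G]
    {K : ∀ x y : X, Path x y → G} (hK : PAdd K) (x0 : X) {L ε : ℝ} (hε : 0 < ε) (l : List G)
    (hl : ∀ g ∈ l, g ∈ Short K x0 L) :
    ∃ γ : Path x0 x0, Lt γ (ε + l.length * L) ∧ K _ _ γ = l.sum := by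
  induction l with
  | nil => exact ⟨Path.refl x0, lt_refl x0 (by simpa using hε), by simpa using hK.refl x0⟩
  | cons g l ih =>
    obtain ⟨γ, h1, h2⟩ := ih (fun g hg => hl g (List.mem_cons_of_mem _ hg))
    obtain ⟨γ', h3, h4⟩ := hl g List.mem_cons_self
    refine ⟨γ'.trans γ, (h3.trans h1).mono (le_of_eq ?_), ?_⟩
    · simp only [List.length_cons, Nat.cast_add, Nat.cast_one]
      ring
    · rw [hK.2, h2, h4, List.sum_cons]

end Topo

open Topo in
theorem topo (hC : CombStmt.{u}) (hcoc : CocycleStmt.{u}) (hH : HurewiczStmt.{u}) :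
    ∃ C : ℝ, ∀ (X : Type u) [MetricSpace X] [CompactSpace X] [PathConnectedSpace X]
      (E : Type v) [TopologicalSpace E] [PathConnectedSpace E] (p : C(E, X)) (e : E),
      IsLengthSpace X → IsCoveringMap p →
      (FundamentalGroup.map p e).range = commutator (FundamentalGroup X (p e)) →
      Finite (H1 X) →
      ⨆ (a : E) (b : E), liftedDist p a b ≤
        ENNReal.ofReal (C * (1 + Real.log (Nat.card (H1 X)))) *
          Metric.ediam (Set.univ : Set X) := by
  classical
  obtain ⟨C, hC⟩ := hC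
  refine ⟨2 * max C 0 + 2, ?_⟩
  intro X _ _ _ E _ _ p e hL cov h hfin
  obtain ⟨f, hf⟩ := hH X (p e)
  have : Finite (Additive (Abelianization (FundamentalGroup X (p e)))) := Finite.of_surjective f hf
  have : Finite (Abelianization (FundamentalGroup X (p e))) :=
    Finite.of_equiv _ Additive.toMul
  have hcard : Nat.card (Additive (Abelianization (FundamentalGroup X (p e)))) ≤ Nat.card (H1 X) :=
    Nat.card_le_card_of_surjective f hf
  have hlog0 : 0 ≤ Real.log (Nat.card (Additive (Abelianization (FundamentalGroup X (p e))))) :=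
    Real.log_natCast_nonneg _
  have hlog : Real.log (Nat.card (Additive (Abelianization (FundamentalGroup X (p e))))) ≤
      Real.log (Nat.card (H1 X)) :=
    Real.log_le_log (Nat.cast_pos.2 Nat.card_pos) (Nat.cast_le.2 hcard)
  set ℓ := 1 + Real.log (Nat.card (H1 X)) with hℓ
  have hℓ1 : 1 ≤ ℓ := by linarith
  set N := max C 0 * ℓ with hN
  have hN0 : 0 ≤ N := mul_nonneg (le_max_right _ _) (by linarith)
  have hb : Bornology.IsBounded (univ : Set X) := isCompact_univ.isBounded
  set D := Metric.diam (univ : Set X) with hD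
  have hD0 : 0 ≤ D := Metric.diam_nonneg
  have hed : Metric.ediam (univ : Set X) = ENNReal.ofReal D :=
    (ENNReal.ofReal_toReal hb.ediam_ne_top).symm
  -- Lebesgue number
  choose U hU1 hU2 hU3 using fun x : X => small_fix cov (x0 := x)
  obtain ⟨η, hη, hηU⟩ := lebesgue_number_lemma_of_metric (isCompact_univ (X := X)) hU2
    (fun x _ => mem_iUnion.2 ⟨x, hU1 x⟩)
  rw [hed, ← ENNReal.ofReal_mul (by nlinarith [le_max_right C 0])]
  refine iSup_le fun a => iSup_le fun b => ?_
  refine ENNReal.le_of_forall_pos_le_add fun ε' hε' _ => ?_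
  have hε'0 : (0 : ℝ) < ε' := hε'
  set ε : ℝ := ε' / (3 + 4 * N) with hε
  have hε0 : 0 < ε := div_pos hε'0 (by linarith)
  have hεε : (3 + 4 * N) * ε = ε' := by rw [hε]; field_simp
  have hc' : ∀ x : X, ∃ γ : Path (p e) x, Lt γ (D + ε) := fun x =>
    exists_lt hL (by linarith [Metric.dist_le_diam_of_mem hb (mem_univ (p e)) (mem_univ x)])
  choose c' hc' using hc'
  let c : ∀ x, Path (p e) x := Function.update c' (p e) (Path.refl (p e))
  have hc0 : c (p e) = Path.refl (p e) := Function.update_self _ _ _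
  have hc : ∀ x, Lt (c x) (D + ε) := by
    intro x
    by_cases hx : x = p e
    · subst hx
      rw [hc0]
      exact Topo.lt_refl _ (by linarith)
    · rw [show c x = c' x from Function.update_of_ne hx _ _]
      exact hc' x
  have hK := cls_padd c
  obtain ⟨hgen, hrig⟩ := short_rigid hcoc hL hK (p e) hε0 hD0 hη c hc (cls_c c hc0)
    (by
      intro x γ hγ
      obtain ⟨i, hi⟩ := hηU x (mem_univ x)
      exact cls_zero_of_fix cov h c x γ (hU3 i x γ fun s => hi (hγ s)))
    (cls_surj c) real_vanish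
  let α : Path e a := PathConnectedSpace.somePath e a
  let β : Path e b := PathConnectedSpace.somePath e b
  obtain ⟨l, hl1, hl2, hl3⟩ := hC _ _ (short_neg hK (p e) _) hgen hrig
    (cls c _ _ (β.map p.continuous) - cls c _ _ (α.map p.continuous))
  obtain ⟨γ, hγ1, hγ2⟩ := loop_of_list hK (p e) hε0 l hl1
  have hlN : (l.length : ℝ) ≤ N := by
    refine hl3.trans ?_
    rw [hN]
    exact (mul_le_mul_of_nonneg_right (le_max_left C 0) (by linarith)).trans
      (mul_le_mul_of_nonneg_left (by linarith) (le_max_right _ _))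
  obtain ⟨Γ, hΓ⟩ := exists_lift cov h c α β ((c (p a)).symm.trans (γ.trans (c (p b)))) (by
    rw [hK.2, hK.2, hK.symm, cls_c c hc0, cls_c c hc0, hγ2, hl2]
    abel)
  have hlen := (hc (p a)).symm.trans (hγ1.trans (hc (p b)))
  refine (iInf_le _ Γ).trans ?_
  rw [hΓ]
  refine hlen.le.trans ?_
  rw [← ENNReal.ofReal_coe_nnreal, ← ENNReal.ofReal_add (by
    have := le_max_right C 0
    positivity) hε'0.le]
  apply ENNReal.ofReal_le_ofReal
  rw [← hεε]
  have h1 : (l.length : ℝ) * (2 * D + 4 * ε) ≤ N * (2 * D + 4 * ε) :=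
    mul_le_mul_of_nonneg_right hlN (by linarith)
  have h2 : (2 * max C 0 + 2) * ℓ * D = 2 * N * D + 2 * ℓ * D := by rw [hN]; ring
  rw [h2]
  nlinarith [mul_nonneg (sub_nonneg.2 hℓ1) hD0]

end Pool.Agent.P.MP_d05bff_gt
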