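import Pool.Agent.P.MP_d05bff_gt.TopoRigid

/-!
The covering corresponding to the commutator subgroup, and the reduction of the diameter bound
to the combinatorial theorem.
-/

namespace Pool.Agent.P.MP_d05bff_gt.Topo

open unitInterval Set
open scoped ENNReal

universe u v

section Ab

variable {X : Type u} [TopologicalSpace X] {x0 : X}

/-- The class of a loop in the abelianised fundamental group. -/
noncomputable def abq (q : Path.Homotopic.Quotient x0 x0) :
    Additive (Abelianization (FundamentalGroup X x0)) :=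
  Additive.ofMul (Abelianization.of (FundamentalGroup.fromPath q))

theorem abq_trans (q q' : Path.Homotopic.Quotient x0 x0) : abq (q.trans q') = abq q + abq q' := by
  have : FundamentalGroup.fromPath (q.trans q') =
      FundamentalGroup.fromPath q' * FundamentalGroup.fromPath q := rfl
  unfold abq
  rw [this, map_mul, ofMul_mul, add_comm]

theorem abq_refl : abq (Path.Homotopic.Quotient.refl x0) = 0 := by
  have := abq_trans (Path.Homotopic.Quotient.refl x0) (Path.Homotopic.Quotient.refl x0)
  rw [Path.Homotopic.Quotient.refl_trans] at this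
  simpa using this

theorem abq_eq_zero (q : Path.Homotopic.Quotient x0 x0) :
    abq q = 0 ↔ FundamentalGroup.fromPath q ∈ commutator (FundamentalGroup X x0) := by
  rw [← Abelianization.ker_of, MonoidHom.mem_ker]
  rfl

theorem symm_trans_assoc {x y z : X} (q : Path.Homotopic.Quotient x y)
    (r : Path.Homotopic.Quotient x z) : q.symm.trans (q.trans (q.symm.trans r)) = q.symm.trans r := by
  rw [← Path.Homotopic.Quotient.trans_assoc, Path.Homotopic.Quotient.symm_trans, Path.Homotopic.Quotient.refl_trans]

/-- The class of a path, closed up by the chosen paths from the base point. -/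
noncomputable def cls (c : ∀ x, Path x0 x) (x y : X) (γ : Path x y) :
    Additive (Abelianization (FundamentalGroup X x0)) :=
  abq ((Path.Homotopic.Quotient.mk (c x)).trans ((Path.Homotopic.Quotient.mk γ).trans (Path.Homotopic.Quotient.mk (c y)).symm))

theorem cls_padd (c : ∀ x, Path x0 x) : PAdd (cls c) := by
  constructor
  · intro x y γ γ' h
    unfold cls
    rw [Path.Homotopic.Quotient.eq.2 h]
  · intro x y z γ γ'
    unfold cls
    rw [← abq_trans, Path.Homotopic.Quotient.mk_trans]
    congr 1
    simp only [Path.Homotopic.Quotient.trans_assoc]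
    rw [← Path.Homotopic.Quotient.trans_assoc (Path.Homotopic.Quotient.mk (c y)).symm, Path.Homotopic.Quotient.symm_trans, Path.Homotopic.Quotient.refl_trans]

theorem cls_loop (c : ∀ x, Path x0 x) (γ : Path x0 x0) :
    cls c x0 x0 γ = abq (Path.Homotopic.Quotient.mk γ) := by
  unfold cls
  rw [abq_trans, abq_trans, add_left_comm, ← abq_trans, Path.Homotopic.Quotient.trans_symm, abq_refl, add_zero]

theorem cls_c (c : ∀ x, Path x0 x) (h : c x0 = Path.refl x0) (x : X) : cls c x0 x (c x) = 0 := by
  unfold cls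
  rw [Path.Homotopic.Quotient.trans_symm, h, Path.Homotopic.Quotient.trans_refl, Path.Homotopic.Quotient.mk_refl, abq_refl]

theorem cls_surj (c : ∀ x, Path x0 x) (g : Additive (Abelianization (FundamentalGroup X x0))) :
    ∃ γ : Path x0 x0, cls c x0 x0 γ = g := by
  obtain ⟨a, ha⟩ : ∃ a, Abelianization.of a = Additive.toMul g :=
    QuotientGroup.mk_surjective (Additive.toMul g)
  obtain ⟨γ, hγ⟩ := Path.Homotopic.Quotient.mk_surjective (FundamentalGroup.toPath a)
  refine ⟨γ, ?_⟩
  rw [cls_loop, hγ]
  unfold abq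
  exact congrArg Additive.ofMul ha

theorem real_vanish [Finite (Abelianization (FundamentalGroup X x0))]
    (W : ∀ x y : X, Path x y → ℝ) (hW : PAdd W) (γ : Path x0 x0) : W _ _ γ = 0 := by
  let w : Path.Homotopic.Quotient x0 x0 → ℝ :=
    fun q => Quotient.lift (fun γ : Path x0 x0 => W x0 x0 γ) (fun a b h => hW.1 _ _ a b h) q
  let f : FundamentalGroup X x0 →* Multiplicative ℝ :=
    { toFun := fun q => Multiplicative.ofAdd (w q)
      map_one' := by
        show Multiplicative.ofAdd (W x0 x0 (Path.refl x0)) = 1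
        rw [hW.refl]; rfl
      map_mul' := by
        intro a b
        obtain ⟨a, rfl⟩ := Path.Homotopic.Quotient.mk_surjective (FundamentalGroup.toPath a)
        obtain ⟨b, rfl⟩ := Path.Homotopic.Quotient.mk_surjective (FundamentalGroup.toPath b)
        show Multiplicative.ofAdd (W x0 x0 (b.trans a)) =
          Multiplicative.ofAdd (W x0 x0 a) * Multiplicative.ofAdd (W x0 x0 b)
        rw [hW.2, add_comm, ofAdd_add] }
  let a : Abelianization (FundamentalGroup X x0) :=
    Abelianization.of (FundamentalGroup.fromPath (Path.Homotopic.Quotient.mk γ))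
  have h1 : Abelianization.lift f a = Multiplicative.ofAdd (W x0 x0 γ) :=
    Abelianization.lift_apply_of f _
  have h2 : (Abelianization.lift f a) ^ Nat.card (Abelianization (FundamentalGroup X x0)) = 1 := by
    rw [← map_pow, pow_card_eq_one', map_one]
  rw [h1, ← ofAdd_nsmul] at h2
  have h3 : Nat.card (Abelianization (FundamentalGroup X x0)) • W x0 x0 γ = 0 := h2
  rw [nsmul_eq_mul, mul_eq_zero] at h3
  rcases h3 with h3 | h3
  · exact absurd h3 (Nat.cast_ne_zero.2 Nat.card_pos.ne')
  · exact h3

end Ab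

section Cov

variable {X : Type u} [TopologicalSpace X] {E : Type v} [TopologicalSpace E] {p : C(E, X)}
  (cov : IsCoveringMap p) {e : E}

theorem fix_iff (h : (FundamentalGroup.map p e).range = commutator (FundamentalGroup X (p e)))
    (q : Path.Homotopic.Quotient (p e) (p e)) :
    abq q = 0 ↔ cov.monodromy q ⟨e, rfl⟩ = ⟨e, rfl⟩ := by
  rw [abq_eq_zero, ← h]
  constructor
  · rintro ⟨l, hl⟩
    have : q = (FundamentalGroup.toPath l).map ⟨p, cov.continuous⟩ := hl.symm
    rw [this]
    exact cov.monodromy_map _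
  · intro hq
    have h1 := cov.map_liftPathQuotient q ⟨e, rfl⟩
    have h2 : e = (cov.monodromy q ⟨e, rfl⟩ : E) := by rw [hq]
    refine ⟨FundamentalGroup.fromPath ((cov.liftPathQuotient q ⟨e, rfl⟩).cast rfl h2), ?_⟩
    show ((cov.liftPathQuotient q ⟨e, rfl⟩).cast rfl h2).map ⟨p, cov.continuous⟩ = q
    rw [Path.Homotopic.Quotient.map_cast, h1, Path.Homotopic.Quotient.cast_cast, Path.Homotopic.Quotient.cast_rfl_rfl]

theorem small_fix {x0 : X} : ∃ U : Set X, x0 ∈ U ∧ IsOpen U ∧ ∀ (x : X) (γ : Path x x),
    (∀ s, γ s ∈ U) → ∀ b, cov.monodromy (Path.Homotopic.Quotient.mk γ) b = b := by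
  obtain ⟨hd, U, hxU, hU, -, H, hH⟩ := cov x0
  refine ⟨U, hxU, hU, fun x γ hγ b => ?_⟩
  have h0 : γ 0 = p b := γ.source.trans b.2.symm
  let Γ := cov.liftPath γ b h0
  have hl : ∀ s, p (Γ s) = γ s := fun s => congrFun (cov.liftPath_lifts γ b h0) s
  have hm : ∀ s, Γ s ∈ p ⁻¹' U := fun s => by
    show p (Γ s) ∈ U
    rw [hl]; exact hγ s
  let f : I → p ⁻¹' U := fun s => ⟨Γ s, hm s⟩
  have hf : Continuous f := Γ.continuous.subtype_mk _
  have hc : Continuous fun s => (H (f s)).2 := continuous_snd.comp (H.continuous.comp hf)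
  have h2 : (H (f 1)).2 = (H (f 0)).2 := (IsLocallyConstant.iff_continuous _).2 hc |>.apply_eq_of_preconnectedSpace 1 0
  have h1 : (H (f 1)).1 = (H (f 0)).1 := by
    apply Subtype.ext
    rw [hH, hH]
    show p (Γ 1) = p (Γ 0)
    rw [hl, hl, γ.source, γ.target]
  have h3 : f 1 = f 0 := H.injective (Prod.ext h1 h2)
  apply Subtype.ext
  show Γ 1 = b
  rw [show Γ 1 = Γ 0 from congrArg Subtype.val h3]
  exact cov.liftPath_zero γ b h0

include cov in
theorem cls_zero_of_fix
    (h : (FundamentalGroup.map p e).range = commutator (FundamentalGroup X (p e)))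
    (c : ∀ x, Path (p e) x) (x : X) (γ : Path x x)
    (hγ : ∀ b, cov.monodromy (Path.Homotopic.Quotient.mk γ) b = b) : cls c x x γ = 0 := by
  unfold cls
  rw [fix_iff cov h, cov.monodromy_trans_apply, cov.monodromy_trans_apply, hγ,
    ← cov.monodromy_trans_apply, Path.Homotopic.Quotient.trans_symm, cov.monodromy_refl, id]

include cov in
theorem exists_lift
    (h : (FundamentalGroup.map p e).range = commutator (FundamentalGroup X (p e)))
    (c : ∀ x, Path (p e) x) {a b : E} (α : Path e a) (β : Path e b) (δ : Path (p a) (p b))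
    (hδ : cls c _ _ (α.map p.continuous) + cls c _ _ δ = cls c _ _ (β.map p.continuous)) :
    ∃ Γ : Path a b, p ∘ Γ = δ := by
  have h1 : cls c _ _ (((α.map p.continuous).trans δ).trans (β.map p.continuous).symm) = 0 := by
    rw [(cls_padd c).2, (cls_padd c).2, (cls_padd c).symm, hδ, add_neg_cancel]
  rw [cls_loop, fix_iff cov h] at h1
  have hα : cov.monodromy (Path.Homotopic.Quotient.mk (α.map p.continuous)) ⟨e, rfl⟩ = ⟨a, rfl⟩ :=
    cov.monodromy_map (Path.Homotopic.Quotient.mk α)
  have hβ : cov.monodromy (Path.Homotopic.Quotient.mk (β.map p.continuous)) ⟨e, rfl⟩ = ⟨b, rfl⟩ :=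
    cov.monodromy_map (Path.Homotopic.Quotient.mk β)
  have h2 := congrArg (cov.monodromy (Path.Homotopic.Quotient.mk (β.map p.continuous))) h1
  rw [hβ, ← cov.monodromy_trans_apply, Path.Homotopic.Quotient.mk_trans, Path.Homotopic.Quotient.mk_symm, Path.Homotopic.Quotient.trans_assoc,
    Path.Homotopic.Quotient.symm_trans, Path.Homotopic.Quotient.trans_refl, Path.Homotopic.Quotient.mk_trans, cov.monodromy_trans_apply,
    hα] at h2
  have h3 : cov.liftPath δ a δ.source 1 = b := congrArg Subtype.val h2
  exact ⟨⟨cov.liftPath δ a δ.source, cov.liftPath_zero δ a δ.source, h3⟩,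
    cov.liftPath_lifts δ a δ.source⟩

end Cov

end Pool.Agent.P.MP_d05bff_gt.Topo
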