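import Pool.Agent.P.MP_d05bff_gt.Defs

/-!
Statements of the two topological inputs.
-/

namespace Pool.Agent.P.MP_d05bff_gt

universe u

/-- One half of the Hurewicz theorem in degree one. -/
def HurewiczStmt : Prop :=
  ∀ (X : Type u) [TopologicalSpace X] [PathConnectedSpace X] (x : X),
    ∃ f : H1 X →+ Additive (Abelianization (FundamentalGroup X x)), Function.Surjective f

/-- A local real cocycle integrates to a homotopy invariant additive function of paths. -/
def CocycleStmt : Prop :=
  ∀ (X : Type u) [PseudoMetricSpace X] (δ : ℝ) (ω : X → X → ℝ), 0 < δ →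
    (∀ x y z, dist x y < δ → dist y z < δ → dist x z < δ → ω x y + ω y z = ω x z) →
    ∃ W : ∀ x y : X, Path x y → ℝ,
      (∀ x y (γ γ' : Path x y), γ.Homotopic γ' → W x y γ = W x y γ') ∧
      (∀ x y z (γ : Path x y) (γ' : Path y z), W x z (γ.trans γ') = W x y γ + W y z γ') ∧
      (∀ x y (γ : Path x y), (∀ s, dist (γ s) x < δ / 2) → W x y γ = ω x y)

end Pool.Agent.P.MP_d05bff_gt
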