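import Pool.Agent.P.MP_d05bff_gt.TopoIface
import Pool.Agent.P.MP_d05bff_gt.Iface

/-!
Lengths of paths, additive functions of paths, and the rigidity of the set of short loops.
-/

namespace Pool.Agent.P.MP_d05bff_gt.Topo

open unitInterval Set
open scoped ENNReal

universe u

section Len

variable {X : Type u} [MetricSpace X] {x y z : X}

theorem len_refl (x : X) : curveLength (Path.refl x) = 0 := by
  apply eVariationOn.constant_on
  rintro a ⟨s, -, rfl⟩ b ⟨t, -, rfl⟩
  simp

theorem len_symm (γ : Path x y) : curveLength γ.symm ≤ curveLength γ := by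
  have : (γ.symm : I → X) = γ ∘ σ := by ext s; simp
  unfold curveLength
  rw [this]
  exact eVariationOn.comp_le_of_antitoneOn _ _
    (fun a _ b _ h => unitInterval.symm_le_symm.2 h) (mapsTo_univ _ _)

theorem len_split (f : I → X) (t : I) :
    eVariationOn f (Icc 0 t) + eVariationOn f (Icc t 1) = curveLength f := by
  have := eVariationOn.Icc_add_Icc f (s := univ) (a := 0) (b := t) (c := 1)
    unitInterval.nonneg' unitInterval.le_one' (mem_univ _)
  simp only [univ_inter] at this
  rw [this, curveLength]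
  congr 1
  ext s
  simp [unitInterval.le_one']

theorem len_trans (γ : Path x y) (γ' : Path y z) :
    curveLength (γ.trans γ') ≤ curveLength γ + curveLength γ' := by
  let h : I := ⟨1 / 2, by norm_num, by norm_num⟩
  rw [← len_split _ h]
  apply add_le_add
  · have e : EqOn (γ.trans γ') (γ ∘ fun t : I => projIcc (0 : ℝ) 1 zero_le_one (2 * t))
        (Icc 0 h) := by
      intro t ht
      have ht' : (t : ℝ) ≤ 1 / 2 := ht.2
      rw [Path.trans_apply, dif_pos ht', Function.comp_apply, projIcc_of_mem]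
    rw [eVariationOn.eq_of_eqOn e]
    refine eVariationOn.comp_le_of_monotoneOn _ _ (fun a _ b _ hab => ?_) (mapsTo_univ _ _)
    apply monotone_projIcc
    have : (a : ℝ) ≤ b := hab
    linarith
  · have e : EqOn (γ.trans γ') (γ' ∘ fun t : I => projIcc (0 : ℝ) 1 zero_le_one (2 * t - 1))
        (Icc h 1) := by
      intro t ht
      have ht' : 1 / 2 ≤ (t : ℝ) := ht.1
      rw [Path.trans_apply]
      split_ifs with h1
      · have h2 : (t : ℝ) = 1 / 2 := le_antisymm h1 ht'
        have h3 : (⟨2 * t, (unitInterval.mul_pos_mem_iff zero_lt_two).2 ⟨t.2.1, h1⟩⟩ : I) = 1 := by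
          ext; simp [h2]
        rw [h3, Function.comp_apply, h2]
        norm_num
      · rw [Function.comp_apply, projIcc_of_mem]
    rw [eVariationOn.eq_of_eqOn e]
    refine eVariationOn.comp_le_of_monotoneOn _ _ (fun a _ b _ hab => ?_) (mapsTo_univ _ _)
    apply monotone_projIcc
    have : (a : ℝ) ≤ b := hab
    linarith

theorem len_sub (γ : Path x y) {s t : I} (h : s ≤ t) :
    curveLength (γ.subpath s t) = eVariationOn γ (Icc s t) := by
  have e : (γ.subpath s t : I → X) = γ ∘ Icc.convexComb s t := rfl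
  have hm : MonotoneOn (Icc.convexComb s t) univ := by
    intro a _ b _ hab
    have h1 : (a : ℝ) ≤ b := hab
    have h2 : (s : ℝ) ≤ t := h
    show ((Icc.convexComb s t a : I) : ℝ) ≤ (Icc.convexComb s t b : I)
    simp only [Icc.coe_convexComb]
    nlinarith [mul_nonneg (sub_nonneg.2 h1) (sub_nonneg.2 h2)]
  unfold curveLength
  rw [e, eVariationOn.comp_eq_of_monotoneOn _ _ hm, image_univ, Path.range_subpathAux,
    uIcc_of_le h]

/-- The length of the path is less than `r`. -/
def Lt (γ : Path x y) (r : ℝ) : Prop := curveLength γ < ENNReal.ofReal r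

theorem Lt.pos {γ : Path x y} {r : ℝ} (h : Lt γ r) : 0 < r :=
  ENNReal.ofReal_pos.1 (lt_of_le_of_lt (zero_le) h)

theorem Lt.mono {γ : Path x y} {r r' : ℝ} (h : Lt γ r) (hr : r ≤ r') : Lt γ r' :=
  lt_of_lt_of_le h (ENNReal.ofReal_le_ofReal hr)

theorem Lt.symm {γ : Path x y} {r : ℝ} (h : Lt γ r) : Lt γ.symm r :=
  lt_of_le_of_lt (len_symm γ) h

theorem Lt.trans {γ : Path x y} {γ' : Path y z} {r r' : ℝ} (h : Lt γ r) (h' : Lt γ' r') :
    Lt (γ.trans γ') (r + r') := by
  unfold Lt
  rw [ENNReal.ofReal_add h.pos.le h'.pos.le]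
  exact lt_of_le_of_lt (len_trans γ γ') (ENNReal.add_lt_add h h')

theorem Lt.dist {γ : Path x y} {r : ℝ} (h : Lt γ r) (s : I) : dist (γ s) x < r := by
  have h1 := eVariationOn.edist_le γ (s := univ) (mem_univ s) (mem_univ 0)
  rw [γ.source] at h1
  exact edist_lt_ofReal.1 (lt_of_le_of_lt h1 h)

theorem Lt.sub {γ : Path x y} {r : ℝ} (h : Lt γ r) {s t : I} (hst : s ≤ t) :
    Lt (γ.subpath s t) r := by
  unfold Lt
  rw [len_sub γ hst]
  exact lt_of_le_of_lt (eVariationOn.mono _ (subset_univ _)) h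

theorem lt_refl (x : X) {r : ℝ} (hr : 0 < r) : Lt (Path.refl x) r := by
  unfold Lt
  rw [len_refl]
  exact ENNReal.ofReal_pos.2 hr

theorem exists_lt (hL : IsLengthSpace X) {r : ℝ} (h : dist x y < r) : ∃ γ : Path x y, Lt γ r := by
  have h1 : edist x y < ENNReal.ofReal r := edist_lt_ofReal.2 h
  rw [hL x y] at h1
  exact iInf_lt_iff.1 h1

theorem partition (γ : Path x y) {δ : ℝ} (hδ : 0 < δ) :
    ∃ (t : ℕ → I) (n : ℕ), t 0 = 0 ∧ Monotone t ∧ t n = 1 ∧
      ∀ i s, dist (γ.subpath (t i) (t (i + 1)) s) (γ (t i)) < δ := by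
  obtain ⟨t, h0, hm, ⟨n, hn⟩, hi⟩ := exists_monotone_Icc_subset_open_cover_unitInterval
    (c := fun a : X => γ ⁻¹' Metric.ball a (δ / 2))
    (fun a => Metric.isOpen_ball.preimage γ.continuous)
    (fun s _ => mem_iUnion.2 ⟨γ s, Metric.mem_ball_self (half_pos hδ)⟩)
  refine ⟨t, n, h0, hm, hn n le_rfl, fun i s => ?_⟩
  obtain ⟨a, ha⟩ := hi i
  have hle : t i ≤ t (i + 1) := hm (Nat.le_succ i)
  have h1 : γ.subpath (t i) (t (i + 1)) s ∈ γ '' Icc (t i) (t (i + 1)) := by
    rw [← Path.range_subpath_of_le γ _ _ hle]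
    exact mem_range_self s
  obtain ⟨r, hr, hr'⟩ := h1
  rw [← hr']
  have h2 : dist (γ r) a < δ / 2 := ha hr
  have h3 : dist (γ (t i)) a < δ / 2 := ha ⟨le_rfl, hle⟩
  linarith [dist_triangle_right (γ r) (γ (t i)) a]

end Len

section PAdd

variable {X : Type u} [TopologicalSpace X] {G : Type*} [AddCommGroup G]

/-- Homotopy invariant additive functions of paths. -/
def PAdd (K : ∀ x y : X, Path x y → G) : Prop :=
  (∀ x y (γ γ' : Path x y), γ.Homotopic γ' → K x y γ = K x y γ') ∧
    ∀ x y z (γ : Path x y) (γ' : Path y z), K x z (γ.trans γ') = K x y γ + K y z γ'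

variable {K : ∀ x y : X, Path x y → G}

theorem PAdd.refl (h : PAdd K) (x : X) : K x x (Path.refl x) = 0 := by
  have := h.2 x x x (Path.refl x) (Path.refl x)
  rw [Path.refl_trans_refl] at this
  simpa using this

theorem PAdd.symm (h : PAdd K) {x y : X} (γ : Path x y) : K y x γ.symm = -K x y γ := by
  have h1 := h.2 x y x γ γ.symm
  have h2 := h.1 x x _ _ (⟨(Path.Homotopy.reflTransSymm γ)⟩ :
    (Path.refl x).Homotopic (γ.trans γ.symm))
  rw [h.refl, h1] at h2
  exact (neg_eq_of_add_eq_zero_right h2.symm).symm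

omit [AddCommGroup G] in
theorem cast_eq (K : ∀ x y : X, Path x y → G) {x y x' y' : X} (γ : Path x y) (hx : x' = x)
    (hy : y' = y) : K x' y' (γ.cast hx hy) = K x y γ := by
  subst hx hy
  rfl

theorem PAdd.sub (h : PAdd K) {x y : X} (γ : Path x y) (s t r : I) :
    K _ _ (γ.subpath s t) + K _ _ (γ.subpath t r) = K _ _ (γ.subpath s r) := by
  rw [← h.2]
  exact h.1 _ _ _ _ ⟨Path.Homotopy.subpathTransSubpath γ s t r⟩

omit [AddCommGroup G] in
theorem sub_zero_one (K : ∀ x y : X, Path x y → G) {x y : X} (γ : Path x y) :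
    K _ _ (γ.subpath 0 1) = K x y γ := by
  rw [Path.subpath_zero_one]
  exact cast_eq K γ _ _

end PAdd

end Pool.Agent.P.MP_d05bff_gt.Topo
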