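import Pool.Agent.P.MP_d05bff_gt.TopoLen

/-!
The classes of short loops form a symmetric rigid generating set.
-/

namespace Pool.Agent.P.MP_d05bff_gt.Topo

open unitInterval Set
open scoped ENNReal

universe u

variable {X : Type u} [MetricSpace X] {G : Type u} [AddCommGroup G]

/-- The classes of loops of length less than `L`. -/
def Short (K : ∀ x y : X, Path x y → G) (x0 : X) (L : ℝ) : Set G :=
  {g | ∃ γ : Path x0 x0, Lt γ L ∧ K x0 x0 γ = g}

theorem short_neg {K : ∀ x y : X, Path x y → G} (hK : PAdd K) (x0 : X) (L : ℝ) :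
    ∀ s ∈ Short K x0 L, -s ∈ Short K x0 L := by
  rintro s ⟨γ, h1, rfl⟩
  exact ⟨γ.symm, h1.symm, hK.symm γ⟩

theorem short_rigid (hcoc : CocycleStmt.{u}) (hL : IsLengthSpace X)
    {K : ∀ x y : X, Path x y → G} (hK : PAdd K) (x0 : X) {D ε η : ℝ} (hε : 0 < ε) (hD : 0 ≤ D)
    (hη : 0 < η) (c : ∀ x, Path x0 x) (hc : ∀ x, Lt (c x) (D + ε)) (hc0 : ∀ x, K _ _ (c x) = 0)
    (hsmall : ∀ x (γ : Path x x), (∀ s, dist (γ s) x < η) → K x x γ = 0)
    (hsurj : ∀ g, ∃ γ : Path x0 x0, K _ _ γ = g)
    (hW : ∀ W : ∀ x y : X, Path x y → ℝ, PAdd W → ∀ γ : Path x0 x0, W _ _ γ = 0) :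
    AddSubgroup.closure (Short K x0 (2 * D + 4 * ε)) = ⊤ ∧ Rigid (Short K x0 (2 * D + 4 * ε)) := by
  set S := Short K x0 (2 * D + 4 * ε) with hS
  set τ := min ε (η / 2) with hτ
  have hτ0 : 0 < τ := lt_min hε (half_pos hη)
  have hτε : τ ≤ ε := min_le_left _ _
  have hτη : 2 * τ ≤ η := by linarith [min_le_right ε (η / 2)]
  -- short connecting paths
  have hsp : ∀ x y : X, ∃ γ : Path x y, dist x y < τ → Lt γ τ := by
    intro x y
    by_cases h : dist x y < τ
    · obtain ⟨γ, hγ⟩ := exists_lt hL h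
      exact ⟨γ, fun _ => hγ⟩
    · exact ⟨(c x).symm.trans (c y), fun h' => absurd h' h⟩
  choose sp hsp using hsp
  -- two paths in a small ball have the same class
  have huniq : ∀ x y (γ γ' : Path x y), (∀ s, dist (γ s) x < η) → (∀ s, dist (γ' s) x < η) →
      K x y γ = K x y γ' := by
    intro x y γ γ' h h'
    have h1 := hsmall x (γ.trans γ'.symm) (by
      intro s
      have : (γ.trans γ'.symm) s ∈ range γ ∪ range γ' := by
        rw [← Path.symm_range γ', ← Path.trans_range]
        exact mem_range_self s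
      rcases this with ⟨r, hr⟩ | ⟨r, hr⟩
      · rw [← hr]; exact h r
      · rw [← hr]; exact h' r)
    rw [hK.2, hK.symm] at h1
    exact add_neg_eq_zero.1 h1
  have hmem : ∀ x y (γ : Path x y), x = x0 → Lt γ (D + 3 * ε) → K x y γ ∈ S := by
    intro x y γ hx h
    subst hx
    refine ⟨γ.trans (c y).symm, (h.trans (hc y).symm).mono (by linarith), ?_⟩
    rw [hK.2, hK.symm, hc0, neg_zero, add_zero]
  have hk1 : ∀ x y (γ : Path x y), (∀ s, dist (γ s) x < τ) → K x y γ = K x y (sp x y) := by
    intro x y γ h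
    have hxy : dist x y < τ := by
      have := h 1
      rwa [γ.target, dist_comm] at this
    exact huniq x y _ _ (fun s => by linarith [h s]) (fun s => by linarith [(hsp x y hxy).dist s])
  have hk2 : ∀ x y, dist x y < τ → K x y (sp x y) ∈ S := by
    intro x y h
    have := hmem x0 y ((c x).trans (sp x y)) rfl (((hc x).trans (hsp x y h)).mono (by linarith))
    rwa [hK.2, hc0, zero_add] at this
  have hk3 : ∀ x y z, dist x y < τ → dist y z < τ → dist x z < τ →
      K x y (sp x y) + K y z (sp y z) = K x z (sp x z) := by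
    intro x y z h1 h2 h3
    rw [← hK.2]
    refine huniq x z _ _ (fun s => ?_) (fun s => by linarith [(hsp x z h3).dist s])
    have : ((sp x y).trans (sp y z)) s ∈ range (sp x y) ∪ range (sp y z) := by
      rw [← Path.trans_range]
      exact mem_range_self s
    rcases this with ⟨r, hr⟩ | ⟨r, hr⟩
    · rw [← hr]; linarith [(hsp x y h1).dist r]
    · rw [← hr]
      have := dist_triangle (sp y z r) y x
      rw [dist_comm y x] at this
      linarith [(hsp y z h2).dist r]
  have hend : ∀ (x y : X) (γ : Path x y) (δ : ℝ), (∀ s, dist (γ s) x < δ) → dist x y < δ := by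
    intro x y γ δ h
    have := h 1
    rwa [γ.target, dist_comm] at this
  constructor
  · -- generation
    rw [eq_top_iff]
    intro g _
    obtain ⟨γ, rfl⟩ := hsurj g
    obtain ⟨t, n, h0, hm, hn, hi⟩ := partition γ hτ0
    have key : ∀ i, K _ _ (γ.subpath 0 (t i)) ∈ AddSubgroup.closure S := by
      intro i
      induction i with
      | zero => rw [h0, Path.subpath_self, hK.refl]; exact zero_mem _
      | succ i ih =>
        rw [← hK.sub γ 0 (t i) (t (i + 1))]
        refine add_mem ih (AddSubgroup.subset_closure ?_)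
        rw [hk1 _ _ _ (hi i)]
        exact hk2 _ _ (hend _ _ _ _ (hi i))
    have := key n
    rwa [hn, sub_zero_one K] at this
  · -- rigidity
    intro φ hφ
    have h0S : (0 : G) ∈ S := ⟨Path.refl x0, lt_refl x0 (by linarith), hK.refl x0⟩
    have hφ0 : φ 0 = 0 := by
      have := hφ 0 h0S 0 h0S (by rwa [add_zero])
      rw [add_zero] at this
      linarith
    obtain ⟨W, hW1, hW2, hW3⟩ := hcoc X τ (fun x y => φ (K x y (sp x y))) hτ0 (by
      intro x y z h1 h2 h3
      rw [← hφ _ (hk2 x y h1) _ (hk2 y z h2) (by rw [hk3 x y z h1 h2 h3]; exact hk2 x z h3),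
        hk3 x y z h1 h2 h3])
    have hWa : PAdd W := ⟨hW1, hW2⟩
    let h : X → ℝ := fun y => W x0 y (c y)
    have hh0 : h x0 = 0 := hW W hWa _
    have hWh : ∀ x y (γ : Path x y), W x y γ = h y - h x := by
      intro x y γ
      have := hW W hWa ((c x).trans (γ.trans (c y).symm))
      rw [hW2, hW2, hWa.symm] at this
      simp only [h]
      linarith
    -- small pieces
    have hpiece : ∀ x y (γ : Path x y), (∀ s, dist (γ s) x < τ / 2) →
        K x y γ = K x y (sp x y) ∧ K x y γ ∈ S ∧ φ (K x y γ) = h y - h x ∧ Lt (sp x y) τ := by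
      intro x y γ hγ
      have hγ' : ∀ s, dist (γ s) x < τ := fun s => by linarith [hγ s]
      have e := hk1 x y γ hγ'
      have hxy := hend _ _ _ _ hγ'
      refine ⟨e, e ▸ hk2 x y hxy, ?_, hsp x y hxy⟩
      rw [e, ← hWh x y γ, hW3 x y γ hγ]
    have hhalf : ∀ x y (γ : Path x y), x = x0 → Lt γ (D + 2 * ε) → φ (K x y γ) = h y := by
      intro x y γ hx hγ
      obtain ⟨t, n, h0, hm, hn, hi⟩ := partition γ (half_pos hτ0)
      have hin : ∀ i, K _ _ (γ.subpath 0 (t i)) ∈ S := fun i =>
        hmem _ _ _ (γ.source.trans hx) ((hγ.sub unitInterval.nonneg').mono (by linarith))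
      have key : ∀ i, φ (K _ _ (γ.subpath 0 (t i))) = h (γ (t i)) := by
        intro i
        induction i with
        | zero => rw [h0, Path.subpath_self, hK.refl, hφ0, γ.source, hx, hh0]
        | succ i ih =>
          obtain ⟨-, p2, p3, -⟩ := hpiece _ _ _ (hi i)
          have e := hK.sub γ 0 (t i) (t (i + 1))
          rw [← e, hφ _ (hin i) _ p2 (e ▸ hin (i + 1)), ih, p3]
          ring
      have := key n
      rwa [hn, sub_zero_one K, γ.target] at this
    rintro s ⟨γ, hγ, rfl⟩
    obtain ⟨t, n, h0, hm, hn, hi⟩ := partition γ (half_pos hτ0)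
    by_cases hall : Lt (γ.subpath 0 (t n)) (D + 2 * ε)
    · have := hhalf _ _ _ γ.source hall
      rwa [hn, sub_zero_one K, γ.target, hh0] at this
    · have hex : ∃ i, Lt (γ.subpath 0 (t i)) (D + 2 * ε) ∧
          ¬ Lt (γ.subpath 0 (t (i + 1))) (D + 2 * ε) := by
        by_contra hcon
        push Not at hcon
        have : ∀ i, Lt (γ.subpath 0 (t i)) (D + 2 * ε) := by
          intro i
          induction i with
          | zero => rw [h0, Path.subpath_self]; exact lt_refl _ (by linarith)
          | succ i ih => exact hcon i ih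
        exact hall (this n)
      obtain ⟨i, hi1, hi2⟩ := hex
      have htail : Lt (γ.subpath (t (i + 1)) 1) (D + 2 * ε) := by
        unfold Lt at hi2 hγ ⊢
        rw [len_sub γ unitInterval.nonneg'] at hi2
        rw [len_sub γ unitInterval.le_one']
        rw [← len_split γ (t (i + 1)), show 2 * D + 4 * ε = (D + 2 * ε) + (D + 2 * ε) by ring,
          ENNReal.ofReal_add (by linarith) (by linarith)] at hγ
        by_contra h3
        exact absurd (add_le_add (not_lt.1 hi2) (not_lt.1 h3)) (not_le.2 hγ)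
      obtain ⟨p1, p2, p3, p4⟩ := hpiece _ _ _ (hi i)
      have ha : K _ _ (γ.subpath 0 (t i)) ∈ S := hmem _ _ _ γ.source (hi1.mono (by linarith))
      have e := hK.sub γ 0 (t i) (t (i + 1))
      have hab : K _ _ (γ.subpath 0 (t (i + 1))) ∈ S := by
        rw [← e, p1, ← hK.2]
        exact hmem _ _ _ γ.source ((hi1.trans p4).mono (by linarith))
      have hφab : φ (K _ _ (γ.subpath 0 (t (i + 1)))) = h (γ (t (i + 1))) := by
        rw [← e, hφ _ ha _ p2 (e ▸ hab), hhalf _ _ _ γ.source hi1, p3]
        ring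
      have he : K _ _ (γ.subpath (t (i + 1)) 1).symm ∈ S :=
        hmem _ _ _ γ.target (htail.symm.mono (by linarith))
      have hφe := hhalf _ _ _ γ.target htail.symm
      have e2 : K _ _ γ + K _ _ (γ.subpath (t (i + 1)) 1).symm =
          K _ _ (γ.subpath 0 (t (i + 1))) := by
        rw [hK.symm, ← sub_zero_one K γ, ← hK.sub γ 0 (t (i + 1)) 1]
        abel
      have := hφ _ ⟨γ, hγ, rfl⟩ _ he (e2 ▸ hab)
      rw [e2, hφab, hφe] at this
      linarith

end Pool.Agent.P.MP_d05bff_gt.Topo
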