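import Pool.Agent.P.MP_d05bff_gt.Iface

/-!
Voronoi cells of the integer lattice for a positive definite form, and the mean squared distance
to the lattice.
-/

namespace Pool.Agent.P.MP_d05bff_gt

open MeasureTheory Matrix Filter Topology
open scoped Pointwise

namespace VorAux

variable {ι : Type} [Fintype ι] [DecidableEq ι]

omit [Fintype ι] [DecidableEq ι] in
theorem zc_add (k l : ι → ℤ) : zc (k + l) = zc k + zc l := by
  funext i; simp [zc]

omit [Fintype ι] [DecidableEq ι] in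
theorem zc_sub (k l : ι → ℤ) : zc (k - l) = zc k - zc l := by
  funext i; simp [zc]

omit [Fintype ι] [DecidableEq ι] in
theorem zc_neg (k : ι → ℤ) : zc (-k) = -zc k := by
  funext i; simp [zc]

omit [Fintype ι] [DecidableEq ι] in
theorem zc_zero : zc (0 : ι → ℤ) = 0 := by
  funext i; simp [zc]

omit [Fintype ι] [DecidableEq ι] in
theorem zc_ne_zero {k : ι → ℤ} (hk : k ≠ 0) : zc k ≠ 0 := by
  intro h
  apply hk
  funext i
  have := congrFun h i
  simpa [zc] using this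

omit [DecidableEq ι] in
theorem mc_mulVec {κ : Type} (W : Matrix κ ι ℤ) (k : ι → ℤ) : mc W *ᵥ zc k = zc (W *ᵥ k) := by
  funext i
  simp [mc, zc, mulVec, dotProduct]

omit [DecidableEq ι] in
theorem qf_pos {Q : Matrix ι ι ℝ} (hQ : Q.PosDef) {y : ι → ℝ} (hy : y ≠ 0) : 0 < qf Q y := by
  simpa [qf] using hQ.dotProduct_mulVec_pos hy

omit [DecidableEq ι] in
theorem qf_zero (Q : Matrix ι ι ℝ) : qf Q 0 = 0 := by simp [qf]

omit [DecidableEq ι] in
theorem qf_nonneg {Q : Matrix ι ι ℝ} (hQ : Q.PosDef) (y : ι → ℝ) : 0 ≤ qf Q y := by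
  by_cases hy : y = 0
  · rw [hy, qf_zero]
  · exact (qf_pos hQ hy).le

omit [DecidableEq ι] in
theorem qf_neg (Q : Matrix ι ι ℝ) (y : ι → ℝ) : qf Q (-y) = qf Q y := by
  simp [qf, mulVec_neg]

omit [DecidableEq ι] in
theorem qf_smul (Q : Matrix ι ι ℝ) (c : ℝ) (y : ι → ℝ) : qf Q (c • y) = c ^ 2 * qf Q y := by
  simp only [qf, mulVec_smul, smul_dotProduct, dotProduct_smul, smul_eq_mul]; ring

omit [DecidableEq ι] in
theorem continuous_qf (Q : Matrix ι ι ℝ) : Continuous (qf Q) := by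
  unfold qf
  simp only [dotProduct, mulVec]
  fun_prop

omit [DecidableEq ι] in
theorem symm_dot {Q : Matrix ι ι ℝ} (hQ : Q.PosDef) (a b : ι → ℝ) :
    a ⬝ᵥ Q *ᵥ b = (Q *ᵥ a) ⬝ᵥ b := by
  have h : Qᵀ = Q := by
    have := hQ.isHermitian
    rwa [IsHermitian, conjTranspose_eq_transpose_of_trivial] at this
  rw [dotProduct_mulVec, ← mulVec_transpose, h]

omit [DecidableEq ι] in
theorem qf_sub {Q : Matrix ι ι ℝ} (hQ : Q.PosDef) (a b : ι → ℝ) :
    qf Q (a - b) = qf Q a - 2 * ((Q *ᵥ b) ⬝ᵥ a) + qf Q b := by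
  simp only [qf, mulVec_sub, sub_dotProduct, dotProduct_sub]
  rw [symm_dot hQ b a, dotProduct_comm a (Q *ᵥ b)]
  ring

omit [DecidableEq ι] in
theorem qf_sub_le {Q : Matrix ι ι ℝ} (hQ : Q.PosDef) (a b : ι → ℝ) :
    qf Q (a - b) ≤ 2 * qf Q a + 2 * qf Q b := by
  have h1 := qf_sub hQ a b
  have h2 := qf_sub hQ a (-b)
  have h3 := qf_nonneg hQ (a - -b)
  rw [qf_neg, mulVec_neg, neg_dotProduct] at h2
  linarith

omit [DecidableEq ι] in
theorem qf_le (Q : Matrix ι ι ℝ) {y : ι → ℝ} (hy : ∀ i, |y i| ≤ 1) :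
    qf Q y ≤ ∑ i, ∑ j, |Q i j| := by
  simp only [qf, dotProduct, mulVec, Finset.mul_sum]
  refine Finset.sum_le_sum fun i _ => Finset.sum_le_sum fun j _ => ?_
  refine (le_abs_self _).trans ?_
  rw [abs_mul, abs_mul]
  have h1 := hy i
  have h2 := hy j
  have h3 := abs_nonneg (Q i j)
  have h4 := abs_nonneg (y i)
  have h5 := abs_nonneg (y j)
  calc |y i| * (|Q i j| * |y j|) ≤ 1 * (|Q i j| * 1) := by gcongr
    _ = _ := by ring

omit [DecidableEq ι] in
theorem coercive {Q : Matrix ι ι ℝ} (hQ : Q.PosDef) :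
    ∃ c : ℝ, 0 < c ∧ ∀ y, c * ‖y‖ ^ 2 ≤ qf Q y := by
  by_cases hne : (Metric.sphere (0 : ι → ℝ) 1).Nonempty
  · obtain ⟨x, hx, hmin⟩ := (isCompact_sphere (0 : ι → ℝ) 1).exists_isMinOn hne
      (continuous_qf Q).continuousOn
    have hx0 : x ≠ 0 := by
      intro h
      rw [h] at hx
      simp at hx
    refine ⟨qf Q x, qf_pos hQ hx0, fun y => ?_⟩
    by_cases hy : y = 0
    · rw [hy, qf_zero]; simp
    · have hn : 0 < ‖y‖ := norm_pos_iff.2 hy
      have hs : (‖y‖⁻¹ • y) ∈ Metric.sphere (0 : ι → ℝ) 1 := by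
        simp [norm_smul, hn.ne']
      have h1 : qf Q x ≤ qf Q (‖y‖⁻¹ • y) := hmin hs
      rw [qf_smul] at h1
      have h2 : qf Q x * ‖y‖ ^ 2 ≤ (‖y‖⁻¹) ^ 2 * qf Q y * ‖y‖ ^ 2 := by gcongr
      calc qf Q x * ‖y‖ ^ 2 ≤ (‖y‖⁻¹) ^ 2 * qf Q y * ‖y‖ ^ 2 := h2
        _ = qf Q y := by field_simp
  · refine ⟨1, one_pos, fun y => ?_⟩
    by_cases hy : y = 0
    · rw [hy, qf_zero]; simp
    · exfalso
      have hn : 0 < ‖y‖ := norm_pos_iff.2 hy
      exact hne ⟨‖y‖⁻¹ • y, by simp [norm_smul, hn.ne']⟩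

omit [DecidableEq ι] in
theorem finite_le {Q : Matrix ι ι ℝ} (hQ : Q.PosDef) (y : ι → ℝ) (M : ℝ) :
    {k : ι → ℤ | qf Q (y - zc k) ≤ M}.Finite := by
  obtain ⟨c, hc, hcq⟩ := coercive hQ
  obtain ⟨N, hN⟩ := exists_nat_ge (‖y‖ + (M / c + 1))
  refine (Set.Finite.pi' (fun _ : ι => Set.finite_Icc (-(N : ℤ)) N)).subset fun k hk => ?_
  intro i
  have h1 : c * ‖y - zc k‖ ^ 2 ≤ M := (hcq _).trans hk
  have h2 : ‖y - zc k‖ ^ 2 ≤ M / c := by rw [le_div_iff₀ hc]; linarith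
  have h3 : ‖y - zc k‖ ≤ M / c + 1 := by nlinarith [norm_nonneg (y - zc k), sq_nonneg (‖y - zc k‖ - 1)]
  have h4 : |y i - k i| ≤ ‖y - zc k‖ := by
    simpa [zc] using norm_le_pi_norm (y - zc k) i
  have h5 : |y i| ≤ ‖y‖ := by simpa using norm_le_pi_norm y i
  have h6 : |(k i : ℝ)| ≤ N := by
    have : |(k i : ℝ)| ≤ |y i| + |y i - k i| := by
      calc |(k i : ℝ)| = |y i - (y i - k i)| := by ring_nf
        _ ≤ _ := abs_sub _ _
    linarith
  have h7 : |k i| ≤ (N : ℤ) := by exact_mod_cast h6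
  exact abs_le.1 h7

omit [DecidableEq ι] in
theorem dq_le_of_nonneg {Q : Matrix ι ι ℝ} (hQ : ∀ y, 0 ≤ qf Q y) (y : ι → ℝ) (k : ι → ℤ) :
    dq Q y ≤ qf Q (y - zc k) :=
  ciInf_le ⟨0, by rintro _ ⟨k, rfl⟩; exact hQ _⟩ k

omit [DecidableEq ι] in
theorem dq_le {Q : Matrix ι ι ℝ} (hQ : Q.PosDef) (y : ι → ℝ) (k : ι → ℤ) :
    dq Q y ≤ qf Q (y - zc k) :=
  dq_le_of_nonneg (qf_nonneg hQ) y k

omit [DecidableEq ι] in
theorem le_dq {Q : Matrix ι ι ℝ} {y : ι → ℝ} {m : ℝ} (h : ∀ k, m ≤ qf Q (y - zc k)) :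
    m ≤ dq Q y := le_ciInf h

omit [DecidableEq ι] in
theorem dq_nonneg {Q : Matrix ι ι ℝ} (hQ : Q.PosDef) (y : ι → ℝ) : 0 ≤ dq Q y :=
  le_dq fun _ => qf_nonneg hQ _

omit [DecidableEq ι] in
theorem exists_dq {Q : Matrix ι ι ℝ} (hQ : Q.PosDef) (y : ι → ℝ) :
    ∃ k : ι → ℤ, dq Q y = qf Q (y - zc k) := by
  obtain ⟨k, hk, hmin⟩ := Set.exists_min_image _ (fun k => qf Q (y - zc k))
    (finite_le hQ y (qf Q (y - zc 0))) ⟨0, le_refl (qf Q (y - zc 0))⟩
  refine ⟨k, le_antisymm (dq_le hQ y k) (le_dq fun l => ?_)⟩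
  by_cases hl : qf Q (y - zc l) ≤ qf Q (y - zc 0)
  · exact hmin l hl
  · exact le_trans hk (not_le.1 hl).le

omit [DecidableEq ι] in
theorem dq_add (Q : Matrix ι ι ℝ) (k : ι → ℤ) (y : ι → ℝ) : dq Q (zc k + y) = dq Q y := by
  unfold dq
  rw [← (Equiv.addRight k).surjective.iInf_comp (fun l => qf Q (zc k + y - zc l))]
  congr 1
  funext l
  simp only [Equiv.coe_addRight, zc_add]
  congr 1
  abel

omit [DecidableEq ι] in
theorem measurable_dq (Q : Matrix ι ι ℝ) : Measurable (dq Q) :=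
  Measurable.iInf fun _ => ((continuous_qf Q).comp (continuous_id.sub continuous_const)).measurable

omit [DecidableEq ι] in
theorem dq_le_sum {Q : Matrix ι ι ℝ} (hQ : ∀ y, 0 ≤ qf Q y) (y : ι → ℝ) :
    dq Q y ≤ ∑ i, ∑ j, |Q i j| := by
  refine (dq_le_of_nonneg hQ y (fun i => ⌊y i⌋)).trans (qf_le Q fun i => ?_)
  have h1 := Int.floor_le (y i)
  have h2 := Int.lt_floor_add_one (y i)
  simp only [Pi.sub_apply, zc]
  rw [abs_le]
  constructor <;> linarith

omit [DecidableEq ι] in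
theorem integrableOn_dq {Q : Matrix ι ι ℝ} (hQ : ∀ y, 0 ≤ qf Q y) {s : Set (ι → ℝ)}
    (hs : volume s ≠ ⊤) : IntegrableOn (dq Q) s :=
  Measure.integrableOn_of_bounded hs (measurable_dq Q).aestronglyMeasurable
    (M := ∑ i, ∑ j, |Q i j|) (Eventually.of_forall fun y => by
      rw [Real.norm_of_nonneg (le_dq fun _ => hQ _)]
      exact dq_le_sum hQ y)

/-- The unit cube. -/
def cube (ι : Type) : Set (ι → ℝ) := Set.pi Set.univ (fun _ : ι => Set.Ico (0 : ℝ) 1)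

omit [DecidableEq ι] in
theorem measurableSet_cube : MeasurableSet (cube ι) :=
  MeasurableSet.univ_pi fun _ => measurableSet_Ico

omit [DecidableEq ι] in
theorem volume_cube : volume (cube ι) = 1 := by
  rw [cube, Real.volume_pi_Ico]; simp

omit [DecidableEq ι] in
theorem FF_eq (Q : Matrix ι ι ℝ) : FF Q = ∫ y in cube ι, dq Q y := rfl

theorem lat_one (v : lat (1 : Matrix ι ι ℝ)) : ∃ k : ι → ℤ, (v : ι → ℝ) = zc k := by
  obtain ⟨_, k, rfl⟩ := v
  exact ⟨k, by simp⟩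

theorem zc_mem (k : ι → ℤ) : zc k ∈ lat (1 : Matrix ι ι ℝ) := ⟨k, by simp⟩

omit [Fintype ι] [DecidableEq ι] in
theorem existsUnique_cube (x : ι → ℝ) : ∃! k : ι → ℤ, zc k + x ∈ cube ι := by
  refine ⟨fun i => -⌊x i⌋, ?_, ?_⟩
  · intro i _
    have h1 := Int.floor_le (x i)
    have h2 := Int.lt_floor_add_one (x i)
    simp only [Pi.add_apply, zc, Int.cast_neg, Set.mem_Ico]
    constructor <;> linarith
  · intro k hk
    funext i
    have h := hk i (Set.mem_univ i)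
    simp only [Pi.add_apply, zc, Set.mem_Ico] at h
    have : ⌊x i⌋ = -k i := by
      rw [Int.floor_eq_iff]
      push_cast
      constructor <;> linarith [h.1, h.2]
    rw [this, neg_neg]

theorem fund_of_existsUnique {s : Set (ι → ℝ)} (hs : MeasurableSet s)
    (h : ∀ x : ι → ℝ, ∃! k : ι → ℤ, zc k + x ∈ s) :
    IsAddFundamentalDomain (lat (1 : Matrix ι ι ℝ)) s volume := by
  refine IsAddFundamentalDomain.mk' hs.nullMeasurableSet fun x => ?_
  obtain ⟨k, hk, hu⟩ := h x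
  refine ⟨⟨zc k, zc_mem k⟩, hk, fun v hv => ?_⟩
  obtain ⟨l, hl⟩ := lat_one v
  have hv' : (v : ι → ℝ) + x ∈ s := hv
  rw [hl] at hv'
  apply Subtype.ext
  rw [hl, hu l hv']

theorem fund_cube : IsAddFundamentalDomain (lat (1 : Matrix ι ι ℝ)) (cube ι) volume :=
  fund_of_existsUnique measurableSet_cube existsUnique_cube

theorem integral_eq_of_fund {s : Set (ι → ℝ)}
    (hs : IsAddFundamentalDomain (lat (1 : Matrix ι ι ℝ)) s volume) {f : (ι → ℝ) → ℝ}
    (hf : ∀ k y, f (zc k + y) = f y) : ∫ y in cube ι, f y = ∫ y in s, f y := by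
  refine fund_cube.setIntegral_eq hs fun v x => ?_
  obtain ⟨l, hl⟩ := lat_one v
  change f ((v : ι → ℝ) + x) = f x
  rw [hl, hf]

theorem integral_dq_shift (Q : Matrix ι ι ℝ) (y : ι → ℝ) :
    ∫ z in cube ι, dq Q (y + z) = FF Q := by
  have h := integral_eq_of_fund (fund_cube.vadd_of_comm y) (dq_add Q)
  rw [FF_eq, h]
  exact ((measurePreserving_add_left volume y).setIntegral_image_emb
    (measurableEmbedding_addLeft y) (dq Q) (cube ι)).symm

omit [DecidableEq ι] in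
theorem hyperplane_null {a : ι → ℝ} (ha : a ≠ 0) (c : ℝ) :
    volume {x : ι → ℝ | a ⬝ᵥ x = c} = 0 := by
  have haa : a ⬝ᵥ a ≠ 0 := fun h => ha (dotProduct_self_eq_zero.1 h)
  let φ : (ι → ℝ) →ₗ[ℝ] ℝ := dotProductBilin ℝ ℝ a
  have hφ : ∀ x, φ x = a ⬝ᵥ x := fun x => rfl
  have hk : LinearMap.ker φ ≠ ⊤ := by
    intro h
    have : a ∈ LinearMap.ker φ := by rw [h]; trivial
    exact haa this
  have h0 := Measure.addHaar_submodule volume _ hk
  have : {x : ι → ℝ | a ⬝ᵥ x = c} =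
      (fun x => -((c / (a ⬝ᵥ a)) • a) + x) ⁻¹' (LinearMap.ker φ : Set (ι → ℝ)) := by
    ext x
    simp only [Set.mem_ofPred_eq, Set.mem_preimage, SetLike.mem_coe, LinearMap.mem_ker, hφ,
      dotProduct_add, dotProduct_neg, dotProduct_smul, smul_eq_mul]
    rw [div_mul_cancel₀ _ haa]
    constructor <;> intro h <;> linarith
  rw [this, measure_preimage_add, h0]

omit [DecidableEq ι] in
theorem mem_Vor {Q : Matrix ι ι ℝ} (hQ : Q.PosDef) {y : ι → ℝ} :
    y ∈ Vor Q ↔ ∀ k : ι → ℤ, 2 * ((Q *ᵥ zc k) ⬝ᵥ y) ≤ qf Q (zc k) := by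
  simp only [Vor, Set.mem_ofPred_eq, qf_sub hQ]
  refine forall_congr' fun k => ?_
  constructor <;> intro h <;> linarith

omit [DecidableEq ι] in
theorem dq_of_mem {Q : Matrix ι ι ℝ} (hQ : Q.PosDef) {y : ι → ℝ} (hy : y ∈ Vor Q) :
    dq Q y = qf Q y := by
  refine le_antisymm ?_ (le_dq hy)
  simpa [zc_zero] using dq_le hQ y 0

omit [DecidableEq ι] in
theorem isClosed_Vor (Q : Matrix ι ι ℝ) : IsClosed (Vor Q) := by
  have : Vor Q = ⋂ k : ι → ℤ, {y | qf Q y ≤ qf Q (y - zc k)} := by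
    ext y; simp [Vor]
  rw [this]
  exact isClosed_iInter fun k => isClosed_le (continuous_qf Q)
    ((continuous_qf Q).comp (continuous_id.sub continuous_const))

omit [DecidableEq ι] in
theorem isBounded_Vor {Q : Matrix ι ι ℝ} (hQ : Q.PosDef) : Bornology.IsBounded (Vor Q) := by
  obtain ⟨c, hc, hcq⟩ := coercive hQ
  rw [isBounded_iff_forall_norm_le]
  refine ⟨(∑ i, ∑ j, |Q i j|) / c + 1, fun y hy => ?_⟩
  have h1 : c * ‖y‖ ^ 2 ≤ ∑ i, ∑ j, |Q i j| := by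
    refine (hcq y).trans ?_
    rw [← dq_of_mem hQ hy]
    exact dq_le_sum (qf_nonneg hQ) y
  have h2 : ‖y‖ ^ 2 ≤ (∑ i, ∑ j, |Q i j|) / c := by rw [le_div_iff₀ hc]; linarith
  nlinarith [norm_nonneg y, sq_nonneg (‖y‖ - 1)]

omit [DecidableEq ι] in
theorem exists_mem_Vor {Q : Matrix ι ι ℝ} (hQ : Q.PosDef) (y : ι → ℝ) :
    ∃ k : ι → ℤ, y - zc k ∈ Vor Q := by
  obtain ⟨k, hk⟩ := exists_dq hQ y
  refine ⟨k, fun l => ?_⟩
  rw [← hk, sub_sub, ← zc_add]
  exact dq_le hQ y _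

omit [DecidableEq ι] in
theorem neg_mem_Vor {Q : Matrix ι ι ℝ} {y : ι → ℝ} (hy : y ∈ Vor Q) : -y ∈ Vor Q := by
  intro k
  have h := hy (-k)
  rw [qf_neg, ← qf_neg Q (-y - zc k)]
  rw [zc_neg] at h
  convert h using 2
  abel

omit [DecidableEq ι] in
theorem mulVec_ne_zero {Q : Matrix ι ι ℝ} (hQ : Q.PosDef) {v : ι → ℝ} (hv : v ≠ 0) :
    Q *ᵥ v ≠ 0 := by
  intro h
  have := qf_pos hQ hv
  rw [qf, h, dotProduct_zero] at this
  exact lt_irrefl _ this

omit [DecidableEq ι] in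
theorem eq_of_mem_mem {Q : Matrix ι ι ℝ} (hQ : Q.PosDef) {y : ι → ℝ} {k : ι → ℤ}
    (hy : y ∈ Vor Q) (hy' : y - zc k ∈ Vor Q) : (Q *ᵥ zc k) ⬝ᵥ y = qf Q (zc k) / 2 := by
  have h1 := hy k
  have h2 := hy' (-k)
  rw [zc_neg, sub_neg_eq_add, sub_add_cancel] at h2
  rw [qf_sub hQ] at h1 h2
  linarith

theorem fund_Vor {Q : Matrix ι ι ℝ} (hQ : Q.PosDef) :
    IsAddFundamentalDomain (lat (1 : Matrix ι ι ℝ)) (Vor Q) volume := by
  refine IsAddFundamentalDomain.mk'' (isClosed_Vor Q).measurableSet.nullMeasurableSet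
    (Eventually.of_forall fun y => ?_) (fun v hv => ?_)
    (fun v => (measurePreserving_vadd v volume).quasiMeasurePreserving)
  · obtain ⟨k, hk⟩ := exists_mem_Vor hQ y
    refine ⟨⟨zc (-k), zc_mem _⟩, ?_⟩
    change zc (-k) + y ∈ Vor Q
    rwa [zc_neg, neg_add_eq_sub]
  · obtain ⟨k, hk⟩ := lat_one v
    have hk0 : zc k ≠ 0 := fun h => hv (Subtype.ext (hk.trans h))
    refine measure_mono_null ?_ (hyperplane_null (mulVec_ne_zero hQ hk0) (qf Q (zc k) / 2))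
    rintro _ ⟨⟨x, hx, rfl⟩, hy⟩
    refine eq_of_mem_mem hQ hy ?_
    change (v : ι → ℝ) + x - zc k ∈ Vor Q
    rwa [hk, add_sub_cancel_left]

theorem volume_Vor {Q : Matrix ι ι ℝ} (hQ : Q.PosDef) : volume (Vor Q) = 1 := by
  rw [(fund_Vor hQ).measure_eq fund_cube, volume_cube]

theorem FF_eq_Vor {Q : Matrix ι ι ℝ} (hQ : Q.PosDef) (Q' : Matrix ι ι ℝ) :
    FF Q' = ∫ y in Vor Q, dq Q' y :=
  integral_eq_of_fund (fund_Vor hQ) (dq_add Q')

theorem FF_eq_qf {Q : Matrix ι ι ℝ} (hQ : Q.PosDef) : FF Q = ∫ y in Vor Q, qf Q y := by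
  rw [FF_eq_Vor hQ]
  exact setIntegral_congr_fun (isClosed_Vor Q).measurableSet fun y hy => dq_of_mem hQ hy

omit [DecidableEq ι] in
theorem qf_gram (g : Matrix ι ι ℝ) (y : ι → ℝ) : qf (gᵀ * g) y = (g *ᵥ y) ⬝ᵥ (g *ᵥ y) := by
  rw [qf, ← mulVec_mulVec, dotProduct_mulVec, vecMul_transpose]

theorem posDef_gram {g : Matrix ι ι ℝ} (hg : g.det ≠ 0) : (gᵀ * g).PosDef := by
  have hinj : Function.Injective g.mulVec :=
    mulVec_injective_iff_isUnit.2 ((isUnit_iff_isUnit_det g).2 (Ne.isUnit hg))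
  simpa using PosDef.conjTranspose_mul_self g hinj

theorem image_eq {g : Matrix ι ι ℝ} (hg : g.det ≠ 0) :
    (fun y => g *ᵥ y) '' Vor (gᵀ * g) =
      {x | ∀ k : ι → ℤ, x ⬝ᵥ x ≤ (x - g *ᵥ zc k) ⬝ᵥ (x - g *ᵥ zc k)} := by
  have hsurj : Function.Surjective g.mulVec :=
    mulVec_surjective_iff_isUnit.2 ((isUnit_iff_isUnit_det g).2 (Ne.isUnit hg))
  ext x
  constructor
  · rintro ⟨y, hy, rfl⟩ k
    have := hy k
    rwa [qf_gram, qf_gram, mulVec_sub] at this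
  · intro hx
    obtain ⟨y, rfl⟩ := hsurj x
    refine ⟨y, fun k => ?_, rfl⟩
    rw [qf_gram, qf_gram, mulVec_sub]
    exact hx k

omit [DecidableEq ι] in
theorem dot_le_iff (x v : ι → ℝ) :
    x ⬝ᵥ x ≤ (x - v) ⬝ᵥ (x - v) ↔ ((2 : ℝ) • v) ⬝ᵥ x ≤ v ⬝ᵥ v := by
  simp only [sub_dotProduct, dotProduct_sub, smul_dotProduct, smul_eq_mul, dotProduct_comm x v]
  constructor <;> intro h <;> linarith

theorem volume_image {g : Matrix ι ι ℝ} (hg : g.det ≠ 0) :
    volume ((fun y => g *ᵥ y) '' Vor (gᵀ * g)) = ENNReal.ofReal |g.det| := by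
  have := Measure.addHaar_image_linearMap (volume : Measure (ι → ℝ)) (Matrix.toLin' g)
    (Vor (gᵀ * g))
  rw [volume_Vor (posDef_gram hg), mul_one, LinearMap.det_toLin'] at this
  exact this

theorem integral_image {g : Matrix ι ι ℝ} (hg : g.det ≠ 0) {s : Set (ι → ℝ)}
    (hs : MeasurableSet s) (f : (ι → ℝ) → ℝ) :
    ∫ x in (fun y => g *ᵥ y) '' s, f x = |g.det| * ∫ y in s, f (g *ᵥ y) := by
  have hinj : Function.Injective g.mulVec :=
    mulVec_injective_iff_isUnit.2 ((isUnit_iff_isUnit_det g).2 (Ne.isUnit hg))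
  let L : (ι → ℝ) →L[ℝ] (ι → ℝ) := LinearMap.toContinuousLinearMap (Matrix.toLin' g)
  have hL : L.det = g.det := by
    simp [L, ContinuousLinearMap.det]
  have := integral_image_eq_integral_abs_det_fderiv_smul (volume : Measure (ι → ℝ)) hs
    (f := fun y => g *ᵥ y) (f' := fun _ => L)
    (fun x _ => L.hasFDerivAt.hasFDerivWithinAt) hinj.injOn f
  rw [this, hL, integral_smul, smul_eq_mul]

theorem isBounded_image {g : Matrix ι ι ℝ} (hg : g.det ≠ 0) :
    Bornology.IsBounded ((fun y => g *ᵥ y) '' Vor (gᵀ * g)) := by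
  let L : (ι → ℝ) →L[ℝ] (ι → ℝ) := LinearMap.toContinuousLinearMap (Matrix.toLin' g)
  exact L.lipschitz.isBounded_image (isBounded_Vor (posDef_gram hg))

theorem polytope_image {g : Matrix ι ι ℝ} (hg : g.det ≠ 0) :
    ∃ s : Finset ((ι → ℝ) × ℝ),
      (fun y => g *ᵥ y) '' Vor (gᵀ * g) = {x | ∀ p ∈ s, p.1 ⬝ᵥ x ≤ p.2} := by
  classical
  obtain ⟨R, hR⟩ := isBounded_iff_forall_norm_le.1 (isBounded_image hg)
  rw [image_eq hg] at hR ⊢
  have hfin := finite_le (posDef_gram hg) 0 (4 * (Fintype.card ι * R ^ 2))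
  refine ⟨hfin.toFinset.image (fun k => ((2 : ℝ) • (g *ᵥ zc k), (g *ᵥ zc k) ⬝ᵥ (g *ᵥ zc k))) ∪
    (Finset.univ.image (fun i => (Pi.single i (1 : ℝ), R)) ∪
      Finset.univ.image (fun i => (Pi.single i (-1 : ℝ), R))), ?_⟩
  ext x
  simp only [Set.mem_ofPred_eq, Finset.forall_mem_union, Finset.forall_mem_image,
    Set.Finite.mem_toFinset, Finset.mem_univ, true_imp_iff, single_dotProduct, one_mul,
    neg_mul]
  constructor
  · intro hx
    have hn := hR x hx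
    refine ⟨fun k _ => (dot_le_iff _ _).1 (hx k), fun i => ?_, fun i => ?_⟩
    · have : |x i| ≤ ‖x‖ := by simpa using norm_le_pi_norm x i
      linarith [le_abs_self (x i)]
    · have : |x i| ≤ ‖x‖ := by simpa using norm_le_pi_norm x i
      linarith [neg_abs_le (x i)]
  · rintro ⟨h1, h2, h3⟩ k
    rw [dot_le_iff]
    by_cases hk : qf (gᵀ * g) (0 - zc k) ≤ 4 * (Fintype.card ι * R ^ 2)
    · exact h1 hk
    · rw [zero_sub, qf_neg, qf_gram, not_le] at hk
      have hx : x ⬝ᵥ x ≤ Fintype.card ι * R ^ 2 := by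
        rw [dotProduct, ← Finset.card_univ, ← nsmul_eq_mul, ← Finset.sum_const]
        refine Finset.sum_le_sum fun i _ => ?_
        have a1 := h2 (x := i)
        have a2 := h3 (x := i)
        nlinarith
      set v := g *ᵥ zc k
      have h0 : 0 ≤ (v - (2 : ℝ) • x) ⬝ᵥ (v - (2 : ℝ) • x) :=
        Finset.sum_nonneg fun i _ => mul_self_nonneg _
      simp only [sub_dotProduct, dotProduct_sub, smul_dotProduct, dotProduct_smul, smul_eq_mul,
        dotProduct_comm x v] at h0 ⊢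
      linarith

theorem isClosed_image {g : Matrix ι ι ℝ} (hg : g.det ≠ 0) :
    IsClosed ((fun y => g *ᵥ y) '' Vor (gᵀ * g)) := by
  rw [image_eq hg, Set.ofPred_forall]
  refine isClosed_iInter fun k => isClosed_le ?_ ?_ <;>
  · simp only [dotProduct]
    fun_prop

theorem convex_image {g : Matrix ι ι ℝ} (hg : g.det ≠ 0) :
    Convex ℝ ((fun y => g *ᵥ y) '' Vor (gᵀ * g)) := by
  rw [image_eq hg]
  intro x hx y hy a b ha hb hab k
  have h1 := (dot_le_iff _ _).1 (hx k)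
  have h2 := (dot_le_iff _ _).1 (hy k)
  rw [dot_le_iff, dotProduct_add, dotProduct_smul, dotProduct_smul, smul_eq_mul, smul_eq_mul]
  have h3 := mul_le_mul_of_nonneg_left h1 ha
  have h4 := mul_le_mul_of_nonneg_left h2 hb
  calc _ ≤ a * ((g *ᵥ zc k) ⬝ᵥ (g *ᵥ zc k)) + b * ((g *ᵥ zc k) ⬝ᵥ (g *ᵥ zc k)) := add_le_add h3 h4
    _ = _ := by rw [← add_mul, hab, one_mul]

theorem fund_image {g : Matrix ι ι ℝ} (hg : g.det ≠ 0) :
    IsAddFundamentalDomain (lat g) ((fun y => g *ᵥ y) '' Vor (gᵀ * g)) volume := by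
  have hu : IsUnit g := (isUnit_iff_isUnit_det g).2 (Ne.isUnit hg)
  have hsurj : Function.Surjective g.mulVec := mulVec_surjective_iff_isUnit.2 hu
  refine IsAddFundamentalDomain.mk'' (isClosed_image hg).measurableSet.nullMeasurableSet
    (Eventually.of_forall fun x => ?_) (fun v hv => ?_)
    (fun v => (measurePreserving_vadd v volume).quasiMeasurePreserving)
  · obtain ⟨y, rfl⟩ := hsurj x
    obtain ⟨k, hk⟩ := exists_mem_Vor (posDef_gram hg) y
    refine ⟨⟨g *ᵥ zc (-k), -k, rfl⟩, y - zc k, hk, ?_⟩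
    change g *ᵥ (y - zc k) = g *ᵥ zc (-k) + g *ᵥ y
    rw [zc_neg, mulVec_neg, mulVec_sub, neg_add_eq_sub]
  · obtain ⟨v, k, rfl⟩ := v
    have hk0 : g *ᵥ zc k ≠ 0 := fun h => hv (Subtype.ext h)
    refine measure_mono_null ?_ (hyperplane_null hk0 ((g *ᵥ zc k) ⬝ᵥ (g *ᵥ zc k) / 2))
    rw [image_eq hg]
    rintro _ ⟨⟨x, hx, rfl⟩, hy⟩
    have h1 := (dot_le_iff _ _).1 (hx (-k))
    have h2 : ((2 : ℝ) • (g *ᵥ zc k)) ⬝ᵥ (g *ᵥ zc k + x) ≤ _ := (dot_le_iff _ _).1 (hy k)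
    change (g *ᵥ zc k) ⬝ᵥ (g *ᵥ zc k + x) = _
    rw [zc_neg, mulVec_neg] at h1
    simp only [dotProduct_add, smul_dotProduct, smul_eq_mul, neg_dotProduct, dotProduct_neg,
      neg_neg] at h1 h2 ⊢
    linarith

omit [DecidableEq ι] in
theorem cube_ne_top : volume (cube ι) ≠ ⊤ := by rw [volume_cube]; exact ENNReal.one_ne_top

omit [DecidableEq ι] in
theorem real_cube : (volume : Measure (ι → ℝ)).real (cube ι) = 1 := by
  rw [Measure.real, volume_cube, ENNReal.toReal_one]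

omit [DecidableEq ι] in
theorem FF_nonneg {Q : Matrix ι ι ℝ} (hQ : Q.PosDef) : 0 ≤ FF Q :=
  integral_nonneg fun y => dq_nonneg hQ y

omit [DecidableEq ι] in
theorem integral_cube_const (c : ℝ) : ∫ _ in cube ι, c = c := by
  rw [setIntegral_const, real_cube, one_smul]

omit [DecidableEq ι] in
theorem integrableOn_cube_const (c : ℝ) : IntegrableOn (fun _ => c) (cube ι) :=
  integrableOn_const cube_ne_top

omit [DecidableEq ι] in
theorem FF_le_sum {Q : Matrix ι ι ℝ} (hQ : Q.PosDef) : FF Q ≤ ∑ i, ∑ j, |Q i j| := by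
  rw [← integral_cube_const (ι := ι) (∑ i, ∑ j, |Q i j|), FF_eq]
  exact integral_mono (integrableOn_dq (qf_nonneg hQ) cube_ne_top) (integrableOn_cube_const _)
    fun y => dq_le_sum (qf_nonneg hQ) y

omit [DecidableEq ι] in
theorem FF_smul (Q : Matrix ι ι ℝ) {c : ℝ} (hc : 0 < c) : FF (c • Q) = c * FF Q := by
  rw [FF_eq, FF_eq, ← integral_const_mul]
  congr 1
  funext y
  rw [dq, dq, Real.mul_iInf_of_nonneg hc.le]
  congr 1
  funext k
  simp only [qf, smul_mulVec, dotProduct_smul, smul_eq_mul]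

omit [DecidableEq ι] in
theorem FF_mono {Q Q' : Matrix ι ι ℝ} {c : ℝ} (hQ : Q.PosDef) (hQ' : Q'.PosDef)
    (h : ∀ x, qf Q x ≤ c * qf Q' x) : FF Q ≤ c * FF Q' := by
  rw [FF_eq, FF_eq, ← integral_const_mul]
  refine integral_mono (integrableOn_dq (qf_nonneg hQ) cube_ne_top)
    ((integrableOn_dq (qf_nonneg hQ') cube_ne_top).const_mul c) fun y => ?_
  obtain ⟨k, hk⟩ := exists_dq hQ' y
  change dq Q y ≤ c * dq Q' y
  rw [hk]
  exact (dq_le hQ y k).trans (h _)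

omit [DecidableEq ι] in
theorem integrableOn_dq_shift {Q : Matrix ι ι ℝ} (hQ : Q.PosDef) (y : ι → ℝ) :
    IntegrableOn (fun z => dq Q (y + z)) (cube ι) :=
  Measure.integrableOn_of_bounded cube_ne_top
    ((measurable_dq Q).comp (measurable_const_add y)).aestronglyMeasurable
    (M := ∑ i, ∑ j, |Q i j|) (Eventually.of_forall fun z => by
      rw [Real.norm_of_nonneg (dq_nonneg hQ _)]
      exact dq_le_sum (qf_nonneg hQ) _)

theorem cover {Q : Matrix ι ι ℝ} (hQ : Q.PosDef) (y : ι → ℝ) :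
    ∃ k : ι → ℤ, qf Q (y - zc k) ≤ 4 * FF Q := by
  obtain ⟨k, hk⟩ := exists_dq hQ y
  refine ⟨k, ?_⟩
  rw [← hk]
  have h1 : ∫ _ in cube ι, dq Q y ≤ ∫ z in cube ι, (2 * dq Q (y + z) + 2 * dq Q z) := by
    refine integral_mono (integrableOn_cube_const _)
      (((integrableOn_dq_shift hQ y).const_mul 2).add
        ((integrableOn_dq (qf_nonneg hQ) cube_ne_top).const_mul 2)) fun z => ?_
    obtain ⟨k1, h1⟩ := exists_dq hQ (y + z)
    obtain ⟨k2, h2⟩ := exists_dq hQ z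
    change dq Q y ≤ 2 * dq Q (y + z) + 2 * dq Q z
    rw [h1, h2]
    refine (dq_le hQ y (k1 - k2)).trans (le_of_eq_of_le ?_ (qf_sub_le hQ _ _))
    rw [zc_sub]
    congr 1
    abel
  rw [integral_cube_const, integral_add ((integrableOn_dq_shift hQ y).const_mul 2)
    ((integrableOn_dq (qf_nonneg hQ) cube_ne_top).const_mul 2), integral_const_mul,
    integral_const_mul, integral_dq_shift, ← FF_eq] at h1
  linarith

omit [DecidableEq ι] in
theorem qf_add_rank (Q : Matrix ι ι ℝ) (a : ι → ℝ) (ε : ℝ) (x : ι → ℝ) :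
    qf (Q + ε • vecMulVec a a) x = qf Q x + ε * (a ⬝ᵥ x) ^ 2 := by
  simp only [qf, add_mulVec, smul_mulVec, dotProduct_add, dotProduct_smul, smul_eq_mul,
    vecMulVec_mulVec, op_smul_eq_smul, dotProduct_comm x a]
  ring

omit [DecidableEq ι] in
theorem dot_sq_le {Q : Matrix ι ι ℝ} (hQ : Q.PosDef) (a : ι → ℝ) :
    ∃ A : ℝ, 0 < A ∧ ∀ x, (a ⬝ᵥ x) ^ 2 ≤ A * qf Q x := by
  obtain ⟨c, hc, hcq⟩ := coercive hQ
  refine ⟨((∑ i, |a i|) ^ 2 + 1) / c, by positivity, fun x => ?_⟩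
  have h1 : |a ⬝ᵥ x| ≤ (∑ i, |a i|) * ‖x‖ := by
    rw [dotProduct, Finset.sum_mul]
    refine (Finset.abs_sum_le_sum_abs _ _).trans (Finset.sum_le_sum fun i _ => ?_)
    rw [abs_mul]
    have : |x i| ≤ ‖x‖ := by simpa using norm_le_pi_norm x i
    gcongr
  have h2 : (a ⬝ᵥ x) ^ 2 ≤ ((∑ i, |a i|) * ‖x‖) ^ 2 := by
    rw [← sq_abs]
    gcongr
  have h3 : ((∑ i, |a i|) ^ 2 + 1) / c * (c * ‖x‖ ^ 2) ≤ ((∑ i, |a i|) ^ 2 + 1) / c * qf Q x := by
    gcongr
    exact hcq x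
  have h4 : ((∑ i, |a i|) ^ 2 + 1) / c * (c * ‖x‖ ^ 2) = ((∑ i, |a i|) ^ 2 + 1) * ‖x‖ ^ 2 := by
    field_simp
  nlinarith [sq_nonneg ‖x‖]

omit [DecidableEq ι] in
theorem ae_strict {Q : Matrix ι ι ℝ} (hQ : Q.PosDef) :
    ∀ᵐ y ∂(volume.restrict (Vor Q)), ∀ k : ι → ℤ, k ≠ 0 → qf Q y < qf Q (y - zc k) := by
  rw [ae_restrict_iff' (isClosed_Vor Q).measurableSet]
  have : ∀ᵐ y : ι → ℝ, ∀ k : ι → ℤ, k ≠ 0 → (Q *ᵥ zc k) ⬝ᵥ y ≠ qf Q (zc k) / 2 := by
    rw [ae_all_iff]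
    intro k
    by_cases hk : k = 0
    · exact Eventually.of_forall fun y h => absurd hk h
    · have := hyperplane_null (mulVec_ne_zero hQ (zc_ne_zero hk)) (qf Q (zc k) / 2)
      filter_upwards [measure_eq_zero_iff_ae_notMem.1 this] with y hy _ using hy
  filter_upwards [this] with y hy hyV k hk
  refine lt_of_le_of_ne (hyV k) fun h => hy k hk ?_
  rw [qf_sub hQ] at h
  linarith

omit [DecidableEq ι] in
theorem eventually_dq {Q : Matrix ι ι ℝ} (hQ : Q.PosDef) (a : ι → ℝ) {y : ι → ℝ}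
    (hy : ∀ k : ι → ℤ, k ≠ 0 → qf Q y < qf Q (y - zc k)) :
    ∀ᶠ ε in 𝓝 (0 : ℝ), dq (Q + ε • vecMulVec a a) y = qf Q y + ε * (a ⬝ᵥ y) ^ 2 := by
  obtain ⟨A, hA, hAq⟩ := dot_sq_le hQ a
  have h1 : ∀ᶠ ε in 𝓝 (0 : ℝ), |ε| * A < 1 / 2 := by
    have : Tendsto (fun ε : ℝ => |ε| * A) (𝓝 0) (𝓝 (|0| * A)) :=
      (continuous_abs.mul continuous_const).tendsto 0
    exact this.eventually_lt_const (by simp)
  have h2 : ∀ᶠ ε in 𝓝 (0 : ℝ), ∀ k ∈ {k : ι → ℤ | qf Q (y - zc k) ≤ 3 * qf Q y}, k ≠ 0 →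
      qf Q y + ε * (a ⬝ᵥ y) ^ 2 < qf Q (y - zc k) + ε * (a ⬝ᵥ (y - zc k)) ^ 2 := by
    rw [(finite_le hQ y _).eventually_all]
    intro k _
    by_cases hk : k = 0
    · exact Eventually.of_forall fun ε h => absurd hk h
    · have : ∀ᶠ ε in 𝓝 (0 : ℝ),
          qf Q y + ε * (a ⬝ᵥ y) ^ 2 < qf Q (y - zc k) + ε * (a ⬝ᵥ (y - zc k)) ^ 2 :=
        ContinuousAt.eventually_lt (by fun_prop) (by fun_prop) (by simpa using hy k hk)
      exact this.mono fun ε h _ => h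
  filter_upwards [h1, h2] with ε h1 h2
  have hb : ∀ x, |ε * (a ⬝ᵥ x) ^ 2| ≤ qf Q x / 2 := fun x => by
    rw [abs_mul, abs_of_nonneg (sq_nonneg (a ⬝ᵥ x))]
    have := hAq x
    have h0 := qf_nonneg hQ x
    calc |ε| * (a ⬝ᵥ x) ^ 2 ≤ |ε| * (A * qf Q x) := by gcongr
      _ = |ε| * A * qf Q x := by ring
      _ ≤ 1 / 2 * qf Q x := by gcongr
      _ = _ := by ring
  refine le_antisymm ?_ (le_dq fun k => ?_)
  · have := dq_le_of_nonneg (Q := Q + ε • vecMulVec a a) (fun x => by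
      rw [qf_add_rank]
      linarith [(abs_le.1 (hb x)).1, qf_nonneg hQ x]) y 0
    rwa [zc_zero, sub_zero, qf_add_rank] at this
  · rw [qf_add_rank]
    by_cases hk : k = 0
    · rw [hk, zc_zero, sub_zero]
    · by_cases hk' : qf Q (y - zc k) ≤ 3 * qf Q y
      · exact (h2 k hk' hk).le
      · linarith [(abs_le.1 (hb y)).2, (abs_le.1 (hb (y - zc k))).1, not_le.1 hk']

theorem hasDerivAt_FF {Q : Matrix ι ι ℝ} (hQ : Q.PosDef) (a : ι → ℝ) :
    HasDerivAt (fun ε : ℝ => FF (Q + ε • vecMulVec a a)) (∫ y in Vor Q, (a ⬝ᵥ y) ^ 2) 0 := by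
  obtain ⟨A, hA, hAq⟩ := dot_sq_le hQ a
  have hV : volume (Vor Q) ≠ ⊤ := by rw [volume_Vor hQ]; exact ENNReal.one_ne_top
  have h1 : ∀ᶠ ε in 𝓝[≠] (0 : ℝ), |ε| * A < 1 := by
    have : Tendsto (fun ε : ℝ => |ε| * A) (𝓝 0) (𝓝 (|0| * A)) :=
      (continuous_abs.mul continuous_const).tendsto 0
    exact (this.eventually_lt_const (by simp)).filter_mono nhdsWithin_le_nhds
  have hb : ∀ (ε : ℝ) x, |ε * (a ⬝ᵥ x) ^ 2| ≤ |ε| * A * qf Q x := fun ε x => by
    rw [abs_mul, abs_of_nonneg (sq_nonneg (a ⬝ᵥ x)), mul_assoc]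
    have := hAq x
    gcongr
  have hnn : ∀ ε : ℝ, |ε| * A < 1 → ∀ x, 0 ≤ qf (Q + ε • vecMulVec a a) x := fun ε h x => by
    rw [qf_add_rank]
    have h0 := qf_nonneg hQ x
    nlinarith [(abs_le.1 (hb ε x)).1]
  have key : Tendsto (fun ε : ℝ => ∫ y in Vor Q, ε⁻¹ * (dq (Q + ε • vecMulVec a a) y - dq Q y))
      (𝓝[≠] 0) (𝓝 (∫ y in Vor Q, (a ⬝ᵥ y) ^ 2)) := by
    refine tendsto_integral_filter_of_dominated_convergence (fun _ => A * ∑ i, ∑ j, |Q i j|)
      (Eventually.of_forall fun ε =>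
        (((measurable_dq _).sub (measurable_dq _)).const_mul _).aestronglyMeasurable) ?_
      (integrableOn_const hV) ?_
    · filter_upwards [h1, self_mem_nhdsWithin] with ε hε hε0
      refine Eventually.of_forall fun y => ?_
      have hε1 : 0 < |ε| := abs_pos.2 hε0
      have h2 : |dq (Q + ε • vecMulVec a a) y - dq Q y| ≤ |ε| * A * dq Q y := by
        rw [abs_le]
        constructor
        · have : (1 - |ε| * A) * dq Q y ≤ dq (Q + ε • vecMulVec a a) y := le_dq fun k => by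
            rw [qf_add_rank]
            have h3 := mul_le_mul_of_nonneg_left (dq_le hQ y k) (sub_pos.2 hε).le
            linarith [(abs_le.1 (hb ε (y - zc k))).1]
          linarith
        · obtain ⟨k, hk⟩ := exists_dq hQ y
          have h3 := dq_le_of_nonneg (hnn ε hε) y k
          rw [qf_add_rank] at h3
          rw [hk]
          linarith [(abs_le.1 (hb ε (y - zc k))).2]
      rw [Real.norm_eq_abs, abs_mul, abs_inv, inv_mul_le_iff₀ hε1]
      refine h2.trans ?_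
      rw [mul_assoc]
      have := dq_le_sum (qf_nonneg hQ) y
      gcongr
    · filter_upwards [ae_strict hQ, ae_restrict_mem (isClosed_Vor Q).measurableSet] with y hy hyV
      refine tendsto_const_nhds.congr' ?_
      filter_upwards [(eventually_dq hQ a hy).filter_mono nhdsWithin_le_nhds,
        self_mem_nhdsWithin] with ε hε hε0
      have hε0' : ε ≠ 0 := hε0
      rw [hε, dq_of_mem hQ hyV]
      field_simp
      ring
  rw [hasDerivAt_iff_tendsto_slope_zero]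
  refine key.congr' ?_
  filter_upwards [h1] with ε hε
  rw [zero_add, zero_smul, add_zero, FF_eq_Vor hQ, FF_eq_Vor hQ, integral_const_mul,
    integral_sub (integrableOn_dq (hnn ε hε) hV) (integrableOn_dq (qf_nonneg hQ) hV), smul_eq_mul]

theorem mc_mul {α β γ : Type} [Fintype β] (A : Matrix α β ℤ) (B : Matrix β γ ℤ) :
    mc (A * B) = mc A * mc B :=
  Matrix.map_mul (f := Int.castRingHom ℝ)

omit [Fintype ι] in
theorem mc_one : mc (1 : Matrix ι ι ℤ) = 1 :=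
  Matrix.map_one _ Int.cast_zero Int.cast_one

theorem FF_unimod {κ : Type} [Fintype κ] [DecidableEq κ] (Q : Matrix ι ι ℝ)
    (W : Matrix ι κ ℤ) (W' : Matrix κ ι ℤ) (h1 : W * W' = 1) (h2 : W' * W = 1) :
    FF ((mc W)ᵀ * Q * mc W) = FF Q := by
  have h1' : mc W * mc W' = 1 := by rw [← mc_mul, h1, mc_one]
  have h2' : mc W' * mc W = 1 := by rw [← mc_mul, h2, mc_one]
  let e : (κ → ℝ) ≃L[ℝ] (ι → ℝ) :=
    (Matrix.toLin'OfInv h2' h1').toContinuousLinearEquiv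
  have he : ∀ y, e y = mc W *ᵥ y := fun y => rfl
  have hsurj : Function.Surjective W.mulVec := fun k =>
    ⟨W' *ᵥ k, by rw [mulVec_mulVec, h1, one_mulVec]⟩
  have hinj : Function.Injective W.mulVec := fun k l h => by
    have := congrArg W'.mulVec h
    rwa [mulVec_mulVec, mulVec_mulVec, h2, one_mulVec, one_mulVec] at this
  have hdq : ∀ y, dq ((mc W)ᵀ * Q * mc W) y = dq Q (e y) := fun y => by
    rw [dq, dq, ← hsurj.iInf_comp (fun l => qf Q (e y - zc l))]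
    congr 1
    funext k
    rw [he, ← mc_mulVec, ← mulVec_sub, qf, qf, ← mulVec_mulVec, ← mulVec_mulVec,
      dotProduct_mulVec, vecMul_transpose]
  have hm : MeasurableSet (e ⁻¹' cube ι) := e.continuous.measurable measurableSet_cube
  have hfund : IsAddFundamentalDomain (lat (1 : Matrix κ κ ℝ)) (e ⁻¹' cube ι) volume := by
    refine fund_of_existsUnique hm fun x => ?_
    obtain ⟨l, hl, hu⟩ := existsUnique_cube (e x)
    obtain ⟨k, rfl⟩ := hsurj l
    refine ⟨k, ?_, fun k' hk' => hinj (hu _ ?_)⟩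
    · change e (zc k + x) ∈ cube ι
      rwa [map_add, he (zc k), mc_mulVec]
    · have : e (zc k' + x) ∈ cube ι := hk'
      rwa [map_add, he (zc k'), mc_mulVec] at this
  have hmap : Measure.map e volume = volume := by
    have h := Measure.isAddLeftInvariant_eq_smul (Measure.map e volume) (volume : Measure (ι → ℝ))
    have h3 : Measure.map e volume (cube ι) = 1 := by
      rw [Measure.map_apply e.continuous.measurable measurableSet_cube,
        hfund.measure_eq fund_cube, volume_cube]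
    rw [h, Measure.smul_apply, volume_cube, ENNReal.smul_def, smul_eq_mul, mul_one,
      ENNReal.coe_eq_one] at h3
    rw [h, h3, one_smul]
  have hmp : MeasurePreserving e volume volume := ⟨e.continuous.measurable, hmap⟩
  rw [FF_eq, integral_eq_of_fund hfund (dq_add _), FF_eq]
  simp_rw [hdq]
  exact hmp.setIntegral_preimage_emb e.toHomeomorph.measurableEmbedding (dq Q) (cube ι)

theorem FF_block {α β : Type} [Fintype α] [DecidableEq α] [Fintype β] [DecidableEq β]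
    {Q : Matrix (α ⊕ β) (α ⊕ β) ℝ} {Q₁ : Matrix α α ℝ} {Q₂ : Matrix β β ℝ} {R : Matrix β α ℝ}
    (hQ : Q.PosDef) (hQ₁ : Q₁.PosDef) (hQ₂ : Q₂.PosDef)
    (h : ∀ x y, qf Q (Sum.elim x y) = qf Q₁ x + qf Q₂ (y + R *ᵥ x)) : FF Q ≤ FF Q₁ + FF Q₂ := by
  let e := (MeasurableEquiv.sumPiEquivProdPi (fun _ : α ⊕ β => ℝ)).symm
  have he : ∀ p, e p = Sum.elim p.1 p.2 := fun p => by
    funext i
    cases i <;> rfl
  have hmp : MeasurePreserving e volume volume :=
    volume_measurePreserving_sumPiEquivProdPi_symm (fun _ : α ⊕ β => ℝ)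
  have hpre : e ⁻¹' cube (α ⊕ β) = cube α ×ˢ cube β := by
    ext p
    simp [he, cube, Set.mem_pi]
  have hint : IntegrableOn (fun p => dq Q (e p)) (cube α ×ˢ cube β) (volume.prod volume) := by
    rw [← hpre]
    exact (hmp.integrableOn_comp_preimage e.measurableEmbedding).2
      (integrableOn_dq (qf_nonneg hQ) cube_ne_top)
  have h1 : FF Q = ∫ x in cube α, ∫ y in cube β, dq Q (e (x, y)) := by
    rw [FF_eq, ← hmp.setIntegral_preimage_emb e.measurableEmbedding, hpre]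
    exact setIntegral_prod _ hint
  have hint' : Integrable (fun p => dq Q (e p))
      ((volume.restrict (cube α)).prod (volume.restrict (cube β))) := by
    rw [Measure.prod_restrict]
    exact hint
  have h2 : ∀ x, ∫ y in cube β, dq Q (e (x, y)) ≤ dq Q₁ x + FF Q₂ := fun x => by
    obtain ⟨k, hk⟩ := exists_dq hQ₁ x
    rw [← integral_dq_shift Q₂ (R *ᵥ (x - zc k)), ← integral_cube_const (ι := β) (dq Q₁ x),
      ← integral_add (integrableOn_cube_const _) (integrableOn_dq_shift hQ₂ _)]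
    refine integral_mono_of_nonneg (Eventually.of_forall fun y => dq_nonneg hQ _)
      ((integrableOn_cube_const _).add (integrableOn_dq_shift hQ₂ _))
      (Eventually.of_forall fun y => ?_)
    obtain ⟨l, hl⟩ := exists_dq hQ₂ (R *ᵥ (x - zc k) + y)
    change dq Q (e (x, y)) ≤ dq Q₁ x + dq Q₂ (R *ᵥ (x - zc k) + y)
    refine (dq_le hQ _ (Sum.elim k l)).trans (le_of_eq ?_)
    have h3 : e (x, y) - zc (Sum.elim k l) = Sum.elim (x - zc k) (y - zc l) := by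
      funext i
      cases i <;> rfl
    rw [h3, h, hk, hl]
    congr 2
    abel
  rw [h1, FF_eq Q₁, ← integral_cube_const (ι := α) (FF Q₂),
    ← integral_add (integrableOn_dq (qf_nonneg hQ₁) cube_ne_top) (integrableOn_cube_const _)]
  exact integral_mono hint'.integral_prod_left
    ((integrableOn_dq (qf_nonneg hQ₁) cube_ne_top).add (integrableOn_cube_const _)) h2

end VorAux

open VorAux in
theorem vor : VorStmt := by
  intro ι _ _
  refine ⟨fun Q hQ => ⟨isBounded_Vor hQ, (isClosed_Vor Q).measurableSet, FF_eq_qf hQ⟩, ?_⟩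
  rintro g hg V rfl
  refine ⟨fund_image hg, ⟨polytope_image hg, isBounded_image hg, ?_⟩,
    (isClosed_image hg).measurableSet, ?_, convex_image hg, ?_, volume_image hg,
    fun f _ => integral_image hg (isClosed_Vor _).measurableSet f⟩
  · rw [volume_image hg]
    simpa using hg
  · rintro _ ⟨y, hy, rfl⟩
    exact ⟨-y, neg_mem_Vor hy, mulVec_neg _ _⟩
  · rw [image_eq hg]
    rintro x hx _ ⟨k, rfl⟩
    have := hx (-k)
    rwa [zc_neg, mulVec_neg, sub_neg_eq_add] at this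

open VorAux in
theorem ff : FFStmt := by
  refine ⟨fun ι _ _ Q hQ => ⟨FF_nonneg hQ, FF_le_sum hQ, fun c hc => FF_smul Q hc,
    fun Q' c hQ' _ h => FF_mono hQ hQ' h, cover hQ, hasDerivAt_FF hQ⟩,
    fun ι κ _ _ _ _ Q W W' _ h1 h2 => FF_unimod Q W W' h1 h2,
    fun α β _ _ _ _ Q Q₁ Q₂ R hQ hQ₁ hQ₂ h => FF_block hQ hQ₁ hQ₂ h⟩

end Pool.Agent.P.MP_d05bff_gt
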